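import Pool.Agent.MP_f1fec5_al.Replace

namespace Pool.Agent.MP_f1fec5_al.Aff

open Polynomial

universe u v

/-- polynomial ring in `n` variables -/
abbrev PA (k : Type u) [Field k] (n : ℕ) : Type u := MvPolynomial (Fin n) k

/-- algebraic closure of the rational function field -/
abbrev Om (k : Type u) [Field k] (n : ℕ) : Type u := AlgebraicClosure (FractionRing (PA k n))

/-- absolute integral closure of the polynomial ring -/
abbrev EE (k : Type u) [Field k] (n : ℕ) : Type u := integralClosure (PA k n) (Om k n)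

/-- the point of affine space below a `k`-point of an algebra over the polynomial ring -/
noncomputable def pt {k : Type u} [Field k] (n : ℕ) {B : Type u} [CommRing B] [Algebra k B]
    [Algebra (PA k n) B] (x : B →ₐ[k] k) : Fin n → k :=
  fun i => x (algebraMap (PA k n) B (MvPolynomial.X i))

lemma map_algebraMap_eq_eval {k : Type u} [Field k] (n : ℕ) {B : Type u} [CommRing B]
    [Algebra k B] [Algebra (PA k n) B] [IsScalarTower k (PA k n) B] (x : B →ₐ[k] k)
    (f : PA k n) : x (algebraMap (PA k n) B f) = MvPolynomial.eval (pt n x) f := by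
  have : x.comp (IsScalarTower.toAlgHom k (PA k n) B) = MvPolynomial.aeval (pt n x) := by
    ext i
    simp [pt]
  have h := congrArg (fun g => g f) this
  simpa [MvPolynomial.aeval_eq_eval] using h

/-- Embedding data of a separable Noether normalisation. -/
structure Emb (k : Type u) [Field k] (n : ℕ) (B : Type u) [CommRing B]
    [Algebra (PA k n) B] where
  m : ℕ
  m_pos : 0 < m
  σ : Fin m → (B →ₐ[PA k n] Om k n)
  σ_inj : ∀ i, Function.Injective (σ i)
  ν : B →* PA k n
  ν_spec : ∀ b, algebraMap (PA k n) (Om k n) (ν b) = ∏ i, σ i b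
  dvd_ν : ∀ b, b ∣ algebraMap (PA k n) B (ν b)
  z : B
  Δ : PA k n
  Δ_ne : Δ ≠ 0
  Δ_span : ∀ s t : B, t ≠ 0 → IsIntegral (PA k n) (σ ⟨0, m_pos⟩ s / σ ⟨0, m_pos⟩ t) →
    ∃ h : (PA k n)[X], h.degree < m ∧ algebraMap (PA k n) B Δ * s = t * aeval z h
  Δ_sep : ∀ i j, i ≠ j → ∃ e : Om k n, IsIntegral (PA k n) e ∧
    (σ i z - σ j z) * e = algebraMap (PA k n) (Om k n) Δ

/-- The part of a lattice model that is visible on a quotient `B` of the ring. -/
structure Shadow (B : Type u) (D : Type v) [CommRing B] [CommRing D] where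
  ok : Ideal B → Prop
  Φ : Ideal B → Ideal D
  I : D → Ideal B
  ok_mono : ∀ {J J'}, ok J → J ≤ J' → ok J'
  ok_mul : ∀ {J J'}, ok J → ok J' → ok (J * J')
  le_iff : ∀ {J J'}, ok J → ok J' → (Φ J ≤ Φ J' ↔ J ≤ J')
  surj : ∀ {J Z}, ok J → Φ J ≤ Z → ∃ J', J ≤ J' ∧ Φ J' = Z
  map_mul_sup : ∀ {J J' K}, ok J → ok J' → ok K → Φ (J * J' ⊔ K) = Φ J * Φ J' ⊔ Φ K
  mem_iff : ∀ {J d}, ok J → d ≠ 0 → (d ∈ Φ J ↔ I d ≤ J)
  I_mul : ∀ {d e}, d ≠ 0 → e ≠ 0 → I (d * e) = I d * I e
  I_one : I 1 = ⊤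
  I_inv : ∀ {d}, d ≠ 0 → ∃ (C : Ideal B) (s : B), s ≠ 0 ∧ I d * C = Ideal.span {s}

/-- Rigid data: residue maps at the points over good points and a norm. -/
structure RD (k : Type u) [Field k] (n : ℕ) (D : Type v) [CommRing D] where
  m : ℕ
  m_pos : 0 < m
  γ : PA k n
  γ_ne : γ ≠ 0
  χ : (Fin n → k) → Fin m → (D →+* k)
  N : D → PA k n
  χ_surj : ∀ v i, MvPolynomial.eval v γ ≠ 0 → Function.Surjective (χ v i)
  χ_sep : ∀ v i w j, MvPolynomial.eval v γ ≠ 0 → MvPolynomial.eval w γ ≠ 0 →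
    RingHom.ker (χ v i) = RingHom.ker (χ w j) → v = w ∧ i = j
  N_eval : ∀ v d, MvPolynomial.eval v γ ≠ 0 → MvPolynomial.eval v (N d) = ∏ i, χ v i d
  N_ne : ∀ d, d ≠ 0 → N d ≠ 0

/-- Generic points of rigid data. -/
structure TH {k : Type u} [Field k] {n : ℕ} {D : Type v} [CommRing D] (rd : RD k n D) where
  θ : Fin rd.m → (D →+* EE k n)
  θ_inj : ∀ i, Function.Injective (θ i)
  prod_eq : ∀ d, ∏ i, θ i d = algebraMap (PA k n) (EE k n) (rd.N d)
  N0 : ℕ
  bdd : ∀ i d, ∃ f : (PA k n)[X], f.Monic ∧ f.natDegree ≤ N0 ∧ aeval (θ i d) f = 0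
  ev_eq : ∀ ev : EE k n →ₐ[k] k, MvPolynomial.eval (pt n ev) rd.γ ≠ 0 →
    ∃ e : Fin rd.m ≃ Fin rd.m, ∀ i d, ev (θ i d) = rd.χ (pt n ev) (e i) d

/-- the subfield of fractions of the image of a ring homomorphism -/
def fracField {D : Type v} [CommRing D] {Ω : Type u} [Field Ω] (θ : D →+* Ω) : Subfield Ω :=
  Subfield.closure (Set.range θ)

lemma mem_fracField {D : Type v} [CommRing D] {Ω : Type u} [Field Ω] (θ : D →+* Ω) (w : Ω) :
    w ∈ fracField θ ↔ ∃ a b : D, θ b ≠ 0 ∧ w = θ a / θ b := by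
  constructor
  · intro hw
    rw [fracField, Subfield.mem_closure_iff] at hw
    obtain ⟨y, hy, z, hz, rfl⟩ := hw
    have hr : Subring.closure (Set.range θ) = θ.range := by
      rw [← RingHom.coe_range, Subring.closure_eq]
    rw [hr] at hy hz
    obtain ⟨a, rfl⟩ := hy
    obtain ⟨b, rfl⟩ := hz
    by_cases hb : θ b = 0
    · exact ⟨0, 1, by simp, by simp [hb]⟩
    · exact ⟨a, b, hb, rfl⟩
  · rintro ⟨a, b, -, rfl⟩
    exact div_mem (Subfield.subset_closure ⟨a, rfl⟩) (Subfield.subset_closure ⟨b, rfl⟩)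

section Points

variable {k : Type u} [Field k] [IsAlgClosed k]

/-- Nullstellensatz: a maximal ideal with residue ring integral over `k` is a point. -/
lemma exists_point_of_isIntegral {B : Type u} [CommRing B] [Algebra k B] (M : Ideal B)
    [M.IsMaximal] [Algebra.IsIntegral k (B ⧸ M)] : ∃ x : B →ₐ[k] k, RingHom.ker x = M := by
  let : Field (B ⧸ M) := Ideal.Quotient.field M
  let e : k ≃ₐ[k] (B ⧸ M) := AlgEquiv.ofBijective (Algebra.ofId k (B ⧸ M))
    IsAlgClosed.algebraMap_bijective_of_isIntegral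
  refine ⟨(e.symm : (B ⧸ M) →ₐ[k] k).comp (Ideal.Quotient.mkₐ k M), ?_⟩
  ext b
  simp [RingHom.mem_ker, Ideal.Quotient.eq_zero_iff_mem]

lemma exists_point {B : Type u} [CommRing B] [Algebra k B] [Algebra.FiniteType k B]
    (M : Ideal B) [M.IsMaximal] : ∃ x : B →ₐ[k] k, RingHom.ker x = M := by
  let : Field (B ⧸ M) := Ideal.Quotient.field M
  have : Module.Finite k (B ⧸ M) := finite_of_finite_type_of_isJacobsonRing k (B ⧸ M)
  exact exists_point_of_isIntegral M

omit [IsAlgClosed k] in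
lemma ker_isMaximal {B : Type u} [CommRing B] [Algebra k B] (x : B →ₐ[k] k) :
    (RingHom.ker x).IsMaximal :=
  RingHom.ker_isMaximal_of_surjective x (fun c => ⟨algebraMap k B c, by simp⟩)

omit [IsAlgClosed k] in
lemma point_eq_of_ker_le {B : Type u} [CommRing B] [Algebra k B] {x y : B →ₐ[k] k}
    (h : RingHom.ker x ≤ RingHom.ker y) : x = y := by
  ext b
  have : b - algebraMap k B (x b) ∈ RingHom.ker x := by simp [RingHom.mem_ker]
  have h2 := h this
  simp only [RingHom.mem_ker, map_sub, AlgHom.commutes, Algebra.algebraMap_self,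
    RingHom.id_apply] at h2
  exact (sub_eq_zero.1 h2).symm

/-- In an integral algebra over the polynomial ring, a prime whose contraction vanishes at `v`
lies in a point over `v`. -/
lemma exists_point_over {n : ℕ} {B : Type u} [CommRing B] [Algebra k B] [Algebra (PA k n) B]
    [IsScalarTower k (PA k n) B] [Algebra.IsIntegral (PA k n) B] (Q : Ideal B) [Q.IsPrime]
    (v : Fin n → k) (hv : ∀ f : PA k n, algebraMap (PA k n) B f ∈ Q → MvPolynomial.eval v f = 0) :
    ∃ x : B →ₐ[k] k, Q ≤ RingHom.ker x ∧ pt n x = v := by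
  let a : PA k n →ₐ[k] k := MvPolynomial.aeval v
  have := ker_isMaximal a
  obtain ⟨M, hQM, hM, hMa⟩ := Ideal.exists_ideal_over_prime_of_isIntegral_of_isPrime
    (RingHom.ker a) Q (fun f hf => by
      simpa [a, RingHom.mem_ker, MvPolynomial.aeval_eq_eval] using hv f hf)
  have : M.IsMaximal := Ideal.isMaximal_of_isIntegral_of_isMaximal_comap (R := PA k n) M
    (by rw [hMa]; infer_instance)
  have hint : Algebra.IsIntegral k (B ⧸ M) := by
    constructor
    intro b
    obtain ⟨b, rfl⟩ := Ideal.Quotient.mk_surjective b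
    obtain ⟨f, hf, hfb⟩ := Algebra.IsIntegral.isIntegral (R := PA k n) b
    refine ⟨f.map (a : PA k n →+* k), hf.map _, ?_⟩
    rw [Polynomial.eval₂_map]
    have : (algebraMap k (B ⧸ M)).comp (a : PA k n →+* k)
        = (Ideal.Quotient.mk M).comp (algebraMap (PA k n) B) := by
      refine RingHom.ext fun g => ?_
      have h1 : g - MvPolynomial.C (a g) ∈ RingHom.ker a := by simp [RingHom.mem_ker]
      rw [← hMa, Ideal.mem_comap, map_sub] at h1
      have h2 := (Ideal.Quotient.eq.2 h1).symm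
      simp only [RingHom.comp_apply, RingHom.coe_coe]
      rw [← h2, ← MvPolynomial.algebraMap_eq, ← IsScalarTower.algebraMap_apply]
      rfl
    rw [this, ← Polynomial.hom_eval₂, hfb, map_zero]
  obtain ⟨x, hx⟩ := exists_point_of_isIntegral (k := k) M
  refine ⟨x, hx ▸ hQM, funext fun i => ?_⟩
  have h1 : MvPolynomial.X i - MvPolynomial.C (v i) ∈ RingHom.ker a := by
    simp [a, RingHom.mem_ker]
  rw [← hMa, Ideal.mem_comap, ← hx, RingHom.mem_ker, map_algebraMap_eq_eval] at h1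
  simpa [sub_eq_zero] using h1

/-- A nonzero polynomial not in a prime ideal has a non-root in the zero set of the prime. -/
lemma exists_eval_ne {n : ℕ} (p : Ideal (PA k n)) [p.IsPrime] {f : PA k n} (hf : f ∉ p) :
    ∃ v : Fin n → k, (∀ g ∈ p, MvPolynomial.eval v g = 0) ∧ MvPolynomial.eval v f ≠ 0 := by
  have hj : p.jacobson = p :=
    (isJacobsonRing_iff_prime_eq.1 (inferInstance : IsJacobsonRing (PA k n))) p inferInstance
  rw [← hj, Ideal.jacobson, Ideal.mem_sInf] at hf
  push Not at hf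
  obtain ⟨M, ⟨hpM, hM⟩, hfM⟩ := hf
  obtain ⟨x, hx⟩ := exists_point (k := k) M
  refine ⟨pt n x, fun g hg => ?_, ?_⟩
  · have := hpM hg
    rw [← hx, RingHom.mem_ker] at this
    rw [← map_algebraMap_eq_eval]
    exact this
  · rw [← hx, RingHom.mem_ker] at hfM
    rw [← map_algebraMap_eq_eval]
    exact hfM

/-- A prime of an integral algebra avoiding `f` lies in a point where `f` does not vanish. -/
lemma exists_point_ne {n : ℕ} {B : Type u} [CommRing B] [Algebra k B] [Algebra (PA k n) B]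
    [IsScalarTower k (PA k n) B] [Algebra.IsIntegral (PA k n) B] (Q : Ideal B) [Q.IsPrime]
    {f : PA k n} (hf : algebraMap (PA k n) B f ∉ Q) :
    ∃ x : B →ₐ[k] k, Q ≤ RingHom.ker x ∧ MvPolynomial.eval (pt n x) f ≠ 0 := by
  obtain ⟨v, hv, hvf⟩ := exists_eval_ne (Q.comap (algebraMap (PA k n) B)) (f := f) hf
  obtain ⟨x, hx, rfl⟩ := exists_point_over Q v (fun g hg => hv g hg)
  exact ⟨x, hx, hvf⟩

end Points

end Pool.Agent.MP_f1fec5_al.Aff
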