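import Pool.Agent.MP_f1fec5_al.Aff.Loc

namespace Pool.Agent.MP_f1fec5_al.Aff

universe u v

/-- A generic sequence of approximations. -/
structure GenSeq (R : Type u) [CommRing R] {ι : Type} (H : ι → MvPolynomial ℕ R) where
  s : ℕ → R
  y : ℕ → ℕ → R
  s_reg : ∀ n, s n ∈ nonZeroDivisors R
  s_dvd : ∀ n, s n ∣ s (n + 1)
  cofinal : ∀ t ∈ nonZeroDivisors R, ∃ n, t ∣ s n
  y_cong : ∀ n i, s n ∣ y (n + 1) i - y n i
  unit : ∀ j, ∃ τ ∈ nonZeroDivisors R, ∃ n₀, ∀ n, n₀ ≤ n →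
    τ ∈ Ideal.span {MvPolynomial.eval (y n) (H j), s n}

lemma cnt1_eval_sub {R : Type u} [CommRing R] (J : Ideal R) {y y' : ℕ → R}
    (h : ∀ i, y' i - y i ∈ J) (p : MvPolynomial ℕ R) :
    MvPolynomial.eval y' p - MvPolynomial.eval y p ∈ J := by
  induction p using MvPolynomial.induction_on with
  | C a => simp
  | add p q hp hq =>
    have : MvPolynomial.eval y' (p + q) - MvPolynomial.eval y (p + q) =
        (MvPolynomial.eval y' p - MvPolynomial.eval y p) +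
          (MvPolynomial.eval y' q - MvPolynomial.eval y q) := by
      simp only [map_add]; ring
    rw [this]
    exact J.add_mem hp hq
  | mul_X p i hp =>
    have : MvPolynomial.eval y' (p * MvPolynomial.X i) - MvPolynomial.eval y (p * MvPolynomial.X i) =
        (MvPolynomial.eval y' p - MvPolynomial.eval y p) * y' i +
          MvPolynomial.eval y p * (y' i - y i) := by
      simp only [map_mul, MvPolynomial.eval_X]; ring
    rw [this]
    exact J.add_mem (J.mul_mem_right _ hp) (J.mul_mem_left _ (h i))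

lemma cnt1_local {R : Type u} [CommRing R] (I : Ideal R) (τ : R)
    (h : ∀ M : Ideal R, M.IsMaximal → ∃ u, u ∉ M ∧ u * τ ∈ I) : τ ∈ I := by
  let K : Ideal R := Submodule.comap (LinearMap.toSpanSingleton R R τ) I
  have hK : ∀ u, u ∈ K ↔ u * τ ∈ I := fun u => by
    simp [K, Submodule.mem_comap, LinearMap.toSpanSingleton_apply]
  by_contra hτ
  have hne : K ≠ ⊤ := by
    intro e
    apply hτ
    have : (1 : R) ∈ K := e ▸ Submodule.mem_top
    simpa using (hK 1).1 this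
  obtain ⟨M, hM, hKM⟩ := Ideal.exists_le_maximal K hne
  obtain ⟨u, hu, huτ⟩ := h M hM
  exact hu (hKM ((hK u).2 huτ))

lemma cnt1_idem {R : Type u} [CommRing R] (J M : Ideal R) (hM : M.IsMaximal) (hJ : ¬ J ≤ M)
    (S : Set (Ideal R)) (hS : S.Finite) (hmax : ∀ N ∈ S, N.IsMaximal) (hMS : M ∉ S) :
    ∃ e ∈ J, (∀ N ∈ S, e ∈ N) ∧ 1 - e ∈ M := by
  have key : ∃ a ∈ J, (∀ N ∈ S, a ∈ N) ∧ a ∉ M := by
    induction S, hS using Set.Finite.induction_on with
    | empty =>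
      obtain ⟨a, ha, haM⟩ := Set.not_subset.1 hJ
      exact ⟨a, ha, by simp, haM⟩
    | @insert N S hN hS ih =>
      obtain ⟨a, ha, haS, haM⟩ := ih (fun N' h => hmax N' (Set.mem_insert_of_mem _ h))
        (fun h => hMS (Set.mem_insert_of_mem _ h))
      have hNM : ¬ N ≤ M := by
        intro h
        have := (hmax N (Set.mem_insert _ _)).eq_of_le hM.ne_top h
        exact hMS (this ▸ Set.mem_insert _ _)
      obtain ⟨b, hb, hbM⟩ := Set.not_subset.1 hNM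
      refine ⟨a * b, J.mul_mem_right _ ha, ?_, ?_⟩
      · intro N' hN'
        rcases hN' with rfl | hN'
        · exact Ideal.mul_mem_left _ _ hb
        · exact Ideal.mul_mem_right _ _ (haS N' hN')
      · intro h
        rcases hM.isPrime.mem_or_mem h with h | h
        · exact haM h
        · exact hbM h
  obtain ⟨a, ha, haS, haM⟩ := key
  obtain ⟨r, m, hm, e⟩ := hM.exists_inv haM
  refine ⟨r * a, J.mul_mem_left _ ha, fun N hN => Ideal.mul_mem_left _ _ (haS N hN), ?_⟩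
  have : 1 - r * a = m := by rw [← e]; ring
  exact this ▸ hm

lemma cnt1_crt {R : Type u} [CommRing R] (J : Ideal R) (S : Set (Ideal R)) (hS : S.Finite)
    (hmax : ∀ N ∈ S, N.IsMaximal) (hJ : ∀ N ∈ S, ¬ J ≤ N) (y : ℕ → R) (c : Ideal R → ℕ → R) :
    ∃ y' : ℕ → R, (∀ i, y' i - y i ∈ J) ∧ ∀ N ∈ S, ∀ i, y' i - c N i ∈ N := by
  induction S, hS using Set.Finite.induction_on with
  | empty => exact ⟨y, by simp, by simp⟩
  | @insert M S hM hS ih =>
    obtain ⟨y', h1, h2⟩ := ih (fun N' h => hmax N' (Set.mem_insert_of_mem _ h))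
      (fun N' h => hJ N' (Set.mem_insert_of_mem _ h))
    obtain ⟨e, heJ, heS, heM⟩ := cnt1_idem J M (hmax M (Set.mem_insert _ _))
      (hJ M (Set.mem_insert _ _)) S hS (fun N' h => hmax N' (Set.mem_insert_of_mem _ h)) hM
    refine ⟨fun i => y' i + e * (c M i - y' i), fun i => ?_, ?_⟩
    · have : y' i + e * (c M i - y' i) - y i = (y' i - y i) + e * (c M i - y' i) := by ring
      rw [this]
      exact J.add_mem (h1 i) (J.mul_mem_right _ heJ)
    · intro N hN i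
      rcases hN with rfl | hN
      · have : y' i + e * (c N i - y' i) - c N i = (1 - e) * (y' i - c N i) := by ring
        rw [this]
        exact Ideal.mul_mem_right _ _ heM
      · have : y' i + e * (c M i - y' i) - c N i = (y' i - c N i) + e * (c M i - y' i) := by ring
        rw [this]
        exact N.add_mem (h2 N hN i) (N.mul_mem_right _ (heS N hN))

lemma cnt1_ext {R : Type u} [CommRing R] {s s' τ F F' : R} (h1 : τ ^ 2 ∣ s)
    (h2 : τ ∈ Ideal.span {F, s}) (h3 : s ∣ F' - F)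
    (h4 : ∀ M : Ideal R, M.IsMaximal → s' ∈ M → s ∉ M → F' ∉ M) :
    τ ∈ Ideal.span {F', s'} := by
  apply cnt1_local
  intro M hM
  by_cases hs' : s' ∈ M
  · by_cases hs : s ∈ M
    · obtain ⟨b, c, e⟩ := Ideal.mem_span_pair.1 h2
      obtain ⟨w, hw⟩ := h1
      obtain ⟨d, hd⟩ := h3
      have hτw : τ * w ∈ M := by
        have : τ * (τ * w) ∈ M := by
          have e2 : τ * (τ * w) = s := by rw [hw]; ring
          rwa [e2]
        rcases hM.isPrime.mem_or_mem this with h | h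
        · exact M.mul_mem_right _ h
        · exact h
      refine ⟨1 - τ * w * (c - b * d), ?_, ?_⟩
      · intro h
        apply hM.ne_top
        rw [Ideal.eq_top_iff_one]
        have := M.add_mem h (M.mul_mem_right (c - b * d) hτw)
        simpa using this
      · refine Ideal.mem_span_pair.2 ⟨b, 0, ?_⟩
        have e3 : F' = F + s * d := by rw [← hd]; ring
        rw [e3]
        linear_combination e + (b * d - c) * hw
    · exact ⟨F', h4 M hM hs' hs, Ideal.mem_span_pair.2 ⟨τ, 0, by ring⟩⟩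
  · exact ⟨s', hs', Ideal.mem_span_pair.2 ⟨0, τ, by ring⟩⟩

/-- The saturation of `σ R` at a prime ideal. -/
def cnt1Sat {R : Type u} [CommRing R] (σ : R) (M : Ideal R) (hM : M.IsPrime) : Ideal R where
  carrier := {x | ∃ u, u ∉ M ∧ σ ∣ u * x}
  zero_mem' := ⟨1, fun h => hM.ne_top ((Ideal.eq_top_iff_one _).2 h), by simp⟩
  add_mem' := by
    rintro a b ⟨u, hu, ha⟩ ⟨w, hw, hb⟩
    refine ⟨u * w, fun h => (hM.mem_or_mem h).elim hu hw, ?_⟩
    have : u * w * (a + b) = w * (u * a) + u * (w * b) := by ring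
    rw [this]
    exact dvd_add (ha.mul_left _) (hb.mul_left _)
  smul_mem' := by
    rintro c a ⟨u, hu, ha⟩
    refine ⟨u, hu, ?_⟩
    have : u * (c • a) = c * (u * a) := by rw [smul_eq_mul]; ring
    rw [this]
    exact ha.mul_left _

lemma cnt1_sat_not_le {R : Type u} [CommRing R] {σ : R} {M M' : Ideal R} (hM : M.IsPrime)
    (hM' : M'.IsPrime) (h : ∀ P : Ideal R, P.IsPrime → σ ∈ P → P ≤ M → ¬ P ≤ M') :
    ¬ cnt1Sat σ M hM ≤ M' := by
  intro hle
  let S : Submonoid R :=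
    { carrier := {x | ∃ u, u ∉ M ∧ ∃ u', u' ∉ M' ∧ x = u * u'}
      one_mem' := ⟨1, fun h => hM.ne_top ((Ideal.eq_top_iff_one _).2 h), 1,
        fun h => hM'.ne_top ((Ideal.eq_top_iff_one _).2 h), by simp⟩
      mul_mem' := by
        rintro a b ⟨u, hu, u', hu', rfl⟩ ⟨w, hw, w', hw', rfl⟩
        exact ⟨u * w, fun h => (hM.mem_or_mem h).elim hu hw, u' * w',
          fun h => (hM'.mem_or_mem h).elim hu' hw', by ring⟩ }
  have hd : Disjoint ((Ideal.span {σ} : Ideal R) : Set R) S := by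
    rw [Set.disjoint_left]
    rintro x hx ⟨u, hu, u', hu', rfl⟩
    exact hu' (hle ⟨u, hu, Ideal.mem_span_singleton.1 hx⟩)
  obtain ⟨P, hP, hσ, hPS⟩ := Ideal.exists_le_prime_disjoint _ S hd
  rw [Set.disjoint_left] at hPS
  refine h P hP (hσ (Ideal.mem_span_singleton_self σ)) ?_ ?_
  · intro x hx
    by_contra hxM
    exact hPS hx ⟨x, hxM, 1, fun h => hM'.ne_top ((Ideal.eq_top_iff_one _).2 h), by simp⟩
  · intro x hx
    by_contra hxM
    exact hPS hx ⟨1, fun h => hM.ne_top ((Ideal.eq_top_iff_one _).2 h), x, hxM, by simp⟩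

lemma cnt1_inf {R : Type u} [CommRing R] (J : Ideal R) (S : Set (Ideal R)) (hS : S.Finite)
    (Q : Ideal R → Prop) (hQ : ∀ N, Q N → N.IsPrime) (hJ : ∀ N, Q N → ¬ J ≤ N)
    (hSN : ∀ K ∈ S, ∀ N, Q N → ¬ K ≤ N) :
    ∃ J' : Ideal R, J' ≤ J ∧ (∀ K ∈ S, J' ≤ K) ∧ ∀ N, Q N → ¬ J' ≤ N := by
  induction S, hS using Set.Finite.induction_on with
  | empty => exact ⟨J, le_rfl, by simp, hJ⟩
  | @insert K S hK hS ih =>
    obtain ⟨J', h1, h2, h3⟩ := ih (fun K' h => hSN K' (Set.mem_insert_of_mem _ h))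
    refine ⟨J' ⊓ K, inf_le_left.trans h1, ?_, ?_⟩
    · intro K' hK'
      rcases hK' with rfl | hK'
      · exact inf_le_right
      · exact inf_le_left.trans (h2 K' hK')
    · intro N hN h
      rcases (hQ N hN).inf_le.1 h with h | h
      · exact h3 N hN h
      · exact hSN K (Set.mem_insert _ _) N hN h

/-- The invariant of the construction. -/
structure Cnt1Inv {R : Type u} [CommRing R] {ι : Type} (H : ι → MvPolynomial ℕ R) (s₀ s : R)
    (y : ℕ → R) (T : Set (ι × R)) : Prop where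
  fin : T.Finite
  reg : s ∈ nonZeroDivisors R
  dvd : s₀ ∣ s
  com : ∀ p ∈ T, p.2 ∈ nonZeroDivisors R ∧ p.2 ^ 2 ∣ s ∧
    p.2 ∈ Ideal.span {MvPolynomial.eval y (H p.1), s}
  av : ∀ M : Ideal R, M.IsMaximal → Reg M → s ∉ M →
    ∃ c : ℕ → R, ∀ p ∈ T, MvPolynomial.eval c (H p.1) ∉ M

lemma cnt1_notMem {R : Type u} [CommRing R] {M : Ideal R} {y c : ℕ → R}
    (h : ∀ i, y i - c i ∈ M) {p : MvPolynomial ℕ R} (hc : MvPolynomial.eval c p ∉ M) :
    MvPolynomial.eval y p ∉ M := by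
  intro hy
  apply hc
  have := M.sub_mem hy (cnt1_eval_sub M h p)
  simpa using this

lemma cnt1_stepA {R : Type u} [CommRing R] {ι : Type} {H : ι → MvPolynomial ℕ R}
    (hfc : ∀ s ∈ nonZeroDivisors R, {M : Ideal R | M.IsMaximal ∧ s ∈ M}.Finite)
    {s₀ s : R} {y : ℕ → R} {T : Set (ι × R)} (h : Cnt1Inv H s₀ s y T) {t : R}
    (ht : t ∈ nonZeroDivisors R) :
    ∃ y' : ℕ → R, (∀ i, s ∣ y' i - y i) ∧ Cnt1Inv H s₀ (s * t) y' T := by
  have hreg : s * t ∈ nonZeroDivisors R := mul_mem h.reg ht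
  have hc : ∀ M : Ideal R, ∃ c : ℕ → R, M.IsMaximal → s * t ∈ M → s ∉ M →
      ∀ p ∈ T, MvPolynomial.eval c (H p.1) ∉ M := by
    intro M
    by_cases hM : M.IsMaximal ∧ s * t ∈ M ∧ s ∉ M
    · obtain ⟨c, hc⟩ := h.av M hM.1 ⟨_, hM.2.1, hreg⟩ hM.2.2
      exact ⟨c, fun _ _ _ => hc⟩
    · exact ⟨0, fun h1 h2 h3 => (hM ⟨h1, h2, h3⟩).elim⟩
  choose c hc using hc
  obtain ⟨y', h1, h2⟩ := cnt1_crt (Ideal.span {s}) {M | M.IsMaximal ∧ s * t ∈ M ∧ s ∉ M}
    ((hfc _ hreg).subset fun M hM => ⟨hM.1, hM.2.1⟩) (fun N hN => hN.1)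
    (fun N hN hle => hN.2.2 (hle (Ideal.mem_span_singleton_self s))) y c
  refine ⟨y', fun i => Ideal.mem_span_singleton.1 (h1 i), h.fin, hreg, h.dvd.mul_right _, ?_, ?_⟩
  · intro p hp
    obtain ⟨a1, a2, a3⟩ := h.com p hp
    refine ⟨a1, a2.mul_right _, cnt1_ext a2 a3
      (Ideal.mem_span_singleton.1 (cnt1_eval_sub _ h1 _)) ?_⟩
    intro M hM h3 h4
    exact cnt1_notMem (h2 M ⟨hM, h3, h4⟩) (hc M hM h3 h4 p hp)
  · intro M hM hR hs
    exact h.av M hM hR fun h => hs (M.mul_mem_right _ h)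

lemma cnt1_stepB {R : Type u} [CommRing R] {ι : Type} {H : ι → MvPolynomial ℕ R}
    (hfc : ∀ s ∈ nonZeroDivisors R, {M : Ideal R | M.IsMaximal ∧ s ∈ M}.Finite) {s₀ : R}
    (hloc : ∀ P M M' : Ideal R, P.IsPrime → Reg P → M.IsMaximal → M'.IsMaximal → M ≠ M' →
      P ≤ M → P ≤ M' → s₀ ∈ M') {j : ι}
    (g2 : ∀ s ∈ nonZeroDivisors R, s₀ ∣ s → ∀ y : ℕ → R, ∃ τ ∈ nonZeroDivisors R,
      ∃ y' : ℕ → R, (∀ i, s ∣ y' i - y i) ∧ ∀ M : Ideal R, M.IsMaximal → s ∈ M →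
        ∃ u, u ∉ M ∧ MvPolynomial.eval y' (H j) ∣ u * τ)
    {s : R} {y : ℕ → R} {T : Set (ι × R)} (h : Cnt1Inv H s₀ s y T)
    (hav : ∀ M : Ideal R, M.IsMaximal → Reg M → s ∉ M → ∃ c : ℕ → R,
      MvPolynomial.eval c (H j) ∉ M ∧ ∀ p ∈ T, MvPolynomial.eval c (H p.1) ∉ M) :
    ∃ τ : R, ∃ y' : ℕ → R, (∀ i, s ∣ y' i - y i) ∧
      Cnt1Inv H s₀ (s * τ ^ 2) y' (insert (j, τ) T) := by
  obtain ⟨τ, hτ, y', hy', hM⟩ := g2 s h.reg h.dvd y
  have hreg : s * τ ^ 2 ∈ nonZeroDivisors R := mul_mem h.reg (pow_mem hτ 2)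
  have hc : ∀ M : Ideal R, ∃ c : ℕ → R, M.IsMaximal → s * τ ^ 2 ∈ M → s ∉ M →
      MvPolynomial.eval c (H j) ∉ M ∧ ∀ p ∈ T, MvPolynomial.eval c (H p.1) ∉ M := by
    intro M
    by_cases hM : M.IsMaximal ∧ s * τ ^ 2 ∈ M ∧ s ∉ M
    · obtain ⟨c, hc⟩ := hav M hM.1 ⟨_, hM.2.1, hreg⟩ hM.2.2
      exact ⟨c, fun _ _ _ => hc⟩
    · exact ⟨0, fun h1 h2 h3 => (hM ⟨h1, h2, h3⟩).elim⟩
  choose c hc using hc
  have hfin : (Set.range fun M : {M : Ideal R | M.IsMaximal ∧ s ∈ M} =>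
      cnt1Sat (s * τ ^ 2) M.1 M.2.1.isPrime).Finite := by
    have := (hfc s h.reg).to_subtype
    exact Set.finite_range _
  obtain ⟨J, hJ1, hJ2, hJ3⟩ := cnt1_inf (Ideal.span {s}) _ hfin
    (fun M => M.IsMaximal ∧ s * τ ^ 2 ∈ M ∧ s ∉ M) (fun N hN => hN.1.isPrime)
    (fun N hN hle => hN.2.2 (hle (Ideal.mem_span_singleton_self s))) (by
      rintro K ⟨M, rfl⟩ N hN
      refine cnt1_sat_not_le _ hN.1.isPrime ?_
      intro P hP hσ h1 h2
      have hne : M.1 ≠ N := fun e => hN.2.2 (e ▸ M.2.2)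
      obtain ⟨w, hw⟩ := h.dvd
      exact hN.2.2 (hw ▸ N.mul_mem_right _ (hloc P M.1 N hP ⟨_, hσ, hreg⟩ M.2.1 hN.1 hne h1 h2)))
  obtain ⟨z, h1, h2⟩ := cnt1_crt J {M | M.IsMaximal ∧ s * τ ^ 2 ∈ M ∧ s ∉ M}
    ((hfc _ hreg).subset fun M hM => ⟨hM.1, hM.2.1⟩) (fun N hN => hN.1) hJ3 y' c
  have hz : ∀ i, z i - y i ∈ Ideal.span {s} := by
    intro i
    have : z i - y i = (z i - y' i) + (y' i - y i) := by ring
    rw [this]
    exact Ideal.add_mem _ (hJ1 (h1 i)) (Ideal.mem_span_singleton.2 (hy' i))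
  refine ⟨τ, z, fun i => Ideal.mem_span_singleton.1 (hz i), h.fin.insert _, hreg,
    h.dvd.mul_right _, ?_, ?_⟩
  · intro p hp
    rcases hp with rfl | hp
    · refine ⟨hτ, dvd_mul_left _ _, ?_⟩
      apply cnt1_local
      intro M hMm
      by_cases hs' : s * τ ^ 2 ∈ M
      · by_cases hs : s ∈ M
        · obtain ⟨u, hu, b, hb⟩ := hM M hMm hs
          obtain ⟨w, hw, d, hd⟩ := hJ2 _ ⟨⟨M, hMm, hs⟩, rfl⟩ (cnt1_eval_sub J h1 (H j))
          refine ⟨u * w, fun h => (hMm.isPrime.mem_or_mem h).elim hu hw,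
            Ideal.mem_span_pair.2 ⟨w * b, -(d * b), ?_⟩⟩
          linear_combination b * hd - w * hb
        · exact ⟨_, cnt1_notMem (h2 M ⟨hMm, hs', hs⟩) (hc M hMm hs' hs).1,
            Ideal.mem_span_pair.2 ⟨τ, 0, by ring⟩⟩
      · exact ⟨_, hs', Ideal.mem_span_pair.2 ⟨0, τ, by ring⟩⟩
    · obtain ⟨a1, a2, a3⟩ := h.com p hp
      refine ⟨a1, a2.mul_right _, cnt1_ext a2 a3
        (Ideal.mem_span_singleton.1 (cnt1_eval_sub _ hz _)) ?_⟩
      intro M hM h3 h4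
      exact cnt1_notMem (h2 M ⟨hM, h3, h4⟩) ((hc M hM h3 h4).2 p hp)
  · intro M hM hR hs
    obtain ⟨c, hc1, hc2⟩ := hav M hM hR fun h => hs (M.mul_mem_right _ h)
    refine ⟨c, fun p hp => ?_⟩
    rcases hp with rfl | hp
    · exact hc1
    · exact hc2 p hp

/-- Construction of a generic sequence.
Hint: a state is `(s, y)` and a finite list of committed pairs `(j, τ)` with `s` regular,
`s₀ ∣ s`, `τ ^ 2 ∣ s`, `τ ∈ span {H j (y), s}`, and such that every regular maximal ideal `M ∌ s`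
has a point `c` at which no committed `H j` lies in `M` (`g1`).
Extension to a regular multiple `s'` of `s`: choose `y' ≡ y mod s` with all committed `H j (y') ∉ M`
for the finitely many maximal `M ∋ s'`, `M ∌ s` (Chinese remainder theorem; `s` is a unit mod `M`);
then `τ ∈ span {H j (y'), s'}` because the colon ideal lies in no maximal ideal (for `M ∋ s` write
`s = τ ^ 2 w`, `τ = H j (y) b + s c`, get `H j (y') b = τ (1 - τ w c')`).
Committing a new `j`: first extend so that `s` is divisible by the next regular element and by the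
`s₁` of `g1` for the enlarged list; take `y', τ` from `g2`, `σ = s τ ^ 2`. For each new maximal
`M' ∋ σ`, `M' ∌ s`, and each old `M ∋ s` there are `u ∉ M`, `u' ∉ M'` with `σ ∣ u * u'`
(otherwise a prime containing `σ` lies in `M` and `M'`, `Ideal.exists_le_prime_disjoint`, against
`hloc`); so there is `a ∈ s R` outside all new `M'` with `u * a ∈ σ R` for some `u ∉ M`, for every old
`M`; perturb `y'` by multiples of `a` so that all committed values and the new one are outside the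
new `M'`. -/
theorem nonempty_genSeq {R : Type u} [CommRing R] [Countable R] {ι : Type} [Countable ι]
    (H : ι → MvPolynomial ℕ R)
    (hfc : ∀ s ∈ nonZeroDivisors R, {M : Ideal R | M.IsMaximal ∧ s ∈ M}.Finite)
    (s₀ : R) (hs₀ : s₀ ∈ nonZeroDivisors R)
    (hloc : ∀ P M M' : Ideal R, P.IsPrime → Reg P → M.IsMaximal → M'.IsMaximal → M ≠ M' →
      P ≤ M → P ≤ M' → s₀ ∈ M')
    (g1 : ∀ T : Finset ι, ∃ s₁ ∈ nonZeroDivisors R, ∀ M : Ideal R, M.IsMaximal → Reg M → s₁ ∉ M →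
      ∃ c : ℕ → R, ∀ j ∈ T, MvPolynomial.eval c (H j) ∉ M)
    (g2 : ∀ j, ∀ s ∈ nonZeroDivisors R, s₀ ∣ s → ∀ y : ℕ → R, ∃ τ ∈ nonZeroDivisors R,
      ∃ y' : ℕ → R, (∀ i, s ∣ y' i - y i) ∧ ∀ M : Ideal R, M.IsMaximal → s ∈ M →
        ∃ u, u ∉ M ∧ MvPolynomial.eval y' (H j) ∣ u * τ) :
    Nonempty (GenSeq R H) := by
  classical
  obtain ⟨f, hf⟩ := exists_surjective_nat R
  obtain ⟨g, hg⟩ := exists_surjective_nat (Option ι)
  let St := {x : R × (ℕ → R) × Set (ι × R) // Cnt1Inv H s₀ x.1 x.2.1 x.2.2}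
  have step : ∀ (n : ℕ) (x : St), ∃ x' : St, x.1.1 ∣ x'.1.1 ∧
      (∀ i, x.1.1 ∣ x'.1.2.1 i - x.1.2.1 i) ∧ x.1.2.2 ⊆ x'.1.2.2 ∧
      (f n ∈ nonZeroDivisors R → f n ∣ x'.1.1) ∧ ∀ j, g n = some j → ∃ τ, (j, τ) ∈ x'.1.2.2 := by
    rintro n ⟨⟨s, y, T⟩, h⟩
    obtain ⟨t, ht, hft⟩ : ∃ t ∈ nonZeroDivisors R, (f n ∈ nonZeroDivisors R → f n ∣ t) := by
      by_cases hn : f n ∈ nonZeroDivisors R
      · exact ⟨f n, hn, fun _ => dvd_rfl⟩
      · exact ⟨1, one_mem _, fun h => (hn h).elim⟩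
    cases hgn : g n with
    | none =>
      obtain ⟨y', h1, h2⟩ := cnt1_stepA hfc h ht
      exact ⟨⟨(s * t, y', T), h2⟩, dvd_mul_right _ _, h1, subset_rfl,
        fun hn => (hft hn).mul_left _, fun j hj => by cases hj⟩
    | some j =>
      obtain ⟨s₁, hs₁, hav⟩ := g1 (insert j ((h.fin.image Prod.fst).toFinset))
      obtain ⟨y', h1, h2⟩ := cnt1_stepA hfc h (mul_mem ht hs₁)
      obtain ⟨τ, z, h3, h4⟩ := cnt1_stepB hfc hloc (g2 j) h2 (by
        intro M hM hR hs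
        obtain ⟨c, hc⟩ := hav M hM hR fun h => hs (M.mul_mem_left _ (M.mul_mem_left _ h))
        exact ⟨c, hc j (Finset.mem_insert_self _ _), fun p hp => hc p.1
          (Finset.mem_insert_of_mem ((Set.Finite.mem_toFinset _).2 ⟨p, hp, rfl⟩))⟩)
      refine ⟨⟨(_, z, _), h4⟩, (dvd_mul_right _ _).mul_right _, fun i => ?_,
        Set.subset_insert _ _, fun hn => (((hft hn).mul_right _).mul_left _).mul_right _,
        fun j' hj' => ⟨τ, ?_⟩⟩
      · have : z i - y i = (z i - y' i) + (y' i - y i) := by ring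
        change s ∣ z i - y i
        rw [this]
        exact dvd_add ((dvd_mul_right _ _).trans (h3 i)) (h1 i)
      · cases hj'
        exact Set.mem_insert _ _
  choose nx hnx using step
  have h0 : Cnt1Inv H s₀ s₀ 0 ∅ :=
    ⟨Set.finite_empty, hs₀, dvd_rfl, by simp, fun _ _ _ _ => ⟨0, by simp⟩⟩
  let X : ℕ → St := fun n => Nat.rec ⟨(s₀, 0, ∅), h0⟩ (fun n x => nx n x) n
  have hX : ∀ n, X (n + 1) = nx n (X n) := fun n => rfl
  have hmono : ∀ m n, m ≤ n → (X m).1.2.2 ⊆ (X n).1.2.2 := by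
    intro m n hmn
    induction n, hmn using Nat.le_induction with
    | base => exact subset_rfl
    | succ n _ ih => exact ih.trans (hX n ▸ (hnx n (X n)).2.2.1)
  refine ⟨⟨fun n => (X n).1.1, fun n => (X n).1.2.1, fun n => (X n).2.reg,
    fun n => (hnx n (X n)).1, ?_, fun n => (hnx n (X n)).2.1, ?_⟩⟩
  · intro t ht
    obtain ⟨n, rfl⟩ := hf t
    exact ⟨n + 1, (hnx n (X n)).2.2.2.1 ht⟩
  · intro j
    obtain ⟨n, hn⟩ := hg (some j)
    obtain ⟨τ, hτ⟩ := (hnx n (X n)).2.2.2.2 j hn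
    exact ⟨τ, ((X (n + 1)).2.com _ hτ).1, n + 1,
      fun m hm => ((X m).2.com _ (hmono _ _ hm hτ)).2.2⟩

end Pool.Agent.MP_f1fec5_al.Aff
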