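import Pool.Agent.MP_f1fec5_al.Aff.Cnt1

namespace Pool.Agent.MP_f1fec5_al.Aff

universe u v

lemma cnt2_dvd {R : Type u} [CommRing R] {s : ℕ → R} (s_dvd : ∀ n, s n ∣ s (n + 1)) {n m : ℕ}
    (h : n ≤ m) : s n ∣ s m := by
  induction h with
  | refl => exact dvd_rfl
  | step _ ih => exact ih.trans (s_dvd _)

lemma cnt2_mk_eq {R : Type u} [CommRing R] {t a b : R} :
    Ideal.Quotient.mk (Ideal.span {t}) a = Ideal.Quotient.mk _ b ↔ t ∣ a - b := by
  rw [Ideal.Quotient.eq, Ideal.mem_span_singleton]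

lemma cnt2_mk_zero {R : Type u} [CommRing R] {t a : R} :
    Ideal.Quotient.mk (Ideal.span {t}) a = 0 ↔ t ∣ a := by
  rw [Ideal.Quotient.eq_zero_iff_mem, Ideal.mem_span_singleton]

/-- A domain with a compatible cofinal system of quotients is a model.
Hint: build a `Model R D` (then `Model.hasDomainModel`) with
`F X = ⨅ n, comap (ψ n) (map mk X)`, or `comap (ψ n) (map mk X)` for any `n` with `s n ∈ X`. -/
theorem hasDomainModel_of_quotients {R : Type u} [CommRing R] [Nontrivial R] {D : Type u}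
    [CommRing D] [IsDomain D] (s : ℕ → R) (s_reg : ∀ n, s n ∈ nonZeroDivisors R)
    (s_dvd : ∀ n, s n ∣ s (n + 1)) (cofinal : ∀ t ∈ nonZeroDivisors R, ∃ n, t ∣ s n)
    (ψ : ∀ n, D →+* R ⧸ Ideal.span {s n}) (hsurj : ∀ n, Function.Surjective (ψ n))
    (hcomp : ∀ n d r, ψ (n + 1) d = Ideal.Quotient.mk _ r → ψ n d = Ideal.Quotient.mk _ r)
    (hne : ∀ n, RingHom.ker (ψ n) ≠ ⊥)
    (hopen : ∀ d : D, d ≠ 0 → ∃ n, RingHom.ker (ψ n) ≤ Ideal.span {d}) :
    HasDomainModel.{u, u} R := by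
  have hrel : ∀ {n m : ℕ}, n ≤ m → ∀ d r, ψ m d = Ideal.Quotient.mk _ r →
      ψ n d = Ideal.Quotient.mk _ r := by
    intro n m h
    induction h with
    | refl => exact fun _ _ h => h
    | step _ ih => exact fun d r h => ih d r (hcomp _ d r h)
  let G : ℕ → Ideal R → Ideal D := fun n X =>
    Ideal.comap (ψ n) (Ideal.map (Ideal.Quotient.mk (Ideal.span {s n})) X)
  have hG : ∀ n X d, d ∈ G n X ↔ ∃ r ∈ X, Ideal.Quotient.mk _ r = ψ n d := fun n X d =>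
    Ideal.mem_map_iff_of_surjective _ Ideal.Quotient.mk_surjective
  have hG' : ∀ n X, s n ∈ X → ∀ d r, ψ n d = Ideal.Quotient.mk _ r → (d ∈ G n X ↔ r ∈ X) := by
    intro n X hX d r h
    rw [hG]
    refine ⟨fun ⟨r', hr', e⟩ => ?_, fun hr => ⟨r, hr, h.symm⟩⟩
    obtain ⟨c, hc⟩ := cnt2_mk_eq.1 (e.trans h)
    have : r = r' - s n * c := by rw [← hc]; ring
    rw [this]
    exact X.sub_mem hr' (X.mul_mem_right _ hX)
  have hsX : ∀ {n m : ℕ} {X : Ideal R}, n ≤ m → s n ∈ X → s m ∈ X := fun h hX =>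
    Ideal.mem_of_dvd _ (cnt2_dvd s_dvd h) hX
  have hF : ∀ n X, s n ∈ X → (⨅ m, G m X) = G n X := by
    intro n X hX
    refine le_antisymm (iInf_le _ n) (le_iInf fun m d hd => ?_)
    obtain ⟨r, hr⟩ := Ideal.Quotient.mk_surjective (ψ (max n m) d)
    have h1 := (hG' n X hX d r (hrel (le_max_left _ _) d r hr.symm)).1 hd
    exact (hG m X d).2 ⟨r, h1, (hrel (le_max_right _ _) d r hr.symm).symm⟩
  have hreg : ∀ {X : Ideal R}, Reg X → ∃ n, s n ∈ X := by
    rintro X ⟨x, hx, hx'⟩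
    obtain ⟨n, hn⟩ := cofinal x hx'
    exact ⟨n, Ideal.mem_of_dvd _ hn hx⟩
  have hker : ∀ {n m : ℕ}, n ≤ m → RingHom.ker (ψ m) ≤ RingHom.ker (ψ n) := by
    intro n m h d hd
    exact (hrel h d 0 hd).trans (map_zero _)
  have hnb : ∀ {X : Ideal R}, Reg X → (⨅ m, G m X) ≠ ⊥ := by
    intro X hX h
    obtain ⟨n, hn⟩ := hreg hX
    rw [hF n X hn] at h
    refine hne n (eq_bot_iff.2 fun d hd => h ▸ ?_)
    exact (hG' n X hn d 0 hd).2 X.zero_mem
  have hop : ∀ Z : Ideal D, Z ≠ ⊥ → ∃ n, RingHom.ker (ψ n) ≤ Z := by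
    intro Z hZ
    obtain ⟨d, hd, hd0⟩ := Submodule.exists_mem_ne_zero_of_ne_bot hZ
    obtain ⟨n, hn⟩ := hopen d hd0
    exact ⟨n, hn.trans ((Ideal.span_singleton_le_iff_mem _).2 hd)⟩
  refine Model.hasDomainModel (D := D) ⟨fun X => ⨅ m, G m X, ?_, ?_, hnb, ?_⟩
  · intro X Y hX hY
    obtain ⟨n, hn⟩ := hreg (hX.inf hY)
    rw [hF n X hn.1, hF n Y hn.2]
    refine ⟨fun h r hr => ?_, fun h => Ideal.comap_mono (Ideal.map_mono h)⟩
    obtain ⟨d, hd⟩ := hsurj n (Ideal.Quotient.mk _ r)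
    exact (hG' n Y hn.2 d r hd).1 (h ((hG' n X hn.1 d r hd).2 hr))
  · intro X Y hX hY
    obtain ⟨n₁, hn₁⟩ := hreg (hX.mul hY)
    obtain ⟨n₂, hn₂⟩ := hop _ (mul_ne_zero (hnb hX) (hnb hY))
    have h1 : s (max n₁ n₂) ∈ X * Y := hsX (le_max_left _ _) hn₁
    have h2 := (hker (le_max_right n₁ n₂)).trans hn₂
    generalize max n₁ n₂ = n at h1 h2
    rw [hF n X (Ideal.mul_le_inf h1).1, hF n Y (Ideal.mul_le_inf h1).2] at h2 ⊢
    rw [hF n _ h1]
    have h3 := Ideal.comap_map_of_surjective (ψ n) (hsurj n) (G n X * G n Y)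
    rw [sup_eq_left.2 (show Ideal.comap (ψ n) ⊥ ≤ G n X * G n Y from h2), Ideal.map_mul,
      Ideal.map_comap_of_surjective _ (hsurj n), Ideal.map_comap_of_surjective _ (hsurj n),
      ← Ideal.map_mul] at h3
    exact h3
  · intro Z hZ
    obtain ⟨n, hn⟩ := hop Z hZ
    let X : Ideal R := Ideal.comap (Ideal.Quotient.mk (Ideal.span {s n})) (Ideal.map (ψ n) Z)
    have hX : s n ∈ X := by
      change Ideal.Quotient.mk (Ideal.span {s n}) (s n) ∈ Ideal.map (ψ n) Z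
      rw [cnt2_mk_zero.2 dvd_rfl]
      exact Ideal.zero_mem _
    refine ⟨X, ⟨s n, hX, s_reg n⟩, ?_⟩
    rw [hF n X hX]
    change Ideal.comap (ψ n) (Ideal.map _ (Ideal.comap _ _)) = Z
    rw [Ideal.map_comap_of_surjective _ Ideal.Quotient.mk_surjective,
      Ideal.comap_map_of_surjective _ (hsurj n)]
    exact sup_eq_left.2 hn

section lim

variable {R : Type u} [CommRing R] {s : ℕ → R}

/-- The ring of compatible families. -/
def cnt2_Rh (s_dvd : ∀ n, s n ∣ s (n + 1)) : Subring (Π n, R ⧸ Ideal.span {s n}) :=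
  ⨅ n, RingHom.eqLocus
    ((Ideal.Quotient.factor (Ideal.span_singleton_le_span_singleton.2 (s_dvd n))).comp
      (Pi.evalRingHom (fun n => R ⧸ Ideal.span {s n}) (n + 1)))
    (Pi.evalRingHom (fun n => R ⧸ Ideal.span {s n}) n)

variable {s_dvd : ∀ n, s n ∣ s (n + 1)}

lemma cnt2_mem {x : Π n, R ⧸ Ideal.span {s n}} : x ∈ cnt2_Rh s_dvd ↔
    ∀ n, Ideal.Quotient.factor (Ideal.span_singleton_le_span_singleton.2 (s_dvd n)) (x (n + 1)) =
      x n :=
  Subring.mem_iInf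

lemma cnt2_rel (x : cnt2_Rh s_dvd) {n m : ℕ} (h : n ≤ m) (r : R)
    (hr : x.1 m = Ideal.Quotient.mk _ r) : x.1 n = Ideal.Quotient.mk _ r := by
  induction h with
  | refl => exact hr
  | step _ ih =>
    apply ih
    rw [← cnt2_mem.1 x.2, hr]
    rfl

lemma cnt2_level (s_dvd : ∀ n, s n ∣ s (n + 1)) (s_reg : ∀ n, s n ∈ nonZeroDivisors R)
    (cofinal : ∀ t ∈ nonZeroDivisors R, ∃ n, t ∣ s n) {τ : R} (hτ : τ ∈ nonZeroDivisors R)
    (n₀ n : ℕ) : ∃ m, n₀ ≤ m ∧ n ≤ m ∧ τ * s n ∣ s m := by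
  obtain ⟨m, hm⟩ := cofinal _ (mul_mem hτ (s_reg n))
  exact ⟨max (max n₀ n) m, (le_max_left _ _).trans (le_max_left _ _),
    (le_max_right _ _).trans (le_max_left _ _), hm.trans (cnt2_dvd s_dvd (le_max_right _ _))⟩

lemma cnt2_cancel {τ a b : R} (hτ : τ ∈ nonZeroDivisors R) (h : τ * a ∣ τ * b) : a ∣ b := by
  obtain ⟨c, hc⟩ := h
  refine ⟨c, sub_eq_zero.1 ((mem_nonZeroDivisors_iff_left.1 hτ) _ ?_)⟩
  rw [mul_sub, hc]
  ring

lemma cnt2_uniq {x : cnt2_Rh s_dvd} {τ : R} (hτ : τ ∈ nonZeroDivisors R) {n l : ℕ}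
    (hl : τ * s n ∣ s l) (hx : ∃ b, x.1 l * Ideal.Quotient.mk _ b = Ideal.Quotient.mk _ τ)
    {c : R} (hc : x.1 l * Ideal.Quotient.mk _ c = 0) : s n ∣ c := by
  obtain ⟨b, hb⟩ := hx
  refine cnt2_cancel hτ (hl.trans (cnt2_mk_zero.1 ?_))
  rw [map_mul, ← hb, mul_right_comm, hc, zero_mul]

lemma cnt2_reg (s_reg : ∀ n, s n ∈ nonZeroDivisors R)
    (cofinal : ∀ t ∈ nonZeroDivisors R, ∃ n, t ∣ s n) {x : cnt2_Rh s_dvd} {τ : R}
    (hτ : τ ∈ nonZeroDivisors R) {n₀ : ℕ}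
    (hx : ∀ n, n₀ ≤ n → ∃ b, x.1 n * Ideal.Quotient.mk _ b = Ideal.Quotient.mk _ τ)
    {w : cnt2_Rh s_dvd} (hw : x * w = 0) : w = 0 := by
  refine Subtype.ext (funext fun n => ?_)
  obtain ⟨m, h0, h1, h2⟩ := cnt2_level s_dvd s_reg cofinal hτ n₀ n
  obtain ⟨c, hc⟩ := Ideal.Quotient.mk_surjective (w.1 m)
  have h3 : x.1 m * w.1 m = 0 := congrFun (congrArg Subtype.val hw) m
  rw [← hc] at h3
  rw [cnt2_rel w h1 c hc.symm]
  exact cnt2_mk_zero.2 (cnt2_uniq hτ h2 (hx m h0) h3)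

lemma cnt2_solve (s_reg : ∀ n, s n ∈ nonZeroDivisors R)
    (cofinal : ∀ t ∈ nonZeroDivisors R, ∃ n, t ∣ s n) {x : cnt2_Rh s_dvd} {τ : R}
    (hτ : τ ∈ nonZeroDivisors R) {n₀ : ℕ}
    (hx : ∀ n, n₀ ≤ n → ∃ b, x.1 n * Ideal.Quotient.mk _ b = Ideal.Quotient.mk _ τ)
    {v : cnt2_Rh s_dvd} (hv : ∀ n, n₀ ≤ n → ∃ c, x.1 n * Ideal.Quotient.mk _ c = v.1 n) :
    ∃ w : cnt2_Rh s_dvd, x * w = v := by
  choose m h0 h1 h2 using cnt2_level s_dvd s_reg cofinal hτ n₀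
  choose c hc using fun n => hv (m n) (h0 n)
  have hdown : ∀ n l, l ≤ m n → x.1 l * Ideal.Quotient.mk _ (c n) = v.1 l := by
    intro n l hl
    obtain ⟨a, ha⟩ := Ideal.Quotient.mk_surjective (x.1 (m n))
    have h3 := hc n
    rw [← ha, ← map_mul] at h3
    rw [cnt2_rel x hl a ha.symm, cnt2_rel v hl _ h3.symm, map_mul]
  refine ⟨⟨fun n => Ideal.Quotient.mk _ (c n), cnt2_mem.2 fun n => ?_⟩,
    Subtype.ext (funext fun n => hdown n n (h1 n))⟩
  change Ideal.Quotient.mk _ (c (n + 1)) = Ideal.Quotient.mk _ (c n)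
  have h3 : τ * s n ∣ s (min (m n) (m (n + 1))) := by
    rcases min_choice (m n) (m (n + 1)) with h | h <;> rw [h]
    · exact h2 n
    · exact (mul_dvd_mul_left τ (s_dvd n)).trans (h2 (n + 1))
  refine cnt2_mk_eq.2 (cnt2_uniq hτ h3 (hx _ (le_min (h0 _) (h0 _))) ?_)
  rw [map_sub, mul_sub, hdown _ _ (min_le_left _ _), hdown _ _ (min_le_right _ _), sub_self]

/-- The elements that are fractions of elements of the image. -/
def cnt2_D {A S : Type u} [CommRing A] [IsDomain A] [CommRing S] (e : A →+* S) : Subring S where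
  carrier := {a | ∃ G, G ≠ 0 ∧ ∃ F, a * e G = e F}
  mul_mem' := by
    rintro a a' ⟨G, hG, F, h⟩ ⟨G', hG', F', h'⟩
    exact ⟨G * G', mul_ne_zero hG hG', F * F', by rw [map_mul, map_mul, ← h, ← h']; ring⟩
  one_mem' := ⟨1, one_ne_zero, 1, by rw [one_mul]⟩
  add_mem' := by
    rintro a a' ⟨G, hG, F, h⟩ ⟨G', hG', F', h'⟩
    exact ⟨G * G', mul_ne_zero hG hG', F * G' + F' * G, by
      rw [map_add, map_mul, map_mul, map_mul, ← h, ← h']; ring⟩
  zero_mem' := ⟨1, one_ne_zero, 0, by rw [zero_mul, map_zero]⟩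
  neg_mem' := by
    rintro a ⟨G, hG, F, h⟩
    exact ⟨G, hG, -F, by rw [map_neg, ← h, neg_mul]⟩

lemma cnt2_main [Nontrivial R] (s_reg : ∀ n, s n ∈ nonZeroDivisors R)
    (cofinal : ∀ t ∈ nonZeroDivisors R, ∃ n, t ∣ s n) {A : Type u} [CommRing A] [IsDomain A]
    (e : A →+* cnt2_Rh s_dvd)
    (he : ∀ G, G ≠ 0 → ∃ τ ∈ nonZeroDivisors R, ∃ n₀, ∀ n, n₀ ≤ n →
      ∃ b, (e G).1 n * Ideal.Quotient.mk _ b = Ideal.Quotient.mk _ τ)
    (hs : ∀ n r, ∃ G, G ≠ 0 ∧ (e G).1 n = Ideal.Quotient.mk _ r) : HasDomainModel.{u, u} R := by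
  by_cases htriv : ∀ n, Subsingleton (R ⧸ Ideal.span {s n})
  · refine hasDomainModel_of_quotients (D := ULift.{u} ℚ) s s_reg s_dvd cofinal
      (fun n => ⟨⟨⟨fun _ => 0, Subsingleton.elim _ _⟩, fun _ _ => Subsingleton.elim _ _⟩,
        rfl, fun _ _ => Subsingleton.elim _ _⟩)
      (fun n y => ⟨0, Subsingleton.elim _ _⟩) (fun n d r _ => Subsingleton.elim _ _)
      (fun n h => ?_) (fun d hd => ⟨0, fun x _ => ?_⟩)
    · have : (1 : ULift.{u} ℚ) ∈ (⊥ : Ideal (ULift.{u} ℚ)) := h ▸ rfl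
      exact one_ne_zero (Ideal.mem_bot.1 this)
    · exact Ideal.mem_span_singleton.2 (IsUnit.dvd (isUnit_iff_ne_zero.2 hd))
  have h10 : (1 : cnt2_Rh s_dvd) ≠ 0 := by
    intro h
    refine htriv fun n => subsingleton_of_zero_eq_one ?_
    exact (congrFun (congrArg Subtype.val h) n).symm
  have hreg : ∀ G, G ≠ 0 → ∀ w, e G * w = 0 → w = 0 := by
    intro G hG w hw
    obtain ⟨τ, hτ, n₀, hx⟩ := he G hG
    exact cnt2_reg s_reg cofinal hτ hx hw
  have hmem : ∀ G, e G ∈ cnt2_D e := fun G => ⟨1, one_ne_zero, G, by rw [map_one, mul_one]⟩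
  have hF0 : ∀ {a : cnt2_D e} {G F : A}, G ≠ 0 → a.1 * e G = e F → a ≠ 0 → F ≠ 0 := by
    rintro a G F hG h ha rfl
    exact ha (Subtype.ext (hreg G hG _ (by rw [mul_comm, h, map_zero])))
  have : Nontrivial (cnt2_D e) := ⟨⟨1, 0, fun h => h10 (congrArg Subtype.val h)⟩⟩
  have : NoZeroDivisors (cnt2_D e) := ⟨fun {a a'} h => by
    by_contra hn
    rw [not_or] at hn
    obtain ⟨G, hG, F, h1⟩ := a.2
    obtain ⟨G', hG', F', h2⟩ := a'.2
    have h3 : a.1 * a'.1 = 0 := congrArg Subtype.val h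
    refine h10 (hreg _ (mul_ne_zero (hF0 hG h1 hn.1) (hF0 hG' h2 hn.2)) 1 ?_)
    rw [mul_one, map_mul, ← h1, ← h2, mul_mul_mul_comm, h3, zero_mul]⟩
  have : IsDomain (cnt2_D e) := NoZeroDivisors.to_isDomain _
  refine hasDomainModel_of_quotients (D := cnt2_D e) s s_reg s_dvd cofinal
    (fun n => ((Pi.evalRingHom (fun n => R ⧸ Ideal.span {s n}) n).comp
      (cnt2_Rh s_dvd).subtype).comp (cnt2_D e).subtype)
    (fun n y => ?_) (fun n d r h => cnt2_rel d.1 (Nat.le_succ n) r h) (fun n h => ?_)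
    (fun d hd => ?_)
  · obtain ⟨r, rfl⟩ := Ideal.Quotient.mk_surjective y
    obtain ⟨G, -, hG⟩ := hs n r
    exact ⟨⟨e G, hmem G⟩, hG⟩
  · obtain ⟨G, hG0, hG⟩ := hs n 0
    have h1 : (⟨e G, hmem G⟩ : cnt2_D e) ∈ (⊥ : Ideal (cnt2_D e)) := h ▸ hG.trans (map_zero _)
    have h2 : e G = 0 := congrArg Subtype.val (Ideal.mem_bot.1 h1)
    exact h10 (hreg G hG0 1 (by rw [h2, zero_mul]))
  · obtain ⟨G, hG, F, h1⟩ := d.2
    have hF := hF0 hG h1 hd
    obtain ⟨τ, hτ, n₀, hx⟩ := he F hF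
    obtain ⟨n, hn⟩ := cofinal τ hτ
    refine ⟨n, fun d' hd' => ?_⟩
    have h2 : d'.1.1 n = 0 := hd'
    obtain ⟨w, hw⟩ := cnt2_solve s_reg cofinal hτ (n₀ := max n₀ n)
      (fun m hm => hx m ((le_max_left _ _).trans hm)) (v := d'.1) (fun m hm => by
        obtain ⟨b, hb⟩ := hx m ((le_max_left _ _).trans hm)
        obtain ⟨c, hc⟩ := Ideal.Quotient.mk_surjective (d'.1.1 m)
        have h3 := cnt2_rel d'.1 ((le_max_right _ _).trans hm) c hc.symm
        rw [h2] at h3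
        obtain ⟨c', rfl⟩ := hn.trans (cnt2_mk_zero.1 h3.symm)
        exact ⟨b * c', by rw [map_mul, ← mul_assoc, hb, ← map_mul, hc]⟩)
    obtain ⟨G', hG', F', h3⟩ := d'.2
    refine Ideal.mem_span_singleton.2 ⟨⟨e G * w, F * G', mul_ne_zero hF hG', G * F', ?_⟩,
      Subtype.ext ?_⟩
    · rw [map_mul, map_mul, ← h3, ← hw]
      ring
    · change d'.1 = d.1 * (e G * w)
      rw [← mul_assoc, h1, hw]

end lim

/-- From a generic sequence to a model.
Hint: let `Rh` be the subring of compatible families in `Π n, R ⧸ span {s n}`; the image of a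
regular `t` is regular in `Rh`, and the kernel of the `n`-th projection is `s n * Rh`. Let
`z i ∈ Rh` be the limit of `r i + t i * y n i`, `e : A →+* Rh` the evaluation at `z`, where
`A = MvPolynomial ℕ (⊥ : Subring R)`. For `F ≠ 0`, `e F` divides a regular `τ` in `Rh` (the
cofactors are compatible modulo `s n / τ`), so it is regular. Put
`D = {a | ∃ G ≠ 0, ∃ F, a * e G = e F}`; it is a domain (`A` is a domain), saturated, and it maps
onto each quotient; `e F ∣ s n` for large `n` gives `hopen`; `hne`: `D` contains `z i` with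
`r i = t i = s n`-type data, or use the trivial case where all regular elements are units (then
take `D` a field; `ψ n` is the zero map to a trivial ring). -/
theorem hasDomainModel_of_genSeq {R : Type u} [CommRing R] [Nontrivial R]
    (hint : ∀ n : ℤ, (n : R) = 0 ∨ (n : R) ∈ nonZeroDivisors R) (r t : ℕ → R)
    (hrt : ∀ a : R, ∀ b ∈ nonZeroDivisors R, ∃ i, r i = a ∧ t i = b)
    {ι : Type} (F : ι → MvPolynomial ℕ (⊥ : Subring R))
    (hF : ∀ G : MvPolynomial ℕ (⊥ : Subring R), G ≠ 0 → ∃ j, F j = G)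
    (g : GenSeq R (fun j => MvPolynomial.aeval
      (fun i => (MvPolynomial.C (r i) + MvPolynomial.C (t i) * MvPolynomial.X i :
        MvPolynomial ℕ R)) (F j))) :
    HasDomainModel.{u, u} R := by
  have : NoZeroDivisors (⊥ : Subring R) := ⟨fun {a b} h => by
    obtain ⟨n, hn⟩ := Subring.mem_bot.1 a.2
    rcases hint n with h0 | h0
    · exact Or.inl (Subtype.ext (hn.symm.trans h0))
    · rw [hn] at h0
      exact Or.inr (Subtype.ext
        ((mem_nonZeroDivisors_iff_left.1 h0) _ (congrArg Subtype.val h)))⟩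
  have : IsDomain (⊥ : Subring R) := NoZeroDivisors.to_isDomain _
  let E : ∀ n, MvPolynomial ℕ (⊥ : Subring R) →+* R ⧸ Ideal.span {g.s n} := fun n =>
    (Ideal.Quotient.mk _).comp
      (MvPolynomial.eval₂Hom (⊥ : Subring R).subtype fun i => r i + t i * g.y n i)
  have hE : ∀ n, (Ideal.Quotient.factor
      (Ideal.span_singleton_le_span_singleton.2 (g.s_dvd n))).comp (E (n + 1)) = E n := by
    intro n
    refine MvPolynomial.ringHom_ext (fun c => ?_) (fun i => ?_)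
    · simp only [E, RingHom.comp_apply, MvPolynomial.eval₂Hom_C, Ideal.Quotient.factor_mk]
    · simp only [E, RingHom.comp_apply, MvPolynomial.eval₂Hom_X', Ideal.Quotient.factor_mk]
      refine cnt2_mk_eq.2 ?_
      rw [add_sub_add_left_eq_sub, ← mul_sub]
      exact (g.y_cong n i).mul_left _
  let e : MvPolynomial ℕ (⊥ : Subring R) →+* cnt2_Rh g.s_dvd :=
    (RingHom.pi E).codRestrict _ fun G => cnt2_mem.2 fun n => RingHom.congr_fun (hE n) G
  have hev : ∀ n G, MvPolynomial.eval (g.y n) (MvPolynomial.aeval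
      (fun i => (MvPolynomial.C (r i) + MvPolynomial.C (t i) * MvPolynomial.X i :
        MvPolynomial ℕ R)) G) =
      MvPolynomial.eval₂Hom (⊥ : Subring R).subtype (fun i => r i + t i * g.y n i) G := by
    intro n G
    induction G using MvPolynomial.induction_on with
    | C c =>
      rw [MvPolynomial.aeval_C, MvPolynomial.eval₂Hom_C, MvPolynomial.algebraMap_apply,
        MvPolynomial.eval_C]
      rfl
    | add p q hp hq => simp only [map_add, hp, hq]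
    | mul_X p i hp =>
      simp only [map_mul, hp, MvPolynomial.aeval_X, map_add, MvPolynomial.eval_C,
        MvPolynomial.eval_X, MvPolynomial.eval₂Hom_X']
  refine cnt2_main g.s_reg g.cofinal e (fun G hG => ?_) (fun n a => ?_)
  · obtain ⟨j, rfl⟩ := hF G hG
    obtain ⟨τ, hτ, n₀, h⟩ := g.unit j
    refine ⟨τ, hτ, n₀, fun n hn => ?_⟩
    obtain ⟨a, b, hab⟩ := Ideal.mem_span_pair.1 (h n hn)
    rw [hev] at hab
    refine ⟨a, ?_⟩
    change Ideal.Quotient.mk _ _ * _ = _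
    rw [← map_mul]
    refine cnt2_mk_eq.2 ⟨-b, ?_⟩
    rw [← hab]
    ring
  · obtain ⟨i, hi, hi'⟩ := hrt a (g.s n) (g.s_reg n)
    refine ⟨MvPolynomial.X i, MvPolynomial.X_ne_zero i, ?_⟩
    change Ideal.Quotient.mk _ (MvPolynomial.eval₂Hom _ _ _) = _
    rw [MvPolynomial.eval₂Hom_X', hi, hi']
    exact cnt2_mk_eq.2 ⟨g.y n i, by ring⟩

end Pool.Agent.MP_f1fec5_al.Aff
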