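import Pool.Agent.MP_f1fec5_al.Aff.Cnt2

namespace Pool.Agent.MP_f1fec5_al.Aff

universe u v

/-- Nonzero elements of the prime ring are regular. -/
lemma cnt3_reg {R : Type u} [CommRing R]
    (hint : ∀ n : ℤ, (n : R) = 0 ∨ (n : R) ∈ nonZeroDivisors R) (a : (⊥ : Subring R))
    (ha : a ≠ 0) : (a : R) ∈ nonZeroDivisors R := by
  obtain ⟨n, hn⟩ := Subring.mem_bot.1 a.2
  rcases hint n with h | h
  · exact absurd (Subtype.ext (by rw [← hn, h]; rfl)) ha
  · rwa [hn] at h

lemma cnt3_noZeroDivisors {R : Type u} [CommRing R]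
    (hint : ∀ n : ℤ, (n : R) = 0 ∨ (n : R) ∈ nonZeroDivisors R) :
    NoZeroDivisors (⊥ : Subring R) := by
  constructor
  intro a b hab
  by_cases ha : a = 0
  · exact Or.inl ha
  · right
    have h := cnt3_reg hint a ha
    have h2 : (a : R) * b = 0 := by
      have := congrArg (fun x : (⊥ : Subring R) => (x : R)) hab
      simpa using this
    exact Subtype.ext ((mem_nonZeroDivisors_iff.1 h).1 _ h2)

/-- Evaluation modulo an ideal. -/
lemma cnt3_mk_aeval {R : Type u} [CommRing R] {σ : Type} (P : Ideal R) (x : σ → R)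
    (G : MvPolynomial σ (⊥ : Subring R)) :
    Ideal.Quotient.mk P (MvPolynomial.aeval x G) =
      MvPolynomial.eval (fun i => Ideal.Quotient.mk P (x i))
        (MvPolynomial.map ((Ideal.Quotient.mk P).comp (⊥ : Subring R).subtype) G) := by
  rw [MvPolynomial.eval_map, MvPolynomial.aeval_def, MvPolynomial.eval₂_comp_left]
  rfl

lemma cnt3_map_ne {R : Type u} [CommRing R] {σ : Type} (P : Ideal R)
    (G : MvPolynomial σ (⊥ : Subring R)) (m : σ →₀ ℕ)
    (hm : ((G.coeff m : (⊥ : Subring R)) : R) ∉ P) :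
    MvPolynomial.map ((Ideal.Quotient.mk P).comp (⊥ : Subring R).subtype) G ≠ 0 := by
  intro h
  have h2 := congrArg (MvPolynomial.coeff m) h
  rw [MvPolynomial.coeff_map, MvPolynomial.coeff_zero] at h2
  exact hm (Ideal.Quotient.eq_zero_iff_mem.1 h2)

open Pointwise in
/-- One variable: a common non-root modulo finitely many primes of infinite index. -/
lemma cnt3_one_var {R : Type u} [CommRing R] (Ps : Finset (Ideal R))
    (hprime : ∀ P ∈ Ps, P.IsPrime) (hinf : ∀ P ∈ Ps, Infinite (R ⧸ P)) (g : Polynomial R)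
    (hg : ∀ P ∈ Ps, ∃ a, g.eval a ∉ P) : ∃ a, ∀ P ∈ Ps, g.eval a ∉ P := by
  classical
  by_contra hcon
  push Not at hcon
  have hfin : ∀ P : Ideal R, ∃ S : Finset R, P ∈ Ps → ∀ a, g.eval a ∈ P → ∃ b ∈ S, a - b ∈ P := by
    intro P
    by_cases hP : P ∈ Ps
    · have := hprime P hP
      obtain ⟨a₀, ha₀⟩ := hg P hP
      have hne : g.map (Ideal.Quotient.mk P) ≠ 0 := by
        intro h
        apply ha₀
        rw [← Ideal.Quotient.eq_zero_iff_mem, ← Polynomial.eval_map_apply, h,
          Polynomial.eval_zero]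
      refine ⟨(g.map (Ideal.Quotient.mk P)).roots.toFinset.image
        (Function.surjInv (Ideal.Quotient.mk_surjective (I := P))), fun _ a ha => ?_⟩
      refine ⟨Function.surjInv (Ideal.Quotient.mk_surjective (I := P)) (Ideal.Quotient.mk P a),
        Finset.mem_image_of_mem _ ?_, ?_⟩
      · rw [Multiset.mem_toFinset, Polynomial.mem_roots hne, Polynomial.IsRoot,
          Polynomial.eval_map_apply]
        exact Ideal.Quotient.eq_zero_iff_mem.2 ha
      · rw [← Ideal.Quotient.eq, Function.surjInv_eq (Ideal.Quotient.mk_surjective (I := P))]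
    · exact ⟨∅, fun h => absurd h hP⟩
  choose S hS using hfin
  have hcov : ⋃ i ∈ Ps.biUnion (fun P => (S P).image (fun b => (P, b))),
      i.2 +ᵥ ((i.1.toAddSubgroup : AddSubgroup R) : Set R) = Set.univ := by
    refine Set.eq_univ_of_forall fun a => ?_
    obtain ⟨P, hP, ha⟩ := hcon a
    obtain ⟨b, hb, hab⟩ := hS P hP a ha
    simp only [Set.mem_iUnion]
    refine ⟨(P, b), Finset.mem_biUnion.2 ⟨P, hP, Finset.mem_image_of_mem _ hb⟩, ?_⟩
    rw [mem_leftAddCoset_iff]
    show -b + a ∈ P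
    rw [neg_add_eq_sub]
    exact hab
  obtain ⟨k, hk, hfi⟩ := AddSubgroup.exists_finiteIndex_of_leftCoset_cover hcov
  obtain ⟨P, hP, hk2⟩ := Finset.mem_biUnion.1 hk
  obtain ⟨b, -, rfl⟩ := Finset.mem_image.1 hk2
  have h1 : Finite (R ⧸ P.toAddSubgroup) := AddSubgroup.finite_quotient_of_finiteIndex
  have h2 : Finite (R ⧸ P) := h1
  have := hinf P hP
  exact not_finite (R ⧸ P)

/-- Many variables: a common non-root modulo finitely many primes of infinite index. -/
lemma cnt3_many_var {R : Type u} [CommRing R] {σ : Type} (F : MvPolynomial σ R)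
    (Ps : Finset (Ideal R))
    (hprime : ∀ P ∈ Ps, P.IsPrime) (hinf : ∀ P ∈ Ps, Infinite (R ⧸ P))
    (hF : ∀ P ∈ Ps, ∃ x, MvPolynomial.eval x F ∉ P) :
    ∃ x, ∀ P ∈ Ps, MvPolynomial.eval x F ∉ P := by
  classical
  induction Ps using Finset.induction_on with
  | empty => exact ⟨0, by simp⟩
  | insert Q Ps hQ ih =>
    obtain ⟨x, hx⟩ := ih (fun P hP => hprime P (Finset.mem_insert_of_mem hP))
      (fun P hP => hinf P (Finset.mem_insert_of_mem hP))
      (fun P hP => hF P (Finset.mem_insert_of_mem hP))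
    obtain ⟨z, hz⟩ := hF Q (Finset.mem_insert_self _ _)
    let g : Polynomial R := MvPolynomial.eval₂ Polynomial.C
      (fun i => Polynomial.C (x i) + Polynomial.C (z i - x i) * Polynomial.X) F
    have hg : ∀ a, g.eval a = MvPolynomial.eval (fun i => x i + (z i - x i) * a) F := by
      intro a
      have h := MvPolynomial.eval₂_comp_left (Polynomial.evalRingHom a) Polynomial.C
        (fun i => Polynomial.C (x i) + Polynomial.C (z i - x i) * Polynomial.X) F
      have h1 : (Polynomial.evalRingHom a).comp Polynomial.C = RingHom.id R := by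
        ext b
        simp
      have h2 : (Polynomial.evalRingHom a) ∘
          (fun i => Polynomial.C (x i) + Polynomial.C (z i - x i) * Polynomial.X) =
          fun i => x i + (z i - x i) * a := by
        funext i
        simp
      rw [h1, h2] at h
      exact h
    obtain ⟨a, ha⟩ := cnt3_one_var (insert Q Ps) hprime hinf g (fun P hP => by
      rcases Finset.mem_insert.1 hP with rfl | hP
      · refine ⟨1, ?_⟩
        rw [hg]
        simpa using hz
      · refine ⟨0, ?_⟩
        rw [hg]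
        simpa using hx P hP)
    exact ⟨_, fun P hP => hg a ▸ ha P hP⟩

lemma cnt3_eval_aeval {R : Type u} [CommRing R] (a b c : ℕ → R)
    (G : MvPolynomial ℕ (⊥ : Subring R)) :
    MvPolynomial.eval c (MvPolynomial.aeval
      (fun i => (MvPolynomial.C (a i) + MvPolynomial.C (b i) * MvPolynomial.X i :
        MvPolynomial ℕ R)) G) = MvPolynomial.aeval (fun i => a i + b i * c i) G := by
  induction G using MvPolynomial.induction_on with
  | C k =>
    rw [MvPolynomial.aeval_C, MvPolynomial.aeval_C, MvPolynomial.algebraMap_apply,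
      MvPolynomial.eval_C]
  | add p q hp hq => rw [map_add, map_add, map_add, hp, hq]
  | mul_X p i hp =>
    rw [map_mul, map_mul, map_mul, hp]
    simp

/-- Condition `g1`.
Hint: let `G` be the product of the polynomials, `c₀` a nonzero coefficient (regular by `hint`),
`s₁` the product of `c₀`, of the `t i` for the variables of `G` and of one regular element in each
of the finitely many regular maximal ideals with at most `totalDegree G` residue classes. Modulo
any other regular maximal ideal `G` is a nonzero polynomial over a field with more than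
`totalDegree G` elements (`MvPolynomial.eq_zero_of_eval_zero_at_prod_finset` after renaming to
finitely many variables), and `t i` is invertible. -/
theorem cond_g1 {R : Type u} [CommRing R] [Nontrivial R]
    (hint : ∀ n : ℤ, (n : R) = 0 ∨ (n : R) ∈ nonZeroDivisors R)
    (hres : ∀ q : ℕ, {M : Ideal R | M.IsMaximal ∧ Reg M ∧ Finite (R ⧸ M) ∧
      Nat.card (R ⧸ M) ≤ q}.Finite)
    (r t : ℕ → R) (ht : ∀ i, t i ∈ nonZeroDivisors R)
    (T : Finset (MvPolynomial ℕ (⊥ : Subring R))) (hT : ∀ G ∈ T, G ≠ 0) :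
    ∃ s₁ ∈ nonZeroDivisors R, ∀ M : Ideal R, M.IsMaximal → Reg M → s₁ ∉ M →
      ∃ c : ℕ → R, ∀ G ∈ T, MvPolynomial.aeval (fun i => r i + t i * c i) G ∉ M := by
  classical
  have := cnt3_noZeroDivisors hint
  have hG : (∏ G ∈ T, G) ≠ 0 := Finset.prod_ne_zero_iff.2 hT
  obtain ⟨n, f, hf, q, hq⟩ := MvPolynomial.exists_fin_rename (∏ G ∈ T, G)
  have hq0 : q ≠ 0 := by
    rintro rfl
    rw [map_zero] at hq
    exact hG hq
  obtain ⟨m, hm⟩ := MvPolynomial.ne_zero_iff.1 hq0
  have hc₀ := cnt3_reg hint _ hm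
  have hB := hres q.totalDegree
  have he : ∀ M : Ideal R, ∃ e ∈ nonZeroDivisors R, Reg M → e ∈ M := by
    intro M
    by_cases h : Reg M
    · obtain ⟨x, hx, hx'⟩ := h
      exact ⟨x, hx', fun _ => hx⟩
    · exact ⟨1, one_mem _, fun h' => absurd h' h⟩
  choose e he he' using he
  refine ⟨((q.coeff m : (⊥ : Subring R)) : R) * (∏ j, t (f j)) * ∏ M ∈ hB.toFinset, e M,
    mul_mem (mul_mem hc₀ (prod_mem fun j _ => ht _)) (prod_mem fun M _ => he M), ?_⟩
  intro M hM hreg hs
  have h1 : ((q.coeff m : (⊥ : Subring R)) : R) ∉ M := fun h =>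
    hs (M.mul_mem_right _ (M.mul_mem_right _ h))
  have h2 : ∀ j, t (f j) ∉ M := fun j h =>
    hs (M.mul_mem_right _ (M.mul_mem_left _
      (Ideal.mem_of_dvd M (Finset.dvd_prod_of_mem _ (Finset.mem_univ j)) h)))
  have h3 : M ∉ hB.toFinset := fun h =>
    hs (M.mul_mem_left _ (Ideal.mem_of_dvd M (Finset.dvd_prod_of_mem _ h) (he' M hreg)))
  let _ : Field (R ⧸ M) := Ideal.Quotient.field M
  have hS : ∃ S : Finset (R ⧸ M), q.totalDegree < S.card := by
    rcases finite_or_infinite (R ⧸ M) with hfin | hinf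
    · have := Fintype.ofFinite (R ⧸ M)
      refine ⟨Finset.univ, ?_⟩
      by_contra hlt
      apply h3
      rw [Set.Finite.mem_toFinset]
      refine ⟨hM, hreg, hfin, ?_⟩
      rw [Nat.card_eq_fintype_card, ← Finset.card_univ]
      omega
    · obtain ⟨S, hS⟩ := Infinite.exists_subset_card_eq (R ⧸ M) (q.totalDegree + 1)
      exact ⟨S, by omega⟩
  obtain ⟨S, hS⟩ := hS
  have hw : ∃ w : Fin n → R ⧸ M, MvPolynomial.eval w
      (MvPolynomial.map ((Ideal.Quotient.mk M).comp (⊥ : Subring R).subtype) q) ≠ 0 := by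
    by_contra hcon
    push Not at hcon
    refine cnt3_map_ne M q m h1 (MvPolynomial.eq_zero_of_eval_zero_at_prod_finset _
      (fun _ => S) (fun i => ?_) (fun x _ => hcon x))
    refine lt_of_le_of_lt ?_ hS
    exact (MvPolynomial.degreeOf_le_totalDegree _ i).trans
      (Finset.sup_mono (MvPolynomial.support_map_subset _ _))
  obtain ⟨w, hw⟩ := hw
  have hc : ∀ i : ℕ, ∃ c : R, ∀ j, f j = i → Ideal.Quotient.mk M (r i + t i * c) = w j := by
    intro i
    by_cases hi : ∃ j, f j = i
    · obtain ⟨j, rfl⟩ := hi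
      obtain ⟨c, hc⟩ := Ideal.Quotient.mk_surjective
        ((Ideal.Quotient.mk M (t (f j)))⁻¹ * (w j - Ideal.Quotient.mk M (r (f j))))
      refine ⟨c, fun j' hj' => ?_⟩
      obtain rfl := hf hj'
      have hne : Ideal.Quotient.mk M (t (f j')) ≠ 0 := fun h =>
        h2 j' (Ideal.Quotient.eq_zero_iff_mem.1 h)
      rw [map_add, map_mul, hc, mul_inv_cancel_left₀ hne, add_sub_cancel]
    · exact ⟨0, fun j hj => absurd ⟨j, hj⟩ hi⟩
  choose c hc using hc
  refine ⟨c, fun G hGT hmem => hw ?_⟩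
  have h4 : MvPolynomial.aeval (fun i => r i + t i * c i) (∏ G ∈ T, G) ∈ M :=
    Ideal.mem_of_dvd M (map_dvd _ (Finset.dvd_prod_of_mem (fun G => G) hGT)) hmem
  rw [hq, MvPolynomial.aeval_rename, ← Ideal.Quotient.eq_zero_iff_mem, cnt3_mk_aeval] at h4
  have h5 : (fun j => Ideal.Quotient.mk M (((fun i => r i + t i * c i) ∘ f) j)) = w :=
    funext fun j => hc (f j) j rfl
  rwa [h5] at h4

/-- Condition `g2`.
Hint: for each `P ∈ Ps` the polynomial `G (r + t (y + s Y))` is nonzero modulo `P` (a nonzero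
coefficient of `G`, the `t i` and `s` are regular, so not in `P`). Find a common non-root in `R`:
induct on the variables (or substitute `Y i = T ^ (D ^ i)`); a one-variable polynomial that is
nonzero modulo `P` has finitely many roots in the domain `R ⧸ P`, and `R` is not a finite union of
cosets of the `P` because they have infinite index
(`AddSubgroup.exists_finiteIndex_of_leftCoset_cover`). -/
theorem cond_g2 {R : Type u} [CommRing R] [Nontrivial R] (Ps : Finset (Ideal R))
    (hprime : ∀ P ∈ Ps, P.IsPrime)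
    (hcover : ∀ x : R, x ∈ nonZeroDivisors R ↔ ∀ P ∈ Ps, x ∉ P)
    (hinf : ∀ P ∈ Ps, Infinite (R ⧸ P))
    (hint : ∀ n : ℤ, (n : R) = 0 ∨ (n : R) ∈ nonZeroDivisors R)
    (r t : ℕ → R) (ht : ∀ i, t i ∈ nonZeroDivisors R)
    (G : MvPolynomial ℕ (⊥ : Subring R)) (hG : G ≠ 0) (s : R) (hs : s ∈ nonZeroDivisors R)
    (y : ℕ → R) : ∃ y' : ℕ → R, (∀ i, s ∣ y' i - y i) ∧
      MvPolynomial.aeval (fun i => r i + t i * y' i) G ∈ nonZeroDivisors R := by
  obtain ⟨m, hm⟩ := MvPolynomial.ne_zero_iff.1 hG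
  have hc₀ := cnt3_reg hint _ hm
  have key : ∀ x : ℕ → R, MvPolynomial.eval x (MvPolynomial.aeval
      (fun i => (MvPolynomial.C (r i + t i * y i) + MvPolynomial.C (t i * s) * MvPolynomial.X i :
        MvPolynomial ℕ R)) G) = MvPolynomial.aeval (fun i => r i + t i * (y i + s * x i)) G := by
    intro x
    rw [cnt3_eval_aeval]
    congr 2
    funext i
    ring
  obtain ⟨x, hx⟩ := cnt3_many_var (MvPolynomial.aeval
      (fun i => (MvPolynomial.C (r i + t i * y i) + MvPolynomial.C (t i * s) * MvPolynomial.X i :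
        MvPolynomial ℕ R)) G) Ps hprime hinf (fun P hP => by
    have := hprime P hP
    have := hinf P hP
    by_contra hcon
    push Not at hcon
    refine cnt3_map_ne P G m ((hcover _).1 hc₀ P hP) ?_
    refine MvPolynomial.funext_set (fun i => Set.range (fun a : R ⧸ P =>
      Ideal.Quotient.mk P (r i + t i * y i) + Ideal.Quotient.mk P (t i * s) * a))
      (fun i => Set.infinite_range_of_injective ?_) (fun w hw => ?_)
    · intro a b hab
      have hne : Ideal.Quotient.mk P (t i * s) ≠ 0 := fun h =>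
        (hcover _).1 (mul_mem (ht i) hs) P hP (Ideal.Quotient.eq_zero_iff_mem.1 h)
      exact mul_left_cancel₀ hne (add_left_cancel hab)
    · have hw2 : ∀ i, ∃ a : R, Ideal.Quotient.mk P (r i + t i * (y i + s * a)) = w i := by
        intro i
        obtain ⟨a, ha⟩ := hw i (Set.mem_univ i)
        obtain ⟨a, rfl⟩ := Ideal.Quotient.mk_surjective a
        refine ⟨a, ?_⟩
        rw [← ha]
        simp only [← map_mul, ← map_add]
        congr 1
        ring
      choose x hx using hw2
      have h1 := hcon x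
      rw [key, ← Ideal.Quotient.eq_zero_iff_mem, cnt3_mk_aeval, funext hx] at h1
      rw [h1, map_zero])
  refine ⟨fun i => y i + s * x i, fun i => ⟨x i, by ring⟩, (hcover _).2 fun P hP => ?_⟩
  rw [← key]
  exact hx P hP

/-- Countable rings with few zero divisors and finite character.
Hint: enumerate the pairs `(a, b)` with `b` regular as `(r i, t i)` and the nonzero polynomials as
`F : ℕ → _`; `nonempty_genSeq` with `cond_g1`, `cond_g2` (`τ` the regular value, `u = 1`), then
`hasDomainModel_of_genSeq`. -/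
theorem hasDomainModel_of_countable {R : Type u} [CommRing R] [Nontrivial R] [Countable R]
    (Ps : Finset (Ideal R)) (hprime : ∀ P ∈ Ps, P.IsPrime)
    (hcover : ∀ x : R, x ∈ nonZeroDivisors R ↔ ∀ P ∈ Ps, x ∉ P)
    (hinf : ∀ P ∈ Ps, Infinite (R ⧸ P))
    (hint : ∀ n : ℤ, (n : R) = 0 ∨ (n : R) ∈ nonZeroDivisors R)
    (hfc : ∀ s ∈ nonZeroDivisors R, {M : Ideal R | M.IsMaximal ∧ s ∈ M}.Finite)
    (s₀ : R) (hs₀ : s₀ ∈ nonZeroDivisors R)
    (hloc : ∀ P M M' : Ideal R, P.IsPrime → Reg P → M.IsMaximal → M'.IsMaximal → M ≠ M' →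
      P ≤ M → P ≤ M' → s₀ ∈ M')
    (hres : ∀ q : ℕ, {M : Ideal R | M.IsMaximal ∧ Reg M ∧ Finite (R ⧸ M) ∧
      Nat.card (R ⧸ M) ≤ q}.Finite) :
    HasDomainModel.{u, u} R := by
  classical
  obtain ⟨e, he⟩ := exists_surjective_nat (R × nonZeroDivisors R)
  have : Countable (MvPolynomial ℕ (⊥ : Subring R)) :=
    AddMonoidAlgebra.coeff_injective.countable
  have : Nonempty {G : MvPolynomial ℕ (⊥ : Subring R) // G ≠ 0} := ⟨⟨1, one_ne_zero⟩⟩
  obtain ⟨F, hF⟩ := exists_surjective_nat {G : MvPolynomial ℕ (⊥ : Subring R) // G ≠ 0}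
  have ht : ∀ i, ((e i).2 : R) ∈ nonZeroDivisors R := fun i => (e i).2.2
  obtain ⟨g⟩ := nonempty_genSeq (fun j : ℕ => MvPolynomial.aeval
      (fun i => (MvPolynomial.C (e i).1 + MvPolynomial.C ((e i).2 : R) * MvPolynomial.X i :
        MvPolynomial ℕ R)) (F j).1) hfc s₀ hs₀ hloc
    (fun T => by
      obtain ⟨s₁, hs₁, h⟩ := cond_g1 hint hres (fun i => (e i).1) (fun i => ((e i).2 : R)) ht
        (T.image fun j => (F j).1) (fun G hG => by
          obtain ⟨j, -, rfl⟩ := Finset.mem_image.1 hG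
          exact (F j).2)
      refine ⟨s₁, hs₁, fun M hM hreg hs => ?_⟩
      obtain ⟨c, hc⟩ := h M hM hreg hs
      refine ⟨c, fun j hj => ?_⟩
      rw [cnt3_eval_aeval]
      exact hc _ (Finset.mem_image_of_mem _ hj))
    (fun j s hs _ y => by
      obtain ⟨y', hy, h⟩ := cond_g2 Ps hprime hcover hinf hint (fun i => (e i).1)
        (fun i => ((e i).2 : R)) ht (F j).1 (F j).2 s hs y
      refine ⟨_, h, y', hy, fun M hM _ => ⟨1, fun h1 => hM.ne_top ((Ideal.eq_top_iff_one M).2 h1),
        ?_⟩⟩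
      rw [cnt3_eval_aeval, one_mul])
  refine hasDomainModel_of_genSeq hint (fun i => (e i).1) (fun i => ((e i).2 : R))
    (fun a b hb => ?_) (fun j : ℕ => (F j).1) (fun G hG => ?_) g
  · obtain ⟨i, hi⟩ := he (a, ⟨b, hb⟩)
    exact ⟨i, by simp [hi], by simp [hi]⟩
  · obtain ⟨j, hj⟩ := hF ⟨G, hG⟩
    exact ⟨j, by simp [hj]⟩

end Pool.Agent.MP_f1fec5_al.Aff
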