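import Pool.Agent.MP_f1fec5_al.Aff.Fld

section

namespace Pool.Agent.MP_f1fec5_al.Aff

open Polynomial

universe u v

/-- Adjoining finitely many integral elements gives a finite extension. -/
theorem lamA_fin {k : Type u} [Field k] (A : Subfield k) {X : Set k} (hX : X.Finite)
    (h : ∀ x ∈ X, IsIntegral A x) :
    A.relrank (IntermediateField.adjoin A X).toSubfield < Cardinal.aleph0 := by
  have := hX.to_subtype
  have hle : A ≤ (IntermediateField.adjoin A X).toSubfield := fun x hx =>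
    (IntermediateField.adjoin A X).algebraMap_mem ⟨x, hx⟩
  have := IntermediateField.finiteDimensional_adjoin h
  rw [Subfield.relrank_eq_rank_of_le hle]
  exact Module.rank_lt_aleph0 A (IntermediateField.adjoin A X)

/-- The degree over the image of an endomorphism does not change in a finite extension. -/
theorem lamA_eq {k : Type u} [Field k] (f : k →+* k) {F L : Subfield k} (h : F ≤ L)
    (hF : F.map f ≤ F) (hL : L.map f ≤ L) (h1 : F.relrank L < Cardinal.aleph0) :
    (L.map f).relrank L = (F.map f).relrank F := by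
  have e1 := Subfield.relrank_mul_relrank ((Subfield.gc_map_comap f).monotone_l h) hL
  have e2 := Subfield.relrank_mul_relrank hF h
  rw [Subfield.relrank_map_map, ← e2, mul_comm] at e1
  have h0 : F.relrank L ≠ 0 := by
    rw [Subfield.relrank_eq_rank_of_le h]
    exact rank_pos.ne'
  obtain ⟨n, hn⟩ := Cardinal.lt_aleph0.1 h1
  rw [hn] at e1 h0
  exact (Cardinal.mul_natCast_inj (by simpa using h0)).1 e1

/-- Finite degree of imperfection.
Hint: `k₁ = {α | α ^ p ∈ k'}` is a subfield containing `k'`, and `k₁ ^ p ⊆ k'`; it suffices to bound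
the dimension of `k₁` over `k₁ ^ p` by `p ^ d`. Any finitely many elements of `k₁` lie in a finite
extension `k₂` of `F₀ = 𝔽_p(τ)`, `τ` a transcendence basis of `k₁`, and
`[k₂ : k₂ ^ p] = [F₀ : F₀ ^ p] ≤ p ^ d` (Frobenius is an isomorphism onto the `p`-th powers,
monomials span). -/
theorem exists_span_pthRoots {k : Type u} [Field k] (p : ℕ) [Fact p.Prime] [CharP k p]
    (hfin : Algebra.trdeg (⊥ : Subfield k) k < Cardinal.aleph0) (k' : Subfield k) :
    ∃ t : Finset k, (∀ κ ∈ t, κ ^ p ∈ k') ∧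
      ∀ α : k, α ^ p ∈ k' → α ∈ Submodule.span k' (t : Set k) := by
  classical
  have hp : p ≠ 0 := (Fact.out : p.Prime).ne_zero
  let f := frobenius k p
  let K : Subfield k := k'.comap f
  have hm : ∀ L : Subfield k, L.map f ≤ L := by
    rintro L _ ⟨x, hx, rfl⟩
    exact L.pow_mem hx p
  have hk : k' ≤ K := fun x hx => k'.pow_mem hx p
  obtain ⟨s, hs⟩ := (AlgebraicIndependent.matroid (⊥ : Subfield k) k).exists_isBasis (K : Set k)
  obtain ⟨h1, h2, h3⟩ := AlgebraicIndependent.matroid_isBasis_iff.1 hs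
  have hsf : s.Finite := Cardinal.lt_aleph0_iff_set_finite.1 (h1.cardinalMk_le_trdeg.trans_lt hfin)
  let F : Subfield k := (IntermediateField.adjoin (⊥ : Subfield k) s).toSubfield
  have adj : ∀ (A B : Subfield k) (X : Set k), A ≤ B → X ⊆ B →
      (IntermediateField.adjoin A X).toSubfield ≤ B := fun A B X hA hX => by
    rw [IntermediateField.adjoin_toSubfield, Subfield.closure_le]
    rintro x (⟨y, rfl⟩ | hx)
    exacts [hA y.2, hX hx]
  have adj' : ∀ (A : Subfield k) (X : Set k), A ≤ (IntermediateField.adjoin A X).toSubfield :=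
    fun A X x hx => (IntermediateField.adjoin A X).algebraMap_mem ⟨x, hx⟩
  have hsF : s ⊆ F := IntermediateField.subset_adjoin _ _
  have hFK : F ≤ K := adj _ _ _ bot_le h2
  have hF : (F.map f).relrank F < Cardinal.aleph0 := by
    have e : (IntermediateField.adjoin (F.map f) s).toSubfield = F :=
      le_antisymm (adj _ _ _ (hm F) hsF)
        (adj _ _ _ bot_le (IntermediateField.subset_adjoin (F.map f) s))
    have := lamA_fin (F.map f) hsf fun x hx => IsIntegral.of_pow (Nat.pos_of_ne_zero hp)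
      (isIntegral_algebraMap (x := (⟨x ^ p, x, hsF hx, rfl⟩ : F.map f)))
    rwa [e] at this
  obtain ⟨n, hn⟩ := Cardinal.lt_aleph0.1 hF
  let V : Submodule k' k := (Subfield.extendScalars hk).toSubmodule
  have hV : Module.rank k' V ≤ n := rank_le fun X hX => by
    let Y : Set k := (fun x : V => (x : k)) '' X
    let L : Subfield k := (IntermediateField.adjoin F Y).toSubfield
    have hYK : Y ⊆ K := by
      rintro _ ⟨x, -, rfl⟩
      exact x.2
    have hLK : L ≤ K := adj _ _ _ hFK hYK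
    have hL : F.relrank L < Cardinal.aleph0 := lamA_fin F (X.finite_toSet.image _) fun x hx =>
      (IntermediateField.isAlgebraic_adjoin_iff.2 (h3 x (hYK hx))).isIntegral
    have e := lamA_eq f (adj' F Y) (hm F) (hm L) hL
    rw [hn, Subfield.relrank_eq_rank_of_le (hm L)] at e
    have hle : L.map f ≤ k' := by
      rintro _ ⟨x, hx, rfl⟩
      exact hLK hx
    have li : LinearIndependent (L.map f) fun x : X => (⟨(x.1 : k),
        IntermediateField.subset_adjoin F Y ⟨x.1, x.2, rfl⟩⟩ : Subfield.extendScalars (hm L)) := by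
      rw [Fintype.linearIndependent_iff] at hX ⊢
      intro g hg i
      have := hX (fun i => ⟨g i, hle (g i).2⟩) (Subtype.ext (by
        simpa [Subfield.smul_def] using congrArg Subtype.val hg)) i
      exact Subtype.ext (congrArg (fun z : k' => (z : k)) this)
    have := li.cardinal_lift_le_rank
    rw [e] at this
    simpa using this
  have : Module.Finite k' V := Module.rank_lt_aleph0_iff.1 (hV.trans_lt (Cardinal.natCast_lt_aleph0))
  obtain ⟨t, ht⟩ := Module.Finite.iff_fg.1 this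
  refine ⟨t, fun κ hκ => ?_, fun α hα => ?_⟩
  · have : κ ∈ V := ht ▸ Submodule.subset_span hκ
    exact this
  · rw [ht]
    exact hα

end Pool.Agent.MP_f1fec5_al.Aff

end

section

namespace Pool.Agent.MP_f1fec5_al.Aff

open Polynomial

universe u v

/-- adjoining `p`-th roots: the field generated is spanned by the monomials -/
theorem lamB_span {L : Type u} [Field L] {p : ℕ} (hp : p ≠ 0) (N : Subfield L) (A : Set L)
    (hA : ∀ a ∈ A, a ^ p ∈ N) {x : L} (hx : x ∈ Subfield.closure ((N : Set L) ∪ A)) :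
    x ∈ Submodule.span N (Submonoid.closure A : Set L) := by
  have halg : ∀ a ∈ A, IsAlgebraic N a := by
    intro a ha
    refine IsAlgebraic.of_pow (Nat.pos_of_ne_zero hp) ?_
    exact isAlgebraic_algebraMap (⟨a ^ p, hA a ha⟩ : N)
  have hr : Set.range (algebraMap N L) = (N : Set L) := by
    ext z
    constructor
    · rintro ⟨c, rfl⟩; exact c.2
    · intro hz; exact ⟨⟨z, hz⟩, rfl⟩
  have h1 : x ∈ IntermediateField.adjoin N A := by
    change x ∈ (IntermediateField.adjoin N A).toSubfield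
    rw [IntermediateField.adjoin_toSubfield, hr]
    exact hx
  have h2 : x ∈ Algebra.adjoin N A := by
    rw [← IntermediateField.adjoin_toSubalgebra_of_isAlgebraic halg]
    exact h1
  rw [← Algebra.adjoin_eq_span]
  exact h2

/-- one step: the coefficient of `1` with respect to the powers of `t` -/
theorem lamB_step {L : Type u} [Field L] (p : ℕ) [Fact p.Prime] [CharP L p] (E : Subfield L)
    (t : L) (htp : t ^ p ∈ E) (ht : t ∉ E) :
    ∃ ρ : L →+ L, ρ 1 = 1 ∧ (∀ a ∈ E, ∀ x, ρ (a * x) = a * ρ x) ∧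
      ∀ N : Subfield L, N ≤ E → t ^ p ∈ N →
        ∀ x ∈ Subfield.closure ((N : Set L) ∪ {t}), ρ x ∈ N := by
  have hp : p.Prime := Fact.out
  have hirr : Irreducible (X ^ p - C (⟨t ^ p, htp⟩ : E)) := by
    refine X_pow_sub_C_irreducible_of_prime hp fun b hb => ht ?_
    have h1 : (b : L) ^ p = t ^ p := by simpa using congrArg Subtype.val hb
    have h2 : (b : L) = t := frobenius_inj L p h1
    exact h2 ▸ b.2
  have hmin : X ^ p - C (⟨t ^ p, htp⟩ : E) = minpoly E t :=
    minpoly.eq_of_irreducible_of_monic hirr (by simp [Subfield.algebraMap_ofSubfield])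
      (monic_X_pow_sub_C _ hp.ne_zero)
  have hdeg : (minpoly E t).natDegree = p := by rw [← hmin, natDegree_X_pow_sub_C]
  have hli := linearIndependent_pow (K := E) t
  have h0 : 0 < (minpoly E t).natDegree := hdeg ▸ hp.pos
  obtain ⟨g, hg⟩ := LinearMap.exists_extend
    ((Finsupp.lapply (⟨0, h0⟩ : Fin (minpoly E t).natDegree)).comp hli.repr)
  have hgi : ∀ i : Fin (minpoly E t).natDegree, g (t ^ (i : ℕ)) = if (i : ℕ) = 0 then 1 else 0 := by
    intro i
    have h1 := LinearMap.congr_fun hg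
      ⟨t ^ (i : ℕ), Submodule.subset_span (Set.mem_range_self i)⟩
    simp only [LinearMap.comp_apply, Submodule.subtype_apply, Finsupp.lapply_apply] at h1
    rw [h1, hli.repr_eq_single i _ rfl, Finsupp.single_apply]
    simp [Fin.ext_iff]
  have hlin : ∀ a ∈ E, ∀ x, ((g (a * x) : E) : L) = a * g x := by
    intro a ha x
    have : a * x = (⟨a, ha⟩ : E) • x := rfl
    rw [this, map_smul]
    rfl
  refine ⟨(E.subtype.toAddMonoidHom).comp g.toAddMonoidHom, ?_, hlin, fun N hN htN x hx => ?_⟩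
  · have := hgi ⟨0, h0⟩
    simp only [pow_zero, if_true] at this
    change ((g 1 : E) : L) = 1
    rw [this]; rfl
  · change ((g x : E) : L) ∈ N
    have hx' := lamB_span hp.ne_zero N {t} (by simpa using htN) hx
    refine Submodule.span_induction (p := fun z _ => ((g z : E) : L) ∈ N) ?_ ?_ ?_ ?_ hx'
    · intro z hz
      obtain ⟨m, rfl⟩ := Submonoid.mem_closure_singleton.1 hz
      have hm : m % p < (minpoly E t).natDegree := hdeg.symm ▸ Nat.mod_lt _ hp.pos
      have e : t ^ m = (t ^ p) ^ (m / p) * t ^ (m % p) := by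
        rw [← pow_mul, ← pow_add, Nat.div_add_mod]
      rw [e, hlin _ (pow_mem htp _), hgi ⟨m % p, hm⟩]
      refine mul_mem (pow_mem htN _) ?_
      split_ifs
      · exact one_mem N
      · exact zero_mem N
    · rw [map_zero]; exact zero_mem N
    · intro y z _ _ hy hz
      rw [map_add]; exact add_mem hy hz
    · intro c z _ hz
      have : c • z = (c : L) * z := rfl
      rw [this, hlin _ (hN c.2)]
      exact mul_mem c.2 hz

theorem lamB_closure_insert {L : Type u} [Field L] (N : Subfield L) (y : Set L) (t : L) :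
    Subfield.closure ((N : Set L) ∪ insert t y) ≤
      Subfield.closure ((Subfield.closure ((N : Set L) ∪ y) : Set L) ∪ {t}) := by
  refine Subfield.closure_le.2 ?_
  rintro z (hz | rfl | hz)
  · exact Subfield.subset_closure (Or.inl (Subfield.subset_closure (Or.inl hz)))
  · exact Subfield.subset_closure (Or.inr rfl)
  · exact Subfield.subset_closure (Or.inl (Subfield.subset_closure (Or.inr hz)))

/-- a `p`-basis inside `w` and the coefficient of the monomial `1` -/
theorem lamB_basis {L : Type u} [Field L] (p : ℕ) [Fact p.Prime] [CharP L p] (E : Subfield L)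
    (hE : ∀ z : L, z ^ p ∈ E) (w : Finset L) :
    ∃ (y : Finset L) (ρ : L →+ L), y ⊆ w ∧
      (w : Set L) ⊆ Subfield.closure ((E : Set L) ∪ y) ∧ ρ 1 = 1 ∧
      (∀ a ∈ E, ∀ x, ρ (a * x) = a * ρ x) ∧
      ∀ N : Subfield L, N ≤ E → (∀ t ∈ y, t ^ p ∈ N) →
        ∀ x ∈ Subfield.closure ((N : Set L) ∪ y), ρ x ∈ N := by
  classical
  induction w using Finset.induction_on with
  | empty =>
    refine ⟨∅, AddMonoidHom.id L, subset_rfl, by simp, rfl, fun _ _ _ => rfl, fun N _ _ x hx => ?_⟩
    simpa using hx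
  | insert t w _ ih =>
    obtain ⟨y, ρ, hy, hw, h1, hlin, hN⟩ := ih
    by_cases ht : t ∈ Subfield.closure ((E : Set L) ∪ y)
    · refine ⟨y, ρ, hy.trans (Finset.subset_insert _ _), ?_, h1, hlin, hN⟩
      rw [Finset.coe_insert]
      exact Set.insert_subset ht hw
    · have hEE : E ≤ Subfield.closure ((E : Set L) ∪ y) := fun z hz =>
        Subfield.subset_closure (Or.inl hz)
      obtain ⟨ρ', h1', hlin', hN'⟩ := lamB_step p _ t (hEE (hE t)) ht
      refine ⟨insert t y, ρ.comp ρ', Finset.insert_subset_insert _ hy, ?_, ?_, ?_, ?_⟩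
      · rw [Finset.coe_insert, Finset.coe_insert]
        refine Set.insert_subset (Subfield.subset_closure (Or.inr (Set.mem_insert _ _))) ?_
        exact hw.trans (Subfield.closure_mono
          (Set.union_subset_union_right _ (Set.subset_insert _ _)))
      · simp [h1, h1']
      · intro a ha x
        simp only [AddMonoidHom.comp_apply]
        rw [hlin' a (hEE ha), hlin a ha]
      · intro N hNE hNy x hx
        rw [Finset.coe_insert] at hx
        refine hN N hNE (fun s hs => hNy s (Finset.mem_insert_of_mem hs)) _ ?_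
        refine hN' _ (Subfield.closure_mono (Set.union_subset_union_left _ hNE)) ?_ x
          (lamB_closure_insert N _ t hx)
        exact Subfield.subset_closure (Or.inl (hNy t (Finset.mem_insert_self _ _)))

/-- the elements whose high `p`-power powers lie in given subfields -/
def lamB_ev {L : Type u} [Field L] (p : ℕ) [Fact p.Prime] [CharP L p] (G : ℕ → Subfield L) :
    Subfield L where
  carrier := {z | ∀ᶠ e in Filter.atTop, z ^ p ^ e ∈ G e}
  mul_mem' := fun {a b} ha hb => by
    filter_upwards [ha, hb] with e h1 h2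
    rw [mul_pow]; exact mul_mem h1 h2
  one_mem' := Filter.Eventually.of_forall fun e => by rw [one_pow]; exact one_mem _
  add_mem' := fun {a b} ha hb => by
    filter_upwards [ha, hb] with e h1 h2
    rw [add_pow_char_pow]; exact add_mem h1 h2
  zero_mem' := Filter.Eventually.of_forall fun e => by
    rw [zero_pow (pow_ne_zero _ (Fact.out : p.Prime).ne_zero)]; exact zero_mem _
  neg_mem' := fun {a} ha => by
    filter_upwards [ha] with e h1
    have : (-a) ^ p ^ e = -a ^ p ^ e := map_neg (iterateFrobenius L p e) a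
    rw [this]; exact neg_mem h1
  inv_mem' := fun a ha => by
    filter_upwards [ha] with e h1
    rw [inv_pow]; exact inv_mem h1

theorem lamB_top {k L : Type u} [Field k] [Field L] [Algebra k L] {w : Set L}
    (hw : IntermediateField.adjoin k w = ⊤) (F : Subfield L)
    (h1 : ∀ α : k, algebraMap k L α ∈ F) (h2 : w ⊆ F) (z : L) : z ∈ F := by
  have hz : z ∈ (IntermediateField.adjoin k w).toSubfield := by rw [hw]; trivial
  rw [IntermediateField.adjoin_toSubfield] at hz
  refine Subfield.closure_le.2 ?_ hz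
  rintro x (⟨α, rfl⟩ | hx)
  · exact h1 α
  · exact h2 hx

theorem lamB_pow_mem {k : Type u} [Field k] {p : ℕ} {k' : Subfield k} {α : k} {j e : ℕ}
    (h : α ^ p ^ j ∈ k') (hje : j ≤ e) : α ^ p ^ e ∈ k' := by
  obtain ⟨d, rfl⟩ := Nat.exists_eq_add_of_le hje
  rw [pow_add, pow_mul]
  exact pow_mem h _

/-- iterating a Frobenius splitting -/
theorem lamB_iter {k L : Type u} [Field k] [PerfectField k] [Field L] [Algebra k L] (p : ℕ)
    [Fact p.Prime] [CharP k p] (k' : Subfield k) (K₀ : Subfield L) (σ : L →+ L) (h1 : σ 1 = 1)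
    (hlin : ∀ a x, σ (a ^ p * x) = a * σ x)
    (hK : ∀ x ∈ K₀, σ x ∈ Submodule.span K₀ (algebraMap k L '' {α : k | α ^ p ∈ k'})) (j : ℕ) :
    ∃ τ : L →+ L, τ 1 = 1 ∧ (∀ a x, τ (a ^ p ^ j * x) = a * τ x) ∧
      ∀ x ∈ K₀, τ x ∈ Submodule.span K₀ (algebraMap k L '' {α : k | α ^ p ^ j ∈ k'}) := by
  induction j with
  | zero =>
    refine ⟨AddMonoidHom.id L, rfl, fun a x => by simp, fun x hx => ?_⟩
    have h : (1 : L) ∈ Submodule.span K₀ (algebraMap k L '' {α : k | α ^ p ^ 0 ∈ k'}) :=
      Submodule.subset_span ⟨1, by simp, map_one _⟩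
    have := Submodule.smul_mem _ (⟨x, hx⟩ : K₀) h
    simpa [Subfield.smul_def] using this
  | succ j ih =>
    obtain ⟨τ, t1, tlin, tK⟩ := ih
    refine ⟨σ.comp τ, by simp [h1, t1], fun a x => ?_, fun x hx => ?_⟩
    · simp only [AddMonoidHom.comp_apply]
      rw [pow_succ', pow_mul, tlin, hlin]
    · have key : ∀ z ∈ Submodule.span K₀ (algebraMap k L '' {α : k | α ^ p ^ j ∈ k'}),
          ∀ c ∈ K₀, σ (c * z) ∈
            Submodule.span K₀ (algebraMap k L '' {α : k | α ^ p ^ (j + 1) ∈ k'}) := by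
        intro z hz
        refine Submodule.span_induction (p := fun z _ => ∀ c ∈ K₀, σ (c * z) ∈
            Submodule.span K₀ (algebraMap k L '' {α : k | α ^ p ^ (j + 1) ∈ k'})) ?_ ?_ ?_ ?_ hz
        · rintro _ ⟨α, hα, rfl⟩ c hc
          obtain ⟨β, rfl⟩ := surjective_frobenius k p α
          have hβ : β ^ p ^ (j + 1) ∈ k' := by
            rw [pow_succ', pow_mul]; exact hα
          rw [frobenius_def, map_pow, mul_comm, hlin]
          refine Submodule.span_induction (p := fun z _ => algebraMap k L β * z ∈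
            Submodule.span K₀ (algebraMap k L '' {α : k | α ^ p ^ (j + 1) ∈ k'})) ?_ ?_ ?_ ?_
            (hK c hc)
          · rintro _ ⟨γ, hγ, rfl⟩
            refine Submodule.subset_span ⟨β * γ, ?_, map_mul _ _ _⟩
            change (β * γ) ^ p ^ (j + 1) ∈ k'
            rw [mul_pow]
            exact mul_mem hβ (lamB_pow_mem (j := 1) (by rw [pow_one]; exact hγ) (by omega))
          · rw [mul_zero]; exact zero_mem _
          · intro u v _ _ hu hv
            rw [mul_add]; exact add_mem hu hv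
          · intro d u _ hu
            rw [mul_smul_comm]; exact Submodule.smul_mem _ _ hu
        · intro c _
          rw [mul_zero, map_zero]; exact zero_mem _
        · intro u v _ _ hu hv c hc
          rw [mul_add, map_add]; exact add_mem (hu c hc) (hv c hc)
        · intro d u _ hu c hc
          have : c * d • u = (c * d) * u := by rw [mul_assoc]; rfl
          rw [this]
          exact hu _ (mul_mem hc d.2)
      simpa using key _ (tK x hx) 1 (one_mem _)

/-- Projections onto `p ^ j`-th powers that preserve a finitely generated model.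
Hint: `L = L^p(w)` since `k ⊆ L^p`; choose a minimal subfamily `y` of `w` with `L = L^p(y)`; the
monomials `y ^ a`, `a < p`, are a basis of `L` over `L^p`, and `y ^ a`, `a < p ^ j`, are a basis
over `L^(p^j)`; `π` is the coefficient of the monomial `1`. The coefficients of the `w i` in the
basis lie in `k₁(w ^ p)` with `k₁` finitely generated over `k'`, so `k₁ ^ q ⊆ k'` for a power `q`
of `p`. Take `K₀ = k'(y, w ^ q)`; then `K₀ = (k' K₀^p)(y)`, so `K₀ = (k' K₀^(p^j))(y)` is spanned by
the monomials over `k' K₀^(p^j) ⊆ K₀ ∩ L^(p^j)`, and `k K₀ = L`. If `u ^ p ∈ K₀` then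
`u ^ p = π (u ^ p) ∈ k' K₀^p` (case `j = 1`). -/
theorem exists_proj {k L : Type u} [Field k] [PerfectField k] [Field L] [Algebra k L] (p : ℕ)
    [Fact p.Prime] [CharP k p] (w : Finset L)
    (hw : IntermediateField.adjoin k (w : Set L) = ⊤) (k' : Subfield k)
    (hk' : ∀ α : k, ∃ j : ℕ, α ^ p ^ j ∈ k') :
    ∃ (K₀ : Subfield L) (s : Finset L),
      K₀ = Subfield.closure (algebraMap k L '' k' ∪ s) ∧
      K₀ ≤ Subfield.closure (algebraMap k L '' k' ∪ w) ∧
      (∀ z : L, ∃ e : ℕ, z ^ p ^ e ∈ K₀) ∧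
      (∀ u : L, u ^ p ∈ K₀ →
        u ∈ Submodule.span K₀ (algebraMap k L '' {α : k | α ^ p ∈ k'})) ∧
      ∀ j : ℕ, ∃ π : L →+ L, π 1 = 1 ∧ (∀ x, ∃ x₀, π x = x₀ ^ p ^ j) ∧
        (∀ a x, π (a ^ p ^ j * x) = a ^ p ^ j * π x) ∧ ∀ x ∈ K₀, π x ∈ K₀ := by
  classical
  have hp : p.Prime := Fact.out
  have : CharP L p := charP_of_injective_algebraMap (algebraMap k L).injective p
  let E : Subfield L := (frobenius L p).fieldRange
  have hE : ∀ z : L, z ^ p ∈ E := fun z => ⟨z, rfl⟩
  have hkE : ∀ α : k, algebraMap k L α ∈ E := by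
    intro α
    obtain ⟨β, rfl⟩ := surjective_frobenius k p α
    rw [frobenius_def, map_pow]
    exact hE _
  obtain ⟨y, ρ, hy, hwy, ρ1, ρlin, ρN⟩ := lamB_basis p E hE w
  have htop : ∀ z, z ∈ Subfield.closure ((E : Set L) ∪ y) :=
    lamB_top hw _ (fun α => Subfield.subset_closure (Or.inl (hkE α))) hwy
  have hρE : ∀ x, ∃ x₀, x₀ ^ p = ρ x := fun x => ρN E le_rfl (fun t _ => hE t) x (htop x)
  choose σ₀ hσ₀ using hρE
  have finj : ∀ {a b : L}, a ^ p = b ^ p → a = b := fun h => frobenius_inj L p h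
  let σ : L →+ L := AddMonoidHom.mk' σ₀ fun a b => finj (by
    rw [add_pow_char, hσ₀, hσ₀, hσ₀, map_add])
  have hσ : ∀ x, σ x ^ p = ρ x := hσ₀
  have σ1 : σ 1 = 1 := finj (by rw [hσ, ρ1, one_pow])
  have σlin : ∀ a x, σ (a ^ p * x) = a * σ x := fun a x =>
    finj (by rw [hσ, mul_pow, hσ, ρlin _ (hE a)])
  let s : ℕ → Finset L := fun e => y ∪ w.image (· ^ p ^ (e + 1))
  let G : ℕ → Subfield L := fun e => Subfield.closure (algebraMap k L '' k' ∪ s e)
  have Gk : ∀ e, ∀ α ∈ k', algebraMap k L α ∈ G e := fun e α hα =>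
    Subfield.subset_closure (Or.inl ⟨α, hα, rfl⟩)
  have Gy : ∀ e, ∀ t ∈ y, t ∈ G e := fun e t ht =>
    Subfield.subset_closure (Or.inr (Finset.mem_coe.2 (Finset.mem_union_left _ ht)))
  have Gw : ∀ e, ∀ t ∈ w, t ^ p ^ (e + 1) ∈ G e := fun e t ht =>
    Subfield.subset_closure (Or.inr (Finset.mem_coe.2
      (Finset.mem_union_right _ (Finset.mem_image_of_mem _ ht))))
  have evk : ∀ (H : ℕ → Subfield L), (∀ e, ∀ α ∈ k', algebraMap k L α ∈ H e) →
      ∀ α : k, algebraMap k L α ∈ lamB_ev p H := by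
    intro H hH α
    obtain ⟨j, hj⟩ := hk' α
    change ∀ᶠ e in Filter.atTop, algebraMap k L α ^ p ^ e ∈ H e
    filter_upwards [Filter.eventually_ge_atTop j] with e he
    rw [← map_pow]
    exact hH e _ (lamB_pow_mem hj he)
  have hZ : ∀ z, z ∈ lamB_ev p G := by
    have hpow : ∀ z : L, z ∈ (lamB_ev p G).comap (frobenius L p) := by
      refine lamB_top hw _ (fun α => ?_) fun t ht => ?_
      · change algebraMap k L α ^ p ∈ lamB_ev p G
        exact pow_mem (evk G Gk α) _
      · change ∀ᶠ e in Filter.atTop, (t ^ p) ^ p ^ e ∈ G e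
        refine Filter.Eventually.of_forall fun e => ?_
        rw [← pow_mul, ← pow_succ']
        exact Gw e t ht
    intro z
    refine Subfield.closure_le.2 ?_ (htop z)
    rintro x (⟨x₀, rfl⟩ | hx)
    · exact hpow x₀
    · change ∀ᶠ e in Filter.atTop, x ^ p ^ e ∈ G e
      exact Filter.Eventually.of_forall fun e => pow_mem (Gy e x hx) _
  obtain ⟨e, he⟩ : ∃ e, ∀ t ∈ w, t ^ p ^ e ∈ G e :=
    ((Filter.eventually_all_finset w).2 fun t _ => hZ t).exists
  let A : Set L := algebraMap k L '' {α : k | α ^ p ∈ k'}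
  have hA : ∀ a ∈ A, a ^ p ∈ G e := by
    rintro _ ⟨α, hα, rfl⟩
    rw [← map_pow]
    exact Gk e _ hα
  have hAc : (Submonoid.closure A : Set L) ⊆ A := by
    intro a ha
    refine Submonoid.closure_induction (motive := fun a _ => a ∈ A) (fun _ h => h)
      ⟨1, by simp, map_one _⟩ ?_ ha
    rintro _ _ _ _ ⟨α, hα, rfl⟩ ⟨β, hβ, rfl⟩
    refine ⟨α * β, ?_, map_mul _ _ _⟩
    change (α * β) ^ p ∈ k'
    rw [mul_pow]
    exact mul_mem hα hβ
  let M : Subfield L := Subfield.closure ((G e : Set L) ∪ A)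
  let N : Subfield L := M.map (frobenius L p)
  have hMN : ∀ z ∈ M, z ^ p ∈ N := fun z hz => ⟨z, hz, rfl⟩
  have hGM : G e ≤ M := fun z hz => Subfield.subset_closure (Or.inl hz)
  have hNE : N ≤ E := by
    rintro _ ⟨z, -, rfl⟩
    exact ⟨z, rfl⟩
  have hGN : G e ≤ Subfield.closure ((N : Set L) ∪ y) := by
    refine Subfield.closure_le.2 ?_
    rintro x (⟨α, hα, rfl⟩ | hx)
    · obtain ⟨β, rfl⟩ := surjective_frobenius k p α
      refine Subfield.subset_closure (Or.inl ?_)
      rw [frobenius_def, map_pow]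
      exact hMN _ (Subfield.subset_closure (Or.inr ⟨β, hα, rfl⟩))
    · rcases Finset.mem_union.1 (Finset.mem_coe.1 hx) with hx | hx
      · exact Subfield.subset_closure (Or.inr hx)
      · obtain ⟨t, ht, rfl⟩ := Finset.mem_image.1 hx
        refine Subfield.subset_closure (Or.inl ?_)
        rw [pow_succ, pow_mul]
        exact hMN _ (hGM (he t ht))
  have hσK : ∀ x ∈ G e, σ x ∈ Submodule.span (G e) A := by
    intro x hx
    obtain ⟨z, hz, hz'⟩ := ρN N hNE (fun t ht => hMN t (hGM (Gy e t ht))) x (hGN hx)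
    have : σ x = z := finj (by rw [hσ]; exact hz'.symm)
    rw [this]
    exact Submodule.span_mono hAc (lamB_span hp.ne_zero (G e) A hA hz)
  refine ⟨G e, s e, rfl, ?_, fun z => ?_, fun u hu => ?_, fun j => ?_⟩
  · refine Subfield.closure_le.2 ?_
    rintro x (hx | hx)
    · exact Subfield.subset_closure (Or.inl hx)
    · rcases Finset.mem_union.1 (Finset.mem_coe.1 hx) with hx | hx
      · exact Subfield.subset_closure (Or.inr (hy hx))
      · obtain ⟨t, ht, rfl⟩ := Finset.mem_image.1 hx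
        have h1 : t ∈ Subfield.closure (algebraMap k L '' k' ∪ (w : Set L)) :=
          Subfield.subset_closure (Or.inr (Finset.mem_coe.2 ht))
        exact pow_mem h1 _
  · have : z ∈ lamB_ev p fun _ => G e := by
      refine lamB_top hw _ (evk _ fun _ => Gk e) (fun t ht => ?_) z
      change ∀ᶠ e' in Filter.atTop, t ^ p ^ e' ∈ G e
      filter_upwards [Filter.eventually_ge_atTop e] with e' he'
      exact lamB_pow_mem (he t ht) he'
    exact Filter.Eventually.exists this
  · have := hσK _ hu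
    rwa [← mul_one (u ^ p), σlin, σ1, mul_one] at this
  · obtain ⟨τ, t1, tlin, tK⟩ := lamB_iter p k' (G e) σ σ1 σlin hσK j
    refine ⟨(iterateFrobenius L p j).toAddMonoidHom.comp τ, ?_, fun x => ⟨τ x, rfl⟩,
      fun a x => ?_, fun x hx => ?_⟩
    · change τ 1 ^ p ^ j = 1
      rw [t1, one_pow]
    · change τ (a ^ p ^ j * x) ^ p ^ j = a ^ p ^ j * τ x ^ p ^ j
      rw [tlin, mul_pow]
    · change τ x ^ p ^ j ∈ G e
      refine Submodule.span_induction (p := fun z _ => z ^ p ^ j ∈ G e) ?_ ?_ ?_ ?_ (tK x hx)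
      · rintro _ ⟨α, hα, rfl⟩
        rw [← map_pow]
        exact Gk e _ hα
      · rw [zero_pow (pow_ne_zero _ hp.ne_zero)]; exact zero_mem _
      · intro u v _ _ hu hv
        rw [add_pow_char_pow]; exact add_mem hu hv
      · intro c u _ hu
        have : c • u = (c : L) * u := rfl
        rw [this, mul_pow]
        exact mul_mem (pow_mem c.2 _) hu

end Pool.Agent.MP_f1fec5_al.Aff

end

section

namespace Pool.Agent.MP_f1fec5_al.Aff

open Polynomial

universe u v

/-- A nonzero subspace of coordinate space has a normalised vector of minimal support. -/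
lemma lamC_min {F : Type u} [Field F] {ι : Type} [Fintype ι] (W : Submodule F (ι → F))
    (hW : W ≠ ⊥) : ∃ e ∈ W, ∃ i₀, e i₀ = 1 ∧
      ∀ e' ∈ W, (∀ i, e i = 0 → e' i = 0) → e' i₀ = 0 → e' = 0 := by
  classical
  have hex : ∃ n, ∃ e ∈ W, e ≠ 0 ∧ (Finset.univ.filter fun i => e i ≠ 0).card = n := by
    obtain ⟨e, he, he0⟩ := Submodule.exists_mem_ne_zero_of_ne_bot hW
    exact ⟨_, e, he, he0, rfl⟩
  obtain ⟨e, he, he0, hn⟩ := Nat.find_spec hex
  obtain ⟨i₀, hi⟩ := Function.ne_iff.1 he0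
  have hi' : e i₀ ≠ 0 := hi
  refine ⟨(e i₀)⁻¹ • e, W.smul_mem _ he, i₀, by simp [hi'], fun e' he' hs h0 => ?_⟩
  by_contra hne
  refine Nat.find_min hex ?_ ⟨e', he', hne, rfl⟩
  rw [← hn]
  refine Finset.card_lt_card ⟨fun i hi => ?_, fun h => ?_⟩
  · simp only [Finset.mem_filter, Finset.mem_univ, true_and] at hi ⊢
    exact fun h => hi (hs i (by simp [h]))
  · have := h (Finset.mem_filter.2 ⟨Finset.mem_univ i₀, hi'⟩)
    exact (Finset.mem_filter.1 this).2 h0

/-- A finite subfamily that is a basis modulo the base field. -/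
lemma lamC_basis {L : Type u} [Field L] (K₀ : Subfield L) (n : ℕ) (v : Fin n → L) :
    ∃ (ι : Type) (_ : Fintype ι) (a : ι → Fin n),
      (∀ c : ι → K₀, ∑ i, (c i : L) * v (a i) ∈ K₀ → c = 0) ∧
      ∀ u ∈ Submodule.span K₀ (Set.range v), ∃ c : ι → K₀, u - ∑ i, (c i : L) * v (a i) ∈ K₀ := by
  let N : Submodule K₀ L := Submodule.span K₀ {1}
  have hN : ∀ x : L, N.mkQ x = 0 ↔ x ∈ K₀ := by
    intro x
    rw [Submodule.mkQ_apply, Submodule.Quotient.mk_eq_zero, Submodule.mem_span_singleton]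
    exact ⟨fun ⟨c, hc⟩ => by rw [← hc, Subfield.smul_def, smul_eq_mul, mul_one]; exact c.2,
      fun h => ⟨⟨x, h⟩, by rw [Subfield.smul_def, smul_eq_mul, mul_one]⟩⟩
  obtain ⟨ι, a, ha, hsp, hli⟩ := exists_linearIndependent' K₀ (fun i => N.mkQ (v i))
  have : Finite ι := Finite.of_injective a ha
  have := Fintype.ofFinite ι
  have hs : ∀ c : ι → K₀, N.mkQ (∑ i, (c i : L) * v (a i)) = ∑ i, c i • N.mkQ (v (a i)) := by
    intro c
    rw [map_sum]
    exact Finset.sum_congr rfl fun i _ => N.mkQ.map_smul (c i) (v (a i))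
  refine ⟨ι, this, a, fun c hc => ?_, fun u hu => ?_⟩
  · rw [← hN, hs] at hc
    exact funext (Fintype.linearIndependent_iff.1 hli c hc)
  · have h1 : N.mkQ u ∈ Submodule.span K₀ (Set.range fun i => N.mkQ (v i)) := by
      have := Submodule.mem_map_of_mem (f := N.mkQ) hu
      rwa [Submodule.map_span, ← Set.range_comp] at this
    rw [← hsp, Submodule.mem_span_range_iff_exists_fun] at h1
    obtain ⟨c, hc⟩ := h1
    refine ⟨c, ?_⟩
    rw [← hN, map_sub, hs, sub_eq_zero]
    exact hc.symm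

lemma lamC_gen {k L : Type u} [Field k] [Field L] [Algebra k L] [Algebra.EssFiniteType k L]
    (S : Set L) (hgen : IntermediateField.adjoin k S = ⊤) :
    ∃ w : Finset L, (w : Set L) ⊆ S ∧ IntermediateField.adjoin k (w : Set L) = ⊤ := by
  classical
  obtain ⟨s, hs⟩ := (IntermediateField.fg_top_iff (F := k) (E := L)).2 inferInstance
  have h : ∀ x : L, ∃ T : Finset L, (T : Set L) ⊆ S ∧ x ∈ IntermediateField.adjoin k (T : Set L) :=
    fun x => IntermediateField.exists_finset_of_mem_adjoin (by rw [hgen]; trivial)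
  choose T hT hT' using h
  refine ⟨s.biUnion T, fun x hx => ?_, ?_⟩
  · obtain ⟨y, -, hy⟩ := Finset.mem_biUnion.1 hx
    exact hT y hy
  · rw [eq_top_iff, ← hs, IntermediateField.adjoin_le_iff]
    intro x hx
    exact IntermediateField.adjoin.mono _ _ _
      (Finset.coe_subset.2 (Finset.subset_biUnion_of_mem T hx)) (hT' x)

/-- The span of the vectors of `q`-th powers whose combination lies in `K'`. -/
def lamC_W {L : Type u} [Field L] (K₀ K' : Subfield L) {ι : Type} [Fintype ι] (κ : ι → L)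
    (q : ℕ) : Submodule K₀ (ι → K₀) :=
  Submodule.span K₀ {a | (∀ i, ∃ x : L, (a i : L) = x ^ q) ∧ ∑ i, (a i : L) * κ i ∈ K'}

lemma lamC_W_mem {L : Type u} [Field L] {K₀ K' : Subfield L} (h : K₀ ≤ K') {ι : Type} [Fintype ι]
    {κ : ι → L} {q : ℕ} {e : ι → K₀} (he : e ∈ lamC_W K₀ K' κ q) :
    ∑ i, (e i : L) * κ i ∈ K' := by
  induction he using Submodule.span_induction with
  | mem a ha => exact ha.2
  | zero => simp
  | add a b _ _ ha hb =>
    simp only [Pi.add_apply, Subfield.coe_add, add_mul, Finset.sum_add_distrib]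
    exact add_mem ha hb
  | smul c a _ ha =>
    simp only [Pi.smul_apply, smul_eq_mul, Subfield.coe_mul, mul_assoc, ← Finset.mul_sum]
    exact mul_mem (h c.2) ha

lemma lamC_W_stab {L : Type u} [Field L] {K₀ K' : Subfield L} {ι : Type} [Fintype ι]
    {κ : ι → L} {q : ℕ} (π : L →+ L) (h1 : ∀ a x, π (a ^ q * x) = a ^ q * π x)
    (h2 : ∀ x ∈ K₀, π x ∈ K₀) {e : ι → K₀} (he : e ∈ lamC_W K₀ K' κ q) (c : K₀) :
    (fun i => (⟨π (c * e i), h2 _ (c * e i).2⟩ : K₀)) ∈ lamC_W K₀ K' κ q := by
  induction he using Submodule.span_induction generalizing c with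
  | mem a ha =>
    have : (fun i => (⟨π (c * a i), h2 _ (c * a i).2⟩ : K₀)) = (⟨π c, h2 _ c.2⟩ : K₀) • a := by
      funext i
      obtain ⟨x, hx⟩ := ha.1 i
      apply Subtype.ext
      change π (c * a i) = π c * a i
      rw [hx, mul_comm, h1, mul_comm]
    rw [this]
    exact Submodule.smul_mem _ _ (Submodule.subset_span ha)
  | zero =>
    have : (fun i => (⟨π (c * (0 : ι → K₀) i), h2 _ (c * (0 : ι → K₀) i).2⟩ : K₀)) = 0 := by
      funext i
      apply Subtype.ext
      simp
    rw [this]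
    exact Submodule.zero_mem _
  | add a b _ _ ha hb =>
    have : (fun i => (⟨π (c * (a + b) i), h2 _ (c * (a + b) i).2⟩ : K₀)) =
        (fun i => (⟨π (c * a i), h2 _ (c * a i).2⟩ : K₀)) +
          fun i => (⟨π (c * b i), h2 _ (c * b i).2⟩ : K₀) := by
      funext i
      apply Subtype.ext
      simp [mul_add]
    rw [this]
    exact Submodule.add_mem _ (ha c) (hb c)
  | smul d a _ ha =>
    have : (fun i => (⟨π (c * (d • a) i), h2 _ (c * (d • a) i).2⟩ : K₀)) =
        fun i => (⟨π ((c * d : K₀) * a i), h2 _ (c * d * a i).2⟩ : K₀) := by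
      funext i
      apply Subtype.ext
      simp [mul_assoc]
    rw [this]
    exact ha (c * d)

lemma lamC_W_anti {L : Type u} [Field L] (K₀ K' : Subfield L) {ι : Type} [Fintype ι]
    (κ : ι → L) (p : ℕ) {i j : ℕ} (h : i ≤ j) :
    lamC_W K₀ K' κ (p ^ j) ≤ lamC_W K₀ K' κ (p ^ i) := by
  refine Submodule.span_mono fun a ha => ⟨fun l => ?_, ha.2⟩
  obtain ⟨x, hx⟩ := ha.1 l
  obtain ⟨d, rfl⟩ := Nat.exists_eq_add_of_le h
  exact ⟨x ^ p ^ d, by rw [hx, ← pow_mul, ← pow_add, add_comm]⟩

/-- Core of the argument, with the combinatorial data abstracted. -/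
lemma lamC_core {L : Type u} [Field L] {K₀ K' : Subfield L} (hle : K₀ ≤ K') (p : ℕ) {ι : Type}
    [Fintype ι] (κ : ι → L) (hκ : ∀ i j, ∃ x, κ i = x ^ p ^ j)
    (hind : ∀ c : ι → K₀, ∑ i, (c i : L) * κ i ∈ K₀ → c = 0)
    (hsp : ∀ u : L, u ^ p ∈ K₀ → ∃ c : ι → K₀, u - ∑ i, (c i : L) * κ i ∈ K₀)
    (hpi : ∀ z : L, ∃ e : ℕ, z ^ p ^ e ∈ K₀)
    (hπ : ∀ j : ℕ, ∃ π : L →+ L, π 1 = 1 ∧ (∀ x, ∃ x₀, π x = x₀ ^ p ^ j) ∧
        (∀ a x, π (a ^ p ^ j * x) = a ^ p ^ j * π x) ∧ ∀ x ∈ K₀, π x ∈ K₀)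
    (hc : ∀ c : ι → K₀, (∀ i j, ∃ x : L, x ^ p ^ j = c i) → ∑ i, (c i : L) * κ i ∈ K' →
      ∑ i, (c i : L) * κ i ∈ K₀) :
    ∃ j₀ : ℕ, ∀ z ∈ K', z ^ p ^ j₀ ∈ K₀ := by
  by_contra hcon
  push Not at hcon
  have hne : ∀ j, lamC_W K₀ K' κ (p ^ j) ≠ ⊥ := by
    intro j hb
    obtain ⟨z, hz, hz'⟩ := hcon j
    have hex : ∃ d, z ^ p ^ (j + d) ∈ K₀ := by
      obtain ⟨e, he⟩ := hpi z
      exact ⟨e, by rw [add_comm, pow_add, pow_mul]; exact pow_mem he _⟩
    classical
    have h0 : Nat.find hex ≠ 0 := fun h => hz' (by simpa [h] using Nat.find_spec hex)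
    obtain ⟨d, hd⟩ := Nat.exists_eq_succ_of_ne_zero h0
    have h1 : z ^ p ^ (j + d) ∉ K₀ := Nat.find_min hex (by omega)
    have h2 : (z ^ p ^ (j + d)) ^ p ∈ K₀ := by
      have := Nat.find_spec hex
      rwa [hd, Nat.add_succ, pow_succ, pow_mul] at this
    obtain ⟨c, hcu⟩ := hsp _ h2
    obtain ⟨π, p1, p2, p3, p4⟩ := hπ j
    have h3 : π (z ^ p ^ (j + d)) = z ^ p ^ (j + d) := by
      have := p3 (z ^ p ^ d) 1
      rwa [p1, mul_one, ← pow_mul, ← pow_add, add_comm d j] at this
    have h4 : ∀ i, π (c i * κ i) = π (c i) * κ i := by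
      intro i
      obtain ⟨x, hx⟩ := hκ i j
      rw [hx, mul_comm, p3, mul_comm]
    have h5 := p4 _ hcu
    rw [map_sub, map_sum, h3, Finset.sum_congr rfl fun i _ => h4 i] at h5
    have h6 := hind (c - fun i => ⟨π (c i), p4 _ (c i).2⟩) (by
      have := sub_mem h5 hcu
      simp only [Pi.sub_apply, AddSubgroupClass.coe_sub, sub_mul, Finset.sum_sub_distrib]
      rwa [sub_sub_sub_cancel_left] at this)
    have h7 : c ∈ lamC_W K₀ K' κ (p ^ j) := by
      refine Submodule.subset_span ⟨fun i => ?_, ?_⟩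
      · obtain ⟨x, hx⟩ := p2 (c i)
        exact ⟨x, (congrArg Subtype.val (congrFun (sub_eq_zero.1 h6) i)).trans hx⟩
      · have := sub_mem (pow_mem hz (p ^ (j + d))) (hle hcu)
        rwa [sub_sub_cancel] at this
    rw [hb, Submodule.mem_bot] at h7
    apply h1
    simpa [h7] using hcu
  obtain ⟨n, hn⟩ := IsArtinian.monotone_stabilizes (R := K₀) (M := ι → K₀)
    ⟨fun j => OrderDual.toDual (lamC_W K₀ K' κ (p ^ j)), fun i j h => lamC_W_anti K₀ K' κ p h⟩
  have hn' : ∀ m, n ≤ m → lamC_W K₀ K' κ (p ^ n) = lamC_W K₀ K' κ (p ^ m) := hn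
  obtain ⟨e, he, i₀, hi, hmin⟩ := lamC_min _ (hne n)
  have h1 : ∀ i j, ∃ x : L, x ^ p ^ j = e i := by
    intro i j
    obtain ⟨π, p1, p2, p3, p4⟩ := hπ (n + j)
    have h2 := lamC_W_stab π p3 p4 (hn' _ (Nat.le_add_right n j) ▸ he) 1
    rw [← hn' _ (Nat.le_add_right n j)] at h2
    have h3 := hmin _ (Submodule.sub_mem _ he h2)
      (fun l hl => Subtype.ext (by simp [hl])) (Subtype.ext (by simp [hi, p1]))
    obtain ⟨x, hx⟩ := p2 (((1 : K₀) : L) * e i)
    refine ⟨x ^ p ^ n, ?_⟩
    rw [← pow_mul, ← pow_add, ← hx]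
    exact (congrArg Subtype.val (congrFun (sub_eq_zero.1 h3) i)).symm
  have h2 := hind e (hc e h1 (lamC_W_mem hle he))
  rw [h2] at hi
  exact zero_ne_one hi

/-- Bounded exponent.
Hint: `k' = k ∩ K'`, `w ⊆ K'` finite generating `L` over `k`, `K₀` from `exists_proj`. Suppose the
exponent of `K'` over `K₀` is unbounded; for each `j` there is `u ∈ K' \ K₀`, `u ^ p ∈ K₀`, `u` a
`p ^ j`-th power. Let `1 = κ₀, κ₁, …, κₜ ∈ k` be a `K₀`-basis of the span of `{α | α ^ p ∈ k'}`
(finite by `exists_span_pthRoots`). The coordinates of `u` are fixed by `π`, so are `p ^ j`-th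
powers. Let `W j` be the `K₀`-span of the vectors `(aᵢ)_{i ≥ 1}` of `p ^ j`-th powers in `K₀` with
`∑ aᵢ κᵢ ∈ K'`: a decreasing sequence of nonzero subspaces, so eventually constant `= W`. A vector
`e ∈ W` of minimal support with a coordinate `1` is fixed by every `π` (coordinatewise), so its
coordinates are constants (`mem_range_of_forall_pow`), so `∑ eᵢ κᵢ ∈ K' ∩ k ⊆ K₀`, contradicting
independence. -/
theorem bounded_exponent {k L : Type u} [Field k] [IsAlgClosed k] [Field L] [Algebra k L] (p : ℕ)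
    [Fact p.Prime] [CharP k p] (hfin : Algebra.trdeg (⊥ : Subfield k) k < Cardinal.aleph0)
    [Algebra.EssFiniteType k L] (K' : Subfield L)
    (hgen : IntermediateField.adjoin k (K' : Set L) = ⊤)
    (hpi : ∀ α : k, ∃ j : ℕ, algebraMap k L α ^ p ^ j ∈ K') :
    ∃ (s : Finset L) (j₀ : ℕ), ∀ z ∈ K', z ^ p ^ j₀ ∈
      Subfield.closure (((K' : Set L) ∩ Set.range (algebraMap k L)) ∪ s) := by
  have hp : p.Prime := Fact.out
  obtain ⟨w, hw, hw'⟩ := lamC_gen _ hgen
  let k' : Subfield k := K'.comap (algebraMap k L)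
  have hk' : ∀ α : k, α ∈ k' ↔ algebraMap k L α ∈ K' := fun α => Iff.rfl
  obtain ⟨K₀, s, h1, h2, h3, h4, h5⟩ := exists_proj p w hw' k' fun α => by
    obtain ⟨j, hj⟩ := hpi α
    exact ⟨j, by rwa [hk', map_pow]⟩
  have hle : K₀ ≤ K' := h2.trans (Subfield.closure_le.2 (Set.union_subset
    (by rintro _ ⟨α, hα, rfl⟩; exact hα) hw))
  have hk0 : ∀ α ∈ k', algebraMap k L α ∈ K₀ := fun α hα => by
    rw [h1]; exact Subfield.subset_closure (Or.inl ⟨α, hα, rfl⟩)
  obtain ⟨t, -, ht⟩ := exists_span_pthRoots p hfin k'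
  let v : Fin t.card → k := fun i => t.equivFin.symm i
  obtain ⟨ι, _, a, hind, hsp⟩ := lamC_basis K₀ t.card fun i => algebraMap k L (v i)
  obtain ⟨j₀, hj⟩ := lamC_core hle p (fun i => algebraMap k L (v (a i))) (fun i j => by
      obtain ⟨x, hx⟩ := IsAlgClosed.exists_pow_nat_eq (v (a i)) (pow_pos hp.pos j)
      exact ⟨algebraMap k L x, by rw [← hx, map_pow]⟩) hind (fun u hu => by
      refine hsp u (Submodule.span_le.2 ?_ (h4 u hu))
      rintro _ ⟨α, hα, rfl⟩
      have hα' := ht α hα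
      clear hα
      induction hα' using Submodule.span_induction with
      | mem x hx => exact Submodule.subset_span ⟨t.equivFin ⟨x, hx⟩, by simp [v]⟩
      | zero => simp
      | add x y _ _ hx hy => rw [map_add]; exact Submodule.add_mem _ hx hy
      | smul c x _ hx =>
        rw [Subfield.smul_def, smul_eq_mul, map_mul]
        exact Submodule.smul_mem _ (⟨_, hk0 c c.2⟩ : K₀) hx) h3 h5 (fun c hc hc' => by
      choose b hb using fun i => mem_range_of_forall_pow (k := k) p hp.one_lt (c i : L) (hc i)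
      have e1 : ∑ i, (c i : L) * algebraMap k L (v (a i)) =
          algebraMap k L (∑ i, b i * v (a i)) := by
        rw [map_sum]
        exact Finset.sum_congr rfl fun i _ => by rw [map_mul, hb]
      rw [e1] at hc' ⊢
      exact hk0 _ hc')
  refine ⟨s, j₀, fun z hz => Subfield.closure_mono (Set.union_subset_union_left _ ?_)
    (h1 ▸ hj z hz)⟩
  rintro _ ⟨α, hα, rfl⟩
  exact ⟨hα, α, rfl⟩

end Pool.Agent.MP_f1fec5_al.Aff

end
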