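import Pool.Agent.MP_f1fec5_al.Aff.Base

section

namespace Pool.Agent.MP_f1fec5_al.Aff

open Polynomial

universe u v

section Field

variable {k : Type u} [Field k] {L : Type u} [Field L] [Algebra k L] {n : ℕ}

lemma sep_bound_poly (y : Fin n → L) (a : PA k n) : ∃ D : ℕ, ∀ V : ValuationSubring L,
    (∀ c : k, algebraMap k L c ∈ V) → ∀ M : V.ValueGroup, 1 ≤ M →
    (∀ i, V.valuation (y i) ≤ M) → V.valuation (MvPolynomial.aeval y a) ≤ M ^ D := by
  induction a using MvPolynomial.induction_on with
  | C c =>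
    refine ⟨0, fun V hV M _ _ => ?_⟩
    rw [MvPolynomial.aeval_C, pow_zero]
    exact (V.valuation_le_one_iff _).2 (hV c)
  | add p q hp hq =>
    obtain ⟨D, hD⟩ := hp
    obtain ⟨E, hE⟩ := hq
    refine ⟨D + E, fun V hV M hM hy => ?_⟩
    rw [map_add]
    exact V.valuation.map_add_le
      ((hD V hV M hM hy).trans (pow_le_pow_right₀ hM (Nat.le_add_right _ _)))
      ((hE V hV M hM hy).trans (pow_le_pow_right₀ hM (Nat.le_add_left _ _)))
  | mul_X p i hp =>
    obtain ⟨D, hD⟩ := hp
    refine ⟨D + 1, fun V hV M hM hy => ?_⟩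
    rw [map_mul, MvPolynomial.aeval_X, map_mul, pow_succ]
    exact mul_le_mul' (hD V hV M hM hy) (hy i)

lemma sep_bound (y : Fin n → L) {b : L}
    (hb : (MvPolynomial.aeval y : PA k n →ₐ[k] L).toRingHom.IsIntegralElem b) :
    ∃ D : ℕ, ∀ V : ValuationSubring L,
    (∀ c : k, algebraMap k L c ∈ V) → ∀ M : V.ValueGroup, 1 ≤ M →
    (∀ i, V.valuation (y i) ≤ M) → V.valuation b ≤ M ^ D := by
  obtain ⟨p, hp, hpb⟩ := hb
  choose D hD using fun t : ℕ => sep_bound_poly y (p.coeff t)
  refine ⟨∑ t ∈ Finset.range p.natDegree, D t, fun V hV M hM hy => ?_⟩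
  by_contra hlt
  push Not at hlt
  have h1 : 1 < V.valuation b := (one_le_pow₀ hM).trans_lt hlt
  have h0 : 0 < V.valuation b := zero_lt_one.trans h1
  rw [hp.as_sum, eval₂_add, eval₂_X_pow, eval₂_finsetSum] at hpb
  have h2 : V.valuation (∑ t ∈ Finset.range p.natDegree,
      eval₂ (MvPolynomial.aeval y : PA k n →ₐ[k] L).toRingHom b (C (p.coeff t) * X ^ t))
      < V.valuation b ^ p.natDegree := by
    refine V.valuation.map_sum_lt (pow_pos h0 _).ne' fun t ht => ?_
    rw [eval₂_mul, eval₂_C, eval₂_X_pow, map_mul, map_pow]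
    have h3 : V.valuation (MvPolynomial.aeval y (p.coeff t)) < V.valuation b :=
      ((hD t V hV M hM hy).trans (pow_le_pow_right₀ hM
        (Finset.single_le_sum (f := D) (fun _ _ => Nat.zero_le _) ht))).trans_lt hlt
    calc V.valuation (MvPolynomial.aeval y (p.coeff t)) * V.valuation b ^ t
        < V.valuation b * V.valuation b ^ t := mul_lt_mul_of_pos_right h3 (pow_pos h0 _)
      _ = V.valuation b ^ (t + 1) := by rw [pow_succ']
      _ ≤ V.valuation b ^ p.natDegree :=
        pow_le_pow_right₀ h1.le (Finset.mem_range.1 ht)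
  rw [← neg_eq_iff_add_eq_zero.2 hpb, Valuation.map_neg, map_pow] at h2
  exact lt_irrefl _ h2

lemma sep_integral_of_val (y : Fin n → L) {b : L}
    (hb : ∀ V : ValuationSubring L, (∀ c : k, algebraMap k L c ∈ V) → (∀ i, y i ∈ V) → b ∈ V) :
    (MvPolynomial.aeval y : PA k n →ₐ[k] L).toRingHom.IsIntegralElem b := by
  set φ := (MvPolynomial.aeval y : PA k n →ₐ[k] L).toRingHom with hφ
  have h1 : b ∈ (integralClosure (Subring.closure (Set.range φ)) L).toSubring := by
    rw [← iInf_valuationSubring_superset, Subring.mem_iInf]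
    rintro ⟨V, hV⟩
    refine hb V (fun c => hV ⟨MvPolynomial.C c, ?_⟩) fun i => hV ⟨MvPolynomial.X i, ?_⟩
    · simp [hφ]
    · simp [hφ]
  obtain ⟨p, hp, hpb⟩ : IsIntegral (Subring.closure (Set.range φ)) b := h1
  have h2 : p.map (algebraMap (Subring.closure (Set.range φ)) L) ∈ lifts φ := by
    rw [lifts_iff_coeff_lifts]
    intro t
    rw [coeff_map]
    have h3 : Subring.closure (Set.range φ) ≤ φ.range := Subring.closure_le.2 fun x hx => hx
    exact h3 (p.coeff t).2
  obtain ⟨q, hq, -, hqm⟩ := lifts_and_natDegree_eq_and_monic h2 (hp.map _)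
  refine ⟨q, hqm, ?_⟩
  rw [← eval_map, hq, eval_map, hpb]

lemma sep_integral (y z : Fin n → L)
    (hz : ∀ i, (MvPolynomial.aeval y : PA k n →ₐ[k] L).toRingHom.IsIntegralElem (z i)) :
    ∃ N₀ : ℕ, ∀ N, N₀ < N → ∀ b : L,
      (MvPolynomial.aeval y : PA k n →ₐ[k] L).toRingHom.IsIntegralElem b →
      (MvPolynomial.aeval (fun i => y i ^ N + z i) : PA k n →ₐ[k] L).toRingHom.IsIntegralElem b := by
  choose D hD using fun i => sep_bound y (hz i)
  refine ⟨∑ i, D i, fun N hN b hb => sep_integral_of_val _ fun V hV hy' => ?_⟩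
  have hy : ∀ i, V.valuation (y i) ≤ 1 := by
    by_contra hne
    push Not at hne
    obtain ⟨i₀, hi₀⟩ := hne
    obtain ⟨j, -, hj⟩ := Finset.exists_max_image Finset.univ (fun i => V.valuation (y i))
      ⟨i₀, Finset.mem_univ _⟩
    have h1 : 1 < V.valuation (y j) := hi₀.trans_le (hj i₀ (Finset.mem_univ _))
    have h2 : V.valuation (z j) < V.valuation (y j ^ N) := by
      rw [map_pow]
      refine (hD j V hV _ h1.le fun i => hj i (Finset.mem_univ _)).trans_lt
        (pow_lt_pow_right₀ h1 (lt_of_le_of_lt ?_ hN))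
      exact Finset.single_le_sum (f := D) (fun _ _ => Nat.zero_le _) (Finset.mem_univ j)
    have h3 := (V.valuation_le_one_iff _).2 (hy' j)
    rw [V.valuation.map_add_eq_of_lt_left h2, map_pow] at h3
    exact absurd (one_lt_pow₀ h1 (by omega)) (not_lt.2 h3)
  obtain ⟨E, hE⟩ := sep_bound y hb
  have := hE V hV 1 le_rfl hy
  rw [one_pow] at this
  exact (V.valuation_le_one_iff _).1 this

lemma sep_isIntegral (y : Fin n → L) {b : L}
    (hb : (MvPolynomial.aeval y : PA k n →ₐ[k] L).toRingHom.IsIntegralElem b) :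
    IsIntegral (IntermediateField.adjoin k (Set.range y)) b := by
  obtain ⟨p, hp, hpb⟩ := hb
  let ψ : PA k n →ₐ[k] IntermediateField.adjoin k (Set.range y) :=
    MvPolynomial.aeval fun i => ⟨y i, IntermediateField.subset_adjoin k _ ⟨i, rfl⟩⟩
  have h : (algebraMap (IntermediateField.adjoin k (Set.range y)) L).comp ψ.toRingHom
      = (MvPolynomial.aeval y : PA k n →ₐ[k] L).toRingHom := by
    refine MvPolynomial.ringHom_ext (fun c => ?_) fun i => ?_
    · simp [ψ]
    · simp [ψ]
  refine ⟨p.map ψ.toRingHom, hp.map _, ?_⟩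
  rw [eval₂_map, h, hpb]

lemma sep_field (p : ℕ) [ExpChar k p] [Algebra.EssFiniteType k L] (S : Set L)
    [Algebra.IsAlgebraic (IntermediateField.adjoin k S) L]
    (h : IntermediateField.adjoin k (S ∪ Set.range fun x : L => x ^ p) = ⊤) :
    Algebra.IsSeparable (IntermediateField.adjoin k S) L := by
  have hL : ExpChar L p := expChar_of_injective_algebraMap (algebraMap k L).injective p
  have key : ∀ j : ℕ,
      IntermediateField.adjoin k (S ∪ Set.range fun x : L => x ^ p ^ j) = ⊤ := by
    intro j
    induction j with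
    | zero =>
      rw [eq_top_iff]
      intro x _
      exact IntermediateField.subset_adjoin k _ (Or.inr ⟨x, by simp⟩)
    | succ j ih =>
      rw [eq_top_iff, ← h, IntermediateField.adjoin_le_iff]
      rintro _ (hx | ⟨x, rfl⟩)
      · exact IntermediateField.subset_adjoin k _ (Or.inl hx)
      · have hx : x ∈ IntermediateField.adjoin k (S ∪ Set.range fun x : L => x ^ p ^ j) := by
          rw [ih]; trivial
        induction hx using IntermediateField.adjoin_induction with
        | mem x hx =>
          rcases hx with hx | ⟨x, rfl⟩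
          · have h1 : x ∈ IntermediateField.adjoin k
                (S ∪ Set.range fun x : L => x ^ p ^ (j + 1)) :=
              IntermediateField.subset_adjoin k _ (Or.inl hx)
            exact pow_mem h1 _
          · exact IntermediateField.subset_adjoin k _ (Or.inr ⟨x, by simp [pow_succ, pow_mul]⟩)
        | algebraMap c => exact pow_mem (IntermediateField.algebraMap_mem _ c) _
        | add x y _ _ hx hy =>
          simp only [add_pow_expChar]
          exact add_mem hx hy
        | inv x _ hx =>
          simp only [inv_pow]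
          exact inv_mem hx
        | mul x y _ _ hx hy =>
          simp only [mul_pow]
          exact mul_mem hx hy
  set F := IntermediateField.adjoin k S with hF
  have h1 : Algebra.EssFiniteType F L := Algebra.EssFiniteType.of_comp k F L
  have h2 : Module.Finite F L := Algebra.finite_of_essFiniteType_of_isAlgebraic
  have h3 : Module.Finite (separableClosure F L) L :=
    Module.Finite.of_restrictScalars_finite F _ _
  have h4 : ExpChar (separableClosure F L) p :=
    expChar_of_injective_algebraMap (algebraMap k (separableClosure F L)).injective p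
  obtain ⟨e, he⟩ := (IsPurelyInseparable.hasExponent_iff' (separableClosure F L) L p).1
    inferInstance
  rw [← separableClosure.eq_top_iff, ← (IntermediateField.restrictScalars_injective k).eq_iff,
    IntermediateField.restrictScalars_top, eq_top_iff, ← key e, IntermediateField.adjoin_le_iff]
  rintro _ (hx | ⟨x, rfl⟩)
  · exact isSeparable_algebraMap (F := F) ⟨_, IntermediateField.subset_adjoin k S hx⟩
  · obtain ⟨w, hw⟩ := he x
    simp only [← hw]
    exact w.2

lemma sep_clear (y : Fin n → L) (P : (IntermediateField.adjoin k (Set.range y))[X]) :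
    ∃ (d : L) (f : (PA k n)[X]), d ≠ 0 ∧
      (∃ r : PA k n, MvPolynomial.aeval y r = d) ∧
      f.map (MvPolynomial.aeval y : PA k n →ₐ[k] L).toRingHom
        = C d * P.map (algebraMap _ L) := by
  induction P using Polynomial.induction_on' with
  | add P Q hP hQ =>
    obtain ⟨_, f, hd, ⟨r, rfl⟩, hf⟩ := hP
    obtain ⟨_, g, he, ⟨s, rfl⟩, hg⟩ := hQ
    refine ⟨_, C s * f + C r * g, mul_ne_zero hd he, ⟨r * s, map_mul _ _ _⟩, ?_⟩
    simp only [Polynomial.map_add, Polynomial.map_mul, map_C, hf, hg, C_mul]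
    simp only [AlgHom.toRingHom_eq_coe, RingHom.coe_coe]
    ring
  | monomial m a =>
    obtain ⟨r, s, hrs⟩ := (IntermediateField.mem_adjoin_range_iff k y a).1 a.2
    by_cases hs : MvPolynomial.aeval y s = 0
    · refine ⟨1, 0, one_ne_zero, ⟨1, map_one _⟩, ?_⟩
      have : algebraMap _ L a = 0 := by
        change (a : L) = 0
        rw [hrs, hs, div_zero]
      simp [this]
    · refine ⟨_, monomial m r, hs, ⟨s, rfl⟩, ?_⟩
      have : algebraMap _ L a = MvPolynomial.aeval y r / MvPolynomial.aeval y s := hrs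
      rw [map_monomial, map_monomial, this, C_mul_monomial, mul_div_cancel₀ _ hs]
      rfl

lemma sep_poly (y : Fin n → L)
    [Algebra.IsSeparable (IntermediateField.adjoin k (Set.range y)) L] (w : L) :
    ∃ f : (PA k n)[X], eval₂ (MvPolynomial.aeval y : PA k n →ₐ[k] L).toRingHom w f = 0 ∧
      eval₂ (MvPolynomial.aeval y : PA k n →ₐ[k] L).toRingHom w (derivative f) ≠ 0 := by
  have hw : IsSeparable (IntermediateField.adjoin k (Set.range y)) w :=
    Algebra.IsSeparable.isSeparable _ w
  obtain ⟨d, f, hd, -, hf⟩ := sep_clear y (minpoly (IntermediateField.adjoin k (Set.range y)) w)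
  refine ⟨f, ?_, ?_⟩
  · rw [← eval_map, hf, eval_mul, eval_map_algebraMap, minpoly.aeval, mul_zero]
  · rw [← eval_map, ← derivative_map, hf, derivative_C_mul, derivative_map, eval_mul, eval_C,
      eval_map_algebraMap]
    exact mul_ne_zero hd (hw.aeval_derivative_ne_zero (minpoly.aeval _ _))

end Field

section Dom

variable {k : Type u} [Field k] {B : Type u} [CommRing B] [IsDomain B] [Algebra k B] {n : ℕ}

omit [IsDomain B] in
lemma sep_comp (g : PA k n →ₐ[k] B) :
    (algebraMap B (FractionRing B)).comp g.toRingHom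
      = (MvPolynomial.aeval fun i => algebraMap B (FractionRing B) (g (MvPolynomial.X i)) :
          PA k n →ₐ[k] FractionRing B).toRingHom := by
  refine MvPolynomial.ringHom_ext (fun c => ?_) fun i => ?_
  · simp only [RingHom.comp_apply, AlgHom.toRingHom_eq_coe, RingHom.coe_coe, MvPolynomial.aeval_C]
    rw [← MvPolynomial.algebraMap_eq, g.commutes, ← IsScalarTower.algebraMap_apply]
  · simp

omit [IsDomain B] in
lemma sep_int_iff (g : PA k n →ₐ[k] B) (b : B) : g.toRingHom.IsIntegralElem b ↔
    (MvPolynomial.aeval fun i => algebraMap B (FractionRing B) (g (MvPolynomial.X i)) :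
      PA k n →ₐ[k] FractionRing B).toRingHom.IsIntegralElem (algebraMap B (FractionRing B) b) := by
  rw [← sep_comp]
  constructor
  · rintro ⟨p, hp, h⟩
    exact ⟨p, hp, by rw [← hom_eval₂, h, map_zero]⟩
  · rintro ⟨p, hp, h⟩
    rw [← hom_eval₂] at h
    exact ⟨p, hp, (map_eq_zero_iff _ (IsFractionRing.injective B (FractionRing B))).1 h⟩

lemma sep_alg (g : PA k n →ₐ[k] B) (hg : g.toRingHom.IsIntegral) :
    Algebra.IsAlgebraic (IntermediateField.adjoin k (Set.range fun i =>
      algebraMap B (FractionRing B) (g (MvPolynomial.X i)))) (FractionRing B) := by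
  refine ⟨fun w => ?_⟩
  obtain ⟨a, b, -, rfl⟩ := IsFractionRing.div_surjective (A := B) w
  have ha := sep_isIntegral _ ((sep_int_iff g a).1 (hg a))
  have hb := (sep_isIntegral _ ((sep_int_iff g b).1 (hg b))).isAlgebraic.inv
  rw [div_eq_mul_inv]
  exact (ha.mul hb.isIntegral).isAlgebraic

omit [IsDomain B] in
lemma sep_inj_iff (g : PA k n →ₐ[k] B) : Function.Injective g ↔
    AlgebraicIndependent k fun i => algebraMap B (FractionRing B) (g (MvPolynomial.X i)) := by
  have h : (MvPolynomial.aeval fun i => algebraMap B (FractionRing B) (g (MvPolynomial.X i)) :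
      PA k n → FractionRing B) = algebraMap B (FractionRing B) ∘ g := by
    funext a
    exact (DFunLike.congr_fun (sep_comp g) a).symm
  rw [algebraicIndependent_iff_injective_aeval, h]
  exact ((IsFractionRing.injective B (FractionRing B)).of_comp_iff g).symm

lemma sep_final (g : PA k n →ₐ[k] B)
    (h : Algebra.IsSeparable (IntermediateField.adjoin k (Set.range fun i =>
      algebraMap B (FractionRing B) (g (MvPolynomial.X i)))) (FractionRing B))
    (w : FractionRing B) : ∃ f : (PA k n)[X], aeval w (f.map g.toRingHom) = 0 ∧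
        aeval w ((derivative f).map g.toRingHom) ≠ 0 := by
  obtain ⟨f, h1, h2⟩ := sep_poly (k := k)
    (fun i => algebraMap B (FractionRing B) (g (MvPolynomial.X i))) w
  rw [← sep_comp] at h1 h2
  exact ⟨f, by rw [aeval_def, eval₂_map, h1], by rw [aeval_def, eval₂_map]; exact h2⟩

omit [IsDomain B] in
lemma sep_finite [Algebra.FiniteType k B] (g : PA k n →ₐ[k] B) (hg : g.toRingHom.IsIntegral) :
    g.Finite := by
  have h : algebraMap k B = g.toRingHom.comp (algebraMap k (PA k n)) :=
    RingHom.ext fun c => (g.commutes c).symm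
  exact hg.to_finite (h ▸ RingHom.finiteType_algebraMap.mpr inferInstance).of_comp_finiteType

end Dom

/-- Separable Noether normalisation. -/
theorem exists_sep_normalization (k : Type u) [Field k] [IsAlgClosed k] (B : Type u) [CommRing B]
    [IsDomain B] [Algebra k B] [Algebra.FiniteType k B] :
    ∃ (n : ℕ) (g : PA k n →ₐ[k] B), Function.Injective g ∧ g.Finite ∧
      ∀ w : FractionRing B, ∃ f : (PA k n)[X], aeval w (f.map g.toRingHom) = 0 ∧
        aeval w ((derivative f).map g.toRingHom) ≠ 0 := by
  obtain ⟨n, g, hinj, hint⟩ := exists_integral_inj_algHom_of_fg k B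
  have halg := sep_alg g hint
  obtain _ | ⟨p, hp, hpk⟩ := CharP.exists' k
  · exact ⟨n, g, hinj, sep_finite g hint, sep_final g inferInstance⟩
  have hexp : ExpChar k p := .prime hp.out
  have hess : Algebra.EssFiniteType k (FractionRing B) :=
    haveI : Algebra.EssFiniteType B (FractionRing B) :=
      Algebra.EssFiniteType.of_isLocalization _ (nonZeroDivisors B)
    Algebra.EssFiniteType.comp k B (FractionRing B)
  have hy : IsTranscendenceBasis k fun i => algebraMap B (FractionRing B) (g (MvPolynomial.X i)) :=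
    isTranscendenceBasis_iff_algebraicIndependent_isAlgebraic.2
      ⟨(sep_inj_iff g).1 hinj, IntermediateField.isAlgebraic_adjoin_iff_top.1 halg⟩
  obtain ⟨s, hs, hsep⟩ :=
    exists_isTranscendenceBasis_and_isSeparable_of_perfectField k (FractionRing B)
  obtain ⟨e⟩ : Nonempty (Fin n ≃ s) := Cardinal.lift_mk_eq'.1 (hy.lift_cardinalMk_eq hs)
  choose a d hd had using fun i : Fin n =>
    IsFractionRing.div_surjective (A := B) ((e i : s) : FractionRing B)
  let z : Fin n → B := fun i => a i * d i ^ (p - 1)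
  obtain ⟨N₀, hN₀⟩ := sep_integral (k := k)
    (fun i => algebraMap B (FractionRing B) (g (MvPolynomial.X i)))
    (fun i => algebraMap B (FractionRing B) (z i)) fun i => (sep_int_iff g _).1 (hint _)
  let g' : PA k n →ₐ[k] B :=
    MvPolynomial.aeval fun i => g (MvPolynomial.X i) ^ p ^ (N₀ + 1) + z i
  have hg' : (fun i => algebraMap B (FractionRing B) (g' (MvPolynomial.X i))) = fun i =>
      algebraMap B (FractionRing B) (g (MvPolynomial.X i)) ^ p ^ (N₀ + 1)
        + algebraMap B (FractionRing B) (z i) := by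
    funext i
    simp only [g', MvPolynomial.aeval_X, map_add, map_pow]
  have hint' : g'.toRingHom.IsIntegral := by
    intro b
    rw [sep_int_iff, hg']
    exact hN₀ _ ((Nat.lt_succ_self N₀).trans (Nat.lt_pow_self hp.out.one_lt)) _
      ((sep_int_iff g b).1 (hint b))
  have halg' := sep_alg g' hint'
  have hinj' : Function.Injective g' := by
    rw [sep_inj_iff]
    have := IntermediateField.isAlgebraic_adjoin_iff_top.1 halg'
    exact (Algebra.IsAlgebraic.isTranscendenceBasis_of_lift_le_trdeg_of_finite k _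
      hy.lift_cardinalMk_eq_trdeg.le).1
  refine ⟨n, g', hinj', sep_finite g' hint', sep_final g' (sep_field p _ ?_)⟩
  set T := IntermediateField.adjoin k ((Set.range fun i =>
    algebraMap B (FractionRing B) (g' (MvPolynomial.X i))) ∪
      Set.range fun x : FractionRing B => x ^ p) with hT
  have hpow : ∀ x : FractionRing B, x ^ p ∈ T := fun x =>
    IntermediateField.subset_adjoin k _ (Or.inr ⟨x, rfl⟩)
  have hz : ∀ i, algebraMap B (FractionRing B) (z i) ∈ T := by
    intro i
    have h1 : algebraMap B (FractionRing B) (g' (MvPolynomial.X i)) ∈ T :=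
      IntermediateField.subset_adjoin k _ (Or.inl ⟨i, rfl⟩)
    rw [congrFun hg' i, pow_succ, pow_mul] at h1
    exact (add_mem_cancel_left (hpow _)).1 h1
  have hK : IntermediateField.adjoin k (s : Set (FractionRing B)) ≤ T := by
    rw [IntermediateField.adjoin_le_iff]
    intro x hx
    obtain ⟨i, hi⟩ := e.surjective ⟨x, hx⟩
    have hd0 : algebraMap B (FractionRing B) (d i) ≠ 0 :=
      IsFractionRing.to_map_ne_zero_of_mem_nonZeroDivisors (hd i)
    have h1 : x = algebraMap B (FractionRing B) (z i) / algebraMap B (FractionRing B) (d i) ^ p := by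
      have h2 := had i
      rw [hi] at h2
      obtain ⟨q, hq⟩ : ∃ q, p = q + 1 := ⟨p - 1, by have := hp.out.pos; omega⟩
      have h3 : p - 1 = q := by omega
      simp only [z, map_mul, map_pow, h3]
      change _ = x at h2
      rw [← h2, hq, pow_succ]
      field_simp
    rw [h1]
    exact div_mem (hz i) (hpow _)
  have hKe : ExpChar (IntermediateField.adjoin k (s : Set (FractionRing B))) p :=
    expChar_of_injective_algebraMap (algebraMap k _).injective p
  rw [eq_top_iff]
  intro x _
  have hx := IntermediateField.mem_adjoin_simple_self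
    (IntermediateField.adjoin k (s : Set (FractionRing B))) x
  rw [IntermediateField.adjoin_simple_eq_adjoin_pow_expChar_of_isSeparable' _ _ x p] at hx
  have hle : IntermediateField.adjoin (IntermediateField.adjoin k (s : Set (FractionRing B)))
      {x ^ p} ≤ IntermediateField.extendScalars hK := by
    rw [IntermediateField.adjoin_simple_le_iff]
    exact hpow x
  exact hle hx

end Pool.Agent.MP_f1fec5_al.Aff

end

section

namespace Pool.Agent.MP_f1fec5_al.Aff

open Polynomial

universe u v

section EmbAux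

open scoped IntermediateField

variable {A K B L : Type u} [CommRing A] [IsDomain A] [IsIntegrallyClosed A] [Field K]
  [Algebra A K] [IsFractionRing A K] [CommRing B] [IsDomain B] [Algebra A B] [Field L]
  [Algebra B L] [IsFractionRing B L] [Algebra A L] [Algebra K L] [IsScalarTower A B L]
  [IsScalarTower A K L]

omit [IsDomain A] [IsIntegrallyClosed A] [IsFractionRing A K] in
lemma emb_sep [FiniteDimensional K L]
    (hsep : ∀ w : L, ∃ f : A[X], aeval w f = 0 ∧ aeval w (derivative f) ≠ 0) :
    Algebra.IsSeparable K L := by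
  refine ⟨fun w => ?_⟩
  obtain ⟨f, h1, h2⟩ := hsep w
  have hw : IsIntegral K w := IsIntegral.of_finite K w
  refine (separable_iff_derivative_ne_zero (minpoly.irreducible hw)).2 fun h0 => h2 ?_
  obtain ⟨g, hg⟩ := minpoly.dvd K w (p := f.map (algebraMap A K)) (by rwa [aeval_map_algebraMap])
  rw [← aeval_map_algebraMap K, ← derivative_map, hg, derivative_mul, h0]
  simp

omit [IsDomain A] [IsDomain B] [IsFractionRing B L] in
variable (K L) in
lemma emb_norm [Algebra.IsIntegral A B] : ∃ ν : B →* A,
    ∀ b, algebraMap A K (ν b) = Algebra.norm K (algebraMap B L b) := by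
  have h : ∀ b : B, ∃ a : A, algebraMap A K a = Algebra.norm K (algebraMap B L b) := fun b =>
    IsIntegrallyClosed.isIntegral_iff.1 (Algebra.isIntegral_norm K
      (Algebra.IsIntegral.isIntegral (R := A) b).algebraMap)
  choose ν hν using h
  have hi := IsFractionRing.injective A K
  exact ⟨⟨⟨ν, hi (by rw [hν, map_one, map_one, map_one])⟩,
    fun a b => hi (by rw [map_mul, hν, hν, hν, map_mul, map_mul])⟩, hν⟩

omit [IsFractionRing B L] in
lemma emb_dvd [Algebra.IsIntegral A B] [FiniteDimensional K L] (b : B) (a : A)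
    (h : algebraMap A K a = Algebra.norm K (algebraMap B L b)) : b ∣ algebraMap A B a := by
  have hb := Algebra.IsIntegral.isIntegral (R := A) b
  have hx : IsIntegral K (algebraMap B L b) := IsIntegral.of_finite K _
  rw [Algebra.norm_eq_norm_adjoin, ← IntermediateField.adjoin.powerBasis_gen hx,
    Algebra.PowerBasis.norm_gen_eq_coeff_zero_minpoly, IntermediateField.adjoin.powerBasis_gen,
    IntermediateField.minpoly_gen, minpoly.isIntegrallyClosed_eq_field_fractions K L hb,
    coeff_map] at h
  have h2 : a = ((-1) ^ (IntermediateField.adjoin.powerBasis hx).dim * (minpoly A b).coeff 0) ^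
      Module.finrank K⟮algebraMap B L b⟯ L := by
    apply IsFractionRing.injective A K
    rw [h]; simp
  have h3 : b ∣ algebraMap A B ((minpoly A b).coeff 0) := by
    have h4 := congrArg (aeval b) (X_mul_divX_add (minpoly A b))
    rw [minpoly.aeval, map_add, map_mul, aeval_X, aeval_C] at h4
    exact ⟨-aeval b (divX (minpoly A b)), by linear_combination h4⟩
  rw [h2, map_pow, map_mul]
  exact dvd_pow (h3.mul_left _) Module.finrank_pos.ne'

variable (A K B L) in
lemma emb_pb [Algebra.IsIntegral A B] [FiniteDimensional K L] [Algebra.IsSeparable K L] :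
    ∃ (z : B) (pb : PowerBasis K L), pb.gen = algebraMap B L z := by
  obtain ⟨α, hα⟩ := Field.exists_primitive_element K L
  obtain ⟨s, t, ht, rfl⟩ := IsFractionRing.div_surjective (A := B) α
  obtain ⟨ν, hν⟩ := emb_norm (A := A) (B := B) K L
  obtain ⟨c, hc⟩ := emb_dvd t (ν t) (hν t)
  have ht' : algebraMap B L t ≠ 0 := IsFractionRing.to_map_ne_zero_of_mem_nonZeroDivisors ht
  have hN : algebraMap A K (ν t) ≠ 0 := by rw [hν]; exact Algebra.norm_ne_zero_iff.2 ht'
  have h1 : algebraMap K L (algebraMap A K (ν t)) = algebraMap B L t * algebraMap B L c := by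
    rw [← IsScalarTower.algebraMap_apply, IsScalarTower.algebraMap_apply A B L, hc, map_mul]
  have hc' : algebraMap B L c ≠ 0 := by
    intro h0
    rw [h0, mul_zero, map_eq_zero] at h1
    exact hN h1
  have hx : IsIntegral K (algebraMap B L (s * c)) := IsIntegral.of_finite K _
  have h2 : K⟮algebraMap B L (s * c)⟯ = ⊤ := by
    rw [eq_top_iff, ← hα, IntermediateField.adjoin_simple_le_iff]
    have h3 : algebraMap B L s / algebraMap B L t =
        algebraMap B L (s * c) / algebraMap K L (algebraMap A K (ν t)) := by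
      rw [h1, map_mul, mul_div_mul_right _ _ hc']
    rw [h3]
    exact div_mem (IntermediateField.mem_adjoin_simple_self K _)
      (IntermediateField.algebraMap_mem _ _)
  refine ⟨s * c, PowerBasis.ofAdjoinEqTop hx ?_, rfl⟩
  rw [← IntermediateField.adjoin_simple_toSubalgebra_of_isAlgebraic hx.isAlgebraic, h2,
    IntermediateField.top_toSubalgebra]

lemma emb_span [Algebra.IsIntegral A B] [FiniteDimensional K L] [Algebra.IsSeparable K L]
    {z : B} {pb : PowerBasis K L} (hz : pb.gen = algebraMap B L z) {Δ : A}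
    (hΔ : algebraMap A K Δ = Algebra.discr K pb.basis) {s t : B} (ht : t ≠ 0)
    (hw : IsIntegral A (algebraMap B L s / algebraMap B L t)) :
    ∃ h : A[X], h.degree < pb.dim ∧ algebraMap A B Δ * s = t * aeval z h := by
  have hb := Algebra.IsIntegral.isIntegral (R := A) z
  have hg : IsIntegral A pb.gen := hz ▸ hb.algebraMap
  have h1 := Algebra.discr_mul_isIntegral_mem_adjoin K hg hw
  rw [Algebra.adjoin_singleton_eq_range_aeval] at h1
  obtain ⟨f, hf⟩ := h1
  have hi := IsFractionRing.injective B L
  have ht' : algebraMap B L t ≠ 0 := (map_ne_zero_iff _ hi).2 ht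
  refine ⟨f %ₘ minpoly A z, ?_, hi ?_⟩
  · refine (degree_modByMonic_lt f (minpoly.monic hb)).trans_eq ?_
    rw [← pb.degree_minpoly, hz, minpoly.isIntegrallyClosed_eq_field_fractions K L hb,
      (minpoly.monic hb).degree_map]
  · rw [minpoly.aeval_modByMonic_minpoly, map_mul, map_mul, ← aeval_algebraMap_apply, ← hz]
    have hf' : aeval pb.gen f = _ := hf
    rw [hf', ← hΔ, Algebra.smul_def, ← IsScalarTower.algebraMap_apply,
      ← IsScalarTower.algebraMap_apply]
    field_simp

lemma emb_prod {R : Type u} [CommRing R] {m : ℕ} (x : Fin m → R) {i j : Fin m} (hij : i ≠ j) :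
    x i - x j ∣ ∏ a : Fin m, ∏ b ∈ Finset.Ioi a, (x b - x a) ^ 2 := by
  rcases lt_or_gt_of_ne hij with h | h
  · refine Dvd.dvd.trans ?_ (Finset.dvd_prod_of_mem _ (Finset.mem_univ i))
    refine Dvd.dvd.trans ?_ (Finset.dvd_prod_of_mem _ (Finset.mem_Ioi.2 h))
    exact ⟨x i - x j, by ring⟩
  · refine Dvd.dvd.trans ?_ (Finset.dvd_prod_of_mem _ (Finset.mem_univ j))
    refine Dvd.dvd.trans ?_ (Finset.dvd_prod_of_mem _ (Finset.mem_Ioi.2 h))
    exact ⟨x i - x j, by ring⟩

lemma emb_prod' {R Ω : Type u} [CommRing R] [CommRing Ω] [Algebra R Ω] {m : ℕ} (x : Fin m → Ω)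
    (hx : ∀ i, IsIntegral R (x i)) {i j : Fin m} (hij : i ≠ j) : ∃ e : Ω, IsIntegral R e ∧
      (x i - x j) * e = ∏ a : Fin m, ∏ b ∈ Finset.Ioi a, (x b - x a) ^ 2 := by
  obtain ⟨e, he⟩ := emb_prod (R := integralClosure R Ω) (fun i => ⟨x i, hx i⟩) hij
  refine ⟨e, e.2, ?_⟩
  have h := congrArg (integralClosure R Ω).val he
  simpa using h.symm

end EmbAux

/-- Embedding data from a separable finite injective map.
Hint: `F = FractionRing (PA k n)`, `L = FractionRing B` is finite separable over `F`;
`σ` = the `F`-embeddings of `L` into `Om k n` restricted to `B` (`AlgHom.card`), `ν` = the norm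
(`Algebra.norm_eq_prod_embeddings`, `Algebra.isIntegral_norm`, `PA k n` is integrally closed),
`dvd_ν` from the minimal polynomial over `PA k n`, `z` = a primitive element scaled into `B`,
`Δ` = discriminant of the power basis (`Algebra.discr_mul_isIntegral_mem_adjoin`,
`Algebra.discr_powerBasis_eq_prod''` or any multiple that works). -/
theorem nonempty_emb {k : Type u} [Field k] {n : ℕ} {B : Type u} [CommRing B] [IsDomain B]
    [Algebra (PA k n) B] [Module.Finite (PA k n) B]
    (hinj : Function.Injective (algebraMap (PA k n) B))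
    (hsep : ∀ w : FractionRing B, ∃ f : (PA k n)[X], aeval w f = 0 ∧
      aeval w (derivative f) ≠ 0) : Nonempty (Emb k n B) := by
  classical
  have : FaithfulSMul (PA k n) B := (faithfulSMul_iff_algebraMap_injective _ _).2 hinj
  let _ : Algebra (FractionRing (PA k n)) (FractionRing B) := FractionRing.liftAlgebra _ _
  have := FractionRing.isScalarTower_liftAlgebra (PA k n) (FractionRing B)
  have : FiniteDimensional (FractionRing (PA k n)) (FractionRing B) :=
    .of_isLocalization (PA k n) B (nonZeroDivisors (PA k n))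
  have : Algebra.IsSeparable (FractionRing (PA k n)) (FractionRing B) := emb_sep hsep
  obtain ⟨ν, hν⟩ := emb_norm (A := PA k n) (B := B) (FractionRing (PA k n)) (FractionRing B)
  obtain ⟨z, pb, hz⟩ := emb_pb (PA k n) (FractionRing (PA k n)) B (FractionRing B)
  have hzi : IsIntegral (PA k n) pb.gen :=
    hz ▸ (Algebra.IsIntegral.isIntegral (R := PA k n) z).algebraMap
  obtain ⟨Δ, hΔ⟩ := IsIntegrallyClosed.isIntegral_iff.1
    (Algebra.discr_isIntegral (FractionRing (PA k n)) (R := PA k n) (b := pb.basis)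
      fun i => by rw [pb.coe_basis]; exact hzi.pow _)
  let e : Fin pb.dim ≃ (FractionRing B →ₐ[FractionRing (PA k n)] Om k n) :=
    (Fintype.equivFinOfCardEq (by rw [AlgHom.card, pb.finrank])).symm
  let τ : Fin pb.dim → (FractionRing B →ₐ[PA k n] Om k n) := fun i => (e i).restrictScalars _
  have hτ : ∀ i, Function.Injective (τ i) := fun i => (τ i).toRingHom.injective
  refine ⟨{ m := pb.dim
            m_pos := pb.dim_pos
            σ := fun i => (τ i).comp (IsScalarTower.toAlgHom (PA k n) B (FractionRing B))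
            σ_inj := fun i => (hτ i).comp (IsFractionRing.injective B (FractionRing B))
            ν := ν
            ν_spec := fun b => ?_
            dvd_ν := fun b => emb_dvd b (ν b) (hν b)
            z := z
            Δ := Δ
            Δ_ne := fun h0 => ?_
            Δ_span := fun s t ht hw => emb_span hz hΔ ht ?_
            Δ_sep := fun i j hij => ?_ }⟩
  · rw [IsScalarTower.algebraMap_apply (PA k n) (FractionRing (PA k n)) (Om k n), hν,
      Algebra.norm_eq_prod_embeddings, ← e.prod_comp]
    rfl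
  · rw [h0, map_zero] at hΔ
    exact Algebra.discr_not_zero_of_basis _ pb.basis hΔ.symm
  · rw [← isIntegral_algHom_iff (τ ⟨0, pb.dim_pos⟩) (hτ _), map_div₀]
    exact hw
  · obtain ⟨c, hc, h⟩ := emb_prod' (R := PA k n) (fun i => τ i pb.gen) (fun i => hzi.map _) hij
    refine ⟨c, hc, ?_⟩
    rw [IsScalarTower.algebraMap_apply (PA k n) (FractionRing (PA k n)) (Om k n), hΔ,
      Algebra.discr_powerBasis_eq_prod _ _ pb e]
    rw [hz] at h ⊢
    exact h

theorem exists_emb (k : Type u) [Field k] [IsAlgClosed k] (B : Type u) [CommRing B]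
    [IsDomain B] [Algebra k B] [Algebra.FiniteType k B] :
    ∃ (n : ℕ) (_ : Algebra (PA k n) B), IsScalarTower k (PA k n) B ∧ Module.Finite (PA k n) B ∧
      Function.Injective (algebraMap (PA k n) B) ∧ Nonempty (Emb k n B) := by
  obtain ⟨n, g, hinj, hfin, hsep⟩ := exists_sep_normalization k B
  let _ : Algebra (PA k n) B := g.toRingHom.toAlgebra
  have hf : Module.Finite (PA k n) B := hfin
  refine ⟨n, inferInstance, IsScalarTower.of_algebraMap_eq fun c => (g.commutes c).symm, hf, hinj,
    nonempty_emb hinj fun w => ?_⟩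
  obtain ⟨f, h1, h2⟩ := hsep w
  refine ⟨f, ?_, ?_⟩
  · rw [← h1]
    exact (aeval_map_algebraMap B w f).symm
  · rw [← aeval_map_algebraMap B w (derivative f)]
    exact h2

end Pool.Agent.MP_f1fec5_al.Aff

end

section

namespace Pool.Agent.MP_f1fec5_al.Aff

open Polynomial

universe u v

open scoped IntermediateField.algebraAdjoinAdjoin in
/-- finiteness of the normalisation of a separable Noether normalisation -/
lemma norm_fin (k K : Type u) [Field k] [PerfectField k] [Field K] [Algebra k K]
    [Algebra.EssFiniteType k K] : ∃ R : Subalgebra k K, Algebra.IsAlgebraic R K ∧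
      Algebra.FiniteType k (integralClosure R K) := by
  obtain ⟨s, hs, hsep⟩ := exists_isTranscendenceBasis_and_isSeparable_of_perfectField k K
  have hr : Set.range ((↑) : s → K) = (s : Set K) := by simp
  let e : MvPolynomial s k ≃ₐ[k] Algebra.adjoin k (s : Set K) :=
    hs.1.aevalEquiv.trans (Subalgebra.equivOfEq _ _ (by rw [hr]))
  have h1 : IsIntegrallyClosed (Algebra.adjoin k (s : Set K)) :=
    IsIntegrallyClosed.of_equiv e.toRingEquiv
  have h2 : Algebra.FiniteType k (Algebra.adjoin k (s : Set K)) :=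
    Algebra.FiniteType.equiv inferInstance e
  have h3 : IsNoetherianRing (Algebra.adjoin k (s : Set K)) :=
    Algebra.FiniteType.isNoetherianRing k _
  have h4 : Algebra.EssFiniteType (IntermediateField.adjoin k (s : Set K)) K := .of_comp k _ _
  have h5 : Module.Finite (IntermediateField.adjoin k (s : Set K)) K :=
    Algebra.finite_of_essFiniteType_of_isAlgebraic
  have h6 : Module.Finite (Algebra.adjoin k (s : Set K))
      (integralClosure (Algebra.adjoin k (s : Set K)) K) :=
    IsIntegralClosure.finite _ (IntermediateField.adjoin k (s : Set K)) K _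
  refine ⟨Algebra.adjoin k (s : Set K), ?_, h2.trans inferInstance⟩
  exact Algebra.IsAlgebraic.trans _ (IntermediateField.adjoin k (s : Set K)) K

/-- clearing denominators -/
lemma norm_den {k R Ω : Type u} [Field k] [CommRing R] [Field Ω] [Algebra k R] [Algebra k Ω]
    [Algebra R Ω] [IsScalarTower k R Ω] {δ : R} (hδ : algebraMap R Ω δ ≠ 0) {S : Set Ω}
    (hS : ∀ y ∈ S, IsIntegral R (δ • y)) {w : Ω} (hw : IsIntegral (Algebra.adjoin k S) w) :
    ∃ j : ℕ, IsIntegral R (δ ^ j • w) := by
  let T := Localization.Away δ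
  let : Algebra T Ω := (IsLocalization.Away.lift δ (g := algebraMap R Ω)
    (isUnit_iff_ne_zero.2 hδ)).toAlgebra
  have : IsScalarTower R T Ω := IsScalarTower.of_algebraMap_eq fun x =>
    (IsLocalization.Away.lift_eq δ _ x).symm
  have : IsScalarTower k T Ω := IsScalarTower.of_algebraMap_eq fun x => by
    rw [IsScalarTower.algebraMap_apply k R T, ← IsScalarTower.algebraMap_apply R T Ω,
      ← IsScalarTower.algebraMap_apply]
  have hle : Algebra.adjoin k S ≤ (integralClosure T Ω).restrictScalars k := by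
    refine Algebra.adjoin_le fun y hy => ?_
    have h1 : IsIntegral T (δ • y) := (hS y hy).tower_top
    have h2 := h1.smul (IsLocalization.Away.invSelf δ : T)
    rw [← IsScalarTower.algebraMap_smul T δ y, smul_smul, mul_comm,
      IsLocalization.Away.mul_invSelf, one_smul] at h2
    exact h2
  have h3 : IsIntegral (integralClosure T Ω) w := by
    obtain ⟨p, hp, hp0⟩ := hw
    refine ⟨p.map (Subalgebra.inclusion hle).toRingHom, hp.map _, ?_⟩
    rw [eval₂_map]
    exact hp0
  have h4 : IsIntegral T w := isIntegral_trans w h3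
  obtain ⟨⟨_, j, rfl⟩, hm⟩ := h4.exists_multiple_integral_of_isLocalization (Submonoid.powers δ) w
  exact ⟨j, hm⟩

/-- A normal finitely generated model.
Hint: `z` a separating transcendence basis of `K` over `k`
(`exists_isTranscendenceBasis_and_isSeparable_of_perfectField`), `w₀` a primitive element of `K`
over `k(z)` integral over `k[z]`, `s = z ∪ {w₀}`. The `y i` are algebraic over `k(z)`, so
`δ * y i` is integral over `k[z]` for some `0 ≠ δ ∈ k[z]`; an element integral over `k[y]` becomes
integral over `k[z]` after multiplication by a power of `δ`; use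
`Algebra.discr_mul_isIntegral_mem_adjoin` and `η = discr * δ`. -/
theorem exists_normal_model {k Ω : Type u} [Field k] [PerfectField k] [Field Ω] [Algebra k Ω]
    (K : IntermediateField k Ω) (hfg : K.FG) {ι : Type} [Finite ι] (y : ι → Ω)
    (hy : ∀ i, IsAlgebraic K (y i)) :
    ∃ (s : Finset Ω) (η : Ω), (s : Set Ω) ⊆ K ∧ η ≠ 0 ∧ η ∈ Algebra.adjoin k (s : Set Ω) ∧
      ∀ w ∈ K, IsIntegral (Algebra.adjoin k (Set.range y)) w →
        ∃ j : ℕ, η ^ j * w ∈ Algebra.adjoin k (s : Set Ω) := by
  classical
  have : Algebra.EssFiniteType k K := IntermediateField.essFiniteType_iff.2 hfg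
  obtain ⟨R, halg, hft⟩ := norm_fin k K
  let f : integralClosure R K →ₐ[k] Ω :=
    K.val.comp (((integralClosure R K).val).restrictScalars k)
  obtain ⟨s, hs⟩ := (hft.out.map f)
  have hmem : ∀ x : K, IsIntegral R x → (x : Ω) ∈ Algebra.adjoin k (s : Set Ω) := by
    intro x hx
    rw [hs]
    exact ⟨⟨x, hx⟩, trivial, rfl⟩
  have hsK : (s : Set Ω) ⊆ K := by
    intro x hx
    have h1 : x ∈ Algebra.adjoin k (s : Set Ω) := Algebra.subset_adjoin hx
    rw [hs] at h1
    obtain ⟨c, -, rfl⟩ := h1
    exact c.1.2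
  have hy' : ∀ i, IsAlgebraic R (y i) := fun i => (hy i).restrictScalars R
  choose r hr hint using fun i => (hy' i).exists_integral_multiple
  have := Fintype.ofFinite ι
  let δ : R := ∏ i, r i
  have hδ0 : δ ≠ 0 := Finset.prod_ne_zero_iff.2 fun i _ => hr i
  have hδ : algebraMap R Ω δ ≠ 0 := fun h =>
    hδ0 (Subtype.ext (Subtype.ext h))
  have hS : ∀ z ∈ Set.range y, IsIntegral R (δ • z) := by
    rintro _ ⟨i, rfl⟩
    rw [show δ = (∏ l ∈ Finset.univ.erase i, r l) * r i from
      (Finset.prod_erase_mul _ _ (Finset.mem_univ i)).symm, mul_smul]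
    exact (hint i).smul _
  refine ⟨s, algebraMap R Ω δ, hsK, hδ, hmem (algebraMap R K δ) isIntegral_algebraMap,
    fun w hwK hw => ?_⟩
  obtain ⟨j, hj⟩ := norm_den hδ hS hw
  refine ⟨j, ?_⟩
  have h1 : IsIntegral R (δ ^ j • (⟨w, hwK⟩ : K)) :=
    (isIntegral_algebraMap_iff (algebraMap K Ω).injective).1 hj
  have h2 := hmem _ h1
  rw [← map_pow, ← Algebra.smul_def]
  exact h2

end Pool.Agent.MP_f1fec5_al.Aff

end

section

namespace Pool.Agent.MP_f1fec5_al.Aff

open Polynomial

universe u v

/-- setting the first `j` variables to zero -/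
noncomputable def flagKill (k : Type u) [Field k] (n j : ℕ) : PA k n →ₐ[k] PA k n :=
  MvPolynomial.aeval fun i : Fin n => if (i : ℕ) < j then 0 else MvPolynomial.X i

lemma flag_kill_X {k : Type u} [Field k] {n : ℕ} (j : ℕ) (i : Fin n) :
    flagKill k n j (MvPolynomial.X i) = if (i : ℕ) < j then 0 else MvPolynomial.X i := by
  simp only [flagKill, MvPolynomial.aeval_X]

lemma flag_kill_comp {k : Type u} [Field k] {n : ℕ} {j j' : ℕ} (h : j ≤ j') (f : PA k n) :
    flagKill k n j' (flagKill k n j f) = flagKill k n j' f := by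
  have : (flagKill k n j').comp (flagKill k n j) = flagKill k n j' := by
    refine MvPolynomial.algHom_ext fun i => ?_
    rw [AlgHom.comp_apply, flag_kill_X]
    split_ifs with h1
    · rw [map_zero, flag_kill_X, if_pos (by omega)]
    · rfl
  exact congrArg (fun g => g f) this

lemma flag_of_equiv {k : Type u} [Field k] {n : ℕ} (v : Fin n → k) (e e' : PA k n →ₐ[k] PA k n)
    (h1 : ∀ f, e (e' f) = f) (h2 : ∀ f, e' (e f) = f)
    (h3 : ∀ i, flagKill k n n (e (MvPolynomial.X i)) = MvPolynomial.C (v i)) :
    ∃ l : Fin (n + 1) → Ideal (PA k n), StrictMono l ∧ (∀ i, (l i).IsPrime) ∧ l 0 = ⊥ ∧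
      (∀ f, f ∈ l (Fin.last n) ↔ MvPolynomial.eval v f = 0) ∧
      ∀ (i : Fin (n + 1)) (j : Fin n), (j : ℕ) < i → e' (MvPolynomial.X j) ∈ l i := by
  let l : Fin (n + 1) → Ideal (PA k n) := fun i => RingHom.ker ((flagKill k n i).comp e)
  have hl : ∀ i f, f ∈ l i ↔ flagKill k n i (e f) = 0 := fun i f => Iff.rfl
  have hX : ∀ (i : Fin (n + 1)) (j : Fin n), e' (MvPolynomial.X j) ∈ l i ↔ (j : ℕ) < i := by
    intro i j
    rw [hl, h1, flag_kill_X]
    split_ifs with h
    · simp [h]
    · simp [h]
  refine ⟨l, fun i j hij => ?_, fun i => RingHom.ker_isPrime _, ?_, fun f => ?_,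
    fun i j h => (hX i j).2 h⟩
  · have hij' : (i : ℕ) < j := hij
    refine lt_of_le_of_ne (fun f hf => ?_) fun h => ?_
    · rw [hl] at hf ⊢
      rw [← flag_kill_comp hij'.le, hf, map_zero]
    · have hi : (i : ℕ) < n := by have := j.2; omega
      have := (hX j ⟨i, hi⟩).2 hij'
      rw [← h, hX] at this
      exact lt_irrefl _ this
  · refine eq_bot_iff.2 fun f hf => ?_
    have : flagKill k n 0 = AlgHom.id k _ := MvPolynomial.algHom_ext fun i => by
      rw [flag_kill_X, if_neg (Nat.not_lt_zero _)]; rfl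
    rw [hl, Fin.val_zero, this, AlgHom.id_apply] at hf
    rw [Ideal.mem_bot, ← h2 f, hf, map_zero]
  · have : (flagKill k n n).comp e = (Algebra.ofId k _).comp (MvPolynomial.aeval v) :=
      MvPolynomial.algHom_ext fun i => by
        rw [AlgHom.comp_apply, h3]; simp [Algebra.ofId_apply]
    have h4 := congrArg (fun g => g f) this
    simp only [AlgHom.comp_apply, Algebra.ofId_apply, MvPolynomial.algebraMap_eq,
      MvPolynomial.aeval_eq_eval] at h4
    rw [hl, Fin.val_last, h4, MvPolynomial.C_eq_zero]

lemma flag_form {k : Type u} [Field k] [Infinite k] {m : ℕ} (v : Fin (m + 1) → k)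
    (Z : Finset (Fin (m + 1) → k)) (hv : v ∉ Z) :
    ∃ a : Fin (m + 1) → k, a 0 ≠ 0 ∧ ∀ z ∈ Z, ∑ i, a i * (z i - v i) ≠ 0 := by
  classical
  let F : PA k (m + 1) :=
    MvPolynomial.X 0 * ∏ z ∈ Z, ∑ i, MvPolynomial.X i * MvPolynomial.C (z i - v i)
  have hF : F ≠ 0 := by
    refine mul_ne_zero (MvPolynomial.X_ne_zero _) (Finset.prod_ne_zero_iff.2 fun z hz h => ?_)
    apply hv
    have : z = v := funext fun j => by
      have h1 := congrArg (MvPolynomial.eval (Pi.single j 1)) h
      simp only [map_sum, map_mul, MvPolynomial.eval_X, MvPolynomial.eval_C, map_zero] at h1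
      rw [Finset.sum_eq_single j (fun i _ hi => by simp [hi]) (by simp)] at h1
      simpa [sub_eq_zero] using h1
    rwa [← this]
  obtain ⟨a, ha⟩ : ∃ a, MvPolynomial.eval a F ≠ 0 := by
    by_contra h
    push Not at h
    exact hF (MvPolynomial.funext fun x => by rw [h x, map_zero])
  simp only [F, map_mul, map_prod, map_sum, MvPolynomial.eval_X, MvPolynomial.eval_C] at ha
  exact ⟨a, left_ne_zero_of_mul ha, Finset.prod_ne_zero_iff.1 (right_ne_zero_of_mul ha)⟩

/-- A flag of linear subspaces through `v` whose hyperplane misses a finite set.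
Hint: kernels of the substitutions `kill j ∘ e₀`, where `e₀` is an affine change of coordinates
sending a generic linear form vanishing at `v` to `X 0`, and `kill j` sets the first `j` variables
to zero. -/
theorem exists_flag {k : Type u} [Field k] [Infinite k] {n : ℕ} (v : Fin n → k)
    (Z : Finset (Fin n → k)) (hv : v ∉ Z) :
    ∃ l : Fin (n + 1) → Ideal (PA k n), StrictMono l ∧ (∀ i, (l i).IsPrime) ∧ l 0 = ⊥ ∧
      (∀ f, f ∈ l (Fin.last n) ↔ MvPolynomial.eval v f = 0) ∧
      ∀ i, i ≠ 0 → ∀ z ∈ Z, ∃ f ∈ l i, MvPolynomial.eval z f ≠ 0 := by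
  cases n with
  | zero =>
    obtain ⟨l, h1, h2, h3, h4, -⟩ := flag_of_equiv v (AlgHom.id k _) (AlgHom.id k _)
      (fun _ => rfl) (fun _ => rfl) (fun i => i.elim0)
    exact ⟨l, h1, h2, h3, h4, fun i hi => absurd (Fin.eq_zero i) hi⟩
  | succ m =>
    obtain ⟨a, ha0, ha⟩ := flag_form v Z hv
    have hc : (MvPolynomial.C (a 0)⁻¹ : PA k (m + 1)) * MvPolynomial.C (a 0) = 1 := by
      rw [← map_mul, inv_mul_cancel₀ ha0, map_one]
    let e' : PA k (m + 1) →ₐ[k] PA k (m + 1) := MvPolynomial.aeval
      (Fin.cons (∑ i, MvPolynomial.C (a i) * (MvPolynomial.X i - MvPolynomial.C (v i)))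
        fun i : Fin m => MvPolynomial.X i.succ - MvPolynomial.C (v i.succ))
    let e : PA k (m + 1) →ₐ[k] PA k (m + 1) := MvPolynomial.aeval
      (Fin.cons (MvPolynomial.C (v 0) + MvPolynomial.C (a 0)⁻¹ * (MvPolynomial.X 0 -
          ∑ i : Fin m, MvPolynomial.C (a i.succ) * MvPolynomial.X i.succ))
        fun i : Fin m => MvPolynomial.X i.succ + MvPolynomial.C (v i.succ))
    have h1 : e.comp e' = AlgHom.id k _ := MvPolynomial.algHom_ext fun i => by
      refine Fin.cases ?_ (fun i => ?_) i
      · simp only [e, e', AlgHom.comp_apply, MvPolynomial.aeval_X, Fin.cons_zero, Fin.cons_succ,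
          Fin.sum_univ_succ, map_add, map_mul, map_sub, map_sum, MvPolynomial.algHom_C,
          MvPolynomial.algebraMap_eq, AlgHom.id_apply, add_sub_cancel_right]
        linear_combination (MvPolynomial.X 0 -
          ∑ i : Fin m, MvPolynomial.C (a i.succ) * MvPolynomial.X i.succ : PA k (m + 1)) * hc
      · simp only [e, e', AlgHom.comp_apply, MvPolynomial.aeval_X, Fin.cons_succ, map_sub,
          MvPolynomial.algHom_C, MvPolynomial.algebraMap_eq, AlgHom.id_apply,
          add_sub_cancel_right]
    have h2 : e'.comp e = AlgHom.id k _ := MvPolynomial.algHom_ext fun i => by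
      refine Fin.cases ?_ (fun i => ?_) i
      · simp only [e, e', AlgHom.comp_apply, MvPolynomial.aeval_X, Fin.cons_zero, Fin.cons_succ,
          Fin.sum_univ_succ, map_add, map_mul, map_sub, map_sum, MvPolynomial.algHom_C,
          MvPolynomial.algebraMap_eq, AlgHom.id_apply, add_sub_cancel_right]
        linear_combination (MvPolynomial.X 0 - MvPolynomial.C (v 0) : PA k (m + 1)) * hc
      · simp only [e, e', AlgHom.comp_apply, MvPolynomial.aeval_X, Fin.cons_succ, map_add,
          MvPolynomial.algHom_C, MvPolynomial.algebraMap_eq, AlgHom.id_apply, sub_add_cancel]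
    have hk : ∀ i : Fin (m + 1), flagKill k (m + 1) (m + 1) (MvPolynomial.X i) = 0 := fun i => by
      rw [flag_kill_X, if_pos i.2]
    obtain ⟨l, h3, h4, h5, h6, h7⟩ := flag_of_equiv v e e' (fun f => congrArg (fun g => g f) h1)
      (fun f => congrArg (fun g => g f) h2) (fun i => by
        refine Fin.cases ?_ (fun i => ?_) i
        · simp only [e, MvPolynomial.aeval_X, Fin.cons_zero, map_add, map_mul, map_sub, map_sum,
            MvPolynomial.algHom_C, MvPolynomial.algebraMap_eq, hk, mul_zero,
            Finset.sum_const_zero, sub_zero, add_zero]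
        · simp only [e, MvPolynomial.aeval_X, Fin.cons_succ, map_add,
            MvPolynomial.algHom_C, MvPolynomial.algebraMap_eq, hk, zero_add])
    refine ⟨l, h3, h4, h5, h6, fun i hi z hz => ⟨_, h7 i 0 (Fin.pos_iff_ne_zero.2 hi), ?_⟩⟩
    simpa only [e', MvPolynomial.aeval_X, Fin.cons_zero, map_sum, map_mul, map_sub,
      MvPolynomial.eval_C, MvPolynomial.eval_X] using ha z hz

/-- Lifting a chain by going down. -/
theorem exists_chain_over {k : Type u} [Field k] {n : ℕ} {B : Type u} [CommRing B] [IsDomain B]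
    [Algebra (PA k n) B] [Algebra.IsIntegral (PA k n) B]
    (hinj : Function.Injective (algebraMap (PA k n) B)) (r : ℕ)
    (l : Fin (r + 1) → Ideal (PA k n)) (hl : StrictMono l) (hp : ∀ i, (l i).IsPrime)
    (Q : Ideal B) [Q.IsPrime] (hQ : Q.comap (algebraMap (PA k n) B) = l (Fin.last r)) :
    ∃ L : Fin (r + 1) → Ideal B, StrictMono L ∧ (∀ i, (L i).IsPrime) ∧
      (∀ i, (L i).comap (algebraMap (PA k n) B) = l i) ∧ L (Fin.last r) = Q := by
  have : FaithfulSMul (PA k n) B := (faithfulSMul_iff_algebraMap_injective _ _).2 hinj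
  induction r with
  | zero =>
    refine ⟨fun _ => Q, fun i j hij => ?_, fun _ => inferInstance, fun i => ?_, rfl⟩
    · rw [Fin.eq_zero i, Fin.eq_zero j] at hij
      exact absurd hij (lt_irrefl _)
    · rw [Fin.eq_zero i]; exact hQ
  | succ r ih =>
    obtain ⟨L, h1, h2, h3, h4⟩ := ih (fun i => l i.succ)
      (hl.comp Fin.strictMono_succ) (fun i => hp _) hQ
    have := hp 0
    have := hp (Fin.succ 0)
    have := h2 0
    have : (L 0).LiesOver (l (Fin.succ 0)) := ⟨(h3 0).symm⟩
    obtain ⟨P, hP, hP1, hP2⟩ := Ideal.exists_ideal_lt_liesOver_of_lt (p := l 0)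
      (q := l (Fin.succ 0)) (L 0) (hl (Fin.succ_pos 0))
    refine ⟨Fin.cons P L, Fin.strictMono_iff_lt_succ.2 fun i => ?_, fun i => ?_, fun i => ?_, h4⟩
    · refine Fin.cases ?_ (fun i => ?_) i
      · exact hP
      · exact h1 (Fin.castSucc_lt_succ (i := i))
    · exact Fin.cases hP1 (fun i => h2 i) i
    · exact Fin.cases hP2.over.symm (fun i => h3 i) i

lemma flag_inj_Om {k : Type u} [Field k] {n : ℕ} :
    Function.Injective (algebraMap (PA k n) (Om k n)) := by
  rw [IsScalarTower.algebraMap_eq (PA k n) (FractionRing (PA k n)) (Om k n)]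
  exact (algebraMap (FractionRing (PA k n)) (Om k n)).injective.comp
    (IsFractionRing.injective (PA k n) (FractionRing (PA k n)))

lemma flag_inj_EE {k : Type u} [Field k] {n : ℕ} :
    Function.Injective (algebraMap (PA k n) (EE k n)) := fun _ _ h =>
  flag_inj_Om (congrArg Subtype.val h)

/-- Every element of `Om k n` has a denominator in the polynomial ring, and a nonzero element of
`EE k n` divides a nonzero polynomial. -/
theorem exists_den {k : Type u} [Field k] {n : ℕ} (w : Om k n) :
    ∃ a : PA k n, a ≠ 0 ∧ IsIntegral (PA k n) (algebraMap (PA k n) (Om k n) a * w) := by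
  have := IsLocalization.isAlgebraic (FractionRing (PA k n)) (nonZeroDivisors (PA k n))
  have := Algebra.IsAlgebraic.trans (PA k n) (FractionRing (PA k n)) (Om k n)
  obtain ⟨a, ha, h⟩ := (Algebra.IsAlgebraic.isAlgebraic (R := PA k n) w).exists_integral_multiple
  exact ⟨a, ha, by rwa [← Algebra.smul_def]⟩

theorem exists_dvd {k : Type u} [Field k] {n : ℕ} (e : EE k n) (he : e ≠ 0) :
    ∃ a : PA k n, a ≠ 0 ∧ e ∣ algebraMap (PA k n) (EE k n) a := by
  obtain ⟨a, ha, h⟩ := exists_den (e : Om k n)⁻¹
  refine ⟨a, ha, ⟨_, h⟩, Subtype.ext ?_⟩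
  have h0 : (e : Om k n) ≠ 0 := fun h0 => he (Subtype.ext h0)
  change algebraMap (PA k n) (Om k n) a = e * (algebraMap (PA k n) (Om k n) a * (e : Om k n)⁻¹)
  field_simp

/-- A root of the specialised minimal polynomial is a value. -/
lemma flag_ev {k : Type u} [Field k] [IsAlgClosed k] {n : ℕ} (e : EE k n) (v : Fin n → k) (t : k)
    (h : MvPolynomial.eval v (eval (MvPolynomial.C t) (minpoly (PA k n) e)) = 0) :
    ∃ ev : EE k n →ₐ[k] k, pt n ev = v ∧ ev e = t := by
  have : FaithfulSMul (PA k n) (EE k n) :=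
    (faithfulSMul_iff_algebraMap_injective _ _).2 flag_inj_EE
  let x : (PA k n)[X] →+* k := (MvPolynomial.eval v).comp (evalRingHom (MvPolynomial.C t))
  have hx : (RingHom.ker x).IsMaximal :=
    RingHom.ker_isMaximal_of_surjective x fun c => ⟨C (MvPolynomial.C c), by simp [x]⟩
  let : Algebra (PA k n)[X] (EE k n) := (aeval e : (PA k n)[X] →ₐ[PA k n] EE k n).toAlgebra
  have ha : ∀ f, algebraMap (PA k n)[X] (EE k n) f = aeval e f := fun _ => rfl
  have : IsScalarTower (PA k n) (PA k n)[X] (EE k n) := IsScalarTower.of_algebraMap_eq fun f => by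
    rw [ha, AlgHom.commutes]
  have : Algebra.IsIntegral (PA k n)[X] (EE k n) := Algebra.IsIntegral.tower_top (PA k n)
  obtain ⟨Q, hQ, hQx⟩ := Ideal.exists_ideal_over_maximal_of_isIntegral (S := EE k n)
    (RingHom.ker x) (fun f hf => by
      obtain ⟨g, rfl⟩ := minpoly.isIntegrallyClosed_dvd (Algebra.IsIntegral.isIntegral e) hf
      rw [RingHom.mem_ker, map_mul]
      exact mul_eq_zero_of_left h _)
  obtain ⟨ev, h1, h2⟩ := exists_point_over Q v (fun f hf => by
    have : C f ∈ RingHom.ker x := by
      rw [← hQx, Ideal.mem_comap, ha, aeval_C]; exact hf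
    simpa [x] using this)
  refine ⟨ev, h2, ?_⟩
  have h3 : X - C (MvPolynomial.C t) ∈ RingHom.ker x := by simp [x, RingHom.mem_ker]
  rw [← hQx, Ideal.mem_comap, ha, map_sub, aeval_X, aeval_C] at h3
  have h4 := h1 h3
  rw [RingHom.mem_ker, map_sub, map_algebraMap_eq_eval, MvPolynomial.eval_C] at h4
  exact sub_eq_zero.1 h4

/-- A family of polynomials without zeros off a hypersurface is constant up to a factor. -/
lemma flag_const {k : Type u} [Field k] [IsAlgClosed k] {n : ℕ} (G : (PA k n)[X]) (g : PA k n)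
    (hg : g ≠ 0) (Λ : Set k) (hΛ : Λ.Infinite)
    (h : ∀ α ∈ Λ, ∀ v, MvPolynomial.eval v g ≠ 0 →
      MvPolynomial.eval v (eval (MvPolynomial.C α) G) ≠ 0) :
    ∃ (b : PA k n) (G0 : k[X]), G = C b * G0.map MvPolynomial.C := by
  classical
  let : NormalizedGCDMonoid (PA k n) := Classical.arbitrary _
  have hfin : ∀ p : PA k n, Prime p → {α : k | p ∣ eval (MvPolynomial.C α) G.primPart}.Finite := by
    intro p hp
    have : (Ideal.span {p}).IsPrime := (Ideal.span_singleton_prime hp.ne_zero).2 hp
    have h0 : G.primPart.map (Ideal.Quotient.mk (Ideal.span {p})) ≠ 0 := by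
      intro h0
      refine hp.not_isUnit (G.isPrimitive_primPart p ((C_dvd_iff_dvd_coeff _ _).2 fun i => ?_))
      have := congrArg (fun q => coeff q i) h0
      simpa [Ideal.Quotient.eq_zero_iff_mem, Ideal.mem_span_singleton] using this
    refine ((finite_setOfPred_isRoot h0).preimage
      (f := (Ideal.Quotient.mk (Ideal.span {p})).comp MvPolynomial.C)
      (RingHom.injective _).injOn).subset fun α hα => ?_
    simp only [Set.mem_preimage, Set.mem_ofPred_eq, IsRoot.def, RingHom.comp_apply,
      eval_map, eval₂_at_apply, Ideal.Quotient.eq_zero_iff_mem, Ideal.mem_span_singleton]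
    exact hα
  have hfin2 : {α : k | ∃ p ∈ UniqueFactorizationMonoid.factors g,
      p ∣ eval (MvPolynomial.C α) G.primPart}.Finite := by
    refine ((UniqueFactorizationMonoid.factors g).finite_toSet.biUnion fun p hp =>
      hfin p (UniqueFactorizationMonoid.prime_of_factor p hp)).subset fun α ⟨p, h1, h2⟩ => ?_
    exact Set.mem_biUnion h1 h2
  refine ⟨G.content, G.primPart.map (MvPolynomial.eval 0), ?_⟩
  suffices hs : G.primPart - (G.primPart.map (MvPolynomial.eval 0)).map MvPolynomial.C = 0 by
    rw [← sub_eq_zero.1 hs]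
    exact G.eq_C_content_mul_primPart
  refine eq_zero_of_infinite_isRoot _ (((hΛ.sdiff hfin2).image
    (MvPolynomial.C_injective (Fin n) k).injOn).mono ?_)
  rintro _ ⟨α, ⟨h1, h2⟩, rfl⟩
  have h3 : ∀ v, MvPolynomial.eval v g ≠ 0 →
      MvPolynomial.eval v (eval (MvPolynomial.C α) G.primPart) ≠ 0 := by
    intro v hv h0
    apply h α h1 v hv
    rw [G.eq_C_content_mul_primPart, eval_mul, map_mul, h0, mul_zero]
  have hu : IsUnit (eval (MvPolynomial.C α) G.primPart) := by
    by_contra hu
    by_cases h0 : eval (MvPolynomial.C α) G.primPart = 0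
    · obtain ⟨v, -, hv⟩ := exists_eval_ne (⊥ : Ideal (PA k n)) (f := g) hg
      exact h3 v hv (by rw [h0, map_zero])
    obtain ⟨q, hq, hqd⟩ := WfDvdMonoid.exists_irreducible_factor hu h0
    by_cases hqg : q ∣ g
    · obtain ⟨p, hp, hpq⟩ := UniqueFactorizationMonoid.exists_mem_factors_of_dvd hg hq hqg
      exact h2 ⟨p, hp, hpq.symm.dvd.trans hqd⟩
    · have : (Ideal.span {q}).IsPrime := (Ideal.span_singleton_prime hq.ne_zero).2 hq.prime
      obtain ⟨v, hv1, hv⟩ := exists_eval_ne (Ideal.span {q}) (f := g)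
        (by rwa [Ideal.mem_span_singleton])
      exact h3 v hv (hv1 _ (Ideal.mem_span_singleton.2 hqd))
  obtain ⟨u, -, hu⟩ := MvPolynomial.isUnit_iff_eq_C_of_isReduced.1 hu
  have h4 : eval α (G.primPart.map (MvPolynomial.eval 0)) = u := by
    have := congrArg (MvPolynomial.eval (0 : Fin n → k)) hu
    rw [MvPolynomial.eval_C, ← eval₂_at_apply, MvPolynomial.eval_C, ← eval_map] at this
    exact this
  rw [Set.mem_ofPred_eq, IsRoot.def, eval_sub, eval_map, eval₂_at_apply, h4, hu, sub_self]

/-- A nonconstant algebraic function takes a value in any infinite set of constants.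
Hint: choose `0 ≠ a ∈ PA k n` with `e = a * c` integral. The finitely generated domain
`E' = A[e][1/(a γ)]` contains `k[c]`, a polynomial ring; a maximal ideal of `k(c) ⊗ E'` gives a map
to a finite extension of `k(c)`, whose image is integral over `k[c][1/h]`; so every `α` with
`h α ≠ 0` is a value; extend the point from `A[e]` to `EE k n` by lying over
(`exists_point_over`). Alternatively restrict the minimal polynomial of `e` to a line and use a
pigeonhole argument. -/
theorem exists_ev_sub {k : Type u} [Field k] [IsAlgClosed k] {n : ℕ} (c : Om k n)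
    (hc : c ∉ Set.range (algebraMap k (Om k n))) (Λ : Set k) (hΛ : Λ.Infinite) (γ : PA k n)
    (hγ : γ ≠ 0) :
    ∃ α ∈ Λ, ∃ ev : EE k n →ₐ[k] k, MvPolynomial.eval (pt n ev) γ ≠ 0 ∧
      ∃ e₁ e₂ : EE k n, ev e₁ = 0 ∧ ev e₂ ≠ 0 ∧
        (c - algebraMap k (Om k n) α) * (e₂ : Om k n) = e₁ := by
  obtain ⟨a, ha, hint⟩ := exists_den c
  let e : EE k n := ⟨_, hint⟩
  have hei : IsIntegral (PA k n) e := Algebra.IsIntegral.isIntegral e
  by_contra hcon
  have hG0 : (minpoly (PA k n) e).comp (C a * X) ≠ 0 := by
    intro h0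
    rcases comp_eq_zero_iff.1 h0 with h1 | ⟨-, h1⟩
    · exact minpoly.ne_zero hei h1
    · have := congrArg (fun q => coeff q 1) h1
      simp [coeff_C, ha] at this
  obtain ⟨b, G0, hb⟩ := flag_const ((minpoly (PA k n) e).comp (C a * X)) (a * γ)
    (mul_ne_zero ha hγ) Λ hΛ (fun α hα v hv h0 => by
      rw [map_mul] at hv
      obtain ⟨ev, h1, h2⟩ := flag_ev e v (MvPolynomial.eval v a * α) (by
        rw [eval_comp, ← eval₂_at_apply] at h0
        rw [← eval₂_at_apply]
        simpa using h0)
      refine hcon ⟨α, hα, ev, by rw [h1]; exact right_ne_zero_of_mul hv,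
        e - algebraMap (PA k n) (EE k n) (a * MvPolynomial.C α), algebraMap (PA k n) (EE k n) a,
        ?_, ?_, ?_⟩
      · rw [map_sub, map_algebraMap_eq_eval, h1, h2, map_mul, MvPolynomial.eval_C, sub_self]
      · rw [map_algebraMap_eq_eval, h1]; exact left_ne_zero_of_mul hv
      · change (c - algebraMap k (Om k n) α) * algebraMap (PA k n) (Om k n) a =
          algebraMap (PA k n) (Om k n) a * c -
            algebraMap (PA k n) (Om k n) (a * MvPolynomial.C α)
        rw [map_mul, ← MvPolynomial.algebraMap_eq, ← IsScalarTower.algebraMap_apply]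
        ring)
  have h1 : aeval c ((minpoly (PA k n) e).comp (C a * X)) = 0 := by
    rw [aeval_comp, map_mul, aeval_C, aeval_X]
    have := congrArg Subtype.val (minpoly.aeval (PA k n) e)
    rw [← Subalgebra.aeval_coe] at this
    exact this
  rw [hb] at h1 hG0
  have hb0 : b ≠ 0 := fun h => hG0 (by rw [h, map_zero, zero_mul])
  have hG1 : G0 ≠ 0 := fun h => hG0 (by rw [h, Polynomial.map_zero, mul_zero])
  rw [map_mul, aeval_C, ← MvPolynomial.algebraMap_eq, aeval_map_algebraMap] at h1
  have h2 : IsIntegral k c := IsAlgebraic.isIntegral ⟨G0, hG1,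
    (mul_eq_zero.1 h1).resolve_left ((map_ne_zero_iff _ flag_inj_Om).2 hb0)⟩
  exact hc (minpoly.mem_range_of_degree_eq_one k c
    (IsAlgClosed.degree_eq_one_of_irreducible k (minpoly.irreducible h2)))

/-- An element killed by all points over the complement of a hypersurface is zero. -/
theorem eq_zero_of_forall_ev {k : Type u} [Field k] [IsAlgClosed k] {n : ℕ} (γ : PA k n)
    (hγ : γ ≠ 0) (e : EE k n)
    (h : ∀ ev : EE k n →ₐ[k] k, MvPolynomial.eval (pt n ev) γ ≠ 0 → ev e = 0) : e = 0 := by
  by_contra he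
  obtain ⟨a, ha, e', he'⟩ := exists_dvd e he
  obtain ⟨x, -, hx⟩ := exists_point_ne (⊥ : Ideal (EE k n)) (f := a * γ)
    ((map_ne_zero_iff _ flag_inj_EE).2 (mul_ne_zero ha hγ))
  rw [map_mul] at hx
  apply left_ne_zero_of_mul hx
  rw [← map_algebraMap_eq_eval, he', map_mul, h x (right_ne_zero_of_mul hx), zero_mul]

end Pool.Agent.MP_f1fec5_al.Aff

end
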