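import Pool.Agent.MP_f1fec5_al.Aff.Fld
import Pool.Agent.MP_f1fec5_al.Aff.Nor
import Pool.Agent.MP_f1fec5_al.Aff.Lam

section

namespace Pool.Agent.MP_f1fec5_al.Aff

open Polynomial

universe u v

/-- Sylvester polynomials -/
noncomputable def thetaS : ℕ → ℤ[X]
  | 0 => X
  | j + 1 => thetaS j * thetaS j - thetaS j + 1

lemma theta_map {A B : Type*} [CommRing A] [CommRing B] [Algebra ℤ A] [Algebra ℤ B] (f : A →+* B)
    (x : A) (p : ℤ[X]) : f (aeval x p) = aeval (f x) p := by
  rw [aeval_def, aeval_def, hom_eval₂, RingHom.ext_int (f.comp (algebraMap ℤ A)) (algebraMap ℤ B)]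

section Val

variable {K : Type u} [Field K] {Γ : Type*} [LinearOrderedCommGroupWithZero Γ] (w : Valuation K Γ)

lemma theta_succ (x : K) (j : ℕ) : aeval x (thetaS (j + 1)) =
    aeval x (thetaS j) * (aeval x (thetaS j) - 1) + 1 := by
  simp only [thetaS, map_add, map_sub, map_mul, map_one]
  ring

lemma theta_gt {x : K} (hx : 1 < w x) (j : ℕ) : 1 < w (aeval x (thetaS j)) := by
  induction j with
  | zero => simpa [thetaS] using hx
  | succ j ih =>
    rw [theta_succ]
    generalize aeval x (thetaS j) = y at ih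
    have h1 : w (y - 1) = w y := w.map_sub_eq_of_lt_left (by simpa using ih)
    have h2 : 1 < w (y * (y - 1)) := by
      rw [map_mul, h1]
      exact ih.trans_le (le_mul_of_one_le_right' ih.le)
    rw [w.map_add_eq_of_lt_left (by simpa using h2)]
    exact h2

lemma theta_lt {x : K} {i : ℕ} (hi : w (aeval x (thetaS i)) < 1) {j : ℕ} (hj : i < j) :
    w (aeval x (thetaS j) - 1) < 1 := by
  induction j, hj using Nat.le_induction with
  | base =>
    rw [Nat.succ_eq_add_one, theta_succ, add_sub_cancel_right, map_mul]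
    generalize aeval x (thetaS i) = y at hi
    have h1 : w (y - 1) ≤ 1 := (w.map_sub y 1).trans (max_le hi.le (by simp))
    exact (mul_le_of_le_one_right' h1).trans_lt hi
  | succ j _ ih =>
    rw [theta_succ, add_sub_cancel_right, map_mul]
    generalize aeval x (thetaS j) = y at ih
    have h1 : w y ≤ 1 := by
      have := w.map_add (y - 1) 1
      rw [sub_add_cancel] at this
      exact this.trans (max_le ih.le (by simp))
    exact (mul_le_of_le_one_left' h1).trans_lt ih

lemma theta_uniq {x : K} {i j : ℕ} (hi : w (aeval x (thetaS i)) < 1)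
    (hj : w (aeval x (thetaS j)) < 1) : i = j := by
  have key : ∀ {i j : ℕ}, w (aeval x (thetaS i)) < 1 → w (aeval x (thetaS j)) < 1 → ¬ i < j := by
    intro i j hi hj hij
    have h1 := theta_lt w hi hij
    have h2 := w.map_sub (aeval x (thetaS j)) (aeval x (thetaS j) - 1)
    rw [sub_sub_cancel, map_one] at h2
    exact absurd (h2.trans_lt (max_lt hj h1)) (lt_irrefl _)
  exact le_antisymm (not_lt.1 (key hj hi)) (not_lt.1 (key hi hj))

lemma theta_val {m : ℕ} (x : Fin m → K)
    (h : ∀ j : Fin m, w (∏ l, aeval (x l) (thetaS j)) ≤ 1) (i : Fin m) : w (x i) ≤ 1 := by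
  classical
  by_contra hi
  rw [not_le] at hi
  have : ∃ j : Fin m, ∀ l, 1 ≤ w (aeval (x l) (thetaS j)) := by
    by_contra hc
    push Not at hc
    choose g hg using hc
    have hinj : Function.Injective g := fun j j' e =>
      Fin.ext (theta_uniq w (hg j) (e ▸ hg j'))
    obtain ⟨j, hj⟩ := Finite.surjective_of_injective hinj i
    exact absurd (hj ▸ hg j) (not_lt.2 (theta_gt w hi j).le)
  obtain ⟨j, hj⟩ := this
  have h1 := h j
  rw [map_prod, ← Finset.mul_prod_erase _ _ (Finset.mem_univ i)] at h1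
  have h2 : 1 ≤ ∏ l ∈ Finset.univ.erase i, w (aeval (x l) (thetaS j)) :=
    Finset.one_le_prod' fun l _ => hj l
  exact absurd ((theta_gt w hi j).trans_le ((le_mul_of_one_le_right' h2).trans h1)) (lt_irrefl _)

end Val

/-- Universal integrality.
Hint: `F 0 = X`, `F (j+1) = F 0 * ... * F j + 1` are monic, nonconstant and pairwise coprime. If a
valuation ring of the fraction field contains all `Y j` but not `X i`, each of the at most `m - 1`
variables in the valuation ring makes at most one `F j` a non-unit, so some `Y j` has a pole.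
Use `iInf_valuationSubring_superset` or `Subring.exists_le_valuationSubring_of_isIntegrallyClosedIn`
in `Mathlib/RingTheory/Valuation/LocalSubring.lean`. -/
theorem universal_integral (k : Type u) [Field k] (m : ℕ) :
    ∃ F : Fin m → ℤ[X], ∀ i : Fin m, ∃ G : (MvPolynomial (Fin m) k)[X], G.Monic ∧
      eval₂ (MvPolynomial.aeval (R := k) (fun j : Fin m =>
        ∏ l : Fin m, aeval (MvPolynomial.X l : MvPolynomial (Fin m) k) (F j))).toRingHom
        (MvPolynomial.X i) G = 0 := by
  refine ⟨fun j => thetaS j, fun i => ?_⟩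
  set φ := (MvPolynomial.aeval (R := k) (fun j : Fin m =>
    ∏ l : Fin m, aeval (MvPolynomial.X l : MvPolynomial (Fin m) k) (thetaS j))).toRingHom with hφ
  let K := FractionRing (MvPolynomial (Fin m) k)
  let ι := algebraMap (MvPolynomial (Fin m) k) K
  let ψ : MvPolynomial (Fin m) k →+* K := ι.comp φ
  have hmem : ι (MvPolynomial.X i) ∈ (integralClosure (Subring.closure (Set.range ψ)) K).toSubring := by
    rw [← iInf_valuationSubring_superset, Subring.mem_iInf]
    rintro ⟨V, hV⟩
    refine (V.valuation_le_one_iff _).1 ?_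
    refine theta_val V.valuation (fun l => ι (MvPolynomial.X l)) (fun j => ?_) i
    refine (V.valuation_le_one_iff _).2 (hV ⟨MvPolynomial.X j, ?_⟩)
    simp only [ψ, hφ, RingHom.comp_apply, AlgHom.toRingHom_eq_coe, RingHom.coe_coe,
      MvPolynomial.aeval_X, map_prod]
    refine Finset.prod_congr rfl fun l _ => ?_
    exact @theta_map _ K _ _ _ (Ring.toIntAlgebra K) ι _ _
  have hr : Subring.closure (Set.range ψ) = ψ.range := by
    rw [← RingHom.coe_range, Subring.closure_eq]
  rw [hr] at hmem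
  obtain ⟨p, hp, hp0⟩ := hmem
  obtain ⟨G, hG, -, hGm⟩ := lifts_and_natDegree_eq_and_monic (f := ψ.rangeRestrict)
    (p := p) ((mem_lifts _).2 (map_surjective _ ψ.rangeRestrict_surjective p)) hp
  refine ⟨G, hGm, IsFractionRing.injective (MvPolynomial (Fin m) k) K ?_⟩
  rw [← hG, eval₂_map] at hp0
  rw [map_zero, hom_eval₂]
  exact hp0

section Pts

variable {k : Type u} [Field k] {n : ℕ} {D : Type v} [CommRing D] (rd : RD k n D)

lemma theta_crt {v : Fin n → k} (hv : MvPolynomial.eval v rd.γ ≠ 0) (j : Fin rd.m) (d : D) :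
    ∃ d', rd.χ v j d' = rd.χ v j d ∧ ∀ l, l ≠ j → rd.χ v l d' = 1 := by
  classical
  have hmax : ∀ l, (RingHom.ker (rd.χ v l)).IsMaximal := fun l =>
    RingHom.ker_isMaximal_of_surjective _ (rd.χ_surj v l hv)
  obtain ⟨r, hr⟩ := Ideal.exists_forall_sub_mem_ideal (I := fun l => RingHom.ker (rd.χ v l))
    (fun l l' hne => Ideal.isCoprime_iff_sup_eq.2 (Ideal.IsMaximal.coprime_of_ne (hmax l) (hmax l')
      fun e => hne (rd.χ_sep v l v l' hv hv e).2)) (fun l => if l = j then d else 1)
  refine ⟨r, ?_, fun l hl => ?_⟩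
  · have := hr j
    rwa [if_pos rfl, RingHom.mem_ker, map_sub, sub_eq_zero] at this
  · have := hr l
    rwa [if_neg hl, RingHom.mem_ker, map_sub, map_one, sub_eq_zero] at this

lemma theta_match (hfin : Algebra.trdeg (⊥ : Subfield k) k < Cardinal.aleph0)
    {v : Fin n → k} (hv : MvPolynomial.eval v rd.γ ≠ 0) (ψ : Fin rd.m → (D →+* k))
    (hψ : ∀ d, ∏ i, ψ i d = ∏ j, rd.χ v j d) :
    ∃ e : Fin rd.m ≃ Fin rd.m, ∀ i d, ψ i d = rd.χ v (e i) d := by
  classical
  have h1 : ∀ i, ∃ j, RingHom.ker (ψ i) = RingHom.ker (rd.χ v j) := by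
    intro i
    obtain ⟨j, -, hj⟩ := (Ideal.subset_union_prime (s := Finset.univ)
      (f := fun j => RingHom.ker (rd.χ v j)) i i (fun j _ _ _ => RingHom.ker_isPrime _)
      (I := RingHom.ker (ψ i))).1 (fun d hd => by
        have h0 : ∏ j, rd.χ v j d = 0 := by
          rw [← hψ]
          exact Finset.prod_eq_zero (Finset.mem_univ i) hd
        obtain ⟨j, -, hj⟩ := Finset.prod_eq_zero_iff.1 h0
        exact Set.mem_biUnion (Finset.mem_coe.2 (Finset.mem_univ j)) hj)
    exact ⟨j, ker_eq_of_le hfin _ _ (rd.χ_surj v j hv) hj⟩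
  choose g hg using h1
  have hcongr : ∀ i {a b : D}, rd.χ v (g i) a = rd.χ v (g i) b → ψ i a = ψ i b := by
    intro i a b h
    have : a - b ∈ RingHom.ker (ψ i) := by
      rw [hg, RingHom.mem_ker, map_sub, h, sub_self]
    rwa [RingHom.mem_ker, map_sub, sub_eq_zero] at this
  have hsurj : Function.Surjective g := by
    intro j
    obtain ⟨d, hd, hd1⟩ := theta_crt rd hv j 0
    have h0 : ∏ i, ψ i d = 0 := by
      rw [hψ]
      exact Finset.prod_eq_zero (Finset.mem_univ j) (by rw [hd, map_zero])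
    obtain ⟨i, -, hi⟩ := Finset.prod_eq_zero_iff.1 h0
    refine ⟨i, by_contra fun hne => ?_⟩
    have h2 : d ∈ RingHom.ker (ψ i) := hi
    rw [hg, RingHom.mem_ker, hd1 _ hne] at h2
    exact one_ne_zero h2
  have hinj : Function.Injective g := Finite.injective_iff_surjective.2 hsurj
  refine ⟨Equiv.ofBijective g ⟨hinj, hsurj⟩, fun i d => ?_⟩
  obtain ⟨d', hd, hd1⟩ := theta_crt rd hv (g i) d
  have h2 := hψ d'
  rw [Finset.prod_eq_single i (fun l _ hl => ?_) (by simp),
    Finset.prod_eq_single (g i) (fun l _ hl => hd1 l hl) (by simp)] at h2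
  · rw [← hcongr i hd, h2, hd]
    rfl
  · rw [hcongr l (b := 1) (by rw [hd1 _ (fun e => hl (hinj e)), map_one]), map_one]

/-- bounded integrality in any algebra with a factorisation of the norm -/
lemma theta_bdd : ∃ N0 : ℕ, ∀ (Q : Type u) [CommRing Q] [Algebra (PA k n) Q]
    (θ : Fin rd.m → (D →+* Q)), (∀ d, ∏ i, θ i d = algebraMap (PA k n) Q (rd.N d)) →
    ∀ i d, ∃ f : (PA k n)[X], f.Monic ∧ f.natDegree ≤ N0 ∧ aeval (θ i d) f = 0 := by
  obtain ⟨F, hF⟩ := universal_integral k rd.m
  choose G hGm hG using hF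
  refine ⟨Finset.univ.sup fun i => (G i).natDegree, fun Q _ _ θ hθ i d => ?_⟩
  let ρ : MvPolynomial (Fin rd.m) k →+* PA k n :=
    MvPolynomial.eval₂Hom MvPolynomial.C fun j => rd.N (aeval d (F j))
  let ψ : MvPolynomial (Fin rd.m) k →+* Q :=
    MvPolynomial.eval₂Hom ((algebraMap (PA k n) Q).comp MvPolynomial.C) fun l => θ l d
  refine ⟨(G i).map ρ, (hGm i).map _,
    natDegree_map_le.trans (Finset.le_sup (f := fun i => (G i).natDegree) (Finset.mem_univ i)), ?_⟩
  have h1 := congrArg ψ (hG i)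
  rw [hom_eval₂, map_zero] at h1
  rw [aeval_def, eval₂_map, ← h1]
  congr 1
  · refine MvPolynomial.ringHom_ext (fun c => ?_) fun j => ?_
    · simp [ρ, ψ]
    · simp only [ρ, RingHom.comp_apply, MvPolynomial.coe_eval₂Hom, MvPolynomial.eval₂_X,
        AlgHom.toRingHom_eq_coe, RingHom.coe_coe, MvPolynomial.aeval_X, map_prod, ← hθ]
      refine Finset.prod_congr rfl fun l _ => ?_
      rw [theta_map, theta_map]
      simp [ψ]
  · simp [ψ]

lemma theta_quot [IsAlgClosed k] : ∃ (Q : Type u) (_ : CommRing Q) (_ : IsDomain Q)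
    (_ : Algebra (PA k n) Q) (θ : Fin rd.m → (D →+* Q)),
    Function.Injective (algebraMap (PA k n) Q) ∧
      ∀ d, ∏ i, θ i d = algebraMap (PA k n) Q (rd.N d) := by
  let Gd := {v : Fin n → k // MvPolynomial.eval v rd.γ ≠ 0}
  let ε : PA k n →+* (Gd → k) := RingHom.pi fun v => MvPolynomial.eval v.1
  have hε : ∀ f, ε f = 0 → f = 0 := by
    intro f hf
    have h1 : f * rd.γ = 0 := by
      refine MvPolynomial.funext fun v => ?_
      rw [map_mul, map_zero]
      by_cases hv : MvPolynomial.eval v rd.γ = 0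
      · rw [hv, mul_zero]
      · have : MvPolynomial.eval v f = 0 := congrFun hf ⟨v, hv⟩
        rw [this, zero_mul]
    exact (mul_eq_zero.1 h1).resolve_right rd.γ_ne
  obtain ⟨p, hp, -, hdis⟩ := Ideal.exists_le_prime_disjoint (⊥ : Ideal (Gd → k))
    ((nonZeroDivisors (PA k n)).map ε) (by
      rw [Set.disjoint_left]
      rintro x hx ⟨f, hf, rfl⟩
      exact nonZeroDivisors.ne_zero hf (hε f hx))
  refine ⟨(Gd → k) ⧸ p, inferInstance, inferInstance,
    ((Ideal.Quotient.mk p).comp ε).toAlgebra,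
    fun i => (Ideal.Quotient.mk p).comp (RingHom.pi fun v => rd.χ v.1 i), ?_, fun d => ?_⟩
  · rw [injective_iff_map_eq_zero]
    intro f hf
    by_contra hne
    exact Set.disjoint_left.1 hdis (Ideal.Quotient.eq_zero_iff_mem.1 hf)
      ⟨f, mem_nonZeroDivisors_of_ne_zero hne, rfl⟩
  · change _ = Ideal.Quotient.mk p (ε (rd.N d))
    simp only [RingHom.comp_apply, ← map_prod]
    congr 1
    funext v
    rw [Finset.prod_apply]
    exact (rd.N_eval v.1 d v.2).symm

end Pts

/-- Generic points.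
Hint: let `G` be the set of good points, `𝔭` a prime of the ring `G → k` meeting the image of
`PA k n` only in zero (`Ideal.exists_le_prime_disjoint`), `Q` the quotient. The maps
`d ↦ (v ↦ χ v i d)` give `θ' i : D →+* Q` with product `N d`; by `universal_integral` the values
are integral over `PA k n` of bounded degree; map the integral closure of `PA k n` in `Q` to
`Om k n` with `IsAlgClosed.lift`. For `ev_eq`: the kernel of `ev ∘ θ i` lies in the union of the
kernels of the `χ v j`, hence in one of them (prime avoidance), hence equals it (`ker_eq_of_le`);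
every `j` occurs (take `d` in exactly one kernel), so `i ↦ j` is a bijection; then take `d` with
value `c` at `j` and `1` at the other indices (Chinese remainder theorem). -/
theorem nonempty_TH {k : Type u} [Field k] [IsAlgClosed k]
    (hfin : Algebra.trdeg (⊥ : Subfield k) k < Cardinal.aleph0) {n : ℕ} {D : Type v} [CommRing D]
    (rd : RD k n D) : Nonempty (TH rd) := by
  obtain ⟨N0, hN0⟩ := theta_bdd rd
  obtain ⟨Q, _, _, _, θ', hinj, hθ'⟩ := theta_quot rd
  let C := integralClosure (PA k n) Q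
  have hint : ∀ i d, θ' i d ∈ C := fun i d => by
    obtain ⟨f, hf, -, h0⟩ := hN0 Q θ' hθ' i d
    exact ⟨f, hf, h0⟩
  have hC : Function.Injective (algebraMap (PA k n) C) := fun a b h =>
    hinj (congrArg Subtype.val h)
  have : FaithfulSMul (PA k n) C := (faithfulSMul_iff_algebraMap_injective _ _).2 hC
  have : FaithfulSMul (PA k n) (Om k n) := (faithfulSMul_iff_algebraMap_injective _ _).2 (by
    rw [IsScalarTower.algebraMap_eq (PA k n) (FractionRing (PA k n)) (Om k n)]
    exact (algebraMap (FractionRing (PA k n)) (Om k n)).injective.comp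
      (IsFractionRing.injective (PA k n) _))
  let lam : C →ₐ[PA k n] Om k n := IsAlgClosed.lift
  let mu : C →ₐ[PA k n] EE k n := lam.codRestrict _ fun c =>
    (Algebra.IsIntegral.isIntegral (R := PA k n) c).map lam
  let θ : Fin rd.m → (D →+* EE k n) := fun i =>
    mu.toRingHom.comp ((θ' i).codRestrict C.toSubring (hint i))
  have hprod : ∀ d, ∏ i, θ i d = algebraMap (PA k n) (EE k n) (rd.N d) := by
    intro d
    rw [← mu.commutes]
    change ∏ i, mu ⟨θ' i d, hint i d⟩ = _
    rw [← map_prod]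
    congr 1
    refine Subtype.ext ?_
    rw [SubmonoidClass.coe_finset_prod]
    exact hθ' d
  have hE : Function.Injective (algebraMap (PA k n) (EE k n)) := fun a b h =>
    FaithfulSMul.algebraMap_injective (PA k n) (Om k n) (congrArg Subtype.val h)
  refine ⟨⟨θ, fun i => ?_, hprod, N0, hN0 _ θ hprod, fun ev hev => ?_⟩⟩
  · rw [injective_iff_map_eq_zero]
    intro d hd
    by_contra hne
    refine rd.N_ne d hne (hE ?_)
    rw [← hprod, map_zero]
    exact Finset.prod_eq_zero (Finset.mem_univ i) hd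
  · refine theta_match rd hfin hev (fun i => ev.toRingHom.comp (θ i)) fun d => ?_
    rw [← rd.N_eval _ d hev, ← map_algebraMap_eq_eval, ← hprod, map_prod]
    rfl

end Pool.Agent.MP_f1fec5_al.Aff

end

section

namespace Pool.Agent.MP_f1fec5_al.Aff

open Polynomial

universe u v

variable {k : Type u} [Field k] {n : ℕ} {D : Type v} [CommRing D] {rd : RD k n D}

/-- the first generic point as a map to the algebraic closure -/
noncomputable def TH.θ0 (th : TH rd) : D →+* Om k n :=
  (integralClosure (PA k n) (Om k n)).val.toRingHom.comp (th.θ ⟨0, rd.m_pos⟩)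

lemma TH.θ0_apply (th : TH rd) (d : D) : th.θ0 d = (th.θ ⟨0, rd.m_pos⟩ d : Om k n) := rfl

lemma TH.θ0_inj (th : TH rd) : Function.Injective th.θ0 :=
  Subtype.val_injective.comp (th.θ_inj _)

lemma core1_prime {Ω : Type*} [Field Ω] (φ ψ : k →+* Ω) (a : (⊥ : Subfield k)) :
    φ a = ψ a :=
  (bot_le : (⊥ : Subfield k) ≤ φ.eqLocusField ψ) a.2

lemma core1_inj : Function.Injective (algebraMap (PA k n) (Om k n)) := by
  rw [IsScalarTower.algebraMap_eq (PA k n) (FractionRing (PA k n)) (Om k n)]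
  exact (algebraMap (FractionRing (PA k n)) (Om k n)).injective.comp
    (IsFractionRing.injective (PA k n) (FractionRing (PA k n)))

lemma core1_injE : Function.Injective (algebraMap (PA k n) (EE k n)) := fun _ _ h =>
  core1_inj (congrArg Subtype.val h)

lemma core1_infinite [IsAlgClosed k] :
    {β : k | IsAlgebraic (⊥ : Subfield k) β}.Infinite := by
  have := (algebraicClosure.isAlgClosure (⊥ : Subfield k) k).isAlgClosed
  have h : (algebraicClosure (⊥ : Subfield k) k : Set k).Infinite := Set.infinite_coe_iff.1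
    (inferInstanceAs (Infinite (algebraicClosure (⊥ : Subfield k) k)))
  exact h.mono fun β hβ => mem_algebraicClosure_iff.1 hβ

lemma core1_mem_range [IsAlgClosed k] {Ω : Type*} [Field Ω] (φ ψ : k →+* Ω) {β : k}
    (hβ : IsAlgebraic (⊥ : Subfield k) β) : ψ β ∈ φ.range := by
  obtain ⟨p, hp, hpβ⟩ := hβ
  have h0 : p.map (algebraMap (⊥ : Subfield k) k) ≠ 0 :=
    (Polynomial.map_ne_zero_iff (algebraMap (⊥ : Subfield k) k).injective).2 hp
  refine (IsAlgClosed.splits (p.map (algebraMap (⊥ : Subfield k) k))).mem_range_of_isRoot h0 ?_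
  have h1 : φ.comp (algebraMap (⊥ : Subfield k) k) = ψ.comp (algebraMap (⊥ : Subfield k) k) :=
    RingHom.ext fun a => core1_prime φ ψ a
  rw [IsRoot, Polynomial.map_map, h1, eval_map, ← hom_eval₂, ← aeval_def, hpβ, map_zero]

/-- Automorphisms fixing the image of `D` preserve the constants. -/
theorem TH.map_const [IsAlgClosed k] (hfin : Algebra.trdeg (⊥ : Subfield k) k < Cardinal.aleph0)
    (th : TH rd) (g : Om k n ≃+* Om k n) (hg : ∀ d, g (th.θ0 d) = th.θ0 d) (α : k) :
    g (algebraMap k (Om k n) α) ∈ Set.range (algebraMap k (Om k n)) := by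
  classical
  by_contra hc
  obtain ⟨d, hd⟩ := Cardinal.lt_aleph0.1 hfin
  obtain ⟨β, hβ, ev, hγ, e₁, e₂, he₁, he₂, hε⟩ :=
    exists_ev_sub _ hc _ (core1_infinite (k := k)) rd.γ rd.γ_ne
  let G : k →ₐ[(⊥ : Subfield k)] Om k n :=
    { toRingHom := g.toRingHom.comp (algebraMap k (Om k n))
      commutes' := fun a => core1_prime (g.toRingHom.comp (algebraMap k (Om k n)))
        (algebraMap k (Om k n)) a }
  let c := G.fieldRange
  have hcd : Algebra.trdeg (⊥ : Subfield k) c = d := by
    rw [← hd]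
    exact (AlgEquiv.ofInjectiveField G).symm.trdeg_eq
  obtain ⟨l, hl, hlp, hl0, hll, -⟩ := exists_flag (pt n ev) ∅ (Finset.notMem_empty _)
  have := ker_isMaximal ev
  obtain ⟨L, hL, hLp, hLc, hLl⟩ := exists_chain_over (core1_injE (k := k) (n := n)) n l hl hlp
    (RingHom.ker ev) (by
      ext f
      rw [Ideal.mem_comap, RingHom.mem_ker, map_algebraMap_eq_eval, hll])
  have hL0 : L 0 = ⊥ := Ideal.eq_bot_of_comap_eq_bot (R := PA k n) (by rw [hLc, hl0])
  let E : Subalgebra (⊥ : Subfield k) (Om k n) :=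
    (integralClosure (PA k n) (Om k n)).restrictScalars (⊥ : Subfield k)
  let ev' : E →ₐ[(⊥ : Subfield k)] k :=
    { toRingHom := (ev : EE k n →+* k)
      commutes' := fun a => ev.commutes (a : k) }
  let u : Finset (Om k n) :=
    Finset.univ.image fun i => g (algebraMap (PA k n) (Om k n) (MvPolynomial.X i))
  have hu : ∀ p : PA k n, g (algebraMap (PA k n) (Om k n) p) ∈
      IntermediateField.adjoin c (u : Set (Om k n)) := by
    intro p
    induction p using MvPolynomial.induction_on with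
    | C a =>
      have : g (algebraMap (PA k n) (Om k n) (MvPolynomial.C a)) =
          algebraMap c (Om k n) ⟨G a, a, rfl⟩ := by
        rw [← MvPolynomial.algebraMap_eq, ← IsScalarTower.algebraMap_apply]
        rfl
      rw [this]
      exact IntermediateField.algebraMap_mem _ _
    | add p q hp hq => rw [map_add, map_add]; exact add_mem hp hq
    | mul_X p i hp =>
      rw [map_mul, map_mul]
      exact mul_mem hp (IntermediateField.subset_adjoin _ _ (by simp [u]))
  let φ : PA k n →+* IntermediateField.adjoin c (u : Set (Om k n)) :=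
    (g.toRingHom.comp (algebraMap (PA k n) (Om k n))).codRestrict _ hu
  obtain ⟨c', ⟨N', hN'⟩, -, h3, -⟩ := abh d hd n (Om k n) E L hL hLp hL0 ev' hLl.symm
    (by rw [trdeg_Om, hd]) c (Set.range (th.θ ⟨0, rd.m_pos⟩)) (fun a => by
      obtain ⟨e, he⟩ := th.ev_eq ev hγ
      obtain ⟨x, hx⟩ := rd.χ_surj _ (e ⟨0, rd.m_pos⟩) hγ a
      exact ⟨_, ⟨x, rfl⟩, (he _ x).trans hx⟩) u th.N0 (by
      rintro _ ⟨x, rfl⟩
      obtain ⟨f, hf, hfd, hfx⟩ := th.bdd ⟨0, rd.m_pos⟩ x
      refine ⟨f.map φ, (hf.map φ).ne_zero, natDegree_map_le.trans hfd, ?_⟩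
      have h1 : aeval (th.θ0 x) f = 0 := by
        rw [TH.θ0_apply, ← Subalgebra.coe_val, aeval_algHom_apply, hfx, map_zero]
      show aeval (th.θ0 x) (f.map φ) = 0
      rw [aeval_def, eval₂_map, ← hg x]
      have h2 := hom_eval₂ f (algebraMap (PA k n) (Om k n)) g.toRingHom (th.θ0 x)
      rw [← aeval_def, h1, map_zero] at h2
      exact h2.symm)
  have h4 := h3 ⟨_, sub_mem (show g (algebraMap k (Om k n) α) ∈ c from ⟨α, rfl⟩)
    (core1_mem_range G.toRingHom (algebraMap k (Om k n)) hβ),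
    fun h => hc ⟨β, (sub_eq_zero.1 h).symm⟩, e₁, e₂, he₁, he₂, hε⟩
  have : Algebra.IsAlgebraic c' k := ⟨fun a => by
    obtain ⟨f, hf, -, hfa⟩ := hN' a
    exact ⟨f, hf, hfa⟩⟩
  have : FaithfulSMul (⊥ : Subfield k) c' :=
    (faithfulSMul_iff_algebraMap_injective _ _).2 (algebraMap (⊥ : Subfield k) c').injective
  have : FaithfulSMul c' k :=
    (faithfulSMul_iff_algebraMap_injective _ _).2 (algebraMap c' k).injective
  have h5 := trdeg_add_eq (⊥ : Subfield k) c' (A := k)
  rw [trdeg_eq_zero (R := c') (A := k), add_zero, hd] at h5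
  rw [h5, hcd] at h4
  have h6 : d + 1 ≤ d := by exact_mod_cast h4
  omega

end Pool.Agent.MP_f1fec5_al.Aff

end

section

namespace Pool.Agent.MP_f1fec5_al.Aff

open Polynomial

universe u v

variable {k : Type u} [Field k] {n : ℕ} {D : Type v} [CommRing D] {rd : RD k n D}

lemma core2_alg : Algebra.IsAlgebraic (PA k n) (Om k n) :=
  IsFractionRing.comap_isAlgebraic_iff.2
    (inferInstance : Algebra.IsAlgebraic (FractionRing (PA k n)) (Om k n))

/-- a generic point can be transported along an endomorphism preserving the constants -/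
lemma core2_transport [IsAlgClosed k] (h : Om k n →+* Om k n)
    (hk : ∀ α, h (algebraMap k (Om k n) α) ∈ Set.range (algebraMap k (Om k n))) (γ : PA k n)
    (hγ : γ ≠ 0) : ∃ ev : EE k n →ₐ[k] k, MvPolynomial.eval (pt n ev) γ ≠ 0 ∧
      ∃ ψ : EE k n →+* k, (∀ x y : EE k n, h x = y → ψ x = ev y) ∧
        ψ (algebraMap (PA k n) (EE k n) γ) ≠ 0 := by
  choose a ha hai using fun i => exists_den (h (algebraMap (PA k n) (Om k n) (MvPolynomial.X i)))
  obtain ⟨b, hb, hbi⟩ := exists_den (h (algebraMap (PA k n) (Om k n) γ))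
  have hb0 : (⟨_, hbi⟩ : EE k n) ≠ 0 := fun h0 => by
    have h1 : algebraMap (PA k n) (Om k n) b * h (algebraMap (PA k n) (Om k n) γ) = 0 :=
      congrArg Subtype.val h0
    rcases mul_eq_zero.1 h1 with h2 | h2
    · exact hb (core1_inj (by rw [h2, map_zero]))
    · exact hγ (core1_inj (by rw [(map_eq_zero h).1 h2, map_zero]))
  obtain ⟨a', ha', e', he'⟩ := exists_dvd _ hb0
  obtain ⟨ev, -, hev⟩ := exists_point_ne (k := k) (n := n) (⊥ : Ideal (EE k n))
    (f := γ * (∏ i, a i) * a') (by
      rw [Ideal.mem_bot]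
      intro h0
      exact mul_ne_zero (mul_ne_zero hγ (Finset.prod_ne_zero_iff.2 fun i _ => ha i)) ha'
        (core1_injE (by rw [h0, map_zero])))
  rw [map_mul, map_mul, map_prod] at hev
  have hev1 := left_ne_zero_of_mul (left_ne_zero_of_mul hev)
  have hev2 := Finset.prod_ne_zero_iff.1 (right_ne_zero_of_mul (left_ne_zero_of_mul hev))
  have hev3 := right_ne_zero_of_mul hev
  refine ⟨ev, hev1, ?_⟩
  have := core2_alg (k := k) (n := n)
  have : IsFractionRing (EE k n) (Om k n) := integralClosure.isFractionRing_of_algebraic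
    fun x hx => core1_inj (by rw [hx, map_zero])
  let M : Submonoid (EE k n) := (nonZeroDivisors k).comap ev
  have hMm : ∀ x, x ∈ M ↔ ev x ≠ 0 := fun x => mem_nonZeroDivisors_iff_ne_zero
  have hM : M ≤ nonZeroDivisors (EE k n) := fun x hx =>
    mem_nonZeroDivisors_of_ne_zero fun h0 => (hMm x).1 hx (by rw [h0, map_zero])
  let R := Localization.subalgebra.ofField (Om k n) M hM
  have hR : ∀ (w : Om k n) (s e : EE k n), ev s ≠ 0 → s * w = e → w ∈ R := by
    intro w s e hs hw
    refine ⟨e, s, (hMm s).2 hs, ?_⟩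
    have h0 : (s : Om k n) ≠ 0 := fun h0 => hs (by rw [show s = 0 from Subtype.ext h0, map_zero])
    show w = (e : Om k n) * (s : Om k n)⁻¹
    rw [← hw]
    field_simp
  have h1 : ∀ p : PA k n, h (algebraMap (PA k n) (Om k n) p) ∈ R := by
    intro p
    induction p using MvPolynomial.induction_on with
    | C c =>
      obtain ⟨c', hc'⟩ := hk c
      rw [← MvPolynomial.algebraMap_eq, ← IsScalarTower.algebraMap_apply, ← hc']
      exact hR _ 1 (algebraMap k (EE k n) c') (by simp) (one_mul _)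
    | add p q hp hq => rw [map_add, map_add]; exact add_mem hp hq
    | mul_X p i hp =>
      rw [map_mul, map_mul]
      refine mul_mem hp (hR _ (algebraMap (PA k n) (EE k n) (a i)) ⟨_, hai i⟩ ?_ rfl)
      rw [map_algebraMap_eq_eval n]
      exact hev2 i (Finset.mem_univ i)
  have h2 : ∀ x : EE k n, h x ∈ R := by
    intro x
    have h3 : IsIntegral R (h x) := IsIntegral.map_of_comp_eq
      ((h.comp (algebraMap (PA k n) (Om k n))).codRestrict R h1) h rfl x.2
    obtain ⟨m, hm⟩ := IsIntegral.exists_multiple_integral_of_isLocalization M _ h3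
    exact hR _ m ⟨_, isIntegral_trans (R := PA k n) _ hm⟩ ((hMm _).1 m.2) rfl
  let ρ : EE k n →+* R :=
    (h.comp (integralClosure (PA k n) (Om k n)).val.toRingHom).codRestrict R h2
  let evR : R →+* k := IsLocalization.lift (M := M) (g := (ev : EE k n →+* k))
    fun y => IsUnit.mk0 _ ((hMm _).1 y.2)
  have hevR : ∀ y : EE k n, evR (algebraMap (EE k n) R y) = ev y := fun y =>
    IsLocalization.lift_eq _ y
  refine ⟨evR.comp ρ, fun x y hxy => ?_, fun h0 => ?_⟩
  · rw [← hevR]
    exact congrArg evR (Subtype.ext hxy)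
  · have h3 : algebraMap (EE k n) R (algebraMap (PA k n) (EE k n) b) *
        ρ (algebraMap (PA k n) (EE k n) γ) = algebraMap (EE k n) R ⟨_, hbi⟩ := Subtype.ext rfl
    have h4 := congrArg evR h3
    rw [map_mul, show evR (ρ _) = 0 from h0, mul_zero, hevR] at h4
    apply hev3
    rw [← map_algebraMap_eq_eval, he', map_mul, ← h4, zero_mul]

/-- Automorphisms fixing the image of `D` fix the constants. -/
theorem TH.fix_const [IsAlgClosed k] (hfin : Algebra.trdeg (⊥ : Subfield k) k < Cardinal.aleph0)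
    (th : TH rd) (g : Om k n ≃+* Om k n) (hg : ∀ d, g (th.θ0 d) = th.θ0 d) (α : k) :
    g (algebraMap k (Om k n) α) = algebraMap k (Om k n) α := by
  have hg' : ∀ d, g.symm (th.θ0 d) = th.θ0 d := fun d => by
    rw [RingEquiv.symm_apply_eq, hg]
  obtain ⟨ev, hev, ψ, hψ, hψγ⟩ :=
    core2_transport g.symm.toRingHom (th.map_const hfin g.symm hg') rd.γ rd.γ_ne
  have hι := (algebraMap k (Om k n)).injective
  choose g₀ hg₀ using th.map_const hfin g hg
  let G : k →+* k :=
    { toFun := g₀
      map_one' := hι (by rw [hg₀, map_one, map_one])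
      map_mul' := fun a b => hι (by rw [hg₀, map_mul, map_mul, map_mul, hg₀, hg₀])
      map_zero' := hι (by rw [hg₀, map_zero, map_zero])
      map_add' := fun a b => hι (by rw [hg₀, map_add, map_add, map_add, hg₀, hg₀]) }
  let ev' : EE k n →ₐ[k] k :=
    { toRingHom := G.comp ψ
      commutes' := fun a => by
        obtain ⟨b, hb⟩ := th.map_const hfin g.symm hg' a
        have h1 := hψ (algebraMap k (EE k n) a) (algebraMap k (EE k n) b) hb.symm
        show g₀ (ψ (algebraMap k (EE k n) a)) = a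
        rw [h1, ev.commutes]
        refine hι ?_
        rw [hg₀]
        show g (algebraMap k (Om k n) b) = _
        rw [hb, RingEquiv.apply_symm_apply] }
  have hev' : MvPolynomial.eval (pt n ev') rd.γ ≠ 0 := by
    rw [← map_algebraMap_eq_eval]
    exact (map_ne_zero G).2 hψγ
  obtain ⟨e, he⟩ := th.ev_eq ev hev
  obtain ⟨e', he'⟩ := th.ev_eq ev' hev'
  have h1 : ∀ d, rd.χ (pt n ev') (e' ⟨0, rd.m_pos⟩) d =
      G (rd.χ (pt n ev) (e ⟨0, rd.m_pos⟩) d) := fun d => by
    rw [← he, ← he', ← hψ _ _ (hg' d)]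
    rfl
  obtain ⟨h2, h3⟩ := rd.χ_sep _ (e' ⟨0, rd.m_pos⟩) _ (e ⟨0, rd.m_pos⟩) hev' hev (by
    ext d
    rw [RingHom.mem_ker, RingHom.mem_ker, h1, map_eq_zero])
  obtain ⟨d, hd⟩ := rd.χ_surj _ (e ⟨0, rd.m_pos⟩) hev α
  have h4 := h1 d
  rw [h2, h3, hd] at h4
  rw [← hg₀]
  exact congrArg _ h4.symm

/-- The constants are purely inseparable over the fraction field of the image. -/
theorem TH.pow_mem [IsAlgClosed k] (hfin : Algebra.trdeg (⊥ : Subfield k) k < Cardinal.aleph0)
    (th : TH rd) (halg : Algebra.IsAlgebraic (fracField th.θ0) (Om k n)) (q : ℕ) [ExpChar k q]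
    (α : k) : ∃ j : ℕ, algebraMap k (Om k n) α ^ q ^ j ∈ fracField th.θ0 := by
  have := expChar_of_injective_ringHom (algebraMap k (Om k n)).injective q
  have := (fracField th.θ0).subtype.expChar Subtype.val_injective q
  obtain ⟨j, ⟨w, hw⟩, -⟩ := exists_pow_mem_of_fixed (K := fracField th.θ0) q
    (algebraMap k (Om k n) α) fun g => th.fix_const hfin g.toRingEquiv
      (fun d => g.commutes ⟨th.θ0 d, Subfield.subset_closure ⟨d, rfl⟩⟩) α
  exact ⟨j, hw ▸ w.2⟩

/-- Automorphisms over the polynomial ring permute the generic points. -/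
theorem TH.exists_perm [IsAlgClosed k] (th : TH rd) (σ : Om k n ≃ₐ[PA k n] Om k n) :
    ∃ i, ∀ d, σ (th.θ0 d) = (th.θ i d : Om k n) := by
  by_contra hcon
  push Not at hcon
  choose d hd using hcon
  let σE : EE k n →ₐ[PA k n] EE k n := σ.mapIntegralClosure.toAlgHom
  have h0 := eq_zero_of_forall_ev rd.γ rd.γ_ne
    (∏ i, (σE (th.θ ⟨0, rd.m_pos⟩ (d i)) - th.θ i (d i))) fun ev hev => by
      let ev2 : EE k n →ₐ[k] k := ev.comp (σE.restrictScalars k)
      have hpt : pt n ev2 = pt n ev := funext fun i => congrArg ev (σE.commutes _)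
      obtain ⟨e, he⟩ := th.ev_eq ev hev
      obtain ⟨e2, he2⟩ := th.ev_eq ev2 (by rw [hpt]; exact hev)
      rw [map_prod]
      refine Finset.prod_eq_zero (Finset.mem_univ (e.symm (e2 ⟨0, rd.m_pos⟩))) ?_
      rw [map_sub, he, Equiv.apply_symm_apply, ← hpt, ← he2]
      exact sub_self _
  obtain ⟨i, -, hi⟩ := Finset.prod_eq_zero_iff.1 h0
  exact hd i (congrArg Subtype.val (sub_eq_zero.1 hi))

lemma core2_root [IsAlgClosed k] {Ω : Type u} [Field Ω] [Algebra k Ω] (F : Ω ≃+* Ω) (m : ℕ)
    (hm : 0 < m) (hF : ∀ x, F x = x ^ m) (S : Set Ω) {x : Ω}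
    (hx : x ∈ IntermediateField.adjoin k S) :
    F.symm x ∈ IntermediateField.adjoin k (F.symm '' S) := by
  induction hx using IntermediateField.adjoin_induction with
  | mem x hx => exact IntermediateField.subset_adjoin _ _ ⟨x, hx, rfl⟩
  | algebraMap a =>
    obtain ⟨b, rfl⟩ := IsAlgClosed.exists_pow_nat_eq a hm
    rw [map_pow, ← hF, RingEquiv.symm_apply_apply]
    exact IntermediateField.algebraMap_mem _ _
  | add x y _ _ hx hy => rw [map_add]; exact add_mem hx hy
  | inv x _ hx => rw [map_inv₀]; exact inv_mem hx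
  | mul x y _ _ hx hy => rw [map_mul]; exact mul_mem hx hy

/-- The compositum of the constants with the image is finitely generated. -/
theorem TH.fg [IsAlgClosed k] (th : TH rd)
    (halg : Algebra.IsAlgebraic (fracField th.θ0) (Om k n)) :
    (IntermediateField.adjoin k (fracField th.θ0 : Set (Om k n))).FG := by
  have hsep : ∀ i, ∃ d, th.θ0 d = (th.θ i d : Om k n) → ∀ d', th.θ0 d' = (th.θ i d' : Om k n) := by
    intro i
    by_cases h : ∀ d', th.θ0 d' = (th.θ i d' : Om k n)
    · exact ⟨0, fun _ => h⟩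
    · push Not at h
      obtain ⟨d, hd⟩ := h
      exact ⟨d, fun h => absurd h hd⟩
  choose d hd using hsep
  let S : Set (Om k n) := (Set.range fun i => algebraMap (PA k n) (Om k n) (MvPolynomial.X i)) ∪
    Set.range fun i => th.θ0 (d i)
  have hS : S.Finite := (Set.finite_range _).union (Set.finite_range _)
  let L := IntermediateField.adjoin k S
  have hL : ∀ p : PA k n, algebraMap (PA k n) (Om k n) p ∈ L := by
    intro p
    induction p using MvPolynomial.induction_on with
    | C c =>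
      rw [← MvPolynomial.algebraMap_eq, ← IsScalarTower.algebraMap_apply]
      exact IntermediateField.algebraMap_mem _ _
    | add p q hp hq => rw [map_add]; exact add_mem hp hq
    | mul_X p i hp =>
      rw [map_mul]
      exact mul_mem hp (IntermediateField.subset_adjoin _ _ (Or.inl ⟨i, rfl⟩))
  let φ : PA k n →+* L := (algebraMap (PA k n) (Om k n)).codRestrict L hL
  have hφ : Function.Injective φ := fun _ _ h => core1_inj (congrArg Subtype.val h)
  have : Algebra.IsAlgebraic L (Om k n) := ⟨fun w =>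
    (core2_alg.isAlgebraic w).ringHom_of_comp_eq φ (RingHom.id _) hφ rfl⟩
  obtain ⟨q, hq⟩ := ExpChar.exists k
  have := expChar_of_injective_ringHom (algebraMap k (Om k n)).injective q
  have := expChar_of_injective_ringHom (algebraMap k L).injective q
  have hq0 : 0 < q := expChar_pos k q
  have hpow : ∀ x, th.θ0 x ^ q ^ th.N0 ∈ L := by
    intro x
    obtain ⟨j, ⟨w, hw⟩, hj⟩ := exists_pow_mem_of_fixed (K := L) q (th.θ0 x) fun g => by
      obtain ⟨i, hi⟩ := th.exists_perm
        { g.toRingEquiv with commutes' := fun p => g.commutes (φ p) }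
      have h1 : g (th.θ0 (d i)) = th.θ0 (d i) :=
        g.commutes ⟨_, IntermediateField.subset_adjoin _ _ (Or.inr ⟨i, rfl⟩)⟩
      exact (hi x).trans (hd i (h1.symm.trans (hi (d i))) x).symm
    have hw' : th.θ0 x ^ q ^ j ∈ L := hw ▸ w.2
    obtain ⟨f, hf, hfd, hfx⟩ := th.bdd ⟨0, rd.m_pos⟩ x
    have h1 : aeval (th.θ0 x) f = 0 := by
      rw [TH.θ0_apply, ← Subalgebra.coe_val, aeval_algHom_apply, hfx, map_zero]
    have h2 : aeval (th.θ0 x) (f.map φ) = 0 := by
      rw [aeval_def, eval₂_map]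
      exact h1
    have h3 : q ^ j ≤ th.N0 := by
      rw [hj]
      exact (natDegree_le_of_dvd (minpoly.dvd L _ h2) (hf.map φ).ne_zero).trans
        (natDegree_map_le.trans hfd)
    rcases (Nat.succ_le_of_lt hq0).eq_or_lt with h4 | h4
    · subst h4
      simpa using hw'
    · have h5 : j ≤ th.N0 := (Nat.lt_pow_self h4).le.trans h3
      obtain ⟨r, hr⟩ := Nat.exists_eq_add_of_le h5
      rw [hr, pow_add, pow_mul]
      exact _root_.pow_mem hw' _
  let F := iterateFrobeniusEquiv (Om k n) q th.N0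
  have hF : ∀ x, F x = x ^ q ^ th.N0 := fun x => rfl
  refine fg_of_le_of_isAlgebraic _ (IntermediateField.adjoin k (F.symm '' S)) ?_
    (IntermediateField.fg_adjoin_of_finite (hS.image _)) fun w _ => ?_
  · refine IntermediateField.adjoin_le_iff.2 ?_
    refine (Subfield.closure_le
      (t := (IntermediateField.adjoin k (F.symm '' S)).toSubfield)).2 ?_
    rintro _ ⟨x, rfl⟩
    have h1 := core2_root F _ (pow_pos hq0 _) hF S (hpow x)
    rwa [← hF, RingEquiv.symm_apply_apply] at h1
  · let ψ : fracField th.θ0 →+* IntermediateField.adjoin k (fracField th.θ0 : Set (Om k n)) :=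
      (fracField th.θ0).subtype.codRestrict _ fun x => IntermediateField.subset_adjoin _ _ x.2
    exact (halg.isAlgebraic w).ringHom_of_comp_eq ψ (RingHom.id _) ψ.injective rfl

end Pool.Agent.MP_f1fec5_al.Aff

end

section

namespace Pool.Agent.MP_f1fec5_al.Aff

open Polynomial

universe u v

variable {k : Type u} [Field k] {n : ℕ} {D : Type v} [CommRing D] {rd : RD k n D}

/-- A purely inseparable algebraically closed extension of bounded degree is trivial. -/
lemma core3_eq_top [IsAlgClosed k] (p : ℕ) [Fact p.Prime] [CharP k p] (k' : Subfield k) (N : ℕ)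
    (hpi : ∀ α : k, ∃ j : ℕ, α ^ p ^ j ∈ k')
    (hN : ∀ α : k, ∃ f : k'[X], f ≠ 0 ∧ f.natDegree ≤ N ∧ aeval α f = 0) (α : k) : α ∈ k' := by
  have hp : p.Prime := Fact.out
  obtain ⟨β, rfl⟩ := IsAlgClosed.exists_pow_nat_eq α (pow_pos hp.pos N)
  obtain ⟨j, hj⟩ := hpi β
  obtain ⟨m, y, hy⟩ := (minpoly.natSepDegree_eq_one_iff_eq_X_pow_sub_C p).1
    ((minpoly.natSepDegree_eq_one_iff_pow_mem (F := k') (x := β) p).2 ⟨j, ⟨_, hj⟩, rfl⟩)
  obtain ⟨f, hf0, hfN, hf⟩ := hN β
  have h1 : p ^ m ≤ N := by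
    have := natDegree_le_natDegree (minpoly.degree_le_of_ne_zero k' β hf0 hf)
    rw [hy, natDegree_X_pow_sub_C] at this
    exact this.trans hfN
  have h2 : m ≤ N := (Nat.lt_pow_self hp.one_lt).le.trans h1
  have h3 := minpoly.aeval k' β
  rw [hy, map_sub, map_pow, aeval_X, aeval_C, sub_eq_zero] at h3
  obtain ⟨e, rfl⟩ := Nat.exists_eq_add_of_le h2
  rw [pow_add, pow_mul, h3]
  exact pow_mem y.2 _

/-- `bounded_exponent` inside an ambient field. -/
lemma core3_bdd {Ω : Type u} [IsAlgClosed k] [Field Ω] [Algebra k Ω] (p : ℕ) [Fact p.Prime]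
    [CharP k p] (hfin : Algebra.trdeg (⊥ : Subfield k) k < Cardinal.aleph0) (K' : Subfield Ω)
    (hfg : (IntermediateField.adjoin k (K' : Set Ω)).FG)
    (hpi : ∀ α : k, ∃ j : ℕ, algebraMap k Ω α ^ p ^ j ∈ K') :
    ∃ (s : Finset Ω) (j₀ : ℕ), ∀ z ∈ K', z ^ p ^ j₀ ∈
      Subfield.closure (((K' : Set Ω) ∩ Set.range (algebraMap k Ω)) ∪ s) := by
  classical
  have hle : (K' : Set Ω) ⊆ IntermediateField.adjoin k (K' : Set Ω) :=
    IntermediateField.subset_adjoin _ _
  obtain ⟨L, hL⟩ : ∃ L, L = IntermediateField.adjoin k (K' : Set Ω) := ⟨_, rfl⟩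
  rw [← hL] at hfg hle
  have : Algebra.EssFiniteType k L := IntermediateField.essFiniteType_iff.2 hfg
  have hgen : IntermediateField.adjoin k ((K'.comap (algebraMap L Ω) : Subfield L) : Set L) = ⊤ := by
    apply IntermediateField.lift_injective
    rw [IntermediateField.lift_adjoin, IntermediateField.lift_top]
    refine Eq.trans (congrArg _ ?_) hL.symm
    ext z
    exact ⟨fun ⟨x, hx, e⟩ => e ▸ hx, fun hz => ⟨⟨z, hle hz⟩, hz, rfl⟩⟩
  obtain ⟨s, j₀, hs⟩ := bounded_exponent p hfin (K'.comap (algebraMap L Ω)) hgen fun α => by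
    obtain ⟨j, hj⟩ := hpi α
    exact ⟨j, by rw [Subfield.mem_comap, map_pow, ← IsScalarTower.algebraMap_apply]; exact hj⟩
  refine ⟨s.image (algebraMap L Ω), j₀, fun z hz => ?_⟩
  have h1 : algebraMap L Ω ((⟨z, hle hz⟩ : L) ^ p ^ j₀) ∈ _ :=
    Subfield.mem_map.2 ⟨_, hs ⟨z, hle hz⟩ hz, rfl⟩
  rw [RingHom.map_field_closure, map_pow] at h1
  refine Subfield.closure_mono ?_ h1
  rintro _ ⟨x, ⟨hx, a, rfl⟩ | hx, rfl⟩
  · exact Or.inl ⟨hx, a, IsScalarTower.algebraMap_apply k L Ω a⟩
  · exact Or.inr (Finset.mem_coe.2 (Finset.mem_image_of_mem _ hx))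

/-- The constants lie in the fraction field of the image. -/
theorem TH.const_mem [IsAlgClosed k] (hfin : Algebra.trdeg (⊥ : Subfield k) k < Cardinal.aleph0)
    (th : TH rd) (halg : Algebra.IsAlgebraic (fracField th.θ0) (Om k n)) (α : k) :
    algebraMap k (Om k n) α ∈ fracField th.θ0 := by
  obtain ⟨p, hq⟩ := ExpChar.exists k
  have hpi := th.pow_mem hfin halg p
  cases hq with
  | zero => simpa using hpi α
  | prime hp =>
  have : Fact p.Prime := ⟨hp⟩
  obtain ⟨s, j₀, hs⟩ := core3_bdd p hfin _ (th.fg halg) hpi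
  have hθ : ∀ d, th.θ0 d ∈ fracField th.θ0 := fun d => Subfield.subset_closure ⟨d, rfl⟩
  generalize fracField th.θ0 = K' at hpi hs hθ
  obtain ⟨d, hd⟩ := Cardinal.lt_aleph0.1 hfin
  have hinj : Function.Injective (algebraMap (PA k n) (EE k n)) := fun a b h =>
    IsFractionRing.injective (PA k n) (FractionRing (PA k n))
      ((algebraMap (FractionRing (PA k n)) (Om k n)).injective (congrArg Subtype.val h))
  obtain ⟨ev, -, hev⟩ := exists_point_ne (⊥ : Ideal (EE k n)) (f := rd.γ) fun h =>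
    rd.γ_ne (hinj (by rw [map_zero]; exact h))
  obtain ⟨l, hl, hlp, hl0, hll, -⟩ := exists_flag (pt n ev) ∅ (Finset.notMem_empty _)
  have := (ker_isMaximal ev).isPrime
  obtain ⟨L, hL, hLp, hLc, hLl⟩ := exists_chain_over hinj n l hl hlp (RingHom.ker ev) (by
    ext f
    rw [hll, Ideal.mem_comap, RingHom.mem_ker, map_algebraMap_eq_eval])
  have hL0 : L 0 = ⊥ := Ideal.eq_bot_of_comap_eq_bot (R := PA k n) ((hLc 0).trans hl0)
  let E : Subalgebra (⊥ : Subfield k) (Om k n) :=
    (integralClosure (PA k n) (Om k n)).restrictScalars _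
  let ev' : E →ₐ[(⊥ : Subfield k)] k :=
    { ev.toRingHom with commutes' := fun a => ev.commutes a }
  let c : IntermediateField (⊥ : Subfield k) (Om k n) :=
    (K' ⊓ (algebraMap k (Om k n)).fieldRange).toIntermediateField fun a =>
      ⟨(bot_le : (⊥ : Subfield k) ≤ K'.comap (algebraMap k (Om k n))) a.2, a, rfl⟩
  obtain ⟨c', ⟨N', hN'⟩, -, -, hc'⟩ := abh d hd n (Om k n) E L hL hLp hL0 ev' hLl.symm
    (by rw [trdeg_Om, hd]) c (Set.range (th.θ ⟨0, rd.m_pos⟩)) (fun a => by
      obtain ⟨e, he⟩ := th.ev_eq ev hev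
      obtain ⟨x, hx⟩ := rd.χ_surj _ (e ⟨0, rd.m_pos⟩) hev a
      exact ⟨_, ⟨x, rfl⟩, (he _ x).trans hx⟩) s (p ^ j₀) (by
      rintro _ ⟨x, rfl⟩
      have hx : th.θ0 x ^ p ^ j₀ ∈ IntermediateField.adjoin c (s : Set (Om k n)) := by
        refine Subfield.closure_mono ?_ (hs _ (hθ x))
        rintro y (hy | hy)
        · exact Or.inl ⟨⟨y, hy⟩, rfl⟩
        · exact Or.inr hy
      refine ⟨X ^ p ^ j₀ - C ⟨_, hx⟩, (monic_X_pow_sub_C _ (pow_pos hp.pos _).ne').ne_zero,
        natDegree_X_pow_sub_C.le, ?_⟩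
      rw [map_sub, map_pow, aeval_X, aeval_C, sub_eq_zero]
      rfl)
  have hsub : c'.toSubfield ≤ K'.comap (algebraMap k (Om k n)) := fun β hβ => by
    obtain ⟨x, ⟨hx, a, ha⟩, rfl⟩ := hc' (by
      rintro _ ⟨-, a, rfl⟩
      exact (algebraMap k (EE k n) a).2) β hβ
    have e : x = algebraMap k (EE k n) a := Subtype.ext ha.symm
    have e2 : ev' x = a := by rw [e]; exact ev.commutes a
    rw [e2, Subfield.mem_comap, ha]
    exact hx
  refine core3_eq_top p (K'.comap (algebraMap k (Om k n))) N' (fun a => ?_) (fun a => ?_) α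
  · obtain ⟨j, hj⟩ := hpi a
    exact ⟨j, by rw [Subfield.mem_comap, map_pow]; exact hj⟩
  · obtain ⟨f, hf0, hfN, hf⟩ := hN' a
    refine ⟨f.map (Subfield.inclusion hsub),
      (Polynomial.map_ne_zero_iff (RingHom.injective _)).2 hf0, natDegree_map_le.trans hfN, ?_⟩
    rw [aeval_def, eval₂_map]
    exact hf

end Pool.Agent.MP_f1fec5_al.Aff

end
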