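import Pool.Agent.MP_f1fec5_al.Aff.Base

section

namespace Pool.Agent.MP_f1fec5_al.Aff

open Polynomial

universe u v

/-- independence modulo an ideal -/
def TrdInd (R : Type*) [CommRing R] {D : Type*} [CommRing D] [Algebra R D] {ι : Type*}
    (x : ι → D) (Q : Ideal D) : Prop :=
  ∀ f : MvPolynomial ι R, MvPolynomial.aeval x f ∈ Q → f = 0

lemma trd_reindex {R : Type*} [CommRing R] {D : Type*} [CommRing D] [Algebra R D] {ι κ : Type*}
    {x : ι → D} {Q : Ideal D} (h : TrdInd R x Q) (e : κ → ι) (he : Function.Injective e) :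
    TrdInd R (x ∘ e) Q := by
  intro f hf
  rw [← MvPolynomial.aeval_rename] at hf
  exact MvPolynomial.rename_injective e he (by rw [h _ hf, map_zero])

lemma trd_step {R : Type*} [CommRing R] {D : Type*} [CommRing D] [Algebra R D] {ι : Type*}
    {x : ι → D} {Q Q' : Ideal D} (hQ : Q.IsPrime) (hle : Q ≤ Q') {a : D} (ha : a ∈ Q')
    (ha' : a ∉ Q) (h : TrdInd R x Q') : TrdInd R (fun o : Option ι => o.elim a x) Q := by
  intro f hf
  have key : ∀ f : MvPolynomial (Option ι) R,
      MvPolynomial.aeval (fun o : Option ι => o.elim a x) f =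
        eval₂ (MvPolynomial.aeval x : MvPolynomial ι R →ₐ[R] D).toRingHom a
          (MvPolynomial.optionEquivLeft R ι f) := by
    intro f
    induction f using MvPolynomial.induction_on with
    | C r => simp
    | add f g hf hg => simp only [map_add, eval₂_add, hf, hg]
    | mul_X f i hf =>
      simp only [map_mul, eval₂_mul, hf]
      cases i <;> simp
  rw [key] at hf
  by_contra hne
  have hg : MvPolynomial.optionEquivLeft R ι f ≠ 0 := by
    intro h0
    exact hne ((MvPolynomial.optionEquivLeft R ι).injective (by rw [h0, map_zero]))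
  obtain ⟨g, hg1, hg2⟩ := exists_eq_pow_rootMultiplicity_mul_and_not_dvd _ hg 0
  rw [hg1, eval₂_mul, eval₂_pow] at hf
  simp only [map_zero, sub_zero, eval₂_X] at hf hg2
  have h1 := (hQ.mem_or_mem hf).resolve_left fun h2 => ha' (hQ.mem_of_pow_mem _ h2)
  apply hg2
  rw [X_dvd_iff]
  apply h
  have h2 := hle h1
  rw [← divX_mul_X_add g, eval₂_add, eval₂_mul, eval₂_X, eval₂_C] at h2
  exact (Ideal.add_mem_iff_right _ (Q'.mul_mem_left _ ha)).1 h2

lemma trd_chain {R : Type*} [CommRing R] {D : Type*} [CommRing D] [Algebra R D] {ι : Type*}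
    {x : ι → D} (r : ℕ) : ∀ (q : Fin (r + 1) → Ideal D), StrictMono q → (∀ i, (q i).IsPrime) →
      TrdInd R x (q (Fin.last r)) → ∃ w : ι ⊕ Fin r → D, TrdInd R w (q 0) := by
  induction r with
  | zero =>
    intro q _ _ h
    exact ⟨x ∘ (Equiv.sumEmpty ι (Fin 0)), trd_reindex h _ (Equiv.injective _)⟩
  | succ r ih =>
    intro q hq hp h
    obtain ⟨w, hw⟩ := ih (fun i => q i.succ) (fun i j hij => hq (Fin.succ_lt_succ_iff.2 hij))
      (fun i => hp _) h
    have hlt : q 0 < q (Fin.succ 0) := hq (Fin.succ_pos _)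
    obtain ⟨a, ha, ha'⟩ := SetLike.exists_of_lt hlt
    have h2 := trd_step (hp 0) hlt.le ha ha' hw
    let e : ι ⊕ Fin (r + 1) ≃ Option (ι ⊕ Fin r) :=
      (((Equiv.refl ι).sumCongr (finSumFinEquiv.symm.trans
        ((Equiv.refl (Fin r)).sumCongr (Equiv.ofUnique (Fin 1) PUnit.{1})))).trans
        (Equiv.sumAssoc _ _ _).symm).trans (Equiv.optionEquivSumPUnit _).symm
    exact ⟨_, trd_reindex h2 e e.injective⟩

lemma trd_of_hom {R : Type*} [CommRing R] {D T : Type*} [CommRing D] [CommRing T] [Algebra R D]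
    [Algebra R T] (π : D →ₐ[R] T) {ι : Type*} {x : ι → D} {Q : Ideal D}
    (hQ : Q ≤ RingHom.ker π) (h : AlgebraicIndependent R (fun i => π (x i))) : TrdInd R x Q := by
  intro f hf
  have h1 : π (MvPolynomial.aeval x f) = 0 := hQ hf
  rw [MvPolynomial.comp_aeval_apply] at h1
  exact algebraicIndependent_iff.1 h f h1

lemma trd_to_indep {R : Type*} [CommRing R] {D T : Type*} [CommRing D] [CommRing T] [Algebra R D]
    [Algebra R T] (θ : D →ₐ[R] T) (hθ : Function.Injective θ) {ι : Type*} {x : ι → D}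
    {Q : Ideal D} (h : TrdInd R x Q) : AlgebraicIndependent R (fun i => θ (x i)) := by
  rw [algebraicIndependent_iff]
  intro f hf
  rw [← MvPolynomial.comp_aeval_apply] at hf
  apply h
  rw [hθ (hf.trans (map_zero θ).symm)]
  exact Q.zero_mem

lemma trd_alg_div {R K : Type*} [CommRing R] [Field K] [Algebra R K] (a b : R)
    (hb : algebraMap R K b ≠ 0) : IsAlgebraic R (algebraMap R K a / algebraMap R K b) := by
  refine ⟨C b * X - C a, fun h => hb ?_, ?_⟩
  · have := congrArg (fun p => p.coeff 1) h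
    simp only [coeff_sub, coeff_C_mul, coeff_X_one, mul_one, coeff_C, one_ne_zero, if_false,
      sub_zero, coeff_zero] at this
    rw [this, map_zero]
  · simp only [map_sub, map_mul, aeval_C, aeval_X]
    field_simp
    ring

lemma trd_chain_le {k0 : Type u} [Field k0] {S T : Type u} [CommRing S] [IsDomain S]
    [CommRing T] [IsDomain T] [Algebra k0 S] [Algebra k0 T] (π : S →ₐ[k0] T)
    (hπ : Function.Surjective π) (r : ℕ) (q : Fin (r + 1) → Ideal S) (hq : StrictMono q)
    (hp : ∀ i, (q i).IsPrime) (hlast : q (Fin.last r) ≤ RingHom.ker π) :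
    Algebra.trdeg k0 T + r ≤ Algebra.trdeg k0 S := by
  obtain ⟨s, hs⟩ := exists_isTranscendenceBasis k0 T
  choose g hg using hπ
  have h1 : TrdInd k0 (fun i : s => g i) (q (Fin.last r)) :=
    trd_of_hom π hlast (by simp only [hg]; exact hs.1)
  obtain ⟨w, hw⟩ := trd_chain r q hq hp h1
  have h2 := (trd_to_indep (AlgHom.id k0 S) Function.injective_id hw).cardinalMk_le_trdeg
  rw [← hs.cardinalMk_eq_trdeg]
  simpa using h2

/-- A nonzero prime lowers the transcendence degree.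
Hint: lift an algebraically independent family of `S ⧸ q` and add a nonzero `a ∈ q`;
a relation of minimal degree in `a` has constant term in `q`. -/
theorem trdeg_quot_add_one_le {k0 : Type u} [Field k0] {S T : Type u} [CommRing S] [IsDomain S]
    [CommRing T] [IsDomain T] [Algebra k0 S] [Algebra k0 T] (π : S →ₐ[k0] T)
    (hπ : Function.Surjective π) (hker : ¬ Function.Injective π) :
    Algebra.trdeg k0 T + 1 ≤ Algebra.trdeg k0 S := by
  have hk : (⊥ : Ideal S) < RingHom.ker π := by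
    rw [bot_lt_iff_ne_bot]
    intro h
    exact hker ((RingHom.injective_iff_ker_eq_bot π).2 h)
  have := trd_chain_le π hπ 1 ![⊥, RingHom.ker π] (Fin.strictMono_iff_lt_succ.2 fun i => by
    fin_cases i; exact hk) (fun i => by
    fin_cases i
    · exact Ideal.isPrime_bot
    · exact RingHom.ker_isPrime π) le_rfl
  simpa using this

/-- A chain of primes bounds the transcendence degree from below (algebras over a field). -/
theorem trdeg_add_le_of_chain {k0 : Type u} [Field k0] {S T : Type u} [CommRing S] [IsDomain S]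
    [CommRing T] [IsDomain T] [Algebra k0 S] [Algebra k0 T] (π : S →ₐ[k0] T)
    (hπ : Function.Surjective π) (r : ℕ) (q : Fin (r + 1) → Ideal S) (hq : StrictMono q)
    (hp : ∀ i, (q i).IsPrime) (hlast : q (Fin.last r) ≤ RingHom.ker π) :
    Algebra.trdeg k0 T + r ≤ Algebra.trdeg k0 S := by
  exact trd_chain_le π hπ r q hq hp hlast

/-- The same for a ring `D` that is not an algebra over the prime field.
Hint: lift a transcendence basis of `k` along `χ`, add `aᵢ ∈ q i \ q (i-1)`. Work with integer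
polynomials: `D`, `D ⧸ q i`, `k`, `Ω` all have the characteristic `p` of `k`, so are algebras over
`ZMod p`, whose fraction field is the prime field; or localise `D` at the integers that are nonzero
in `k` (the subring of `Ω` generated by the image of `θ` and the prime field). -/
theorem exists_indep_of_chain {k : Type u} [Field k] {D : Type v} [CommRing D] {Ω : Type u}
    [Field Ω] [Algebra k Ω] (θ : D →+* Ω) (hθ : Function.Injective θ) (χ : D →+* k)
    (hχ : Function.Surjective χ) (r : ℕ) (q : Fin (r + 1) → Ideal D) (hq : StrictMono q)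
    (hp : ∀ i, (q i).IsPrime) (hlast : q (Fin.last r) ≤ RingHom.ker χ) (d : ℕ)
    (hd : Algebra.trdeg (⊥ : Subfield k) k = d) :
    ∃ w : Fin (d + r) → D, AlgebraicIndependent (⊥ : Subfield k) (fun i => θ (w i)) := by
  let p := ringChar k
  have c1 : CharP k p := ringChar.charP k
  have c2 : CharP Ω p := charP_of_injective_algebraMap (algebraMap k Ω).injective p
  have c3 : CharP D p := θ.charP hθ p
  have c4 : CharP (⊥ : Subfield k) p := Subfield.charP _ p
  let _ : Algebra (ZMod p) k := ZMod.algebra k p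
  let _ : Algebra (ZMod p) Ω := ZMod.algebra Ω p
  let _ : Algebra (ZMod p) D := ZMod.algebra D p
  let _ : Algebra (ZMod p) (⊥ : Subfield k) := ZMod.algebra _ p
  have t1 := IsScalarTower.of_algebraMap_eq' (R := ZMod p) (S := (⊥ : Subfield k)) (A := k)
    (RingHom.ext_zmod _ _)
  have t2 := IsScalarTower.of_algebraMap_eq' (R := ZMod p) (S := (⊥ : Subfield k)) (A := Ω)
    (RingHom.ext_zmod _ _)
  have hinj : Function.Injective (algebraMap (ZMod p) (⊥ : Subfield k)) :=
    ZMod.castHom_injective _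
  have halg : Algebra.IsAlgebraic (ZMod p) (⊥ : Subfield k) := by
    constructor
    rintro ⟨y, hy⟩
    have hy' := hy
    rw [← Subfield.closure_empty, Subfield.mem_closure_iff, Subring.closure_empty] at hy'
    obtain ⟨_, h1, _, h2, rfl⟩ := hy'
    obtain ⟨a, rfl⟩ := Subring.mem_bot.1 h1
    obtain ⟨b, rfl⟩ := Subring.mem_bot.1 h2
    by_cases hb : (b : k) = 0
    · have : (⟨(a : k) / b, hy⟩ : (⊥ : Subfield k)) = 0 := Subtype.ext (by simp [hb])
      rw [this]
      have : Nontrivial (ZMod p) := (algebraMap (ZMod p) k).domain_nontrivial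
      exact isAlgebraic_zero
    · have h3 := trd_alg_div (R := ZMod p) (K := (⊥ : Subfield k)) (a : ZMod p) (b : ZMod p)
        (by
          rw [map_intCast]
          intro h
          exact hb (by simpa using congrArg Subtype.val h))
      have e : (⟨(a : k) / b, hy⟩ : (⊥ : Subfield k)) =
          algebraMap (ZMod p) (⊥ : Subfield k) a / algebraMap (ZMod p) (⊥ : Subfield k) b :=
        Subtype.ext (by simp)
      rw [e]
      exact h3
  let θ' : D →ₐ[ZMod p] Ω :=
    { θ with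
      commutes' := fun c => RingHom.congr_fun
        (RingHom.ext_zmod (θ.comp (algebraMap (ZMod p) D)) (algebraMap (ZMod p) Ω)) c }
  let χ' : D →ₐ[ZMod p] k :=
    { χ with
      commutes' := fun c => RingHom.congr_fun
        (RingHom.ext_zmod (χ.comp (algebraMap (ZMod p) D)) (algebraMap (ZMod p) k)) c }
  obtain ⟨s, hs⟩ := exists_isTranscendenceBasis (⊥ : Subfield k) k
  have hc := hs.cardinalMk_eq_trdeg
  rw [hd] at hc
  obtain ⟨e⟩ := Cardinal.mk_eq_nat_iff.1 hc
  choose g hg using hχ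
  have h0 : AlgebraicIndependent (ZMod p) (fun i : s => χ' (g i)) := by
    have : (fun i : s => χ' (g i)) = Subtype.val := funext fun i => hg i
    rw [this]
    exact hs.1.restrictScalars hinj
  obtain ⟨w, hw⟩ := trd_chain r q hq hp (trd_of_hom χ' hlast h0)
  let e' : Fin (d + r) ≃ s ⊕ Fin r :=
    finSumFinEquiv.symm.trans (e.symm.sumCongr (Equiv.refl _))
  exact ⟨w ∘ e', (trd_to_indep θ' hθ (trd_reindex hw e' e'.injective)).extendScalars _⟩

/-- Hint: apply the previous lemma to `D ⧸ ker ψ` with a chain of length one. -/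
theorem ker_eq_of_le {k : Type u} [Field k]
    (hfin : Algebra.trdeg (⊥ : Subfield k) k < Cardinal.aleph0) {D : Type v} [CommRing D]
    (ψ χ : D →+* k) (hχ : Function.Surjective χ) (h : RingHom.ker ψ ≤ RingHom.ker χ) :
    RingHom.ker ψ = RingHom.ker χ := by
  by_contra hne
  obtain ⟨d, hd⟩ := Cardinal.lt_aleph0.1 hfin
  have hpr : (RingHom.ker ψ).IsPrime := RingHom.ker_isPrime ψ
  let χ' : D ⧸ RingHom.ker ψ →+* k := Ideal.Quotient.lift _ χ fun a ha => h ha
  have hχ' : Function.Surjective χ' := fun c => by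
    obtain ⟨a, rfl⟩ := hχ c
    exact ⟨Ideal.Quotient.mk _ a, rfl⟩
  have hk : (⊥ : Ideal (D ⧸ RingHom.ker ψ)) < RingHom.ker χ' := by
    obtain ⟨a, ha, ha'⟩ := SetLike.exists_of_lt (lt_of_le_of_ne h hne)
    rw [bot_lt_iff_ne_bot]
    intro h0
    have h1 : Ideal.Quotient.mk (RingHom.ker ψ) a ∈ RingHom.ker χ' := ha
    rw [h0, Ideal.mem_bot, Ideal.Quotient.eq_zero_iff_mem] at h1
    exact ha' h1
  obtain ⟨w, hw⟩ := exists_indep_of_chain (Ω := k) (RingHom.kerLift ψ)
    (RingHom.kerLift_injective ψ) χ' hχ' 1 ![⊥, RingHom.ker χ']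
    (Fin.strictMono_iff_lt_succ.2 fun i => by fin_cases i; exact hk) (fun i => by
      fin_cases i
      · exact Ideal.isPrime_bot
      · exact RingHom.ker_isPrime χ') le_rfl d hd
  have h2 := hw.lift_cardinalMk_le_trdeg
  rw [hd] at h2
  simp only [Cardinal.mk_fintype, Fintype.card_fin, Cardinal.lift_natCast, Nat.cast_le] at h2
  omega

lemma trd_Om (k : Type u) [Field k] (n : ℕ) : Algebra.trdeg k (Om k n) = n := by
  have a1 : Algebra.IsAlgebraic (PA k n) (FractionRing (PA k n)) :=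
    IsLocalization.isAlgebraic _ (nonZeroDivisors _)
  have a2 : Algebra.IsAlgebraic (PA k n) (Om k n) :=
    Algebra.IsAlgebraic.trans _ (FractionRing (PA k n)) _
  have a3 : FaithfulSMul (PA k n) (Om k n) := by
    rw [faithfulSMul_iff_algebraMap_injective,
      IsScalarTower.algebraMap_eq (PA k n) (FractionRing (PA k n)) (Om k n)]
    exact (algebraMap (FractionRing (PA k n)) (Om k n)).injective.comp
      (IsFractionRing.injective (PA k n) (FractionRing (PA k n)))
  rw [← trdeg_add_eq k (PA k n) (A := Om k n),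
    trdeg_eq_zero (R := PA k n), MvPolynomial.trdeg_of_isDomain]
  simp

theorem trdeg_Om (k : Type u) [Field k] (n : ℕ) :
    Algebra.trdeg (⊥ : Subfield k) (Om k n) = Algebra.trdeg (⊥ : Subfield k) k + n := by
  rw [← trdeg_add_eq (⊥ : Subfield k) k (A := Om k n), trd_Om]

lemma trd_isAlgebraic {k : Type u} [Field k]
    (hfin : Algebra.trdeg (⊥ : Subfield k) k < Cardinal.aleph0) {n : ℕ} {D : Type v} [CommRing D]
    {Ω : Type u} [Field Ω] [Algebra k Ω] (hΩ : Algebra.trdeg k Ω = n)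
    (θ : D →+* Ω) (hθ : Function.Injective θ) (χ : D →+* k)
    (hχ : Function.Surjective χ) (q : Fin (n + 1) → Ideal D) (hq : StrictMono q)
    (hp : ∀ i, (q i).IsPrime) (hlast : q (Fin.last n) ≤ RingHom.ker χ) :
    Algebra.IsAlgebraic (fracField θ) Ω := by
  obtain ⟨d, hd⟩ := Cardinal.lt_aleph0.1 hfin
  obtain ⟨w, hw⟩ := exists_indep_of_chain θ hθ χ hχ n q hq hp hlast d hd
  have hb := hw.isTranscendenceBasis_of_lift_trdeg_le_of_finite (by
    rw [← trdeg_add_eq (⊥ : Subfield k) k (A := Ω), hΩ, hd]; simp)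
  have ha := hb.isAlgebraic
  have hsub : ∀ y ∈ Algebra.adjoin (⊥ : Subfield k) (Set.range fun i => θ (w i)),
      y ∈ fracField θ := by
    intro y hy
    refine Algebra.adjoin_induction ?_ ?_ (fun _ _ _ _ => add_mem) (fun _ _ _ _ => mul_mem) hy
    · rintro _ ⟨i, rfl⟩
      exact Subfield.subset_closure ⟨_, rfl⟩
    · intro c
      have : (⊥ : Subfield k) ≤ (fracField θ).comap (algebraMap k Ω) := bot_le
      exact this c.2
  let j : Algebra.adjoin (⊥ : Subfield k) (Set.range fun i => θ (w i)) →+* fracField θ :=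
    (Subalgebra.val _).toRingHom.codRestrict _ fun y => hsub y y.2
  have hj : Function.Injective j := fun y z h => Subtype.ext (congrArg Subtype.val h :)
  constructor
  intro y
  obtain ⟨f, hf, hfy⟩ := ha.isAlgebraic y
  refine ⟨f.map j, (Polynomial.map_ne_zero_iff hj).2 hf, ?_⟩
  rw [aeval_def, eval₂_map]
  exact hfy

/-- Hint: the `d + n` independent elements are a transcendence basis of `Om k n`; the prime field
lies in `fracField θ`. -/
theorem isAlgebraic_of_chain {k : Type u} [Field k]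
    (hfin : Algebra.trdeg (⊥ : Subfield k) k < Cardinal.aleph0) {n : ℕ} {D : Type v} [CommRing D]
    (θ : D →+* Om k n) (hθ : Function.Injective θ) (χ : D →+* k)
    (hχ : Function.Surjective χ) (q : Fin (n + 1) → Ideal D) (hq : StrictMono q)
    (hp : ∀ i, (q i).IsPrime) (hlast : q (Fin.last n) ≤ RingHom.ker χ) :
    Algebra.IsAlgebraic (fracField θ) (Om k n) := by
  exact trd_isAlgebraic hfin (trd_Om k n) θ hθ χ hχ q hq hp hlast

/-- Clearing denominators. -/
theorem exists_poly_of_isAlgebraic {D : Type v} [CommRing D] {Ω : Type u} [Field Ω]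
    (θ : D →+* Ω) (hθ : Function.Injective θ) {w : Ω} (hw : IsAlgebraic (fracField θ) w) :
    ∃ f : D[X], f ≠ 0 ∧ eval₂ θ w f = 0 := by
  let _ : Algebra D Ω := θ.toAlgebra
  let _ : Algebra D (fracField θ) :=
    (θ.codRestrict (fracField θ) fun a => Subfield.subset_closure ⟨a, rfl⟩).toAlgebra
  have : IsScalarTower D (fracField θ) Ω := IsScalarTower.of_algebraMap_eq fun _ => rfl
  have : Algebra.IsAlgebraic D (fracField θ) := by
    constructor
    rintro ⟨y, hy⟩
    obtain ⟨a, b, hb, rfl⟩ := (mem_fracField θ y).1 hy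
    exact trd_alg_div (R := D) (K := fracField θ) a b fun h => hb (congrArg Subtype.val h)
  have : IsDomain D := hθ.isDomain θ
  obtain ⟨f, hf, hfw⟩ := hw.restrictScalars D
  exact ⟨f, hf, hfw⟩

end Pool.Agent.MP_f1fec5_al.Aff

end

section

namespace Pool.Agent.MP_f1fec5_al.Aff

open Polynomial

universe u v

/-- A relation over a subfield is a relation over any larger subfield. -/
theorem root_lift {A B Ω : Type*} [Field A] [Field B] [Field Ω] [Algebra A Ω] [Algebra B Ω]
    (h : ∀ a : A, algebraMap A Ω a ∈ Set.range (algebraMap B Ω)) {α : Ω} {N : ℕ}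
    (hf : ∃ f : A[X], f ≠ 0 ∧ f.natDegree ≤ N ∧ aeval α f = 0) :
    ∃ g : B[X], g ≠ 0 ∧ g.natDegree ≤ N ∧ aeval α g = 0 := by
  obtain ⟨f, h0, hN, hα⟩ := hf
  obtain ⟨g, hg⟩ := (mem_lifts (f := algebraMap B Ω) (f.map (algebraMap A Ω))).1
    ((lifts_iff_coeff_lifts _).2 fun n => by rw [coeff_map]; exact h _)
  refine ⟨g, ?_, ?_, ?_⟩
  · rintro rfl
    exact h0 (by simpa using hg.symm)
  · rw [← natDegree_map (algebraMap B Ω), hg, natDegree_map]; exact hN
  · rw [← eval_map_algebraMap, hg, eval_map_algebraMap, hα]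

/-- An element of bounded degree over a finite extension lies in a finite extension of bounded
degree. -/
theorem root_tower {K Ω : Type*} [Field K] [Field Ω] [Algebra K Ω] (E : IntermediateField K Ω)
    [FiniteDimensional K E] {α : Ω} {N : ℕ}
    (hf : ∃ f : E[X], f ≠ 0 ∧ f.natDegree ≤ N ∧ aeval α f = 0) :
    ∃ L : IntermediateField K Ω, α ∈ L ∧ FiniteDimensional K L ∧
      Module.finrank K L ≤ Module.finrank K E * N := by
  obtain ⟨f, h0, hN, hα⟩ := hf
  have hi : IsIntegral E α := IsAlgebraic.isIntegral ⟨f, h0, hα⟩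
  have := IntermediateField.adjoin.finiteDimensional hi
  have hfin : Module.Finite K (IntermediateField.adjoin E {α}) := Module.Finite.trans E _
  refine ⟨(IntermediateField.adjoin E {α}).restrictScalars K,
    IntermediateField.mem_adjoin_simple_self E α, hfin, ?_⟩
  change Module.finrank K (IntermediateField.adjoin E {α}) ≤ _
  rw [← Module.finrank_mul_finrank K E, IntermediateField.adjoin.finrank hi]
  exact Nat.mul_le_mul_left _
    ((natDegree_le_of_dvd (minpoly.dvd E α hα) h0).trans hN)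

theorem root_tower' {K Ω : Type*} [Field K] [Field Ω] [Algebra K Ω] (E : IntermediateField K Ω)
    [FiniteDimensional K E] {α : Ω} {N : ℕ}
    (hf : ∃ f : E[X], f ≠ 0 ∧ f.natDegree ≤ N ∧ aeval α f = 0) :
    ∃ f : K[X], f ≠ 0 ∧ f.natDegree ≤ Module.finrank K E * N ∧ aeval α f = 0 := by
  obtain ⟨L, hL, _, hr⟩ := root_tower E hf
  refine ⟨minpoly K (⟨α, hL⟩ : L), minpoly.ne_zero (Algebra.IsIntegral.isIntegral _),
    (minpoly.natDegree_le _).trans hr, ?_⟩
  rw [IntermediateField.minpoly_eq]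
  exact minpoly.aeval K α

/-- In a finite extension of a purely transcendental extension, a member of the transcendence
basis has no `ℓ`-th root for `ℓ` larger than the degree. -/
theorem dvd_finrank_of_pow_eq {c L : Type u} [Field c] [Field L] [Algebra c L] {ι : Type*}
    (u : ι → L) (hu : AlgebraicIndependent c u) (i : ι)
    (L' : IntermediateField (IntermediateField.adjoin c (Set.range u)) L)
    [FiniteDimensional (IntermediateField.adjoin c (Set.range u)) L'] (x : L) (hx : x ∈ L')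
    (ℓ : ℕ) (h : x ^ ℓ = u i) :
    ℓ ∣ Module.finrank (IntermediateField.adjoin c (Set.range u)) L' := by
  classical
  set e := hu.aevalEquivField
  have h1 : (⟨x, hx⟩ : L') ^ ℓ = algebraMap (IntermediateField.adjoin c (Set.range u)) L'
      (e (algebraMap (MvPolynomial ι c) _ (MvPolynomial.X i))) := by
    apply Subtype.ext
    change x ^ ℓ = (e (algebraMap (MvPolynomial ι c) _ (MvPolynomial.X i)) : L)
    rw [h, hu.aevalEquivField_algebraMap_apply_coe, MvPolynomial.aeval_X]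
  have h2 := congrArg (fun y => e.symm
    (Algebra.norm (IntermediateField.adjoin c (Set.range u)) y)) h1
  simp only [Algebra.norm_algebraMap, map_pow, AlgEquiv.symm_apply_apply] at h2
  obtain ⟨a, b, hb, hab⟩ := IsFractionRing.div_surjective (A := MvPolynomial ι c)
    (e.symm (Algebra.norm (IntermediateField.adjoin c (Set.range u)) (⟨x, hx⟩ : L')))
  have hb0 : b ≠ 0 := nonZeroDivisors.ne_zero hb
  rw [← hab, div_pow, div_eq_iff (pow_ne_zero _ (by simpa using hb0)), ← map_pow, ← map_pow,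
    ← map_pow, ← map_mul] at h2
  have h3 := IsFractionRing.injective (MvPolynomial ι c) _ h2
  have hX : (MvPolynomial.X i : MvPolynomial ι c) ≠ 0 := MvPolynomial.X_ne_zero i
  rcases Nat.eq_zero_or_pos ℓ with rfl | hl
  · have h4 := congrArg (MvPolynomial.degreeOf i) h3
    simp only [pow_zero, mul_one, MvPolynomial.degreeOf_X_self_pow, MvPolynomial.degreeOf_one]
      at h4
    rw [← h4]
  have ha0 : a ≠ 0 := by
    rintro rfl
    rw [zero_pow hl.ne'] at h3
    exact mul_ne_zero (pow_ne_zero _ hX) (pow_ne_zero _ hb0) h3.symm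
  have h4 := congrArg (MvPolynomial.degreeOf i) h3
  rw [MvPolynomial.degreeOf_mul_eq (pow_ne_zero _ hX) (pow_ne_zero _ hb0),
    MvPolynomial.degreeOf_pow_eq _ _ _ ha0, MvPolynomial.degreeOf_pow_eq _ _ _ hb0,
    MvPolynomial.degreeOf_X_self_pow] at h4
  exact (Nat.dvd_add_left (dvd_mul_right _ _)).1 (h4 ▸ dvd_mul_right _ _)

/-- An element of a finitely generated extension of an algebraically closed field having `p ^ j`-th
roots for all `j` is a constant. -/
theorem mem_range_of_forall_pow {k L : Type u} [Field k] [IsAlgClosed k] [Field L] [Algebra k L]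
    [Algebra.EssFiniteType k L] (p : ℕ) (hp : 1 < p) (w : L) (h : ∀ j : ℕ, ∃ x : L, x ^ p ^ j = w) :
    w ∈ Set.range (algebraMap k L) := by
  by_cases hw : IsAlgebraic k w
  · exact minpoly.mem_range_of_degree_eq_one k w
      (IsAlgClosed.degree_eq_one_of_irreducible k (minpoly.irreducible hw.isIntegral))
  exfalso
  have h1 : AlgebraicIndepOn k id ({w} : Set L) :=
    (algebraicIndependent_singleton_iff (⟨w, rfl⟩ : ({w} : Set L))).2 hw
  obtain ⟨s, hws, hs⟩ := exists_isTranscendenceBasis_superset h1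
  have := hs.isAlgebraic_field
  have := Algebra.EssFiniteType.of_comp k
    (IntermediateField.adjoin k (Set.range ((↑) : s → L))) L
  have := Algebra.finite_of_essFiniteType_of_isAlgebraic
    (F := IntermediateField.adjoin k (Set.range ((↑) : s → L))) (E := L)
  set M := Module.finrank (IntermediateField.adjoin k (Set.range ((↑) : s → L)))
    (⊤ : IntermediateField (IntermediateField.adjoin k (Set.range ((↑) : s → L))) L) with hM
  obtain ⟨x, hx⟩ := h M
  have h2 := dvd_finrank_of_pow_eq _ hs.1 ⟨w, hws rfl⟩ ⊤ x trivial _ hx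
  exact (Nat.lt_pow_self hp).not_ge (Nat.le_of_dvd Module.finrank_pos h2)

/-- If all elements of an algebraically closed field have bounded degree over a finitely generated
extension of `c`, they have bounded degree over `c`. -/
theorem bdd_degree_of_fg {c k : Type u} [Field c] [Field k] [IsAlgClosed k] [Algebra c k]
    (u : Finset k) (N : ℕ)
    (h : ∀ α : k, ∃ f : (IntermediateField.adjoin c (u : Set k))[X], f ≠ 0 ∧ f.natDegree ≤ N ∧
      aeval α f = 0) :
    ∃ N' : ℕ, ∀ α : k, ∃ f : Polynomial c, f ≠ 0 ∧ f.natDegree ≤ N' ∧ aeval α f = 0 := by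
  obtain ⟨s, hs⟩ := exists_isTranscendenceBasis c k
  have halg : Algebra.IsAlgebraic c k := by
    rw [← hs.isEmpty_iff_isAlgebraic]
    refine ⟨fun i => ?_⟩
    have := hs.isAlgebraic_field
    set Φ := IntermediateField.adjoin c (Set.range ((↑) : s → k))
    have := IntermediateField.finiteDimensional_adjoin (K := Φ) (S := (u : Set k))
      fun x _ => Algebra.IsIntegral.isIntegral x
    set E := IntermediateField.adjoin Φ (u : Set k)
    obtain ⟨α, hα⟩ := IsAlgClosed.exists_pow_nat_eq (i : k)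
      (Nat.succ_pos (Module.finrank Φ E * N))
    have hle : IntermediateField.adjoin c (u : Set k) ≤ E.restrictScalars c :=
      IntermediateField.adjoin_le_iff.2 (IntermediateField.subset_adjoin Φ _)
    obtain ⟨L, hL, _, hr⟩ := root_tower E (root_lift (fun a => ⟨⟨a, hle a.2⟩, rfl⟩) (h α))
    have h2 := dvd_finrank_of_pow_eq _ hs.1 i L α hL _ hα
    exact (Nat.lt_succ_of_le hr).not_ge (Nat.le_of_dvd Module.finrank_pos h2)
  have := IntermediateField.finiteDimensional_adjoin (K := c) (S := (u : Set k))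
    fun x _ => Algebra.IsIntegral.isIntegral x
  exact ⟨_, fun α => root_tower' _ (h α)⟩

theorem root_essFiniteType {k K L : Type*} [Field k] [Field K] [Field L] [Algebra k K]
    [Algebra K L] [Algebra k L] [IsScalarTower k K L] [Algebra.EssFiniteType k L]
    [Algebra.IsAlgebraic K L] : Algebra.EssFiniteType k K := by
  obtain ⟨s, hs⟩ := exists_isTranscendenceBasis k K
  have : Finite s := finite_of_algebraicIndependent
    (hs.1.map' (f := IsScalarTower.toAlgHom k K L) (algebraMap K L).injective)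
  have := hs.isAlgebraic_field
  set Φ := IntermediateField.adjoin k (Set.range ((↑) : s → K))
  have := Algebra.IsAlgebraic.trans Φ K L
  have := Algebra.EssFiniteType.of_comp k Φ L
  have := Algebra.finite_of_essFiniteType_of_isAlgebraic (F := Φ) (E := L)
  have : Module.Finite Φ K := Module.Finite.of_injective
    (IsScalarTower.toAlgHom Φ K L).toLinearMap (algebraMap K L).injective
  have : Algebra.EssFiniteType k Φ := IntermediateField.essFiniteType_iff.2
    (IntermediateField.fg_adjoin_of_finite (Set.finite_range _))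
  exact Algebra.EssFiniteType.comp k Φ K

/-- A subfield of a finitely generated extension over which the extension is algebraic is finitely
generated. -/
theorem fg_of_le_of_isAlgebraic {k Ω : Type u} [Field k] [Field Ω] [Algebra k Ω]
    (K L : IntermediateField k Ω) (hKL : K ≤ L) (hL : L.FG) (halg : ∀ w ∈ L, IsAlgebraic K w) :
    K.FG := by
  let _ : Algebra K L := (IntermediateField.inclusion hKL).toRingHom.toAlgebra
  have : IsScalarTower k K L := IsScalarTower.of_algebraMap_eq fun _ => rfl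
  have : IsScalarTower K L Ω := IsScalarTower.of_algebraMap_eq fun _ => rfl
  have := IntermediateField.essFiniteType_iff.2 hL
  have : Algebra.IsAlgebraic K L := ⟨fun w =>
    (isAlgebraic_algebraMap_iff (algebraMap L Ω).injective).1 (halg w w.2)⟩
  exact IntermediateField.essFiniteType_iff.1 (root_essFiniteType (L := L))

/-- An element fixed by all automorphisms of an algebraic closure is purely inseparable, with a
bound for the exponent. -/
theorem exists_pow_mem_of_fixed {K Ω : Type u} [Field K] [Field Ω] [Algebra K Ω] [IsAlgClosed Ω]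
    [Algebra.IsAlgebraic K Ω] (q : ℕ) [ExpChar K q] (w : Ω) (h : ∀ g : Ω ≃ₐ[K] Ω, g w = w) :
    ∃ j : ℕ, w ^ q ^ j ∈ Set.range (algebraMap K Ω) ∧ q ^ j = (minpoly K w).natDegree := by
  classical
  have : IsAlgClosure K Ω := ⟨inferInstance, inferInstance⟩
  have hw := Algebra.IsAlgebraic.isAlgebraic (R := K) w
  have h1 : (minpoly K w).natSepDegree = 1 := by
    rw [natSepDegree_eq_of_isAlgClosed Ω, Finset.card_eq_one]
    refine ⟨w, Finset.ext fun y => ?_⟩
    rw [Multiset.mem_toFinset, mem_aroots, Finset.mem_singleton]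
    refine ⟨fun hy => ?_, fun hy => ⟨minpoly.ne_zero hw.isIntegral, hy ▸ minpoly.aeval K _⟩⟩
    obtain ⟨σ, hσ⟩ := minpoly.exists_algEquiv_of_root' hw hy.2
    rw [← hσ, h]
  obtain ⟨n, y, hy⟩ := (minpoly.natSepDegree_eq_one_iff_eq_X_pow_sub_C q).1 h1
  refine ⟨n, ⟨y, ?_⟩, by rw [hy, natDegree_X_pow_sub_C]⟩
  have h2 := minpoly.aeval K w
  rw [hy, map_sub, map_pow, aeval_X, aeval_C, sub_eq_zero] at h2
  exact h2.symm

/-- A separable element with a power in the base field lies in the base field. -/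
theorem mem_range_of_pow_mem {K Ω : Type u} [Field K] [Field Ω] [Algebra K Ω] (q : ℕ)
    [ExpChar K q] (w : Ω) (j : ℕ) (h : w ^ q ^ j ∈ Set.range (algebraMap K Ω)) (f : K[X])
    (hf : aeval w f = 0) (hf' : aeval w (derivative f) ≠ 0) :
    w ∈ Set.range (algebraMap K Ω) := by
  have h0 : f ≠ 0 := by
    rintro rfl
    simp at hf'
  have hi : IsIntegral K w := IsAlgebraic.isIntegral ⟨f, h0, hf⟩
  have h1 := (minpoly.natSepDegree_eq_one_iff_pow_mem q).2 ⟨j, h⟩
  obtain ⟨g, hg⟩ := minpoly.dvd K w hf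
  have h2 : (minpoly K w).Separable := by
    rw [separable_iff_derivative_ne_zero (minpoly.irreducible hi)]
    intro h3
    apply hf'
    rw [hg, derivative_mul, h3]
    simp
  rwa [h2.natSepDegree_eq_natDegree, minpoly.natDegree_eq_one_iff] at h1

end Pool.Agent.MP_f1fec5_al.Aff

end

section

namespace Pool.Agent.MP_f1fec5_al.Aff

open Polynomial

universe u v

/-- A place of `Ω` over `k0` with residue field `Ω₁`. -/
structure AbhPl (k0 Ω Ω₁ : Type u) [Field k0] [Field Ω] [Field Ω₁] [Algebra k0 Ω]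
    [Algebra k0 Ω₁] where
  V : ValuationSubring Ω
  π : V →+* Ω₁
  surj : Function.Surjective π
  base : ∀ a : k0, ∃ h : algebraMap k0 Ω a ∈ V, π ⟨_, h⟩ = algebraMap k0 Ω₁ a

namespace AbhPl

variable {k0 Ω Ω₁ : Type u} [Field k0] [Field Ω] [Field Ω₁] [Algebra k0 Ω] [Algebra k0 Ω₁]
  (P : AbhPl k0 Ω Ω₁)

/-- `x` is finite at the place, with residue `β`. -/
def Red (x : Ω) (β : Ω₁) : Prop := ∃ h : x ∈ P.V, P.π ⟨x, h⟩ = β

variable {P} {x y : Ω} {β γ : Ω₁}

theorem red_zero : P.Red 0 0 := ⟨P.V.zero_mem, map_zero P.π⟩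

theorem red_one : P.Red 1 1 := ⟨P.V.one_mem, map_one P.π⟩

theorem Red.unique (h : P.Red x β) (h' : P.Red x γ) : β = γ := h.2.symm.trans h'.2

theorem Red.add (h : P.Red x β) (h' : P.Red y γ) : P.Red (x + y) (β + γ) :=
  ⟨P.V.add_mem _ _ h.1 h'.1, by rw [← h.2, ← h'.2, ← map_add]; rfl⟩

theorem Red.mul (h : P.Red x β) (h' : P.Red y γ) : P.Red (x * y) (β * γ) :=
  ⟨P.V.mul_mem _ _ h.1 h'.1, by rw [← h.2, ← h'.2, ← map_mul]; rfl⟩

theorem Red.pow (h : P.Red x β) (n : ℕ) : P.Red (x ^ n) (β ^ n) := by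
  induction n with
  | zero => simpa using red_one
  | succ n ih => simpa only [pow_succ] using ih.mul h

theorem Red.ne (h : P.Red x β) (hβ : β ≠ 0) : x ≠ 0 := by
  rintro rfl
  exact hβ (h.unique red_zero)

theorem Red.inv (h : P.Red x β) (hβ : β ≠ 0) : P.Red x⁻¹ β⁻¹ := by
  have h1 : IsUnit (⟨x, h.1⟩ : P.V) := by
    rw [← IsLocalRing.notMem_maximalIdeal,
      ← IsLocalRing.eq_maximalIdeal (RingHom.ker_isMaximal_of_surjective P.π P.surj),
      RingHom.mem_ker, h.2]
    exact hβ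
  obtain ⟨z, hz⟩ := h1.exists_right_inv
  have h2 : x⁻¹ = z := inv_eq_of_mul_eq_one_right (congrArg Subtype.val hz)
  rw [h2]
  refine ⟨z.2, (inv_eq_of_mul_eq_one_right ?_).symm⟩
  rw [← h.2, ← map_mul, hz, map_one]

theorem red_sum {ι : Type*} (s : Finset ι) (f : ι → Ω) (g : ι → Ω₁)
    (h : ∀ i ∈ s, P.Red (f i) (g i)) : P.Red (∑ i ∈ s, f i) (∑ i ∈ s, g i) := by
  classical
  induction s using Finset.induction_on with
  | empty => simpa using red_zero
  | insert a s ha ih =>
    rw [Finset.sum_insert ha, Finset.sum_insert ha]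
    exact (h a (Finset.mem_insert_self _ _)).add (ih fun i hi => h i (Finset.mem_insert_of_mem hi))

variable (P) in
/-- The residue field of a subfield. -/
def res (E : IntermediateField k0 Ω) : IntermediateField k0 Ω₁ where
  carrier := {β | ∃ x ∈ E, P.Red x β}
  mul_mem' := fun ⟨_, a, ha⟩ ⟨_, b, hb⟩ => ⟨_, mul_mem a b, ha.mul hb⟩
  add_mem' := fun ⟨_, a, ha⟩ ⟨_, b, hb⟩ => ⟨_, add_mem a b, ha.add hb⟩
  algebraMap_mem' := fun a => ⟨_, E.algebraMap_mem a, P.base a⟩
  inv_mem' := fun β ⟨_, a, ha⟩ => by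
    rcases eq_or_ne β 0 with rfl | h
    · exact ⟨0, zero_mem _, by simpa using red_zero⟩
    · exact ⟨_, inv_mem a, ha.inv h⟩

theorem res_mono {E E' : IntermediateField k0 Ω} (h : E ≤ E') : P.res E ≤ P.res E' :=
  fun _ ⟨x, a, ha⟩ => ⟨x, h a, ha⟩

/-- Division of a polynomial by a coefficient of largest valuation. -/
theorem gauss (E : IntermediateField k0 Ω) (p : E[X]) (hp : p ≠ 0) :
    ∃ a : E, a ≠ 0 ∧ ∃ g : (P.res E)[X], g ≠ 0 ∧ g.natDegree ≤ p.natDegree ∧
      ∀ x β, P.Red x β → P.Red (aeval x p / a) (aeval β g) := by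
  obtain ⟨j, hj, hm⟩ := Finset.exists_max_image p.support
    (fun i => P.V.valuation (p.coeff i : Ω)) (support_nonempty.2 hp)
  have ha : p.coeff j ≠ 0 := mem_support_iff.1 hj
  have ha' : (p.coeff j : Ω) ≠ 0 := by simpa using ha
  have h1 : ∀ i, ∃ b : P.res E, P.Red (p.coeff i / p.coeff j : Ω) b := fun i => by
    have h2 : (p.coeff i / p.coeff j : Ω) ∈ P.V := by
      by_cases hi : i ∈ p.support
      · rw [← P.V.valuation_le_one_iff, map_div₀]
        exact div_le_one_of_le₀ (hm i hi) zero_le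
      · rw [notMem_support_iff.1 hi]; simp
    exact ⟨⟨_, _, div_mem (p.coeff i).2 (p.coeff j).2, h2, rfl⟩, h2, rfl⟩
  choose b hb using h1
  refine ⟨_, ha, ∑ i ∈ Finset.range (p.natDegree + 1), monomial i (b i), fun h0 => ?_,
    natDegree_sum_le_of_forall_le _ _ fun i hi => (natDegree_monomial_le _).trans
      (Nat.lt_succ_iff.1 (Finset.mem_range.1 hi)), fun x β hx => ?_⟩
  · have h2 := congrArg (fun q => coeff q j) h0
    simp only [finsetSum_coeff, coeff_monomial, Finset.sum_ite_eq', Finset.mem_range, coeff_zero,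
      Nat.lt_succ_of_le (le_natDegree_of_mem_supp j hj), if_true] at h2
    have h3 := hb j
    rw [div_self ha', h2] at h3
    exact zero_ne_one (h3.unique red_one)
  · rw [aeval_eq_sum_range, Finset.sum_div, map_sum]
    refine red_sum _ _ _ fun i _ => ?_
    rw [aeval_monomial, Algebra.smul_def, mul_div_right_comm]
    exact (hb i).mul (hx.pow i)

theorem res_le_adjoin (E : IntermediateField k0 Ω) (S : Set Ω) :
    E ≤ (IntermediateField.adjoin E S).restrictScalars k0 :=
  fun z hz => (IntermediateField.adjoin E S).algebraMap_mem ⟨z, hz⟩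

/-- Adjoining a lift of a transcendental residue. -/
theorem res_adjoin (E : IntermediateField k0 Ω) (hx : P.Red x β)
    (hβ : Transcendental (P.res E) β) :
    P.res ((IntermediateField.adjoin E {x}).restrictScalars k0) =
      IntermediateField.adjoin k0 ((P.res E : Set Ω₁) ∪ {β}) := by
  refine le_antisymm ?_ (IntermediateField.adjoin_le_iff.2 (Set.union_subset
    (res_mono (res_le_adjoin E _)) ?_))
  · rw [← IntermediateField.restrictScalars_adjoin]
    rintro γ ⟨y, hy, hγ⟩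
    obtain ⟨r, s, rfl⟩ := (IntermediateField.mem_adjoin_simple_iff E y).1 hy
    rcases eq_or_ne γ 0 with rfl | h0
    · exact zero_mem _
    have h1 := hγ.ne h0
    obtain ⟨a, ha, g, hg, -, hag⟩ := gauss (P := P) E r (by rintro rfl; simp at h1)
    obtain ⟨b, hb, q, hq, -, hbq⟩ := gauss (P := P) E s (by rintro rfl; simp at h1)
    have hg0 : aeval β g ≠ 0 := fun h => hβ ⟨g, hg, h⟩
    have hq0 : aeval β q ≠ 0 := fun h => hβ ⟨q, hq, h⟩
    have h2 := (hγ.mul (hbq x β hx)).mul ((hag x β hx).inv hg0)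
    have h3 : aeval x r / aeval x s * (aeval x s / b) * (aeval x r / a)⁻¹ = (a / b : Ω) := by
      have a1 := (div_ne_zero_iff.1 h1).1
      have a2 := (div_ne_zero_iff.1 h1).2
      have a3 : (a : Ω) ≠ 0 := by simpa using ha
      have a4 : (b : Ω) ≠ 0 := by simpa using hb
      field_simp
    rw [h3] at h2
    refine (IntermediateField.mem_adjoin_simple_iff (P.res E) γ).2
      ⟨C ⟨_, _, div_mem a.2 b.2, h2⟩ * g, q, ?_⟩
    rw [map_mul, aeval_C]
    change γ = γ * aeval β q * (aeval β g)⁻¹ * aeval β g / aeval β q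
    field_simp
  · rintro _ rfl
    exact ⟨x, IntermediateField.mem_adjoin_simple_self E x, hx⟩

theorem exists_lift (c : IntermediateField k0 Ω) (s : Finset Ω₁)
    (hs : AlgebraicIndepOn (P.res c) id (s : Set Ω₁)) : ∃ E, c ≤ E ∧
      P.res E = IntermediateField.adjoin k0 ((P.res c : Set Ω₁) ∪ s) := by
  classical
  induction s using Finset.induction_on with
  | empty => exact ⟨c, le_rfl, by simp⟩
  | insert β s hβ ih =>
    rw [Finset.coe_insert, AlgebraicIndepOn.insert_iff (by simpa using hβ), Set.image_id,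
      ← IntermediateField.transcendental_adjoin_iff] at hs
    obtain ⟨E, hE, hr⟩ := ih hs.1
    obtain ⟨x, hx⟩ := P.surj β
    refine ⟨_, hE.trans (res_le_adjoin E {(x : Ω)}), ?_⟩
    rw [res_adjoin E ⟨x.2, hx⟩, hr, IntermediateField.adjoin_union,
      IntermediateField.adjoin_self, ← IntermediateField.adjoin_union, Finset.coe_insert,
      Set.union_singleton, Set.union_insert]
    rintro ⟨f, hf, h0⟩
    obtain ⟨g, hg, -, h1⟩ := root_lift (B := IntermediateField.adjoin (P.res c) (s : Set Ω₁))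
      (fun a : P.res E => ⟨⟨a, by
        have := hr.le a.2
        rwa [← IntermediateField.restrictScalars_adjoin] at this⟩, rfl⟩) ⟨f, hf, le_rfl, h0⟩
    exact hs.2 ⟨g, hg, h1⟩

theorem red_aeval (E : IntermediateField k0 Ω) (hE : ∀ a : E, (a : Ω) ∈ P.V) (hx : P.Red x 0)
    (q : E[X]) : P.Red (aeval x q) (P.π ⟨_, hE (q.coeff 0)⟩) := by
  have h1 : ∀ q : E[X], aeval x q ∈ P.V := fun q => by
    rw [aeval_eq_sum_range]
    refine sum_mem fun i _ => ?_
    rw [Algebra.smul_def]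
    exact mul_mem (hE _) (pow_mem hx.1 _)
  have h2 := (hx.mul ⟨h1 (divX q), rfl⟩).add ⟨hE (q.coeff 0), rfl⟩
  rw [zero_mul, zero_add] at h2
  convert h2 using 1
  conv_lhs => rw [← X_mul_divX_add q, map_add, map_mul, aeval_X, aeval_C]
  rfl

/-- Adjoining an element of the maximal ideal to a trivially valued field. -/
theorem res_adjoin_zero (E : IntermediateField k0 Ω) (hE : ∀ a ∈ E, P.Red a 0 → a = 0)
    (hx : P.Red x 0) :
    P.res ((IntermediateField.adjoin E {x}).restrictScalars k0) ≤ P.res E := by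
  have hV : ∀ a : E, (a : Ω) ∈ P.V := fun a => by
    rcases P.V.mem_or_inv_mem a with h | h
    · exact h
    rcases eq_or_ne (P.π ⟨_, h⟩) 0 with h0 | h0
    · rw [inv_eq_zero.1 (hE _ (inv_mem a.2) ⟨h, h0⟩)]; exact P.V.zero_mem
    · simpa using (Red.inv ⟨h, rfl⟩ h0).1
  have key : ∀ r : E[X], r ≠ 0 → ∃ i : ℕ, ∃ z δ, δ ∈ P.res E ∧ δ ≠ 0 ∧ P.Red z δ ∧
      aeval x r = x ^ i * z := fun r hr => by
    obtain ⟨q, hq, hq'⟩ := exists_eq_pow_rootMultiplicity_mul_and_not_dvd r hr 0
    rw [C_0, sub_zero] at hq hq'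
    refine ⟨_, _, _, ⟨_, (q.coeff 0).2, hV _, rfl⟩, fun h => hq' (X_dvd_iff.2 ?_),
      red_aeval E hV hx q, (congrArg (aeval x) hq).trans (by rw [map_mul, map_pow, aeval_X])⟩
    exact Subtype.ext (hE _ (q.coeff 0).2 ⟨_, h⟩)
  rintro γ ⟨y, hy, hγ⟩
  obtain ⟨r, s, rfl⟩ := (IntermediateField.mem_adjoin_simple_iff E y).1 hy
  rcases eq_or_ne γ 0 with rfl | h0
  · exact zero_mem _
  have h1 := hγ.ne h0
  obtain ⟨i, z, δ, hδ, hδ0, hz, e1⟩ := key r (by rintro rfl; simp at h1)
  obtain ⟨j, w, ε, hε, hε0, hw, e2⟩ := key s (by rintro rfl; simp at h1)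
  rw [e1, e2] at hγ h1
  have a1 := left_ne_zero_of_mul (div_ne_zero_iff.1 h1).1
  have a2 := left_ne_zero_of_mul (div_ne_zero_iff.1 h1).2
  have a3 := hw.ne hε0
  rcases le_total j i with h | h
  · obtain ⟨d, rfl⟩ := Nat.exists_eq_add_of_le h
    have h2 := ((hx.pow d).mul hz).mul (hw.inv hε0)
    rw [show x ^ (j + d) * z / (x ^ j * w) = x ^ d * z * w⁻¹ by field_simp; ring] at hγ
    rw [hγ.unique h2]
    exact mul_mem (mul_mem (pow_mem (zero_mem _) _) hδ) (inv_mem hε)
  · obtain ⟨d, rfl⟩ := Nat.exists_eq_add_of_le h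
    have h2 := ((hx.pow d).mul hγ).mul hw
    rw [show x ^ d * (x ^ i * z / (x ^ (i + d) * w)) * w = z by field_simp; ring] at h2
    have h3 := h2.unique hz
    have h4 : (0 : Ω₁) ^ d ≠ 0 := fun h => hδ0 (by rw [← h3, h, zero_mul, zero_mul])
    rw [show γ = δ * ((0 : Ω₁) ^ d)⁻¹ * ε⁻¹ by rw [← h3]; field_simp]
    exact mul_mem (mul_mem hδ (inv_mem (pow_mem (zero_mem _) _))) (inv_mem hε)

theorem trdeg_res (E : IntermediateField k0 Ω) :
    Algebra.trdeg k0 (P.res E) ≤ Algebra.trdeg k0 E ∧ ((∃ a ∈ E, a ≠ 0 ∧ P.Red a 0) →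
      Algebra.trdeg k0 (P.res E) + 1 ≤ Algebra.trdeg k0 E) := by
  let S : Subalgebra k0 E :=
    { carrier := {a | (a : Ω) ∈ P.V}
      mul_mem' := fun a b => P.V.mul_mem _ _ a b
      add_mem' := fun a b => P.V.add_mem _ _ a b
      algebraMap_mem' := fun a => (P.base a).1 }
  let f : S →ₐ[k0] P.res E :=
    { toFun := fun a => ⟨P.π ⟨a.1, a.2⟩, _, a.1.2, a.2, rfl⟩
      map_one' := Subtype.ext (map_one P.π)
      map_zero' := Subtype.ext (map_zero P.π)
      map_mul' := fun a b => Subtype.ext (map_mul P.π ⟨a.1, a.2⟩ ⟨b.1, b.2⟩)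
      map_add' := fun a b => Subtype.ext (map_add P.π ⟨a.1, a.2⟩ ⟨b.1, b.2⟩)
      commutes' := fun a => Subtype.ext (P.base a).2 }
  have hf : Function.Surjective f := fun ⟨_, a, ha, h, e⟩ => ⟨⟨⟨a, ha⟩, h⟩, Subtype.ext e⟩
  have h1 := trdeg_le_of_injective S.val Subtype.val_injective
  refine ⟨(trdeg_le_of_surjective f hf).trans h1, fun ⟨a, ha, h0, h, e⟩ =>
    (trdeg_quot_add_one_le f hf fun hi => h0 ?_).trans h1⟩
  have := (injective_iff_map_eq_zero f).1 hi ⟨⟨a, ha⟩, h⟩ (Subtype.ext e)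
  exact congrArg (fun z : S => ((z : E) : Ω)) this

end AbhPl

/-- One divisorial valuation step. -/
theorem abh_step {k0 Ω Ω₁ : Type u} [Field k0] [Field Ω] [Field Ω₁] [Algebra k0 Ω]
    [Algebra k0 Ω₁] (V : ValuationSubring Ω) (π : V →+* Ω₁) (hπ : Function.Surjective π)
    (hk : ∀ a : k0, ∃ h : algebraMap k0 Ω a ∈ V, π ⟨_, h⟩ = algebraMap k0 Ω₁ a)
    (hV : ¬ Function.Injective π) (t : ℕ) (hΩ : Algebra.trdeg k0 Ω ≤ t + 1)
    (hΩ₁ : (t : Cardinal) ≤ Algebra.trdeg k0 Ω₁) (c : IntermediateField k0 Ω) (u : Finset Ω)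
    (N : ℕ) :
    ∃ (c₁ : IntermediateField k0 Ω₁) (u₁ : Finset Ω₁) (N₁ : ℕ),
      (∀ β, β ∈ c₁ ↔ ∃ x : V, (x : Ω) ∈ c ∧ π x = β) ∧
      Algebra.trdeg k0 c₁ ≤ Algebra.trdeg k0 c ∧
      ((∃ x : V, (x : Ω) ∈ c ∧ x ≠ 0 ∧ π x = 0) →
        Algebra.trdeg k0 c₁ + 1 ≤ Algebra.trdeg k0 c) ∧
      ∀ z : V, (∃ f : (IntermediateField.adjoin c (u : Set Ω))[X], f ≠ 0 ∧ f.natDegree ≤ N ∧
          aeval (z : Ω) f = 0) →
        ∃ f : (IntermediateField.adjoin c₁ (u₁ : Set Ω₁))[X], f ≠ 0 ∧ f.natDegree ≤ N₁ ∧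
          aeval (π z) f = 0 := by
  let P : AbhPl k0 Ω Ω₁ := ⟨V, π, hπ, hk⟩
  have hfin : ((t + 1 : ℕ) : Cardinal.{u}) < Cardinal.aleph0 := Cardinal.natCast_lt_aleph0
  push_cast at hfin
  have h1 : Algebra.trdeg k0 Ω₁ ≤ t + 1 := by
    refine ((trdeg_le_of_surjective (P.res ⊤).val fun β => ?_).trans
      ((AbhPl.trdeg_res ⊤).1.trans
        (trdeg_le_of_injective (⊤ : IntermediateField k0 Ω).val Subtype.val_injective))).trans hΩ
    obtain ⟨x, hx⟩ := hπ β
    exact ⟨⟨β, x, trivial, x.2, hx⟩, rfl⟩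
  have : FinTrdeg (P.res c) Ω₁ := FinTrdeg.of_trdeg (by
    rw [← trdeg_add_eq k0 (P.res c)] at h1
    exact (le_add_self.trans h1).trans_lt hfin)
  obtain ⟨s, hs⟩ := exists_finset_isTranscendenceBasis (P.res c) Ω₁
  obtain ⟨E, hE, hr⟩ := AbhPl.exists_lift c s hs.1
  obtain ⟨Φ, hΦ, hΦr, hΦ0⟩ : ∃ Φ, E ≤ Φ ∧ P.res Φ ≤ P.res E ∧ ∃ a ∈ Φ, a ≠ 0 ∧ P.Red a 0 := by
    by_cases h : ∃ a ∈ E, a ≠ 0 ∧ P.Red a 0
    · exact ⟨E, le_rfl, le_rfl, h⟩
    rw [injective_iff_map_eq_zero] at hV
    push Not at hV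
    obtain ⟨x, hx, hx0⟩ := hV
    exact ⟨_, AbhPl.res_le_adjoin E {(x : Ω)}, AbhPl.res_adjoin_zero E
      (fun a ha h0 => by_contra fun h1 => h ⟨a, ha, h1, h0⟩) ⟨x.2, hx⟩, x,
      IntermediateField.mem_adjoin_simple_self E (x : Ω), by simpa using hx0, x.2, hx⟩
  rw [← IntermediateField.restrictScalars_adjoin] at hr
  have h2 : Algebra.IsAlgebraic (P.res Φ) Ω₁ := ⟨fun β => by
    obtain ⟨f, hf, h0⟩ := hs.isAlgebraic_field.isAlgebraic β
    obtain ⟨g, hg, -, h3⟩ := root_lift (B := P.res Φ)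
      (fun a : IntermediateField.adjoin (P.res c) (Set.range ((↑) : s → Ω₁)) =>
        ⟨⟨a, AbhPl.res_mono hΦ (by
          have := a.2
          rw [hr]
          simpa using this)⟩, rfl⟩) ⟨f, hf, le_rfl, h0⟩
    exact ⟨g, hg, h3⟩⟩
  have h3 : Algebra.IsAlgebraic Φ Ω := by
    rw [← trdeg_add_eq k0 (P.res Φ), trdeg_eq_zero (R := P.res Φ), add_zero] at hΩ₁
    have a1 := (add_le_add_left hΩ₁ 1).trans ((AbhPl.trdeg_res Φ).2 hΦ0)
    rw [← trdeg_add_eq k0 Φ] at hΩ
    have a2 := (add_le_add_left a1 (Algebra.trdeg Φ Ω)).trans hΩ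
    rw [add_comm, ← zero_add ((t : Cardinal) + 1), ← add_assoc, add_zero,
      Cardinal.add_le_add_iff_of_lt_aleph0 hfin] at a2
    exact trdeg_eq_zero_iff.1 (le_zero_iff.1 a2)
  have := IntermediateField.finiteDimensional_adjoin (K := Φ) (S := (u : Set Ω))
    fun x _ => Algebra.IsIntegral.isIntegral x
  have hle : (IntermediateField.adjoin c (u : Set Ω)).restrictScalars k0 ≤
      (IntermediateField.adjoin Φ (u : Set Ω)).restrictScalars k0 := by
    rw [IntermediateField.restrictScalars_adjoin, IntermediateField.restrictScalars_adjoin]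
    exact IntermediateField.adjoin.mono _ _ _ (Set.union_subset_union_left _ (hE.trans hΦ))
  refine ⟨P.res c, s, Module.finrank Φ (IntermediateField.adjoin Φ (u : Set Ω)) * N,
    fun β => ⟨fun ⟨x, hx, h, e⟩ => ⟨⟨x, h⟩, hx, e⟩, fun ⟨x, hx, e⟩ => ⟨x, hx, x.2, e⟩⟩,
    (AbhPl.trdeg_res c).1, fun ⟨x, hx, h0, e⟩ =>
      (AbhPl.trdeg_res c).2 ⟨x, hx, by simpa using h0, x.2, e⟩, fun z hz => ?_⟩
  obtain ⟨f, hf, hN, h0⟩ := root_tower' (IntermediateField.adjoin Φ (u : Set Ω))
    (root_lift (fun a => ⟨⟨a, hle a.2⟩, rfl⟩) hz)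
  obtain ⟨a, -, g, hg, hd, h4⟩ := AbhPl.gauss (P := P) Φ f hf
  have h5 := h4 z (π z) ⟨z.2, rfl⟩
  rw [h0, zero_div] at h5
  exact root_lift (fun a => ⟨⟨a, (hΦr.trans hr.le) a.2⟩, rfl⟩)
    ⟨g, hg, hd.trans hN, h5.unique AbhPl.red_zero⟩

end Pool.Agent.MP_f1fec5_al.Aff

end

section

namespace Pool.Agent.MP_f1fec5_al.Aff

open Polynomial

universe u v

/-- a valuation ring with prescribed centre, with its residue field -/
lemma abh2_val {Ω : Type u} [Field Ω] (A : Subring Ω) (P : Ideal A) [P.IsPrime] :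
    ∃ (V : ValuationSubring Ω) (hV : ∀ x : A, (x : Ω) ∈ V) (Ω₁ : Type u) (_ : Field Ω₁)
      (π : V →+* Ω₁), Function.Surjective π ∧ (∀ x : A, π ⟨x, hV x⟩ = 0 ↔ x ∈ P) ∧
      ∀ x : V, π x ≠ 0 → (x : Ω)⁻¹ ∈ V := by
  obtain ⟨V, hle, hloc⟩ := (LocalSubring.ofPrime A P).exists_le_valuationSubring
  have hV : ∀ x : A, (x : Ω) ∈ V := fun x => hle (LocalSubring.le_ofPrime A P x.2)
  refine ⟨V, hV, IsLocalRing.ResidueField V, inferInstance, IsLocalRing.residue V,
    IsLocalRing.residue_surjective, fun x => ?_, fun x hx => ?_⟩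
  · rw [IsLocalRing.residue_eq_zero_iff, IsLocalRing.mem_maximalIdeal, mem_nonunits_iff]
    have h1 := IsLocalization.AtPrime.isUnit_to_map_iff (LocalSubring.ofPrime A P).toSubring P x
    have h2 : IsUnit (Subring.inclusion hle
        (algebraMap A (LocalSubring.ofPrime A P).toSubring x)) ↔
        IsUnit (algebraMap A (LocalSubring.ofPrime A P).toSubring x) :=
      isUnit_map_iff (Subring.inclusion hle) _
    have h3 : IsUnit (⟨x, hV x⟩ : V) ↔ x ∉ P := h2.trans h1
    rw [h3, not_not]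
  · rw [Ne, IsLocalRing.residue_eq_zero_iff, IsLocalRing.mem_maximalIdeal, mem_nonunits_iff,
      not_not] at hx
    obtain ⟨y, hy⟩ := isUnit_iff_exists_inv.1 hx
    have h1 : (x : Ω) * y = 1 := congrArg Subtype.val hy
    rw [← eq_inv_of_mul_eq_one_right h1]
    exact y.2

/-- the case of an empty chain -/
lemma abh2_zero {k0 k : Type u} [Field k0] [Field k] [IsAlgClosed k] [Algebra k0 k] (d : ℕ)
    (hd : Algebra.trdeg k0 k = d) (Ω : Type u) [Field Ω] [Algebra k0 Ω]
    (E : Subalgebra k0 Ω) (ev : E →ₐ[k0] k) (hinj : Function.Injective ev)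
    (hΩ : Algebra.trdeg k0 Ω ≤ d)
    (c : IntermediateField k0 Ω) (S : Set E) (hS : ∀ α : k, ∃ z ∈ S, ev z = α) (u : Finset Ω)
    (N : ℕ) (hN : ∀ z ∈ S, ∃ f : (IntermediateField.adjoin c (u : Set Ω))[X], f ≠ 0 ∧
      f.natDegree ≤ N ∧ aeval (z : Ω) f = 0) :
    ∃ c' : IntermediateField k0 k,
      (∃ N' : ℕ, ∀ α : k, ∃ f : c'[X], f ≠ 0 ∧ f.natDegree ≤ N' ∧ aeval α f = 0) ∧
      Algebra.trdeg k0 c' ≤ Algebra.trdeg k0 c ∧
      ((∃ ε ∈ c, ε ≠ 0 ∧ ∃ e₁ e₂ : E, ev e₁ = 0 ∧ ev e₂ ≠ 0 ∧ ε * e₂ = e₁) →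
        Algebra.trdeg k0 c' + 1 ≤ Algebra.trdeg k0 c) ∧
      ((∀ x ∈ c, x ∈ E) → ∀ β ∈ c', ∃ x : E, (x : Ω) ∈ c ∧ ev x = β) := by
  have hsurj : Function.Surjective ev := fun α => by
    obtain ⟨z, -, hz⟩ := hS α
    exact ⟨z, hz⟩
  let e : E ≃ₐ[k0] k := AlgEquiv.ofBijective ev ⟨hinj, hsurj⟩
  let j : k →ₐ[k0] Ω := E.val.comp (e.symm : k →ₐ[k0] E)
  have hj : ∀ x : E, j (ev x) = x := fun x => congrArg Subtype.val (e.symm_apply_apply x)
  have hbij : Function.Bijective j := by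
    let _ : Algebra k Ω := j.toRingHom.toAlgebra
    have : IsScalarTower k0 k Ω := .of_algebraMap_eq fun a => (j.commutes a).symm
    have h1 := trdeg_add_eq k0 k (A := Ω)
    have h2 : Algebra.trdeg k Ω + d ≤ 0 + d := by
      rw [zero_add, add_comm, ← hd, h1, hd]
      exact hΩ
    have h3 : Algebra.trdeg k Ω = 0 :=
      nonpos_iff_eq_zero.1 ((Cardinal.add_nat_le_add_nat_iff d).1 h2)
    have : Algebra.IsAlgebraic k Ω := trdeg_eq_zero_iff.1 h3
    exact IsAlgClosed.algebraMap_bijective_of_isIntegral (k := k) (K := Ω)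
  let g : k ≃ₐ[k0] Ω := AlgEquiv.ofBijective j hbij
  have hg : ∀ x : E, g.symm x = ev x := fun x => by
    rw [AlgEquiv.symm_apply_eq]
    exact (hj x).symm
  have : IsAlgClosed Ω := IsAlgClosed.of_ringEquiv k Ω g.toRingEquiv
  obtain ⟨N', hN'⟩ := bdd_degree_of_fg (c := c) (k := Ω) u N fun α => by
    obtain ⟨z, hz, hzα⟩ := hS (g.symm α)
    have h1 : (z : Ω) = α := by
      rw [← hj z, hzα]
      exact g.apply_symm_apply α
    rw [← h1]
    exact hN z hz
  let φ := IntermediateField.equivMap c (g.symm : Ω →ₐ[k0] k)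
  refine ⟨c.map (g.symm : Ω →ₐ[k0] k), ⟨N', fun α => ?_⟩, φ.trdeg_eq.ge, ?_, ?_⟩
  · obtain ⟨f, hf0, hfd, hf⟩ := hN' (g α)
    refine ⟨f.map (φ : c →+* c.map (g.symm : Ω →ₐ[k0] k)),
      (Polynomial.map_ne_zero_iff φ.injective).2 hf0, natDegree_map_le.trans hfd, ?_⟩
    have h1 : (algebraMap (c.map (g.symm : Ω →ₐ[k0] k)) k).comp
        (φ : c →+* c.map (g.symm : Ω →ₐ[k0] k)) =
        (g.symm : Ω →+* k).comp (algebraMap c Ω) := RingHom.ext fun x => rfl
    have h2 : α = (g.symm : Ω →+* k) (g α) := (g.symm_apply_apply α).symm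
    rw [aeval_def, eval₂_map, h1, h2, ← hom_eval₂, ← aeval_def, hf, map_zero]
  · rintro ⟨ε, -, hε, e₁, e₂, h1, h2, h3⟩
    have h4 : e₁ = 0 := hinj (by rw [h1, map_zero])
    rw [h4, ZeroMemClass.coe_zero, mul_eq_zero] at h3
    rcases h3 with h3 | h3
    · exact absurd h3 hε
    · have h5 : e₂ = 0 := Subtype.ext h3
      exact absurd (by rw [h5, map_zero]) h2
  · rintro hc β ⟨x, hx, rfl⟩
    exact ⟨⟨x, hc x hx⟩, hx, (hg ⟨x, hc x hx⟩).symm⟩

/-- the residue field of a nontrivial valuation ring has smaller transcendence degree -/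
lemma abh2_res {k0 Ω Ω₁ : Type u} [Field k0] [Field Ω] [Field Ω₁] [Algebra k0 Ω]
    [Algebra k0 Ω₁] (V : ValuationSubring Ω) (π : V →+* Ω₁) (hπ : Function.Surjective π)
    (hk : ∀ a : k0, ∃ h : algebraMap k0 Ω a ∈ V, π ⟨_, h⟩ = algebraMap k0 Ω₁ a)
    (hV : ¬ Function.Injective π) : Algebra.trdeg k0 Ω₁ + 1 ≤ Algebra.trdeg k0 Ω := by
  let _ : Algebra k0 V := ((algebraMap k0 Ω).codRestrict V fun a => (hk a).1).toAlgebra
  let π' : V →ₐ[k0] Ω₁ := { π with commutes' := fun a => (hk a).2 }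
  let ι : V →ₐ[k0] Ω := { V.subtype with commutes' := fun _ => rfl }
  exact (trdeg_quot_add_one_le π' hπ hV).trans (trdeg_le_of_injective ι Subtype.val_injective)

/-- Reduction along a maximal chain of primes.
Hint: induction on `r`. For `r = 0`, `ev` is an isomorphism, `Ω = E` (transcendence degree, `k`
algebraically closed), take `c' = ev c` and use `bdd_degree_of_fg`. For the step take a valuation
subring `V` dominating the localisation of `E` at `L 1` (`LocalSubring.exists_le_valuationSubring`,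
`LocalSubring.ofPrime`), `Ω₁` its residue field, `E₁` the image of `E`, apply `abh_step` with
`t = d + r` (`trdeg_add_le_of_chain`, `trdeg_quot_add_one_le`). The element `ε` lies in `V`; either
its residue is zero or it passes to the next step. -/
theorem abh {k0 k : Type u} [Field k0] [Field k] [IsAlgClosed k] [Algebra k0 k] (d : ℕ)
    (hd : Algebra.trdeg k0 k = d) (r : ℕ) (Ω : Type u) [Field Ω] [Algebra k0 Ω]
    (E : Subalgebra k0 Ω) (L : Fin (r + 1) → Ideal E) (hL : StrictMono L)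
    (hp : ∀ i, (L i).IsPrime) (h0 : L 0 = ⊥) (ev : E →ₐ[k0] k)
    (hker : RingHom.ker ev = L (Fin.last r)) (hΩ : Algebra.trdeg k0 Ω ≤ d + r)
    (c : IntermediateField k0 Ω) (S : Set E) (hS : ∀ α : k, ∃ z ∈ S, ev z = α) (u : Finset Ω)
    (N : ℕ) (hN : ∀ z ∈ S, ∃ f : (IntermediateField.adjoin c (u : Set Ω))[X], f ≠ 0 ∧
      f.natDegree ≤ N ∧ aeval (z : Ω) f = 0) :
    ∃ c' : IntermediateField k0 k,
      (∃ N' : ℕ, ∀ α : k, ∃ f : c'[X], f ≠ 0 ∧ f.natDegree ≤ N' ∧ aeval α f = 0) ∧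
      Algebra.trdeg k0 c' ≤ Algebra.trdeg k0 c ∧
      ((∃ ε ∈ c, ε ≠ 0 ∧ ∃ e₁ e₂ : E, ev e₁ = 0 ∧ ev e₂ ≠ 0 ∧ ε * e₂ = e₁) →
        Algebra.trdeg k0 c' + 1 ≤ Algebra.trdeg k0 c) ∧
      ((∀ x ∈ c, x ∈ E) → ∀ β ∈ c', ∃ x : E, (x : Ω) ∈ c ∧ ev x = β) := by
  induction r generalizing Ω N with
  | zero =>
    refine abh2_zero d hd Ω E ev ?_ (by simpa using hΩ) c S hS u N hN
    rw [RingHom.injective_iff_ker_eq_bot, hker]
    exact h0
  | succ r ih =>
    have hP : (L 1).IsPrime := hp 1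
    obtain ⟨V, hV, Ω₁, _, π, hπ, hπP, hinv⟩ := abh2_val E.toSubring (P := L 1)
    have hV' : ∀ x : E, (x : Ω) ∈ V := hV
    have hπP' : ∀ x : E, π ⟨x, hV' x⟩ = 0 ↔ x ∈ L 1 := hπP
    let ι : E →+* V := (E.val : E →+* Ω).codRestrict V hV'
    let _ : Algebra k0 Ω₁ := ((π.comp ι).comp (algebraMap k0 E)).toAlgebra
    let ρ : E →ₐ[k0] Ω₁ := { π.comp ι with commutes' := fun _ => rfl }
    have hρ : ∀ x : E, ρ x = π ⟨x, hV' x⟩ := fun _ => rfl
    have hk : ∀ a : k0, ∃ h : algebraMap k0 Ω a ∈ V, π ⟨_, h⟩ = algebraMap k0 Ω₁ a :=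
      fun a => ⟨hV' (algebraMap k0 E a), rfl⟩
    have hni : ¬ Function.Injective π := by
      intro hi
      have h1 : L 0 < L 1 := hL Fin.zero_lt_one
      obtain ⟨x, hx, hx0⟩ := SetLike.exists_of_lt h1
      have h2 : (⟨x, hV' x⟩ : V) = 0 := hi (by rw [(hπP' x).2 hx, map_zero])
      have h4 : (x : Ω) = 0 := congrArg Subtype.val h2
      have h3 : x = 0 := Subtype.ext h4
      exact hx0 (h3 ▸ zero_mem _)
    let ρ' : E →ₐ[k0] ρ.range := ρ.rangeRestrict
    have hρ' : Function.Surjective ρ' := ρ.rangeRestrict_surjective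
    have hρc : ∀ x : E, (ρ' x : Ω₁) = π ⟨x, hV' x⟩ := fun _ => rfl
    have hkρ : RingHom.ker ρ' = L 1 := by
      ext x
      rw [RingHom.mem_ker, ← hπP' x, ← hρc x]
      exact ⟨fun h => by rw [h]; rfl, fun h => Subtype.ext h⟩
    have hle : ∀ i : Fin (r + 1), RingHom.ker ρ' ≤ L i.succ := fun i => by
      rw [hkρ]
      exact hL.monotone (Fin.succ_le_succ_iff.2 (Fin.zero_le i))
    have hle' : RingHom.ker ρ' ≤ RingHom.ker ev := by
      rw [hker]
      exact hle (Fin.last r)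
    let ev₁ : ρ.range →ₐ[k0] k := AlgHom.liftOfSurjective ρ' hρ' ev hle'
    have hev : ∀ x : E, ev₁ (ρ' x) = ev x := AlgHom.liftOfSurjective_apply ρ' hρ' ev hle'
    let L₁ : Fin (r + 1) → Ideal ρ.range := fun i => (L i.succ).map ρ'
    have hcm : ∀ i, (L₁ i).comap ρ' = L i.succ := fun i => by
      rw [Ideal.comap_map_of_surjective ρ' hρ']
      exact sup_eq_left.2 (hle i)
    have hL₁ : StrictMono L₁ := by
      intro i j hij
      have h1 : L i.succ < L j.succ := hL (Fin.succ_lt_succ_iff.2 hij)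
      refine lt_of_le_of_ne (Ideal.map_mono h1.le) fun h => h1.ne ?_
      rw [← hcm i, ← hcm j, h]
    have hp₁ : ∀ i, (L₁ i).IsPrime := fun i =>
      haveI := hp i.succ
      Ideal.map_isPrime_of_surjective hρ' (hle i)
    have h0₁ : L₁ 0 = ⊥ := (Ideal.map_eq_bot_iff_le_ker ρ').2 hkρ.ge
    have hker₁ : RingHom.ker ev₁ = L₁ (Fin.last r) := by
      have h1 : (RingHom.ker ev₁).comap ρ' = L (Fin.last r).succ := by
        rw [Fin.succ_last, ← hker]
        ext x
        rw [Ideal.mem_comap, RingHom.mem_ker, RingHom.mem_ker, hev]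
      rw [← Ideal.map_comap_of_surjective ρ' hρ' (RingHom.ker ev₁), h1]
    have hsurj : Function.Surjective ev₁ := fun α => by
      obtain ⟨z, -, hz⟩ := hS α
      exact ⟨ρ' z, by rw [hev, hz]⟩
    have hΩ' : Algebra.trdeg k0 Ω ≤ ((d + r : ℕ) : Cardinal) + 1 := by
      refine hΩ.trans (le_of_eq ?_)
      push_cast
      rw [add_assoc]
    have hlow : ((d + r : ℕ) : Cardinal) ≤ Algebra.trdeg k0 Ω₁ := by
      have h1 := trdeg_add_le_of_chain ev₁ hsurj r L₁ hL₁ hp₁ hker₁.ge
      rw [hd] at h1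
      push_cast
      exact h1.trans (trdeg_le_of_injective ρ.range.val Subtype.val_injective)
    have hup : Algebra.trdeg k0 Ω₁ ≤ d + r := by
      have h1 := Cardinal.add_one_le_add_one_iff.1 ((abh2_res V π hπ hk hni).trans hΩ')
      exact_mod_cast h1
    obtain ⟨c₁, u₁, N₁, hc₁, htr, hdrop, hpoly⟩ := abh_step V π hπ hk hni (d + r) hΩ' hlow c u N
    obtain ⟨c', hb, ht', hd', hl'⟩ := ih Ω₁ ρ.range L₁ hL₁ hp₁ h0₁ ev₁ hker₁ hup c₁ (ρ' '' S)
      (fun α => by
        obtain ⟨z, hz, hzα⟩ := hS α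
        exact ⟨ρ' z, ⟨z, hz, rfl⟩, by rw [hev, hzα]⟩) u₁ N₁
      (by
        rintro _ ⟨z, hz, rfl⟩
        exact hpoly ⟨z, hV' z⟩ (hN z hz))
    refine ⟨c', hb, ht'.trans htr, ?_, ?_⟩
    · rintro ⟨ε, hεc, hε0, e₁, e₂, h1, h2, h3⟩
      have h4 : π ⟨e₂, hV' e₂⟩ ≠ 0 := fun h => h2 (hle' (hkρ.ge ((hπP' e₂).1 h)))
      have h5 : (e₂ : Ω) ≠ 0 := fun h => h2 (by rw [show e₂ = 0 from Subtype.ext h, map_zero])
      have h6 : ε ∈ V := by
        rw [(eq_mul_inv_iff_mul_eq₀ h5).2 h3]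
        exact V.mul_mem _ _ (hV' e₁) (hinv _ h4)
      by_cases hz : π ⟨ε, h6⟩ = 0
      · exact (add_le_add_left ht' 1).trans
          (hdrop ⟨⟨ε, h6⟩, hεc, fun h => hε0 (congrArg Subtype.val h), hz⟩)
      · refine (hd' ⟨π ⟨ε, h6⟩, (hc₁ _).2 ⟨⟨ε, h6⟩, hεc, rfl⟩, hz, ρ' e₁, ρ' e₂,
          by rw [hev, h1], by rwa [hev], ?_⟩).trans htr
        rw [hρc, hρc, ← map_mul]
        exact congrArg π (Subtype.ext h3)
    · intro hc β hβ
      have h1 : ∀ y ∈ c₁, y ∈ ρ.range := fun y hy => by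
        obtain ⟨x, hx, rfl⟩ := (hc₁ y).1 hy
        exact ⟨⟨x, hc x hx⟩, rfl⟩
      obtain ⟨y, hy, rfl⟩ := hl' h1 β hβ
      obtain ⟨x, hx, hxy⟩ := (hc₁ y).1 hy
      refine ⟨⟨x, hc x hx⟩, hx, ?_⟩
      rw [← hev]
      exact congrArg ev₁ (Subtype.ext hxy)

end Pool.Agent.MP_f1fec5_al.Aff

end
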