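import Pool.Agent.MP_f1fec5_al.Aff.Loc

section

namespace Pool.Agent.MP_f1fec5_al.Aff

open Polynomial

universe u v

variable {k : Type u} [Field k] {n : ℕ}

/-- restriction of a polynomial to the line through `v` with direction `u` -/
noncomputable def line (v u : Fin n → k) : PA k n →ₐ[k] k[X] :=
  MvPolynomial.aeval fun i => C (v i) + C (u i) * X

/-- the ideal of a line -/
noncomputable def lid (v u : Fin n → k) : Ideal (PA k n) := RingHom.ker (line v u)

/-- the maximal ideal of a point -/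
noncomputable def mx (v : Fin n → k) : Ideal (PA k n) := RingHom.ker (MvPolynomial.eval v)

lemma mem_mx {v : Fin n → k} {f : PA k n} : f ∈ mx v ↔ MvPolynomial.eval v f = 0 := Iff.rfl

lemma mem_lid {v u : Fin n → k} {f : PA k n} : f ∈ lid v u ↔ line v u f = 0 := Iff.rfl

lemma lid_isPrime (v u : Fin n → k) : (lid v u).IsPrime := RingHom.ker_isPrime _

lemma mx_isMaximal (v : Fin n → k) : (mx v).IsMaximal :=
  RingHom.ker_isMaximal_of_surjective _ (fun c => ⟨MvPolynomial.C c, by simp⟩)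

lemma eval_line (v u : Fin n → k) (t : k) (f : PA k n) :
    eval t (line v u f) = MvPolynomial.eval (v + t • u) f := by
  have : (Polynomial.aeval t : k[X] →ₐ[k] k).comp (line v u) = MvPolynomial.aeval (v + t • u) := by
    ext i
    simp [line]
    ring
  have h := congrArg (fun g => g f) this
  simpa [MvPolynomial.aeval_eq_eval, Polynomial.coe_aeval_eq_eval] using h

lemma coeff_zero_line (v u : Fin n → k) (f : PA k n) :
    (line v u f).coeff 0 = MvPolynomial.eval v f := by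
  rw [coeff_zero_eq_eval_zero, eval_line]
  simp

lemma lid_le_mx (v u : Fin n → k) (t : k) : lid v u ≤ mx (v + t • u) := fun f hf => by
  rw [mem_mx, ← eval_line, mem_lid.1 hf, eval_zero]

lemma lid_le_mx' (v u : Fin n → k) : lid v u ≤ mx v := by
  simpa using lid_le_mx v u 0

lemma mem_lid_iff [Infinite k] {v u : Fin n → k} {f : PA k n} :
    f ∈ lid v u ↔ ∀ t : k, MvPolynomial.eval (v + t • u) f = 0 := by
  refine ⟨fun h t => lid_le_mx v u t h, fun h => ?_⟩
  rw [mem_lid]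
  exact Polynomial.funext fun t => by rw [eval_line, h, eval_zero]

lemma lid_rev [Infinite k] (v w : Fin n → k) : lid v (w - v) = lid w (v - w) := by
  have key : ∀ v w : Fin n → k, lid v (w - v) ≤ lid w (v - w) := by
    intro v w f hf
    rw [mem_lid_iff] at hf ⊢
    intro t
    have : w + t • (v - w) = v + (1 - t) • (w - v) := by
      ext i
      simp
      ring
    rw [this, hf]
  exact le_antisymm (key v w) (key w v)

lemma mx_sup {v w : Fin n → k} (h : v ≠ w) : mx v ⊔ mx w = ⊤ := by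
  refine (mx_isMaximal v).coprime_of_ne (mx_isMaximal w) fun e => h (funext fun i => ?_)
  have h1 : MvPolynomial.X i - MvPolynomial.C (v i) ∈ mx v := by simp [mem_mx]
  rw [e, mem_mx] at h1
  simpa [sub_eq_zero, eq_comm] using h1

lemma exists_tau (v : Fin n → k) {u : Fin n → k} (hu : u ≠ 0) :
    ∃ τ : PA k n, line v u τ = X := by
  obtain ⟨i, hi⟩ := Function.ne_iff.1 hu
  have hi' : u i ≠ 0 := hi
  refine ⟨MvPolynomial.C (u i)⁻¹ * (MvPolynomial.X i - MvPolynomial.C (v i)), ?_⟩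
  simp only [line, map_mul, map_sub, MvPolynomial.aeval_C, MvPolynomial.aeval_X, algebraMap_eq,
    add_sub_cancel_left]
  rw [← mul_assoc, ← C_mul, inv_mul_cancel₀ hi', C_1, one_mul]

lemma line_surj {v u : Fin n → k} {τ : PA k n} (hτ : line v u τ = X) (p : k[X]) :
    line v u (Polynomial.aeval τ p) = p := by
  rw [← Polynomial.aeval_algHom_apply, hτ, aeval_X_left_apply]

lemma tau_mem {v u : Fin n → k} {τ : PA k n} (hτ : line v u τ = X) : τ ∈ mx v := by
  rw [mem_mx, ← coeff_zero_line v u, hτ, coeff_X_zero]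

lemma tau_not_mem {v u : Fin n → k} {τ : PA k n} (hτ : line v u τ = X) : τ ∉ lid v u := by
  rw [mem_lid, hτ]
  exact X_ne_zero

/-- first order expansion along a line -/
lemma exists_expand {v u : Fin n → k} {τ : PA k n} (hτ : line v u τ = X) {f : PA k n}
    (hf : f ∈ mx v) : ∃ g : PA k n, f - τ * g ∈ lid v u ∧
      MvPolynomial.eval v g = (line v u f).coeff 1 := by
  have h0 : (line v u f).coeff 0 = 0 := by rw [coeff_zero_line]; exact hf
  refine ⟨Polynomial.aeval τ (line v u f).divX, ?_, ?_⟩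
  · rw [mem_lid, map_sub, map_mul, hτ, line_surj hτ, sub_eq_zero]
    conv_lhs => rw [← X_mul_divX_add (line v u f), h0, C_0, add_zero]
  · rw [← coeff_zero_line v u, line_surj hτ, coeff_divX]

lemma mx_eq {v u : Fin n → k} {τ : PA k n} (hτ : line v u τ = X) :
    mx v = lid v u ⊔ Ideal.span {τ} := by
  refine le_antisymm (fun f hf => ?_) (sup_le (lid_le_mx' v u)
    ((Ideal.span_singleton_le_iff_mem _).2 (tau_mem hτ)))
  obtain ⟨g, hg, -⟩ := exists_expand hτ hf
  have : f = (f - τ * g) + τ * g := by ring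
  rw [this]
  exact Ideal.add_mem _ (Ideal.mem_sup_left hg)
    (Ideal.mem_sup_right (Ideal.mul_mem_right _ _ (Ideal.mem_span_singleton_self τ)))

lemma exists_mem_lid {v u z : Fin n → k} (hz : ∀ t : k, z ≠ v + t • u) :
    ∃ f ∈ lid v u, MvPolynomial.eval z f ≠ 0 := by
  by_cases hu : u = 0
  · have h1 : z ≠ v := by simpa using hz 0
    obtain ⟨i, hi⟩ := Function.ne_iff.1 h1
    refine ⟨MvPolynomial.X i - MvPolynomial.C (v i), ?_, by simpa [sub_eq_zero] using hi⟩
    simp [mem_lid, line, hu]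
  obtain ⟨τ, hτ⟩ := exists_tau v hu
  obtain ⟨i, hi⟩ := Function.ne_iff.1 (hz (MvPolynomial.eval z τ))
  refine ⟨MvPolynomial.X i - MvPolynomial.C (v i) - MvPolynomial.C (u i) * τ, ?_, ?_⟩
  · rw [mem_lid, map_sub, map_mul, hτ]
    simp [line]
  · simp only [map_sub, map_mul, MvPolynomial.eval_X, MvPolynomial.eval_C]
    intro h
    apply hi
    simp only [Pi.add_apply, Pi.smul_apply, smul_eq_mul]
    linear_combination h

lemma lid_ne_bot (hn : 2 ≤ n) (v u : Fin n → k) : lid v u ≠ ⊥ := by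
  let i0 : Fin n := ⟨0, by omega⟩
  let i1 : Fin n := ⟨1, by omega⟩
  have h01 : i0 ≠ i1 := by simp [i0, i1]
  have : ∃ z : Fin n → k, ∀ t : k, z ≠ v + t • u := by
    by_contra hcon
    push Not at hcon
    obtain ⟨t, ht⟩ := hcon (v + Pi.single i0 1)
    obtain ⟨s, hs⟩ := hcon (v + Pi.single i1 1)
    have a0 := congrFun ht i0
    have a1 := congrFun ht i1
    have b1 := congrFun hs i1
    simp [h01.symm] at a0 a1 b1
    rcases a1 with h | h
    · simp [h] at a0
    · simp [h] at b1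
  obtain ⟨z, hz⟩ := this
  obtain ⟨f, hf, hf'⟩ := exists_mem_lid hz
  intro h
  rw [h, Ideal.mem_bot] at hf
  simp [hf] at hf'

lemma lid_sup {v u u' : Fin n → k} (hu : u ≠ 0) (h : ∀ t : k, u' ≠ t • u) :
    lid v u ⊔ lid v u' = mx v := by
  refine le_antisymm (sup_le (lid_le_mx' _ _) (lid_le_mx' _ _)) ?_
  have hu' : u' ≠ 0 := by simpa using h 0
  obtain ⟨τ, hτ⟩ := exists_tau v hu'
  obtain ⟨i, hi⟩ := Function.ne_iff.1 hu
  have hi' : u i ≠ 0 := hi
  obtain ⟨j, hj⟩ := Function.ne_iff.1 (h (u' i / u i))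
  have hj' : u' j * u i - u j * u' i ≠ 0 := by
    intro h0
    apply hj
    simp only [Pi.smul_apply, smul_eq_mul]
    field_simp
    linear_combination h0
  let g : PA k n := MvPolynomial.C (u i) * (MvPolynomial.X j - MvPolynomial.C (v j)) -
    MvPolynomial.C (u j) * (MvPolynomial.X i - MvPolynomial.C (v i))
  have hg : g ∈ lid v u := by
    simp only [mem_lid, g, line, map_sub, map_mul, MvPolynomial.aeval_C, MvPolynomial.aeval_X,
      algebraMap_eq]
    ring
  have hg' : g - MvPolynomial.C (u' j * u i - u j * u' i) * τ ∈ lid v u' := by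
    rw [mem_lid, map_sub, map_mul, hτ]
    simp only [g, line, map_sub, map_mul, MvPolynomial.aeval_C, MvPolynomial.aeval_X,
      algebraMap_eq]
    ring
  rw [mx_eq hτ]
  refine sup_le le_sup_right ((Ideal.span_singleton_le_iff_mem _).2 ?_)
  have h2 := Ideal.mul_mem_left _ (MvPolynomial.C (u' j * u i - u j * u' i)⁻¹)
    (Ideal.sub_mem (lid v u ⊔ lid v u') (Ideal.mem_sup_left hg) (Ideal.mem_sup_right hg'))
  rwa [sub_sub_cancel, ← mul_assoc, ← map_mul, inv_mul_cancel₀ hj', map_one, one_mul] at h2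

lemma coeff_one_mul (p q : k[X]) :
    (p * q).coeff 1 = p.coeff 0 * q.coeff 1 + p.coeff 1 * q.coeff 0 := by
  rw [coeff_mul, Finset.Nat.sum_antidiagonal_eq_sum_range_succ_mk]
  simp [Finset.sum_range_succ]

lemma coeff_one_line_mul (v u : Fin n → k) (f g : PA k n) :
    (line v u (f * g)).coeff 1 = MvPolynomial.eval v f * (line v u g).coeff 1 +
      (line v u f).coeff 1 * MvPolynomial.eval v g := by
  rw [map_mul, coeff_one_mul, coeff_zero_line, coeff_zero_line]

lemma coeff_one_line_add (v u u' : Fin n → k) (c : k) (f : PA k n) :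
    (line v (u + c • u') f).coeff 1 = (line v u f).coeff 1 + c * (line v u' f).coeff 1 := by
  induction f using MvPolynomial.induction_on with
  | C a => simp [line]
  | add p q hp hq => simp only [map_add, coeff_add, hp, hq]; ring
  | mul_X p i hp =>
    rw [coeff_one_line_mul, coeff_one_line_mul, coeff_one_line_mul, hp]
    simp [line, coeff_C, add_mul]
    ring

lemma exists_eval_ne_zero [Infinite k] {h : PA k n} (hh : h ≠ 0) :
    ∃ p : Fin n → k, MvPolynomial.eval p h ≠ 0 := by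
  by_contra hcon
  push Not at hcon
  exact hh (MvPolynomial.funext fun p => by simpa using hcon p)

lemma exists_off_lines [Infinite k] (hn : 2 ≤ n) {h : PA k n} (hh : h ≠ 0)
    (T : Finset ((Fin n → k) × (Fin n → k))) :
    ∃ p : Fin n → k, MvPolynomial.eval p h ≠ 0 ∧ ∀ q ∈ T, ∀ t : k, p ≠ q.1 + t • q.2 := by
  have hex : ∀ q : (Fin n → k) × (Fin n → k), ∃ f ∈ lid q.1 q.2, f ≠ 0 := fun q =>
    Submodule.exists_mem_ne_zero_of_ne_bot (lid_ne_bot hn q.1 q.2)
  choose f hf hf0 using hex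
  obtain ⟨p, hp⟩ := exists_eval_ne_zero
    (mul_ne_zero hh (Finset.prod_ne_zero_iff.2 fun q (_ : q ∈ T) => hf0 q))
  rw [map_mul, map_prod, mul_ne_zero_iff, Finset.prod_ne_zero_iff] at hp
  refine ⟨p, hp.1, fun q hq t e => hp.2 q hq ?_⟩
  rw [e]
  exact lid_le_mx _ _ t (hf q)

/-- Two polynomials that agree at the points of a line outside a hypersurface agree on the line. -/
lemma line_eq_of_good [Infinite k] {v u : Fin n → k} {γ f g : PA k n}
    (hγ : MvPolynomial.eval v γ ≠ 0)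
    (h : ∀ t : k, MvPolynomial.eval (v + t • u) γ ≠ 0 →
      MvPolynomial.eval (v + t • u) f = MvPolynomial.eval (v + t • u) g) :
    line v u f = line v u g := by
  have h1 : γ * (f - g) ∈ lid v u := by
    rw [mem_lid_iff]
    intro t
    by_cases h0 : MvPolynomial.eval (v + t • u) γ = 0
    · simp [h0]
    · simp [h t h0]
  rcases (lid_isPrime v u).mem_or_mem h1 with h2 | h2
  · exact absurd (lid_le_mx' v u h2) hγ
  · rw [mem_lid, map_sub, sub_eq_zero] at h2
    exact h2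

/-- Local divisibility at all points gives divisibility. -/
lemma dvd_of_forall_point [IsAlgClosed k] {S : Type u} [CommRing S] [Algebra k S]
    [Algebra.FiniteType k S] {f g : S} (h : ∀ x : S →ₐ[k] k, ∃ w, x w ≠ 0 ∧ f ∣ w * g) :
    f ∣ g := by
  let J : Ideal S := (Ideal.span {f}).colon {g}
  have hJ : J = ⊤ := by
    by_contra hne
    obtain ⟨M, hM, hJM⟩ := Ideal.exists_le_maximal J hne
    obtain ⟨x, hx⟩ := exists_point (k := k) M
    obtain ⟨w, hw, hfw⟩ := h x
    have : w ∈ J := by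
      simp only [J, Submodule.mem_colon_singleton, smul_eq_mul, Ideal.mem_span_singleton]
      exact hfw
    have h2 := hJM this
    rw [← hx] at h2
    exact hw h2
  have : (1 : S) ∈ J := hJ ▸ Submodule.mem_top
  simpa [J, Submodule.mem_colon_singleton, Ideal.mem_span_singleton] using this

end Pool.Agent.MP_f1fec5_al.Aff

end

section

namespace Pool.Agent.MP_f1fec5_al.Aff

open Polynomial

universe u v

variable {k : Type u} [Field k] {n : ℕ}

lemma Om_inj : Function.Injective (algebraMap (PA k n) (Om k n)) := by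
  rw [IsScalarTower.algebraMap_eq (PA k n) (FractionRing (PA k n)) (Om k n), RingHom.coe_comp]
  exact (algebraMap (FractionRing (PA k n)) (Om k n)).injective.comp (IsFractionRing.injective _ _)

lemma EE_inj : Function.Injective (algebraMap (PA k n) (EE k n)) := fun _ _ h =>
  Om_inj (congrArg Subtype.val h)

/-- going down along a line -/
lemma exists_prime_over_le {S : Type u} [CommRing S] [IsDomain S] [Algebra k S]
    [Algebra (PA k n) S] [IsScalarTower k (PA k n) S] [Algebra.IsIntegral (PA k n) S]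
    (hinj : Function.Injective (algebraMap (PA k n) S)) (x : S →ₐ[k] k) (p : Ideal (PA k n))
    [p.IsPrime] (hp : p ≤ mx (pt n x)) :
    ∃ L : Ideal S, L.IsPrime ∧ L ≤ RingHom.ker x ∧ L.comap (algebraMap (PA k n) S) = p := by
  have : FaithfulSMul (PA k n) S := (faithfulSMul_iff_algebraMap_injective _ _).2 hinj
  have := (ker_isMaximal x).isPrime
  have := (mx_isMaximal (pt n x)).isPrime
  have : (RingHom.ker x).LiesOver (mx (pt n x)) := ⟨by
    ext f
    rw [mem_mx, Ideal.under, Ideal.mem_comap, RingHom.mem_ker, map_algebraMap_eq_eval]⟩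
  obtain ⟨L, h1, h2, h3⟩ := Ideal.exists_ideal_le_liesOver_of_le (p := p) (q := mx (pt n x))
    (RingHom.ker x) hp
  exact ⟨L, h2, h1, (L.over_def p).symm⟩

lemma exists_ev [IsAlgClosed k] (v : Fin n → k) : ∃ ev : EE k n →ₐ[k] k, pt n ev = v := by
  obtain ⟨x, -, hx⟩ := exists_point_over (n := n) (⊥ : Ideal (EE k n)) v (fun f hf => by
    rw [Ideal.mem_bot, map_eq_zero_iff _ EE_inj] at hf
    simp [hf])
  exact ⟨x, hx⟩

variable {B : Type u} [CommRing B] [Algebra k B] [Algebra (PA k n) B]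
  [IsScalarTower k (PA k n) B]

lemma map_mx_le (x : B →ₐ[k] k) : (mx (pt n x)).map (algebraMap (PA k n) B) ≤ RingHom.ker x :=
  Ideal.map_le_iff_le_comap.2 fun f hf => by
    rw [Ideal.mem_comap, RingHom.mem_ker, map_algebraMap_eq_eval]
    exact hf

variable [Algebra.IsIntegral (PA k n) B]

namespace Emb

variable (emb : Emb k n B)

/-- the embeddings into the absolute integral closure -/
noncomputable def σE (i : Fin emb.m) : B →ₐ[PA k n] EE k n :=
  (emb.σ i).codRestrict (integralClosure (PA k n) (Om k n))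
    (fun b => (Algebra.IsIntegral.isIntegral b).map (emb.σ i))

omit [Algebra k B] [IsScalarTower k (PA k n) B] in
lemma coe_σE (i : Fin emb.m) (b : B) : (emb.σE i b : Om k n) = emb.σ i b := rfl

omit [Algebra k B] [IsScalarTower k (PA k n) B] in
lemma ν_specE (b : B) : algebraMap (PA k n) (EE k n) (emb.ν b) = ∏ i, emb.σE i b := by
  apply Subtype.val_injective
  have : ((∏ i, emb.σE i b : EE k n) : Om k n) = ∏ i, (emb.σE i b : Om k n) :=
    map_prod (integralClosure (PA k n) (Om k n)).val _ _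
  rw [this]
  exact emb.ν_spec b

omit [Algebra k B] [IsScalarTower k (PA k n) B] [Algebra.IsIntegral (PA k n) B] in
include emb in
lemma inj : Function.Injective (algebraMap (PA k n) B) := fun a b h => by
  have := congrArg (emb.σ ⟨0, emb.m_pos⟩) h
  rw [AlgHom.commutes, AlgHom.commutes] at this
  exact Om_inj this

omit [Algebra k B] [IsScalarTower k (PA k n) B] [Algebra.IsIntegral (PA k n) B] in
lemma ν_ne {b : B} (hb : b ≠ 0) : emb.ν b ≠ 0 := fun h => by
  have := emb.ν_spec b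
  rw [h, map_zero, eq_comm, Finset.prod_eq_zero_iff] at this
  obtain ⟨i, -, hi⟩ := this
  exact hb ((map_eq_zero_iff _ (emb.σ_inj i)).1 hi)

/-- the points of `B` below a point of the absolute integral closure -/
noncomputable def fib (ev : EE k n →ₐ[k] k) (i : Fin emb.m) : B →ₐ[k] k :=
  ev.comp ((emb.σE i).restrictScalars k)

lemma fib_apply (ev : EE k n →ₐ[k] k) (i : Fin emb.m) (b : B) :
    emb.fib ev i b = ev (emb.σE i b) := rfl

lemma pt_fib (ev : EE k n →ₐ[k] k) (i : Fin emb.m) : pt n (emb.fib ev i) = pt n ev := by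
  funext j
  simp only [pt, fib_apply, AlgHom.commutes]

lemma eval_ν (ev : EE k n →ₐ[k] k) (b : B) :
    MvPolynomial.eval (pt n ev) (emb.ν b) = ∏ i, emb.fib ev i b := by
  rw [← map_algebraMap_eq_eval, ν_specE, map_prod]
  rfl

lemma exists_eq_fib (ev : EE k n →ₐ[k] k) (y : B →ₐ[k] k) (hy : pt n y = pt n ev) :
    ∃ i, y = emb.fib ev i := by
  have h1 : ((RingHom.ker y : Ideal B) : Set B) ⊆
      ⋃ i ∈ ((Finset.univ : Finset (Fin emb.m)) : Set (Fin emb.m)),
        ((RingHom.ker (emb.fib ev i) : Ideal B) : Set B) := by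
    intro b hb
    obtain ⟨c, hc⟩ := emb.dvd_ν b
    have h2 : y (algebraMap (PA k n) B (emb.ν b)) = 0 := by
      rw [hc, map_mul, (RingHom.mem_ker).1 hb, zero_mul]
    rw [map_algebraMap_eq_eval, hy, eval_ν, Finset.prod_eq_zero_iff] at h2
    obtain ⟨i, hi, h3⟩ := h2
    exact Set.mem_biUnion hi h3
  rw [Ideal.subset_union_prime ⟨0, emb.m_pos⟩ ⟨0, emb.m_pos⟩
    (fun i _ _ _ => (ker_isMaximal _).isPrime)] at h1
  obtain ⟨i, -, hi⟩ := h1
  exact ⟨i, point_eq_of_ker_le hi⟩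

lemma eval_ν_ne_iff [IsAlgClosed k] (v : Fin n → k) (b : B) :
    MvPolynomial.eval v (emb.ν b) ≠ 0 ↔ ∀ x : B →ₐ[k] k, pt n x = v → x b ≠ 0 := by
  obtain ⟨ev, rfl⟩ := exists_ev v
  rw [eval_ν, Finset.prod_ne_zero_iff]
  refine ⟨fun h x hx => ?_, fun h i _ => h _ (emb.pt_fib ev i)⟩
  obtain ⟨i, rfl⟩ := emb.exists_eq_fib ev x hx
  exact h i (Finset.mem_univ i)

lemma eval_ν_congr [IsAlgClosed k] (v : Fin n → k) {b b' : B}
    (h : b - b' ∈ (mx v).map (algebraMap (PA k n) B)) :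
    MvPolynomial.eval v (emb.ν b) = MvPolynomial.eval v (emb.ν b') := by
  obtain ⟨ev, rfl⟩ := exists_ev v
  rw [eval_ν, eval_ν]
  refine Finset.prod_congr rfl fun i _ => ?_
  rw [← emb.pt_fib ev i] at h
  have := map_mx_le _ h
  rwa [RingHom.mem_ker, map_sub, sub_eq_zero] at this

lemma line_ν_congr [IsAlgClosed k] (v u : Fin n → k) {b b' : B}
    (h : b - b' ∈ (lid v u).map (algebraMap (PA k n) B)) :
    line v u (emb.ν b) = line v u (emb.ν b') :=
  Polynomial.funext fun t => by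
    rw [eval_line, eval_line]
    exact emb.eval_ν_congr _ (Ideal.map_mono (lid_le_mx v u t) h)

lemma fib_z_inj (ev : EE k n →ₐ[k] k) (hΔ : MvPolynomial.eval (pt n ev) emb.Δ ≠ 0) :
    Function.Injective fun i => emb.fib ev i emb.z := by
  intro i j hij
  by_contra hne
  obtain ⟨e, he, h⟩ := emb.Δ_sep i j hne
  have h1 : (emb.σE i emb.z - emb.σE j emb.z) * ⟨e, he⟩ = algebraMap (PA k n) (EE k n) emb.Δ :=
    Subtype.val_injective h
  have h2 := congrArg ev h1
  rw [map_algebraMap_eq_eval, map_mul, map_sub] at h2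
  have h3 : ev (emb.σE i emb.z) = ev (emb.σE j emb.z) := hij
  rw [h3, sub_self, zero_mul] at h2
  exact hΔ h2.symm

lemma fib_inj (ev : EE k n →ₐ[k] k) (hΔ : MvPolynomial.eval (pt n ev) emb.Δ ≠ 0) :
    Function.Injective (emb.fib ev) := fun _ _ h =>
  emb.fib_z_inj ev hΔ (congrArg (fun x => x emb.z) h)

lemma mem_map_mx [Nontrivial B] (ev : EE k n →ₐ[k] k)
    (hΔ : MvPolynomial.eval (pt n ev) emb.Δ ≠ 0) {b : B} (hb : ∀ i, emb.fib ev i b = 0) :
    b ∈ (mx (pt n ev)).map (algebraMap (PA k n) B) := by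
  obtain ⟨h, hdeg, hh⟩ := emb.Δ_span b 1 one_ne_zero (by
    rw [map_one, div_one]
    exact (Algebra.IsIntegral.isIntegral b).map _)
  rw [one_mul] at hh
  have h0 : h.map (MvPolynomial.eval (pt n ev)) = 0 := by
    refine Polynomial.eq_zero_of_degree_lt_of_eval_index_eq_zero Finset.univ
      (emb.fib_z_inj ev hΔ).injOn (by simpa using degree_map_le.trans_lt hdeg) fun i _ => ?_
    have h1 := congrArg (emb.fib ev i) hh
    rw [map_mul, hb, mul_zero, aeval_def, ← AlgHom.coe_toRingHom, hom_eval₂] at h1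
    rw [eval_map, h1]
    congr 1
    refine RingHom.ext fun f => ?_
    rw [RingHom.comp_apply, AlgHom.coe_toRingHom, map_algebraMap_eq_eval, pt_fib]
  have h2 : aeval emb.z h ∈ (mx (pt n ev)).map (algebraMap (PA k n) B) := by
    rw [aeval_eq_sum_range]
    refine Ideal.sum_mem _ fun j _ => ?_
    rw [Algebra.smul_def]
    refine Ideal.mul_mem_right _ _ (Ideal.mem_map_of_mem _ ?_)
    have := congrArg (fun p => p.coeff j) h0
    simpa [mem_mx] using this
  rw [← hh] at h2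
  set c := MvPolynomial.eval (pt n ev) emb.Δ
  have h3 : 1 - MvPolynomial.C c⁻¹ * emb.Δ ∈ mx (pt n ev) := by
    simp [mem_mx, c, inv_mul_cancel₀ hΔ]
  have h4 := Ideal.add_mem _ (Ideal.mul_mem_right b _ (Ideal.mem_map_of_mem
    (algebraMap (PA k n) B) h3))
    (Ideal.mul_mem_left _ (algebraMap (PA k n) B (MvPolynomial.C c⁻¹)) h2)
  convert h4 using 1
  rw [map_sub, map_mul, map_one]
  ring

/-- The derivative of the norm along a line. -/
lemma coeff_one_ν (ev : EE k n →ₐ[k] k) (i : Fin emb.m) {u : Fin n → k} {τ : PA k n}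
    (hτ : line (pt n ev) u τ = X) {s w c : B}
    (h : s * w - algebraMap (PA k n) B τ * c ∈ (lid (pt n ev) u).map (algebraMap (PA k n) B))
    (hs : emb.fib ev i s = 0) :
    (line (pt n ev) u (emb.ν s)).coeff 1 * emb.fib ev i w =
      emb.fib ev i c * ∏ j ∈ Finset.univ.erase i, emb.fib ev j s := by
  have h0 : emb.ν s ∈ mx (pt n ev) := by
    rw [mem_mx, eval_ν]
    exact Finset.prod_eq_zero (Finset.mem_univ i) hs
  obtain ⟨g, hg, hg'⟩ := exists_expand hτ h0
  have := lid_isPrime (pt n ev) u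
  obtain ⟨L, hL, hLx, hLp⟩ := exists_prime_over_le EE_inj ev (lid (pt n ev) u) (lid_le_mx' _ _)
  have hle : (lid (pt n ev) u).map (algebraMap (PA k n) B) ≤ L.comap (emb.σE i) :=
    Ideal.map_le_iff_le_comap.2 fun f hf => by
      rw [Ideal.mem_comap, Ideal.mem_comap, AlgHom.commutes]
      rwa [← hLp] at hf
  have h1 := hle h
  rw [Ideal.mem_comap, map_sub, map_mul, map_mul, AlgHom.commutes] at h1
  have h2 : algebraMap (PA k n) (EE k n) (emb.ν s - τ * g) ∈ L := by
    rwa [← hLp] at hg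
  rw [map_sub, map_mul, ν_specE, ← Finset.mul_prod_erase _ _ (Finset.mem_univ i)] at h2
  have h3 : algebraMap (PA k n) (EE k n) τ * (algebraMap (PA k n) (EE k n) g * emb.σE i w -
      emb.σE i c * ∏ j ∈ Finset.univ.erase i, emb.σE j s) ∈ L := by
    have h4 := Ideal.sub_mem _
      (Ideal.mul_mem_right (∏ j ∈ Finset.univ.erase i, emb.σE j s) _ h1)
      (Ideal.mul_mem_right (emb.σE i w) _ h2)
    convert h4 using 1
    ring
  rcases hL.mem_or_mem h3 with h5 | h5
  · exact absurd (hLp ▸ h5 : τ ∈ lid (pt n ev) u) (tau_not_mem hτ)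
  · have h6 := hLx h5
    rw [RingHom.mem_ker, map_sub, map_mul, map_mul, map_prod, map_algebraMap_eq_eval, hg',
      sub_eq_zero] at h6
    exact h6

/-- an element separating one point of a good fibre -/
lemma exists_sep [Nontrivial B] (ev : EE k n →ₐ[k] k)
    (hΔ : MvPolynomial.eval (pt n ev) emb.Δ ≠ 0) (i : Fin emb.m) :
    ∃ w : B, emb.fib ev i w = 1 ∧ ∀ s, emb.fib ev i s = 0 →
      s * w ∈ (mx (pt n ev)).map (algebraMap (PA k n) B) := by
  let w₀ : B := ∏ j ∈ Finset.univ.erase i, (emb.z - algebraMap k B (emb.fib ev j emb.z))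
  have h0 : emb.fib ev i w₀ ≠ 0 := by
    simp only [w₀, map_prod, Finset.prod_ne_zero_iff, map_sub, AlgHom.commutes]
    intro j hj h
    exact (Finset.mem_erase.1 hj).1 (emb.fib_z_inj ev hΔ (sub_eq_zero.1 h)).symm
  refine ⟨algebraMap k B (emb.fib ev i w₀)⁻¹ * w₀, by simp [inv_mul_cancel₀ h0], fun s hs => ?_⟩
  refine emb.mem_map_mx ev hΔ fun j => ?_
  by_cases hj : j = i
  · rw [hj, map_mul, hs, zero_mul]
  · have : emb.fib ev j w₀ = 0 := by
      simp only [w₀, map_prod]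
      exact Finset.prod_eq_zero (Finset.mem_erase.2 ⟨hj, Finset.mem_univ j⟩) (by simp)
    rw [map_mul, map_mul, this, mul_zero, mul_zero]

omit [IsScalarTower k (PA k n) B] [Algebra.IsIntegral (PA k n) B] [Algebra k B] in
lemma exists_tau_coeff {v u : Fin n → k} {τ : PA k n} (hτ : line v u τ = X) {y : B}
    (hy : y ∈ (mx v).map (algebraMap (PA k n) B)) :
    ∃ c, y - algebraMap (PA k n) B τ * c ∈ (lid v u).map (algebraMap (PA k n) B) := by
  rw [mx_eq hτ, Ideal.map_sup, Ideal.map_span, Set.image_singleton, Submodule.mem_sup] at hy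
  obtain ⟨l, hl, z, hz, rfl⟩ := hy
  obtain ⟨c, rfl⟩ := Ideal.mem_span_singleton'.1 hz
  exact ⟨c, by simpa [mul_comm] using hl⟩

/-- the tangent hyperplane ideal -/
noncomputable def hyp (x : B →ₐ[k] k) (u : Fin n → k) : Ideal B :=
  RingHom.ker x * RingHom.ker x ⊔ (lid (pt n x) u).map (algebraMap (PA k n) B)

omit [Algebra.IsIntegral (PA k n) B] in
lemma hyp_le (x : B →ₐ[k] k) (u : Fin n → k) : hyp x u ≤ RingHom.ker x :=
  sup_le Ideal.mul_le_left ((Ideal.map_mono (lid_le_mx' _ _)).trans (map_mx_le x))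

/-- coefficient of `τ` modulo the hyperplane ideal -/
lemma exists_coeff [Nontrivial B] (ev : EE k n →ₐ[k] k)
    (hΔ : MvPolynomial.eval (pt n ev) emb.Δ ≠ 0) (i : Fin emb.m) {u : Fin n → k} {τ : PA k n}
    (hτ : line (pt n ev) u τ = X) {s : B} (hs : emb.fib ev i s = 0) :
    ∃ c : k, s - algebraMap k B c * algebraMap (PA k n) B τ ∈ hyp (emb.fib ev i) u ∧
      (line (pt n ev) u (emb.ν s)).coeff 1 = c * ∏ j ∈ Finset.univ.erase i, emb.fib ev j s := by
  obtain ⟨w, hw, hw'⟩ := emb.exists_sep ev hΔ i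
  obtain ⟨c, hc⟩ := exists_tau_coeff hτ (hw' s hs)
  refine ⟨emb.fib ev i c, ?_, by simpa [hw] using emb.coeff_one_ν ev i hτ hc hs⟩
  have hτx : algebraMap (PA k n) B τ ∈ RingHom.ker (emb.fib ev i) := by
    rw [RingHom.mem_ker, map_algebraMap_eq_eval, pt_fib]
    exact tau_mem hτ
  have h1 : s * (1 - w) ∈ RingHom.ker (emb.fib ev i) * RingHom.ker (emb.fib ev i) :=
    Ideal.mul_mem_mul hs (by simp [RingHom.mem_ker, hw])
  have h2 : algebraMap (PA k n) B τ * (c - algebraMap k B (emb.fib ev i c)) ∈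
      RingHom.ker (emb.fib ev i) * RingHom.ker (emb.fib ev i) :=
    Ideal.mul_mem_mul hτx (by simp [RingHom.mem_ker])
  have h3 := Ideal.add_mem (hyp (emb.fib ev i) u) (Ideal.mem_sup_left (Ideal.add_mem _ h1 h2))
    (Ideal.mem_sup_right (by rw [pt_fib]; exact hc))
  convert h3 using 1
  ring

lemma tau_not_mem_hyp [IsDomain B] (ev : EE k n →ₐ[k] k)
    (hΔ : MvPolynomial.eval (pt n ev) emb.Δ ≠ 0) (i : Fin emb.m) {u : Fin n → k} {τ : PA k n}
    (hτ : line (pt n ev) u τ = X) : algebraMap (PA k n) B τ ∉ hyp (emb.fib ev i) u := by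
  intro hmem
  obtain ⟨w, hw, hw'⟩ := emb.exists_sep ev hΔ i
  have := lid_isPrime (pt n ev) u
  obtain ⟨L, hL, hLx, hLp⟩ := exists_prime_over_le emb.inj (emb.fib ev i) (lid (pt n ev) u)
    (by rw [pt_fib]; exact lid_le_mx' _ _)
  have hle : (lid (pt n ev) u).map (algebraMap (PA k n) B) ≤ L :=
    Ideal.map_le_iff_le_comap.2 hLp.ge
  set t := algebraMap (PA k n) B τ
  have key : ∀ y ∈ hyp (emb.fib ev i) u, ∃ b, y * (w * w) - t * t * b ∈ L := by
    intro y hy
    obtain ⟨a, ha, l, hl, rfl⟩ := Submodule.mem_sup.1 hy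
    rw [pt_fib] at hl
    have h1 : ∃ b, a * (w * w) - t * t * b ∈ L := by
      refine Submodule.mul_induction_on ha (fun p hp q hq => ?_) (fun p q hp hq => ?_)
      · obtain ⟨c, hc⟩ := exists_tau_coeff hτ (hw' p hp)
        obtain ⟨c', hc'⟩ := exists_tau_coeff hτ (hw' q hq)
        refine ⟨c * c', ?_⟩
        have h2 := L.add_mem (L.mul_mem_right (q * w) (hle hc)) (L.mul_mem_left (t * c) (hle hc'))
        convert h2 using 1
        ring
      · obtain ⟨b, hb⟩ := hp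
        obtain ⟨b', hb'⟩ := hq
        refine ⟨b + b', ?_⟩
        convert L.add_mem hb hb' using 1
        ring
    obtain ⟨b, hb⟩ := h1
    refine ⟨b, ?_⟩
    convert L.add_mem hb (L.mul_mem_right (w * w) (hle hl)) using 1
    ring
  obtain ⟨b, hb⟩ := key t hmem
  have h3 : t * (w * w - t * b) ∈ L := by
    convert hb using 1
    ring
  rcases hL.mem_or_mem h3 with h4 | h4
  · exact tau_not_mem hτ (hLp ▸ h4 : τ ∈ lid (pt n ev) u)
  · have h5 := hLx h4
    have h6 : emb.fib ev i t = 0 := by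
      rw [map_algebraMap_eq_eval, pt_fib]
      exact tau_mem hτ
    simp [RingHom.mem_ker, hw, h6] at h5

lemma mem_hyp_iff [IsDomain B] (ev : EE k n →ₐ[k] k)
    (hΔ : MvPolynomial.eval (pt n ev) emb.Δ ≠ 0) (i : Fin emb.m) {u : Fin n → k} (hu : u ≠ 0)
    {s : B} (hs : emb.fib ev i s = 0) (hs' : ∀ j, j ≠ i → emb.fib ev j s ≠ 0) :
    s ∈ hyp (emb.fib ev i) u ↔ (line (pt n ev) u (emb.ν s)).coeff 1 = 0 := by
  obtain ⟨τ, hτ⟩ := exists_tau (pt n ev) hu
  obtain ⟨c, hc, hc'⟩ := emb.exists_coeff ev hΔ i hτ hs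
  have hp : ∏ j ∈ Finset.univ.erase i, emb.fib ev j s ≠ 0 :=
    Finset.prod_ne_zero_iff.2 fun j hj => hs' j (Finset.mem_erase.1 hj).1
  rw [hc', mul_eq_zero, or_iff_left hp]
  refine ⟨fun h => ?_, fun h => by simpa [h] using hc⟩
  by_contra hc0
  apply emb.tau_not_mem_hyp ev hΔ i hτ
  have h1 := Ideal.mul_mem_left _ (algebraMap k B c⁻¹) (Ideal.sub_mem _ h hc)
  rwa [sub_sub_cancel, ← mul_assoc, ← map_mul, inv_mul_cancel₀ hc0, map_one, one_mul] at h1

lemma ker_le_of_not_le [IsDomain B] (ev : EE k n →ₐ[k] k)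
    (hΔ : MvPolynomial.eval (pt n ev) emb.Δ ≠ 0) (i : Fin emb.m) {u : Fin n → k} (hu : u ≠ 0)
    {J : Ideal B} (hJ : J ≤ RingHom.ker (emb.fib ev i)) (hJ' : ¬ J ≤ hyp (emb.fib ev i) u) :
    RingHom.ker (emb.fib ev i) ≤ hyp (emb.fib ev i) u ⊔ J := by
  obtain ⟨τ, hτ⟩ := exists_tau (pt n ev) hu
  obtain ⟨s, hs, hs'⟩ := Set.not_subset.1 hJ'
  obtain ⟨c, hc, -⟩ := emb.exists_coeff ev hΔ i hτ (hJ hs)
  have hc0 : c ≠ 0 := fun h => hs' (by simpa [h] using hc)
  have h1 : algebraMap (PA k n) B τ ∈ hyp (emb.fib ev i) u ⊔ J := by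
    have h2 := Ideal.mul_mem_left _ (algebraMap k B c⁻¹)
      (Ideal.sub_mem (hyp (emb.fib ev i) u ⊔ J) (Ideal.mem_sup_right hs) (Ideal.mem_sup_left hc))
    rwa [sub_sub_cancel, ← mul_assoc, ← map_mul, inv_mul_cancel₀ hc0, map_one, one_mul] at h2
  intro y hy
  obtain ⟨c', hc', -⟩ := emb.exists_coeff ev hΔ i hτ hy
  simpa using Ideal.add_mem _ (Ideal.mem_sup_left hc') (Ideal.mul_mem_left _ (algebraMap k B c') h1)

lemma not_hyp_le [IsDomain B] (ev : EE k n →ₐ[k] k)
    (hΔ : MvPolynomial.eval (pt n ev) emb.Δ ≠ 0) (i : Fin emb.m) {u u' : Fin n → k} (hu : u ≠ 0)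
    (h : ∀ t : k, u' ≠ t • u) : ¬ hyp (emb.fib ev i) u ≤ hyp (emb.fib ev i) u' := by
  intro hle
  have hu' : u' ≠ 0 := by simpa using h 0
  obtain ⟨τ, hτ⟩ := exists_tau (pt n ev) hu'
  apply emb.tau_not_mem_hyp ev hΔ i hτ
  have h1 : (mx (pt n ev)).map (algebraMap (PA k n) B) ≤ hyp (emb.fib ev i) u' := by
    rw [← lid_sup hu h, Ideal.map_sup, ← emb.pt_fib ev i]
    exact sup_le (le_sup_right.trans hle) le_sup_right
  exact h1 (Ideal.mem_map_of_mem _ (tau_mem hτ))

end Emb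

end Pool.Agent.MP_f1fec5_al.Aff

end

section

namespace Pool.Agent.MP_f1fec5_al.Aff

open Polynomial

universe u v

variable {k : Type u} [Field k] {n : ℕ}

lemma exists_gcd (S : Set (PA k n)) : ∃ f : PA k n, (∀ t ∈ S, f ∣ t) ∧
    ∀ a w : PA k n, (∀ t ∈ S, a ∣ w * t) → a ∣ w * f := by
  classical
  have : NormalizedGCDMonoid (PA k n) := Classical.arbitrary _
  obtain ⟨T, hT⟩ := (IsNoetherian.noetherian (Ideal.span S) : (Ideal.span S).FG)
  refine ⟨T.gcd id, fun t ht => ?_, fun a w h => ?_⟩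
  · have h1 : Ideal.span S ≤ Ideal.span {T.gcd id} := by
      rw [← hT]
      exact Ideal.span_le.2 fun x hx => Ideal.mem_span_singleton.2 (Finset.gcd_dvd hx)
    exact Ideal.mem_span_singleton.1 (h1 (Ideal.subset_span ht))
  · have h1 : Ideal.span S ≤ (Ideal.span {a}).colon {w} := Ideal.span_le.2 fun x hx => by
      rw [SetLike.mem_coe, Submodule.mem_colon_singleton, smul_eq_mul, Ideal.mem_span_singleton,
        mul_comm]
      exact h x hx
    refine Dvd.dvd.trans ?_ (Finset.gcd_mul_left' (s := T) (f := id) w).dvd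
    refine Finset.dvd_gcd fun x hx => ?_
    have h2 := h1 (hT ▸ Submodule.subset_span hx : x ∈ Ideal.span S)
    rwa [Submodule.mem_colon_singleton, smul_eq_mul, Ideal.mem_span_singleton, mul_comm] at h2

lemma exists_C_of_dvd {f g : PA k n} (h1 : f ∣ g) (h2 : g ∣ f) :
    ∃ c : k, c ≠ 0 ∧ g = MvPolynomial.C c * f := by
  obtain ⟨w, hw⟩ := associated_of_dvd_dvd h1 h2
  obtain ⟨c, hc, hc'⟩ := MvPolynomial.isUnit_iff_eq_C_of_isReduced.1 w.isUnit
  exact ⟨c, hc.ne_zero, by rw [← hw, hc', mul_comm]⟩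

lemma exists_C_of_dvd' {f g : k[X]} (h1 : f ∣ g) (h2 : g ∣ f) : ∃ c : k, c ≠ 0 ∧ g = C c * f := by
  obtain ⟨w, hw⟩ := associated_of_dvd_dvd h1 h2
  obtain ⟨c, hc, hc'⟩ := Polynomial.isUnit_iff.1 w.isUnit
  exact ⟨c, hc.ne_zero, by rw [← hw, hc', mul_comm]⟩

lemma dvd_of_forall_eval [IsAlgClosed k] {f g : PA k n}
    (h : ∀ v : Fin n → k, ∃ w, MvPolynomial.eval v w ≠ 0 ∧ f ∣ w * g) : f ∣ g :=
  dvd_of_forall_point (k := k) fun x => by
    obtain ⟨w, hw, hw'⟩ := h (pt n x)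
    exact ⟨w, by rwa [← map_algebraMap_eq_eval] at hw, hw'⟩

lemma dvd_of_forall_eval' [IsAlgClosed k] {f g : k[X]}
    (h : ∀ t : k, ∃ w, eval t w ≠ 0 ∧ f ∣ w * g) : f ∣ g :=
  dvd_of_forall_point (k := k) fun x => by
    obtain ⟨w, hw, hw'⟩ := h (x X)
    refine ⟨w, ?_, hw'⟩
    rwa [← coe_aeval_eq_eval, aeval_algHom_apply, aeval_X_left_apply] at hw

variable {B : Type u} [CommRing B] [Algebra k B] [Algebra (PA k n) B]

/-- local generator along the fibre over `v` -/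
def LG (I : Ideal B) (v : Fin n → k) (s : B) : Prop :=
  s ∈ I ∧ ∃ w : B, (∀ x : B →ₐ[k] k, pt n x = v → x w ≠ 0) ∧ ∀ b ∈ I, s ∣ w * b

lemma LG.mul {I J : Ideal B} {v : Fin n → k} {s t : B} (hs : LG I v s) (ht : LG J v t) :
    LG (I * J) v (s * t) := by
  obtain ⟨hs, w, hw, hw'⟩ := hs
  obtain ⟨ht, w', hw1, hw1'⟩ := ht
  refine ⟨Ideal.mul_mem_mul hs ht, w * w', fun x hx => ?_, fun b hb => ?_⟩
  · rw [map_mul]
    exact mul_ne_zero (hw x hx) (hw1 x hx)
  · refine Submodule.mul_induction_on hb (fun p hp q hq => ?_) (fun p q hp hq => ?_)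
    · rw [mul_mul_mul_comm]
      exact mul_dvd_mul (hw' p hp) (hw1' q hq)
    · rw [mul_add]
      exact dvd_add hp hq

lemma LG.apply_ne_iff {I : Ideal B} {v : Fin n → k} {s : B} (hs : LG I v s) (x : B →ₐ[k] k)
    (hx : pt n x = v) : x s ≠ 0 ↔ ¬ I ≤ RingHom.ker x := by
  obtain ⟨hs, w, hw, hw'⟩ := hs
  refine ⟨fun h h' => h (h' hs), fun h h' => h fun b hb => ?_⟩
  obtain ⟨c, hc⟩ := hw' b hb
  have := congrArg x hc
  rw [map_mul, map_mul, h', zero_mul] at this
  exact (mul_eq_zero.1 this).resolve_left (hw x hx)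

variable [IsScalarTower k (PA k n) B] [Algebra.IsIntegral (PA k n) B] [IsAlgClosed k]

namespace Emb

variable (emb : Emb k n B)

include emb in
lemma exists_LG [IsDomain B] {I : Ideal B}
    (hI : ∃ (C : Ideal B) (s : B), s ≠ 0 ∧ I * C = Ideal.span {s}) (v : Fin n → k) :
    ∃ s, LG I v s := by
  obtain ⟨C, s₀, hs₀, hC⟩ := hI
  obtain ⟨ev, rfl⟩ := exists_ev v
  obtain ⟨a, ha, w, hw, hw'⟩ := exists_local_gen (mem_nonZeroDivisors_of_ne_zero hs₀) hC
    (Set.range fun i => RingHom.ker (emb.fib ev i)) (Set.finite_range _)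
    (by rintro _ ⟨i, rfl⟩; exact ker_isMaximal _)
  refine ⟨a, ha, w, fun x hx => ?_, hw'⟩
  obtain ⟨i, rfl⟩ := emb.exists_eq_fib ev x hx
  exact hw _ ⟨i, rfl⟩

/-- `f` generates the norm of the ideal `I` -/
def IsNG (I : Ideal B) (f : PA k n) : Prop :=
  f ≠ 0 ∧ ∀ (v : Fin n → k) s, LG I v s → ∃ g, MvPolynomial.eval v g ≠ 0 ∧ emb.ν s = f * g

lemma exists_NG {I : Ideal B} (hI : I ≠ ⊥) : ∃ f, emb.IsNG I f := by
  obtain ⟨f, hf, hf'⟩ := exists_gcd (emb.ν '' I)
  obtain ⟨b, hb, hb0⟩ := Submodule.exists_mem_ne_zero_of_ne_bot hI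
  have hf0 : f ≠ 0 := fun h => emb.ν_ne hb0 (by simpa [h] using hf _ ⟨b, hb, rfl⟩)
  refine ⟨f, hf0, fun v s hs => ?_⟩
  obtain ⟨hs, w, hw, hw'⟩ := hs
  obtain ⟨g, hg⟩ := hf _ ⟨s, hs, rfl⟩
  refine ⟨g, fun h0 => ?_, hg⟩
  obtain ⟨h, hh⟩ := hf' (emb.ν s) (emb.ν w) (by
    rintro _ ⟨b, hb, rfl⟩
    rw [← map_mul]
    exact map_dvd _ (hw' b hb))
  have h1 : emb.ν w = g * h := by
    apply mul_left_cancel₀ hf0
    rw [mul_comm, hh, hg, mul_assoc]
  apply (emb.eval_ν_ne_iff v w).2 hw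
  rw [h1, map_mul, h0, zero_mul]

variable {emb} [IsDomain B] {I J : Ideal B} {f f' f'' : PA k n}

lemma IsNG.mul (hI : ∃ (C : Ideal B) (s : B), s ≠ 0 ∧ I * C = Ideal.span {s})
    (hJ : ∃ (C : Ideal B) (s : B), s ≠ 0 ∧ J * C = Ideal.span {s})
    (hf : emb.IsNG I f) (hf' : emb.IsNG J f') (hf'' : emb.IsNG (I * J) f'') :
    ∃ c : k, c ≠ 0 ∧ f'' = MvPolynomial.C c * (f * f') := by
  have key : ∀ v : Fin n → k, ∃ g g', MvPolynomial.eval v g ≠ 0 ∧ MvPolynomial.eval v g' ≠ 0 ∧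
      g * (f * f') = g' * f'' := by
    intro v
    obtain ⟨s, hs⟩ := emb.exists_LG hI v
    obtain ⟨t, ht⟩ := emb.exists_LG hJ v
    obtain ⟨g1, h1, e1⟩ := hf.2 v s hs
    obtain ⟨g2, h2, e2⟩ := hf'.2 v t ht
    obtain ⟨g3, h3, e3⟩ := hf''.2 v _ (hs.mul ht)
    refine ⟨g1 * g2, g3, by rw [map_mul]; exact mul_ne_zero h1 h2, h3, ?_⟩
    rw [map_mul, e1, e2] at e3
    linear_combination e3
  refine exists_C_of_dvd (dvd_of_forall_eval fun v => ?_) (dvd_of_forall_eval fun v => ?_)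
  · obtain ⟨g, g', -, h2, e⟩ := key v
    exact ⟨g', h2, e ▸ dvd_mul_left _ _⟩
  · obtain ⟨g, g', h1, -, e⟩ := key v
    exact ⟨g, h1, e ▸ dvd_mul_left _ _⟩

lemma IsNG.eval_ne_iff (hI : ∃ (C : Ideal B) (s : B), s ≠ 0 ∧ I * C = Ideal.span {s})
    (hf : emb.IsNG I f) (v : Fin n → k) :
    MvPolynomial.eval v f ≠ 0 ↔ ∀ x : B →ₐ[k] k, pt n x = v → ¬ I ≤ RingHom.ker x := by
  obtain ⟨s, hs⟩ := emb.exists_LG hI v
  obtain ⟨g, hg, e⟩ := hf.2 v s hs
  have h1 : MvPolynomial.eval v f ≠ 0 ↔ MvPolynomial.eval v (emb.ν s) ≠ 0 := by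
    rw [e, map_mul, mul_ne_zero_iff, and_iff_left hg]
  rw [h1, eval_ν_ne_iff]
  exact forall_congr' fun x => forall_congr' fun hx => hs.apply_ne_iff x hx

lemma IsNG.line_dvd (hI : ∃ (C : Ideal B) (s : B), s ≠ 0 ∧ I * C = Ideal.span {s})
    (hJ : ∃ (C : Ideal B) (s : B), s ≠ 0 ∧ J * C = Ideal.span {s})
    (hf : emb.IsNG I f) (hf' : emb.IsNG J f') (v u : Fin n → k)
    (h : I ≤ J ⊔ (lid v u).map (algebraMap (PA k n) B)) : line v u f' ∣ line v u f := by
  refine dvd_of_forall_eval' fun t => ?_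
  obtain ⟨s, hs⟩ := emb.exists_LG hI (v + t • u)
  obtain ⟨s', hs'⟩ := emb.exists_LG hJ (v + t • u)
  obtain ⟨g1, h1, e1⟩ := hf.2 _ s hs
  obtain ⟨g2, -, e2⟩ := hf'.2 _ s' hs'
  obtain ⟨-, w, hw, hw'⟩ := hs'
  obtain ⟨j, hj, l, hl, e⟩ := Submodule.mem_sup.1 (h hs.1)
  obtain ⟨c, hc⟩ := hw' j hj
  have h3 : w * s - s' * c ∈ (lid v u).map (algebraMap (PA k n) B) := by
    rw [← hc, ← e]
    convert Ideal.mul_mem_left _ w hl using 1
    ring
  have h4 := emb.line_ν_congr v u h3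
  rw [map_mul emb.ν, map_mul emb.ν, e1, e2] at h4
  refine ⟨line v u (emb.ν w * g1), ?_, line v u (g2 * emb.ν c), ?_⟩
  · rw [eval_line, map_mul]
    exact mul_ne_zero ((emb.eval_ν_ne_iff _ w).2 hw) h1
  · simp only [map_mul] at h4 ⊢
    linear_combination h4

lemma IsNG.line_eq (hI : ∃ (C : Ideal B) (s : B), s ≠ 0 ∧ I * C = Ideal.span {s})
    (hJ : ∃ (C : Ideal B) (s : B), s ≠ 0 ∧ J * C = Ideal.span {s})
    (hf : emb.IsNG I f) (hf' : emb.IsNG J f') (v u : Fin n → k)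
    (h : I ⊔ (lid v u).map (algebraMap (PA k n) B) = J ⊔ (lid v u).map (algebraMap (PA k n) B)) :
    ∃ c : k, c ≠ 0 ∧ line v u f = C c * line v u f' :=
  exists_C_of_dvd' (hf.line_dvd hI hJ hf' v u (h ▸ le_sup_left))
    (hf'.line_dvd hJ hI hf v u (h ▸ le_sup_left))

/-- the derivative criterion -/
lemma IsNG.le_hyp_iff (hI : ∃ (C : Ideal B) (s : B), s ≠ 0 ∧ I * C = Ideal.span {s})
    (hf : emb.IsNG I f) (ev : EE k n →ₐ[k] k) (hΔ : MvPolynomial.eval (pt n ev) emb.Δ ≠ 0)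
    (i : Fin emb.m) {u : Fin n → k} (hu : u ≠ 0) (hi : I ≤ RingHom.ker (emb.fib ev i))
    (hj : ∀ j, j ≠ i → ¬ I ≤ RingHom.ker (emb.fib ev j)) :
    I ≤ hyp (emb.fib ev i) u ↔ (line (pt n ev) u f).coeff 1 = 0 := by
  obtain ⟨s, hs⟩ := emb.exists_LG hI (pt n ev)
  obtain ⟨g, hg, e⟩ := hf.2 _ s hs
  have h0 : MvPolynomial.eval (pt n ev) f = 0 := by
    by_contra h
    exact (hf.eval_ne_iff hI _).1 h _ (emb.pt_fib ev i) hi
  have h1 := emb.mem_hyp_iff ev hΔ i hu (hi hs.1)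
    (fun j hji => (hs.apply_ne_iff _ (emb.pt_fib ev j)).2 (hj j hji))
  rw [e, coeff_one_line_mul, h0, zero_mul, zero_add, mul_eq_zero, or_iff_left hg] at h1
  rw [← h1]
  refine ⟨fun h => h hs.1, fun h b hb => ?_⟩
  obtain ⟨-, w, hw, hw'⟩ := hs
  obtain ⟨c, hc⟩ := hw' b hb
  have h2 := hw _ (emb.pt_fib ev i)
  have h3 : (1 - algebraMap k B (emb.fib ev i w)⁻¹ * w) * b ∈ hyp (emb.fib ev i) u :=
    Ideal.mem_sup_left (Ideal.mul_mem_mul (by simp [RingHom.mem_ker, inv_mul_cancel₀ h2]) (hi hb))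
  have h4 := Ideal.add_mem _ h3 (Ideal.mul_mem_left _ (algebraMap k B (emb.fib ev i w)⁻¹)
    (hc ▸ Ideal.mul_mem_right c _ h : w * b ∈ hyp (emb.fib ev i) u))
  convert h4 using 1
  ring

end Emb

end Pool.Agent.MP_f1fec5_al.Aff

end

section

namespace Pool.Agent.MP_f1fec5_al.Aff

open ModelAux

universe u v

/-- The shadow of a model on a quotient. -/
noncomputable def shadowOf {R B : Type u} {D : Type v} [CommRing R] [CommRing B] [CommRing D]
    [IsDomain D] (m : Model R D) (ρ : R →+* B) (hρ : Function.Surjective ρ)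
    (hreg : ∀ s ∈ nonZeroDivisors R, ρ s ≠ 0) : Shadow B D where
  ok J := Reg (J.comap ρ)
  Φ J := m.F (J.comap ρ)
  I d := (Iof m d).map ρ
  ok_mono h h' := h.mono (Ideal.comap_mono h')
  ok_mul h h' := (h.mul h').mono (Ideal.le_comap_mul ρ)
  le_iff h h' := by rw [m.le_iff h h', Ideal.comap_le_comap_iff_of_surjective ρ hρ]
  surj {J Z} h h' := by
    obtain ⟨X, hX, rfl⟩ := m.surj Z (fun h0 => m.ne_bot h (eq_bot_iff.2 (h0 ▸ h')))
    have h1 := (m.le_iff h hX).1 h'
    refine ⟨X.map ρ, ?_, ?_⟩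
    · rw [← Ideal.map_comap_of_surjective ρ hρ J]
      exact Ideal.map_mono h1
    · rw [Ideal.comap_map_of_surjective ρ hρ, sup_eq_left.2 ((Ideal.comap_mono bot_le).trans h1)]
  map_mul_sup {J J' K} h h' hK := by
    have : (J * J' ⊔ K).comap ρ = J.comap ρ * J'.comap ρ ⊔ K.comap ρ := by
      have h1 : J * J' ⊔ K = (J.comap ρ * J'.comap ρ ⊔ K.comap ρ).map ρ := by
        rw [Ideal.map_sup, Ideal.map_mul, Ideal.map_comap_of_surjective ρ hρ,
          Ideal.map_comap_of_surjective ρ hρ, Ideal.map_comap_of_surjective ρ hρ]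
      rw [h1, Ideal.comap_map_of_surjective ρ hρ,
        sup_eq_left.2 ((Ideal.comap_mono bot_le).trans le_sup_right)]
    rw [this, m.map_sup (h.mul h') hK, m.map_mul h h']
  mem_iff h hd := by rw [ModelAux.mem_iff m hd h, Ideal.map_le_iff_le_comap]
  I_mul hd he := by rw [Iof_mul m hd he, Ideal.map_mul]
  I_one := by rw [Iof_one, Ideal.map_top]
  I_inv hd := by
    obtain ⟨C, s, hs, h⟩ := Iof_inv m hd
    exact ⟨C.map ρ, ρ s, hreg s hs, by
      rw [← Ideal.map_mul, h, Ideal.map_span, Set.image_singleton]⟩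

namespace Shadow

variable {B : Type u} {D : Type v} [CommRing B] [CommRing D] (sh : Shadow B D)
  {J J' : Ideal B}

lemma mono (h : sh.ok J) (h' : J ≤ J') : sh.Φ J ≤ sh.Φ J' :=
  (sh.le_iff h (sh.ok_mono h h')).2 h'

lemma inj (h : sh.ok J) (h' : sh.ok J') (e : sh.Φ J = sh.Φ J') : J = J' :=
  le_antisymm ((sh.le_iff h h').1 e.le) ((sh.le_iff h' h).1 e.ge)

lemma map_top [Nontrivial D] (h : sh.ok J) : sh.Φ ⊤ = ⊤ :=
  (Ideal.eq_top_iff_one _).2 ((sh.mem_iff (sh.ok_mono h le_top) one_ne_zero).2 le_top)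

lemma map_sup [Nontrivial D] (h : sh.ok J) (h' : sh.ok J') :
    sh.Φ (J ⊔ J') = sh.Φ J ⊔ sh.Φ J' := by
  have := sh.map_mul_sup h (sh.ok_mono h le_top) h'
  rwa [Ideal.mul_top, sh.map_top h, Ideal.mul_top] at this

lemma ne_top [Nontrivial D] (h : sh.ok J) (h' : J ≠ ⊤) : sh.Φ J ≠ ⊤ := fun e =>
  h' (sh.inj h (sh.ok_mono h le_top) (e.trans (sh.map_top h).symm))

lemma isMaximal [Nontrivial D] (h : sh.ok J) (hJ : J.IsMaximal) : (sh.Φ J).IsMaximal := by
  refine ⟨⟨sh.ne_top h hJ.ne_top, fun Z hZ => ?_⟩⟩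
  obtain ⟨X, hX, rfl⟩ := sh.surj h hZ.le
  rw [hJ.1.2 X (lt_of_le_of_ne hX (fun e => hZ.ne (e ▸ rfl))), sh.map_top h]

lemma isPrime [IsDomain D] (h : sh.ok J) (hJ : J.IsPrime) : (sh.Φ J).IsPrime := by
  refine ⟨sh.ne_top h hJ.ne_top, fun {a b} hab => ?_⟩
  by_cases ha : a = 0
  · exact Or.inl (ha ▸ Ideal.zero_mem _)
  by_cases hb : b = 0
  · exact Or.inr (hb ▸ Ideal.zero_mem _)
  rw [sh.mem_iff h (mul_ne_zero ha hb), sh.I_mul ha hb] at hab
  rw [sh.mem_iff h ha, sh.mem_iff h hb]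
  exact hJ.mul_le.1 hab

lemma I_sup_eq {d e : D} (h : sh.ok J) (hd : d ≠ 0) (he : e ≠ 0) (hde : d - e ∈ sh.Φ J) :
    sh.I d ⊔ J = sh.I e ⊔ J := by
  have key : ∀ {d e : D}, d ≠ 0 → e ≠ 0 → d - e ∈ sh.Φ J → sh.I d ⊔ J ≤ sh.I e ⊔ J := by
    intro d e hd he hde
    have h1 := sh.ok_mono h (le_sup_right : J ≤ sh.I e ⊔ J)
    refine sup_le ((sh.mem_iff h1 hd).1 ?_) le_sup_right
    simpa using Ideal.add_mem _ (sh.mono h le_sup_right hde) ((sh.mem_iff h1 he).2 le_sup_left)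
  exact le_antisymm (key hd he hde) (key he hd (by simpa using (sh.Φ J).neg_mem hde))

lemma I_ne_bot {d : D} (hd : d ≠ 0) : sh.I d ≠ ⊥ := fun h => by
  obtain ⟨C, s, hs, e⟩ := sh.I_inv hd
  rw [h, Ideal.bot_mul, eq_comm, Ideal.span_singleton_eq_bot] at e
  exact hs e

lemma map_span_sup [Nontrivial D] {d : D} (h : sh.ok J) (hd : d ≠ 0) :
    sh.Φ (sh.I d ⊔ J) = Ideal.span {d} ⊔ sh.Φ J := by
  have h1 := sh.ok_mono h (le_sup_right : J ≤ sh.I d ⊔ J)
  refine le_antisymm ?_ (sup_le ((Ideal.span_singleton_le_iff_mem _).2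
    ((sh.mem_iff h1 hd).2 le_sup_left)) (sh.mono h le_sup_right))
  obtain ⟨X, hX, e⟩ := sh.surj h (le_sup_right : sh.Φ J ≤ Ideal.span {d} ⊔ sh.Φ J)
  rw [← e]
  refine sh.mono h1 (sup_le ((sh.mem_iff (sh.ok_mono h hX) hd).1 ?_) hX)
  rw [e]
  exact Ideal.mem_sup_left (Ideal.mem_span_singleton_self d)

end Shadow

end Pool.Agent.MP_f1fec5_al.Aff

end

section

namespace Pool.Agent.MP_f1fec5_al.Aff

open Polynomial

universe u v

lemma intg_aux {D : Type v} [CommRing D] {Ω : Type u} [Field Ω] (θ : D →+* Ω)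
    {a b : D} (hb : θ b ≠ 0) (r : ℕ) : ∀ y ∈ Ideal.span {a, b} ^ r,
    ∃ p : D[X], p.natDegree ≤ r ∧ θ y = θ b ^ r * p.eval₂ θ (θ a / θ b) := by
  induction r with
  | zero => exact fun y _ => ⟨C y, by simp, by simp⟩
  | succ r ih =>
    intro y hy
    rw [pow_succ] at hy
    refine Submodule.mul_induction_on hy ?_ ?_
    · intro y1 h1 y2 h2
      obtain ⟨p, hp, e⟩ := ih y1 h1
      obtain ⟨c, d, rfl⟩ := Ideal.mem_span_pair.1 h2
      refine ⟨p * (C c * X + C d), natDegree_mul_le.trans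
        (add_le_add hp natDegree_linear_le), ?_⟩
      simp only [map_mul, map_add, e, eval₂_mul, eval₂_add, eval₂_C, eval₂_X]
      field_simp
      ring
    · rintro y1 y2 ⟨p, hp, e⟩ ⟨q, hq, e'⟩
      exact ⟨p + q, natDegree_add_le_of_degree_le hp hq, by rw [map_add, e, e', eval₂_add, mul_add]⟩

/-- Hint: elements of `span {a, b} ^ r` divided by `b ^ r` are values at `a / b` of polynomials of
degree `≤ r` over `D`; multiply the relation by `u ^ r`. -/
theorem isIntegralElem_of_mem {D : Type v} [CommRing D] {Ω : Type u} [Field Ω] (θ : D →+* Ω)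
    {a b u : D} (hb : θ b ≠ 0) {r : ℕ}
    (h : u * a ^ (r + 1) ∈ Ideal.span {b} * Ideal.span {a, b} ^ r) :
    θ.IsIntegralElem (θ u * θ a / θ b) := by
  by_cases hu : u = 0
  · subst hu
    simpa using θ.isIntegralElem_map (x := 0)
  obtain ⟨y, hy, e⟩ := Ideal.mem_span_singleton_mul.1 h
  obtain ⟨p, hp, e'⟩ := intg_aux θ hb r y hy
  have hd : p.degree < (C u * X ^ (r + 1) : D[X]).degree := by
    rw [degree_C_mul_X_pow _ hu]
    exact degree_le_natDegree.trans_lt (by exact_mod_cast Nat.lt_succ_of_le hp)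
  have h0 : (C u * X ^ (r + 1) - p).eval₂ θ (θ a / θ b) = 0 := by
    have e2 := congrArg θ e
    rw [map_mul, map_mul, map_pow, e'] at e2
    rw [eval₂_sub, eval₂_mul, eval₂_C, eval₂_X_pow, div_pow, sub_eq_zero, ← mul_div_assoc, ← e2,
      div_eq_iff (pow_ne_zero _ hb)]
    ring
  have h1 := θ.isIntegralElem_leadingCoeff_mul _ _ h0
  rwa [leadingCoeff_sub_of_degree_lt hd, leadingCoeff_C_mul_X_pow, ← mul_div_assoc] at h1

theorem mem_of_isIntegralElem {D : Type v} [CommRing D] [Nontrivial D] {Ω : Type u} [Field Ω]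
    (θ : D →+* Ω) (hθ : Function.Injective θ) {a b : D} (hb : b ≠ 0)
    (h : θ.IsIntegralElem (θ a / θ b)) :
    ∃ r : ℕ, a ^ (r + 1) ∈ Ideal.span {b} * Ideal.span {a, b} ^ r := by
  obtain ⟨p, hp, h0⟩ := h
  have hb' : θ b ≠ 0 := (map_ne_zero_iff θ hθ).2 hb
  obtain ⟨r, hr⟩ : ∃ r, p.natDegree = r + 1 := by
    refine Nat.exists_eq_succ_of_ne_zero fun h1 => ?_
    rw [hp.natDegree_eq_zero.1 h1] at h0
    simp at h0
  refine ⟨r, Ideal.mem_span_singleton_mul.2
    ⟨-∑ i ∈ Finset.range (r + 1), p.coeff i * (a ^ i * b ^ (r - i)), ?_, hθ ?_⟩⟩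
  · refine neg_mem (Ideal.sum_mem _ fun i hi => Ideal.mul_mem_left _ _ ?_)
    have hi' : r = i + (r - i) := by
      have := Finset.mem_range.1 hi
      omega
    conv_lhs => rw [hi', pow_add]
    exact Ideal.mul_mem_mul (Ideal.pow_mem_pow (Ideal.subset_span (by simp)) _)
      (Ideal.pow_mem_pow (Ideal.subset_span (by simp)) _)
  · rw [eval₂_eq_sum_range, Finset.sum_range_succ, hp.coeff_natDegree, hr, map_one, one_mul,
      add_eq_zero_iff_neg_eq, div_pow, eq_div_iff (pow_ne_zero _ hb')] at h0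
    rw [map_pow, ← h0, map_mul, map_neg, map_sum, mul_neg, neg_mul, Finset.mul_sum, Finset.sum_mul]
    congr 1
    refine Finset.sum_congr rfl fun i hi => ?_
    obtain ⟨j, rfl⟩ : ∃ j, r = i + j := ⟨r - i, by
      have := Finset.mem_range.1 hi
      omega⟩
    simp only [map_mul, map_pow, Nat.add_sub_cancel_left, div_pow]
    field_simp
    ring

/-- Normality at the points where the discriminant does not vanish.
Hint: `isIntegralElem_of_mem` for `σ 0`, transitivity of integrality, `Δ_span`. -/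
theorem Emb.normal_at {k : Type u} [Field k] {n : ℕ} {B : Type u} [CommRing B] [IsDomain B]
    [Algebra k B] [Algebra (PA k n) B] [IsScalarTower k (PA k n) B]
    [Algebra.IsIntegral (PA k n) B] (emb : Emb k n B) (x : B →ₐ[k] k)
    (hx : MvPolynomial.eval (pt n x) emb.Δ ≠ 0) {s t U : B} (ht : t ≠ 0) (hU : x U ≠ 0) {r : ℕ}
    (h : U * s ^ (r + 1) ∈ Ideal.span {t} * Ideal.span {s, t} ^ r) :
    ∃ U' C : B, x U' ≠ 0 ∧ U' * s = C * t := by
  let θ : B →+* Om k n := (emb.σ ⟨0, emb.m_pos⟩ : B →+* Om k n)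
  have hθ : θ t ≠ 0 := (map_ne_zero_iff θ (emb.σ_inj _)).2 ht
  have h1 := isIntegralElem_of_mem θ hθ h
  have h2 : IsIntegral (PA k n) (θ U * θ s / θ t) := by
    let _ : Algebra B (Om k n) := θ.toAlgebra
    have : IsScalarTower (PA k n) B (Om k n) :=
      IsScalarTower.of_algebraMap_eq fun f => ((emb.σ ⟨0, emb.m_pos⟩).commutes f).symm
    exact isIntegral_trans (A := B) _ h1
  rw [← map_mul] at h2
  obtain ⟨g, -, hg⟩ := emb.Δ_span (U * s) t ht h2
  refine ⟨algebraMap (PA k n) B emb.Δ * U, aeval emb.z g, ?_, by rw [mul_assoc, hg, mul_comm]⟩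
  rw [map_mul, map_algebraMap_eq_eval]
  exact mul_ne_zero hx hU

/-- A separable integral element whose algebra has one prime over `M` lies in the localisation.
Hint: take `a` with `ψ (algebraMap a) = ψ α`, `β = α - a`. Then `g(a) ∈ M` and `g(a) = - β * y` with
`ψ y = ψ (g'(α)) ≠ 0` (`Polynomial.binomExpansion` or `evalSubFactor`), so `b * β ∈ M • S` with
`b ∉ M`; as `S = D + β * S` and `b` is invertible modulo `M`, `S = D + M • S`; Nakayama
(`Submodule.exists_sub_one_mem_and_smul_le_of_fg_of_le_sup`). -/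
theorem sep_nakayama {D : Type v} [CommRing D] {S : Type u} [CommRing S] [Algebra D S]
    {k : Type u} [Field k] (α : S) (hα : IsIntegral D α) (htop : Algebra.adjoin D {α} = ⊤)
    (ψ : S →+* k) (hsurj : Function.Surjective (ψ.comp (algebraMap D S)))
    (hloc : ∀ y : S, ψ y ≠ 0 → ∃ b : D, ψ (algebraMap D S b) ≠ 0 ∧ y ∣ algebraMap D S b)
    (g : D[X]) (hg : aeval α g = 0) (hg' : ψ (aeval α (derivative g)) ≠ 0) :
    ∃ a b : D, ψ (algebraMap D S b) ≠ 0 ∧ α * algebraMap D S b = algebraMap D S a := by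
  set M : Ideal D := RingHom.ker (ψ.comp (algebraMap D S)) with hM
  set J : Ideal S := M.map (algebraMap D S) with hJ
  obtain ⟨a, ha⟩ := hsurj (ψ α)
  rw [RingHom.comp_apply] at ha
  obtain ⟨β, hβ⟩ : ∃ β, β = algebraMap D S a - α := ⟨_, rfl⟩
  have hβ0 : ψ β = 0 := by rw [hβ, map_sub, ha, sub_self]
  obtain ⟨c, hc⟩ := (g.map (algebraMap D S)).binomExpansion α β
  rw [derivative_map, eval_map_algebraMap, eval_map_algebraMap, eval_map_algebraMap, hg, zero_add,
    show α + β = algebraMap D S a by rw [hβ]; ring,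
    aeval_algebraMap_apply_eq_algebraMap_eval] at hc
  have hc' : algebraMap D S (g.eval a) = β * (aeval α (derivative g) + c * β) := by
    rw [hc]; ring
  have hga : g.eval a ∈ M := by
    rw [hM, RingHom.mem_ker, RingHom.comp_apply, hc', map_mul, hβ0, zero_mul]
  obtain ⟨b, hb, e, he⟩ := hloc (aeval α (derivative g) + c * β) (by
    rwa [map_add, map_mul, hβ0, mul_zero, add_zero])
  obtain ⟨b', hb'⟩ := hsurj (ψ (algebraMap D S b))⁻¹
  rw [RingHom.comp_apply] at hb'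
  have hm : 1 - b * b' ∈ M := by
    rw [hM, RingHom.mem_ker, RingHom.comp_apply, map_sub, map_one, map_sub, map_one, map_mul,
      map_mul, hb', mul_inv_cancel₀ hb, sub_self]
  have hβJ : β ∈ J := by
    have e1 : β = algebraMap D S (1 - b * b') * β +
        algebraMap D S (g.eval a) * (e * algebraMap D S b') := by
      rw [map_sub, map_one, map_mul, hc', he]
      ring
    rw [e1]
    exact J.add_mem (J.mul_mem_right _ (Ideal.mem_map_of_mem _ hm))
      (J.mul_mem_right _ (Ideal.mem_map_of_mem _ hga))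
  have hall : ∀ s : S, ∃ d : D, s - algebraMap D S d ∈ J := by
    intro s
    have hs : s ∈ Algebra.adjoin D {α} := htop ▸ Algebra.mem_top
    induction hs using Algebra.adjoin_induction with
    | mem x hx =>
      rw [Set.mem_singleton_iff.1 hx]
      exact ⟨a, by simpa [hβ] using J.neg_mem hβJ⟩
    | algebraMap d => exact ⟨d, by simp⟩
    | add x y _ _ hx hy =>
      obtain ⟨d, hd⟩ := hx
      obtain ⟨d', hd'⟩ := hy
      refine ⟨d + d', ?_⟩
      convert J.add_mem hd hd' using 1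
      rw [map_add]; ring
    | mul x y _ _ hx hy =>
      obtain ⟨d, hd⟩ := hx
      obtain ⟨d', hd'⟩ := hy
      refine ⟨d * d', ?_⟩
      convert J.add_mem (J.mul_mem_right y hd) (J.mul_mem_left (algebraMap D S d) hd') using 1
      rw [map_mul]; ring
  have hfg : (⊤ : Submodule D S).FG := by
    have := hα.fg_adjoin_singleton
    rwa [htop, Algebra.top_toSubmodule] at this
  obtain ⟨r, hr, hr'⟩ := Submodule.exists_sub_one_mem_and_smul_le_of_fg_of_le_sup (I := M)
    (N := LinearMap.range (Algebra.linearMap D S)) (P := ⊤) hfg le_rfl (by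
      intro s _
      obtain ⟨d, hd⟩ := hall s
      rw [Ideal.smul_top_eq_map]
      exact Submodule.mem_sup.2 ⟨algebraMap D S d, ⟨d, rfl⟩, _, hd, by ring⟩)
  obtain ⟨d, hd⟩ := hr' (Submodule.smul_mem_pointwise_smul α r ⊤ trivial)
  refine ⟨d, r, ?_, ?_⟩
  · rw [hM, RingHom.mem_ker, map_sub, map_one, sub_eq_zero, RingHom.comp_apply] at hr
    rw [hr]
    exact one_ne_zero
  · rw [mul_comm, ← Algebra.smul_def]
    exact hd.symm

end Pool.Agent.MP_f1fec5_al.Aff

end
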