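import Pool.Agent.MP_f1fec5_al.Aff.Cnt3

section

namespace Pool.Agent.MP_f1fec5_al.Aff

open Polynomial

universe u v

/-- invertible ideal of a domain -/
def Inv {B : Type u} [CommRing B] (I : Ideal B) : Prop :=
  ∃ (C : Ideal B) (s : B), s ≠ 0 ∧ I * C = Ideal.span {s}

/-- a bounded power of every value comes from the ground field -/
lemma k3a_pow {K L Γ : Type*} [Field K] [Field L] [Algebra K L] [FiniteDimensional K L]
    [LinearOrderedCommGroupWithZero Γ] (w : Valuation L Γ) {x : L} (hx : x ≠ 0) :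
    ∃ y : K, y ≠ 0 ∧ w x ^ (Module.finrank K L).factorial = w (algebraMap K L y) := by
  classical
  have hint : IsIntegral K x := IsIntegral.of_finite K x
  set p := minpoly K x with hp
  have hd : p.natDegree ≤ Module.finrank K L := minpoly.natDegree_le x
  have hm : p.Monic := minpoly.monic hint
  let f : ℕ → L := fun i => algebraMap K L (p.coeff i) * x ^ i
  have hsum : ∑ i ∈ Finset.range (p.natDegree + 1), f i = 0 := by
    have h1 := minpoly.aeval K x
    rw [aeval_eq_sum_range] at h1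
    simpa [f, Algebra.smul_def] using h1
  obtain ⟨j, hj, hmax⟩ := Finset.exists_max_image (Finset.range (p.natDegree + 1)) (fun i => w (f i))
    ⟨0, by simp⟩
  have hx' : w x ≠ 0 := (Valuation.ne_zero_iff w).2 hx
  have hj0 : w (f j) ≠ 0 := by
    have h1 := hmax p.natDegree (by simp)
    have h2 : w (f p.natDegree) ≠ 0 := by
      simp [f, hm.coeff_natDegree, hx]
    exact fun h => h2 (le_zero_iff.1 (h ▸ h1))
  obtain ⟨i, hi, hij, e⟩ : ∃ i ∈ Finset.range (p.natDegree + 1), i ≠ j ∧ w (f i) = w (f j) := by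
    by_contra hcon
    push Not at hcon
    have h1 := w.map_sum_eq_of_lt (f := f) hj fun i hi => by
      rw [Finset.mem_sdiff, Finset.mem_singleton] at hi
      exact lt_of_le_of_ne (hmax i hi.1) (hcon i hi.1 hi.2)
    rw [hsum, map_zero] at h1
    exact hj0 h1.symm
  have key : ∀ i j, i < j → j < p.natDegree + 1 → w (f i) = w (f j) → w (f j) ≠ 0 →
      ∃ y : K, y ≠ 0 ∧ w x ^ (Module.finrank K L).factorial = w (algebraMap K L y) := by
    intro i j hij hj e h0
    obtain ⟨c, rfl⟩ := Nat.exists_eq_add_of_lt hij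
    obtain ⟨g, hg⟩ := Nat.dvd_factorial (Nat.succ_pos c) (show c + 1 ≤ Module.finrank K L by omega)
    have hi0 : p.coeff i ≠ 0 := fun h => h0 (by rw [← e]; simp [f, h])
    have hj0 : p.coeff (i + c + 1) ≠ 0 := fun h => h0 (by simp [f, h])
    refine ⟨(p.coeff i / p.coeff (i + c + 1)) ^ g, pow_ne_zero _ (div_ne_zero hi0 hj0), ?_⟩
    rw [hg, pow_mul, map_pow, map_pow]
    congr 1
    have h1 : w (algebraMap K L (p.coeff (i + c + 1))) ≠ 0 := by simpa using hj0
    rw [map_div₀, map_div₀, eq_div_iff h1]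
    simp only [f, map_mul, map_pow] at e
    refine mul_right_cancel₀ (pow_ne_zero i hx') ?_
    rw [e, add_assoc, pow_add]
    ac_rfl
  rw [Finset.mem_range] at hi hj
  rcases lt_or_gt_of_ne hij with h | h
  · exact key i j h hj e hj0
  · exact key j i h hi e.symm (e ▸ hj0)

/-- an element with many roots up to units has value at most one -/
lemma k3a_val {A K L Γ : Type*} [CommRing A] [IsDomain A] [UniqueFactorizationMonoid A] [Field K]
    [Algebra A K] [IsFractionRing A K] [Field L] [Algebra K L] [Algebra A L] [IsScalarTower A K L]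
    [FiniteDimensional K L] [LinearOrderedCommGroupWithZero Γ] (w : Valuation L Γ) {ϖ : A}
    (hϖ : Prime ϖ) (h1 : ∀ b, ¬ ϖ ∣ b → w (algebraMap A L b) = 1) {z : L}
    (h : ∀ N₀ : ℕ, ∃ N, N₀ < N ∧ ∃ y : L, w z = w y ^ N) : w z ≤ 1 := by
  have hinj : Function.Injective (algebraMap A L) := by
    rw [IsScalarTower.algebraMap_eq A K L]
    exact (algebraMap K L).injective.comp (IsFractionRing.injective A K)
  set γ := w (algebraMap A L ϖ) with hγ
  have hγ0 : γ ≠ 0 := (Valuation.ne_zero_iff w).2 ((map_ne_zero_iff _ hinj).2 hϖ.ne_zero)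
  have hA : ∀ a : A, a ≠ 0 → ∃ e : ℕ, w (algebraMap A L a) = γ ^ e := by
    intro a ha
    obtain ⟨e, b, hb, rfl⟩ := WfDvdMonoid.max_power_factor ha hϖ.irreducible
    exact ⟨e, by rw [map_mul, map_mul, h1 b hb, mul_one, map_pow, map_pow]⟩
  have hL : ∀ x : L, x ≠ 0 → ∃ e : ℤ, w x ^ (Module.finrank K L).factorial = γ ^ e := by
    intro x hx
    obtain ⟨y, hy, e⟩ := k3a_pow (K := K) w hx
    obtain ⟨a, b, hb, rfl⟩ := IsFractionRing.div_surjective (A := A) y
    have ha : a ≠ 0 := by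
      rintro rfl
      simp at hy
    obtain ⟨e1, h2⟩ := hA a ha
    obtain ⟨e2, h3⟩ := hA b (nonZeroDivisors.ne_zero hb)
    refine ⟨(e1 : ℤ) - e2, ?_⟩
    rw [e, map_div₀, map_div₀, ← IsScalarTower.algebraMap_apply, ← IsScalarTower.algebraMap_apply, h2, h3,
      zpow_sub₀ hγ0, zpow_natCast, zpow_natCast]
  by_cases hz : z = 0
  · simp [hz]
  obtain ⟨e, he⟩ := hL z hz
  obtain ⟨N, hN, y, hy⟩ := h e.natAbs
  have hy0 : y ≠ 0 := by
    rintro rfl
    rw [map_zero, zero_pow (by omega)] at hy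
    exact hz ((Valuation.zero_iff w).1 hy)
  obtain ⟨e', he'⟩ := hL y hy0
  have h2 : γ ^ e = γ ^ (e' * N) := by
    rw [← he, hy, ← pow_mul, mul_comm, pow_mul, he', zpow_mul, zpow_natCast]
  have h3 : γ ^ e = 1 := by
    by_cases hγ1 : γ = 1
    · rw [hγ1, one_zpow]
    have h4 : e = e' * N := zpow_right_injective₀ (zero_lt_iff.2 hγ0) hγ1 h2
    have h5 : e = 0 := by
      refine Int.eq_zero_of_dvd_of_natAbs_lt_natAbs (d := N) ⟨e', by rw [h4, mul_comm]⟩ ?_
      simpa using hN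
    rw [h5, zpow_zero]
  rw [h3] at he
  exact (pow_le_one_iff_of_nonneg zero_le (Nat.factorial_ne_zero _)).1 he.le

/-- denominators avoiding every prime element of a prime ideal -/
lemma k3a_den {A K : Type*} [CommRing A] [IsDomain A] [UniqueFactorizationMonoid A] [Field K]
    [Algebra A K] [IsFractionRing A K] (P : Ideal A) [hP : P.IsPrime] (c : K)
    (h : ∀ ϖ ∈ P, Prime ϖ → ∃ a b : A, ¬ ϖ ∣ b ∧ c * algebraMap A K b = algebraMap A K a) :
    ∃ a b : A, b ∉ P ∧ c * algebraMap A K b = algebraMap A K a := by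
  have hd : algebraMap A K (IsFractionRing.den A c : A) ≠ 0 :=
    IsFractionRing.to_map_ne_zero_of_mem_nonZeroDivisors (IsFractionRing.den A c).2
  have e : c * algebraMap A K (IsFractionRing.den A c : A) = algebraMap A K (IsFractionRing.num A c) := by
    rw [← eq_div_iff hd, IsFractionRing.mk'_num_den']
  refine ⟨_, _, fun hmem => ?_, e⟩
  obtain ⟨ϖ, hϖ, hd', hp⟩ : ∃ ϖ ∈ P, ϖ ∣ (IsFractionRing.den A c : A) ∧ Prime ϖ := by
    obtain ⟨f, hf, u, hu⟩ := UniqueFactorizationMonoid.exists_prime_factors (IsFractionRing.den A c : A)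
      (nonZeroDivisors.coe_ne_zero _)
    rw [← hu, hP.mul_mem_iff_mem_or_mem] at hmem
    rcases hmem with h1 | h1
    · obtain ⟨ϖ, h2, h3⟩ := (hP.multiset_prod_mem_iff_exists_mem f).1 h1
      exact ⟨ϖ, h3, (Multiset.dvd_prod h2).trans ⟨u, hu.symm⟩, hf ϖ h2⟩
    · exact absurd (Ideal.eq_top_of_isUnit_mem _ h1 u.isUnit) hP.ne_top
  obtain ⟨a, b, hb, e'⟩ := h ϖ hϖ hp
  have h1 : IsFractionRing.num A c * b = (IsFractionRing.den A c : A) * a := by
    apply IsFractionRing.injective A K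
    rw [map_mul, map_mul, ← e, ← e']
    ring
  exact hb (hd'.trans ((IsFractionRing.num_den_reduced A c).symm.dvd_of_dvd_mul_left ⟨a, h1⟩))

/-- the coefficients of the minimal polynomial have denominators prime to `ϖ` -/
lemma k3a_coeff {A K L : Type*} [CommRing A] [IsDomain A] [UniqueFactorizationMonoid A] [Field K]
    [Algebra A K] [IsFractionRing A K] [Field L] [Algebra K L] [Algebra A L] [IsScalarTower A K L]
    {ϖ : A} (hϖ : Prime ϖ) {z : L}
    (h : ∀ W : ValuationSubring L, (∀ a, algebraMap A L a ∈ W) →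
      (∀ b, ¬ ϖ ∣ b → W.valuation (algebraMap A L b) = 1) → z ∈ W) (i : ℕ) :
    ∃ a b : A, ¬ ϖ ∣ b ∧ (minpoly K z).coeff i * algebraMap A K b = algebraMap A K a := by
  have hP : (Ideal.span {ϖ}).IsPrime := (Ideal.span_singleton_prime hϖ.ne_zero).2 hϖ
  let S : Submonoid A := (Ideal.span {ϖ}).primeCompl
  have hS : S ≤ nonZeroDivisors A := (Ideal.span {ϖ}).primeCompl_le_nonZeroDivisors
  let R : Subalgebra A K := Localization.subalgebra.ofField K S hS
  have : IsIntegrallyClosed R := isIntegrallyClosed_of_isLocalization R S hS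
  have hinj : Function.Injective (algebraMap A L) := by
    rw [IsScalarTower.algebraMap_eq A K L]
    exact (algebraMap K L).injective.comp (IsFractionRing.injective A K)
  have hz : IsIntegral R z := by
    have h1 : z ∈ (integralClosure (Subring.closure (Set.range (algebraMap R L))) L).toSubring := by
      rw [← iInf_valuationSubring_superset, Subring.mem_iInf]
      rintro ⟨W, hW⟩
      have h2 : ∀ a, algebraMap A L a ∈ W := fun a =>
        hW ⟨algebraMap A R a, (IsScalarTower.algebraMap_apply A R L a).symm⟩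
      refine h W h2 fun b hb => le_antisymm ((W.valuation_le_one_iff _).2 (h2 b)) ?_
      have hb0 : algebraMap A L b ≠ 0 := (map_ne_zero_iff _ hinj).2 (by rintro rfl; exact hb (dvd_zero _))
      have h3 : (algebraMap A L b)⁻¹ ∈ W := by
        refine hW ⟨⟨(algebraMap A K b)⁻¹, 1, b, fun h => hb (Ideal.mem_span_singleton.1 h), by simp⟩, ?_⟩
        change algebraMap K L (algebraMap A K b)⁻¹ = _
        rw [map_inv₀, ← IsScalarTower.algebraMap_apply]
      have h4 := (W.valuation_le_one_iff _).2 h3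
      rwa [map_inv₀, inv_le_one₀ (zero_lt_iff.2 ((Valuation.ne_zero_iff _).2 hb0))] at h4
    obtain ⟨p, hp, e⟩ : IsIntegral (Subring.closure (Set.range (algebraMap R L))) z := h1
    have h2 : p.map (Subring.subtype _) ∈ Polynomial.lifts (algebraMap R L) := by
      rw [lifts_iff_coeff_lifts]
      intro n
      rw [coeff_map]
      exact (Subring.closure_le (t := (algebraMap R L).range)).2 subset_rfl (p.coeff n).2
    obtain ⟨q, hq, -, hq'⟩ := lifts_and_degree_eq_and_monic h2 (hp.map _)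
    refine ⟨q, hq', ?_⟩
    rw [← eval_map, hq, eval_map]
    exact e
  rw [minpoly.isIntegrallyClosed_eq_field_fractions' K hz, coeff_map]
  obtain ⟨a, b, hb, e⟩ := ((minpoly R z).coeff i).2
  refine ⟨a, b, fun h => hb (Ideal.mem_span_singleton.2 h), ?_⟩
  change ((minpoly R z).coeff i : K) * _ = _
  rw [e, inv_mul_cancel_right₀ (IsFractionRing.to_map_ne_zero_of_mem_nonZeroDivisors (hS hb))]

lemma k3a_gen {B : Type*} [CommRing B] {I : Ideal B} {s u : B} (h : ∀ x ∈ I, s ∣ u * x) (N : ℕ) :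
    ∀ x ∈ I ^ N, s ^ N ∣ u ^ N * x := by
  have h1 : Ideal.span {u} * I ≤ Ideal.span {s} := by
    rw [Ideal.span_singleton_mul_le_iff]
    exact fun x hx => Ideal.mem_span_singleton.2 (h x hx)
  have h2 := Ideal.pow_right_mono h1 N
  rw [mul_pow, Ideal.span_singleton_pow, Ideal.span_singleton_pow, Ideal.span_singleton_mul_le_iff] at h2
  exact fun x hx => Ideal.mem_span_singleton.1 (h2 x hx)

lemma k3a_gen2 {B : Type*} [CommRing B] {I J : Ideal B} {s u t w : B} (h : ∀ x ∈ I, s ∣ u * x)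
    (h' : ∀ x ∈ J, t ∣ w * x) : ∀ x ∈ I * J, s * t ∣ u * w * x := by
  intro x hx
  refine Submodule.mul_induction_on hx (fun a ha b hb => ?_) fun a b ha hb => ?_
  · rw [mul_mul_mul_comm]
    exact mul_dvd_mul (h a ha) (h' b hb)
  · rw [mul_add]
    exact dvd_add ha hb

lemma k3a_ne {B : Type u} [CommRing B] [IsDomain B] {I : Ideal B} (hI : Inv I) {s u : B} (hu : u ≠ 0)
    (h : ∀ x ∈ I, s ∣ u * x) : s ≠ 0 := by
  obtain ⟨C, c, hc, e⟩ := hI
  rintro rfl
  have h1 : I = ⊥ := eq_bot_iff.2 fun x hx => by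
    simpa [hu] using h x hx
  rw [h1, Ideal.bot_mul, eq_comm, Ideal.span_singleton_eq_bot] at e
  exact hc e

theorem k3a_gen_ring {A : Type v} [CommRing A] [IsDomain A] [UniqueFactorizationMonoid A] {B : Type u}
    [CommRing B] [IsDomain B] [Algebra A B] [Module.Finite A B]
    (hinj : Function.Injective (algebraMap A B)) {Ia Ib : Ideal B} (ha : Inv Ia) (hb : Inv Ib)
    (h : ∀ N₀ : ℕ, ∃ N, N₀ < N ∧ N.Prime ∧ ∃ I₁ I₂ : Ideal B, Inv I₁ ∧ Inv I₂ ∧
      Ia * I₂ ^ N = Ib * I₁ ^ N) (M : Ideal B) [hM : M.IsMaximal] :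
    ∃ (r : ℕ) (u : B), u ∉ M ∧ Ideal.span {u} * Ia ^ (r + 1) ≤ Ib * (Ia ⊔ Ib) ^ r := by
  classical
  have : FaithfulSMul A B := (faithfulSMul_iff_algebraMap_injective A B).2 hinj
  let K := FractionRing A
  let L := FractionRing B
  let _ : Algebra K L := FractionRing.liftAlgebra A L
  have : FiniteDimensional K L := .of_isLocalization A B (nonZeroDivisors A)
  let P : Ideal A := M.comap (algebraMap A B)
  have hP : P.IsMaximal := Ideal.isMaximal_comap_of_isIntegral_of_isMaximal M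
  have hmax : ∀ Q ∈ P.primesOver B, Q.IsMaximal := fun Q hQ => by
    have := hQ.1
    refine Ideal.isMaximal_of_isIntegral_of_isMaximal_comap (R := A) Q ?_
    have h1 : P = Q.comap (algebraMap A B) := hQ.2.over
    exact h1 ▸ hP
  have hMT : M ∈ P.primesOver B := ⟨hM.isPrime, ⟨rfl⟩⟩
  have gen : ∀ I : Ideal B, Inv I → ∃ s ∈ I, ∃ u : B, (∀ Q ∈ P.primesOver B, u ∉ Q) ∧ s ≠ 0 ∧
      ∀ x ∈ I, s ∣ u * x := by
    intro I hI
    obtain ⟨C, c, hc, e⟩ := id hI
    obtain ⟨s, hs, u, hu, h1⟩ := exists_local_gen (mem_nonZeroDivisors_of_ne_zero hc) e _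
      (Algebra.QuasiFinite.finite_primesOver P) hmax
    exact ⟨s, hs, u, hu, k3a_ne hI (fun h : u = 0 => hu M hMT (h ▸ M.zero_mem)) h1, h1⟩
  obtain ⟨s, hs, ua, hua, hs0, hsa⟩ := gen Ia ha
  obtain ⟨t, ht, ub, hub, ht0, htb⟩ := gen Ib hb
  have hBL : ∀ {x : B}, x ≠ 0 → algebraMap B L x ≠ 0 := fun hx =>
    (map_ne_zero_iff _ (IsFractionRing.injective B L)).2 hx
  set z : L := algebraMap B L s / algebraMap B L t with hz
  have hc : ∀ i, ∃ a b : A, b ∉ P ∧ (minpoly K z).coeff i * algebraMap A K b = algebraMap A K a := by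
    intro i
    refine k3a_den P _ fun ϖ hϖ hp => k3a_coeff hp (fun W h1 h2 => ?_) i
    have h3 : ∀ x : B, W.valuation (algebraMap B L x) ≤ 1 := fun x => by
      rw [W.valuation_le_one_iff]
      have h4 : IsIntegral A (algebraMap B L x) := (IsIntegral.of_finite A x).algebraMap
      obtain ⟨p, hp, e⟩ := h4
      let g : A →+* W := (algebraMap A L).codRestrict W.toSubring h1
      have h5 : IsIntegral W (algebraMap B L x) := ⟨p.map g, hp.map g, by rw [eval₂_map]; exact e⟩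
      obtain ⟨y, hy⟩ := IsIntegrallyClosed.algebraMap_eq_of_integral h5
      exact hy ▸ y.2
    have h4 : ∀ u : B, (∀ Q ∈ P.primesOver B, u ∉ Q) → W.valuation (algebraMap B L u) = 1 := by
      intro u hu
      obtain ⟨a, h5, h6⟩ : ∃ a : A, algebraMap A B a ∈ Ideal.span {u} ∧ a ∉ P := by
        by_contra hcon
        push Not at hcon
        obtain ⟨Q, hQ, hQ1, hQ2⟩ := Ideal.exists_ideal_over_prime_of_isIntegral P (Ideal.span {u}) hcon
        exact hu Q ⟨hQ1, ⟨hQ2.symm⟩⟩ (hQ (Ideal.mem_span_singleton_self u))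
      obtain ⟨c, hc⟩ := Ideal.mem_span_singleton'.1 h5
      have h7 := h2 a fun hd => h6 (Ideal.mem_of_dvd P hd hϖ)
      rw [IsScalarTower.algebraMap_apply A B L, ← hc, map_mul, map_mul] at h7
      refine le_antisymm (h3 u) ?_
      rw [← h7]
      exact mul_le_of_le_one_left' (h3 c)
    have h5 : ∀ x y u : B, (∀ Q ∈ P.primesOver B, u ∉ Q) → x ∣ u * y →
        W.valuation (algebraMap B L y) ≤ W.valuation (algebraMap B L x) := by
      rintro x y u hu ⟨c, hc⟩
      have h6 := congrArg (fun b => W.valuation (algebraMap B L b)) hc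
      simp only [map_mul, h4 u hu, one_mul] at h6
      rw [h6]
      exact mul_le_of_le_one_right' (h3 c)
    rw [← W.valuation_le_one_iff]
    refine k3a_val (K := K) W.valuation hp h2 fun N₀ => ?_
    obtain ⟨N, hN, -, I₁, I₂, h6, h7, e⟩ := h N₀
    obtain ⟨s₁, hs₁, u₁, hu₁, hs₁0, g₁⟩ := gen I₁ h6
    obtain ⟨s₂, hs₂, u₂, hu₂, hs₂0, g₂⟩ := gen I₂ h7
    refine ⟨N, hN, algebraMap B L s₁ / algebraMap B L s₂, ?_⟩
    have hu : ∀ u u' : B, (∀ Q ∈ P.primesOver B, u ∉ Q) → (∀ Q ∈ P.primesOver B, u' ∉ Q) →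
        ∀ Q ∈ P.primesOver B, u * u' ^ N ∉ Q := fun u u' h h' Q hQ hm =>
      (hQ.1.mem_or_mem hm).elim (h Q hQ) fun h1 => h' Q hQ (hQ.1.mem_of_pow_mem N h1)
    have e1 := h5 _ _ _ (hu _ _ hub hu₁) (k3a_gen2 htb (k3a_gen g₁ N) (s * s₂ ^ N)
      (e ▸ Ideal.mul_mem_mul hs (Ideal.pow_mem_pow hs₂ N)))
    have e2 := h5 _ _ _ (hu _ _ hua hu₂) (k3a_gen2 hsa (k3a_gen g₂ N) (t * s₁ ^ N)
      (e ▸ Ideal.mul_mem_mul ht (Ideal.pow_mem_pow hs₁ N)))
    have e3 := le_antisymm e1 e2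
    simp only [map_mul, map_pow] at e3
    rw [hz, map_div₀, map_div₀, div_pow, div_eq_div_iff ((Valuation.ne_zero_iff _).2 (hBL ht0))
      (pow_ne_zero _ ((Valuation.ne_zero_iff _).2 (hBL hs₂0))), e3, mul_comm]
  choose a b hb' hab using hc
  have hint : IsIntegral K z := IsIntegral.of_finite K z
  obtain ⟨r, hr⟩ := Nat.exists_eq_add_one_of_ne_zero (minpoly.natDegree_pos hint).ne'
  set β : A := ∏ i ∈ Finset.range (r + 1), b i with hβ
  have hβP : β ∉ P := fun hm => by
    obtain ⟨i, -, hi⟩ := (Ideal.IsPrime.prod_mem_iff (hp := hP.isPrime)).1 hm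
    exact hb' i hi
  have hco : ∀ i ∈ Finset.range (r + 1), ∃ c : A,
      (minpoly K z).coeff i * algebraMap A K β = algebraMap A K c := fun i hi => by
    obtain ⟨d, hd⟩ := Finset.dvd_prod_of_mem b hi
    exact ⟨a i * d, by rw [hβ, hd, map_mul, map_mul, ← mul_assoc, hab]⟩
  choose! c hc using hco
  have hrel : algebraMap A B β * s ^ (r + 1) =
      -∑ i ∈ Finset.range (r + 1), algebraMap A B (c i) * (t * (s ^ i * t ^ (r - i))) := by
    apply IsFractionRing.injective B L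
    have h1 := minpoly.aeval K z
    rw [aeval_eq_sum_range, hr, Finset.sum_range_succ, ← hr, (minpoly.monic hint).coeff_natDegree, hr,
      one_smul, add_eq_zero_iff_eq_neg'] at h1
    have h2 : algebraMap B L s = z * algebraMap B L t := by rw [hz, div_mul_cancel₀ _ (hBL ht0)]
    rw [map_mul, map_pow, h2, mul_pow, h1, map_neg, map_sum, neg_mul, mul_neg, Finset.sum_mul,
      Finset.mul_sum]
    refine congrArg _ (Finset.sum_congr rfl fun i hi => ?_)
    have h3 : r + 1 = 1 + i + (r - i) := by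
      rw [Finset.mem_range] at hi
      omega
    simp only [map_mul, map_pow, h2, ← IsScalarTower.algebraMap_apply]
    rw [IsScalarTower.algebraMap_apply A K L (c i), ← hc i hi, map_mul, ← IsScalarTower.algebraMap_apply,
      Algebra.smul_def, h3]
    ring
  refine ⟨r, algebraMap A B β * ua ^ (r + 1), fun hm => ?_, ?_⟩
  · rcases hM.isPrime.mem_or_mem hm with h1 | h1
    · exact hβP h1
    · exact hua M hMT (hM.isPrime.mem_of_pow_mem _ h1)
  · rw [Ideal.span_singleton_mul_le_iff]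
    intro x hx
    obtain ⟨y, hy⟩ := k3a_gen hsa (r + 1) x hx
    rw [mul_assoc, hy, ← mul_assoc, hrel]
    refine Ideal.mul_mem_right _ _ (neg_mem (Ideal.sum_mem _ fun i hi => Ideal.mul_mem_left _ _ ?_))
    refine Ideal.mul_mem_mul ht ?_
    have h1 : r = i + (r - i) := by
      rw [Finset.mem_range] at hi
      omega
    conv_lhs => rw [h1, pow_add]
    exact Ideal.mul_mem_mul (Ideal.pow_mem_pow (Ideal.mem_sup_left hs) _)
      (Ideal.pow_mem_pow (Ideal.mem_sup_right ht) _)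

/-- An invertible fractional ideal with `N`-th roots for arbitrarily large primes `N` is integral. -/
theorem k3a {k : Type u} [Field k] {n : ℕ} {B : Type u} [CommRing B] [IsDomain B]
    [Algebra (PA k n) B] [Module.Finite (PA k n) B]
    (hinj : Function.Injective (algebraMap (PA k n) B)) {Ia Ib : Ideal B} (ha : Inv Ia)
    (hb : Inv Ib)
    (h : ∀ N₀ : ℕ, ∃ N, N₀ < N ∧ N.Prime ∧ ∃ I₁ I₂ : Ideal B, Inv I₁ ∧ Inv I₂ ∧
      Ia * I₂ ^ N = Ib * I₁ ^ N) (M : Ideal B) [M.IsMaximal] :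
    ∃ (r : ℕ) (u : B), u ∉ M ∧ Ideal.span {u} * Ia ^ (r + 1) ≤ Ib * (Ia ⊔ Ib) ^ r :=
  k3a_gen_ring hinj ha hb h M

end Pool.Agent.MP_f1fec5_al.Aff

end

section

namespace Pool.Agent.MP_f1fec5_al.Aff

open Polynomial ModelAux

universe u v

/-- Elements of the form `U * s ^ (r+1) - h`. -/
def k3_Good {R : Type u} [CommRing R] (Ib J M : Ideal R) (s y : R) : Prop :=
  ∃ (r : ℕ) (U h : R), U ∉ M ∧ h ∈ Ib * J ^ r ∧ y = U * s ^ (r + 1) - h

lemma k3_good_mul {R : Type u} [CommRing R] {Ib J M : Ideal R} {s y y' : R} (hM : M.IsPrime)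
    (hs : s ∈ J) (hb : Ib ≤ J) (h : k3_Good Ib J M s y) (h' : k3_Good Ib J M s y') :
    k3_Good Ib J M s (y * y') := by
  obtain ⟨r, U, g, hU, hg, rfl⟩ := h
  obtain ⟨r', U', g', hU', hg', rfl⟩ := h'
  refine ⟨r + r' + 1, U * U', U * (g' * s ^ (r + 1)) + U' * (g * s ^ (r' + 1)) - g * g',
    fun hm => (hM.mem_or_mem hm).elim hU hU', ?_, by ring⟩
  refine Ideal.sub_mem _ (Ideal.add_mem _ (Ideal.mul_mem_left _ _ ?_) (Ideal.mul_mem_left _ _ ?_)) ?_
  · have := Ideal.mul_mem_mul hg' (Ideal.pow_mem_pow hs (r + 1))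
    rwa [mul_assoc, ← pow_add, show r' + (r + 1) = r + r' + 1 by ring] at this
  · have := Ideal.mul_mem_mul hg (Ideal.pow_mem_pow hs (r' + 1))
    rwa [mul_assoc, ← pow_add, ← add_assoc] at this
  · have := Ideal.mul_mem_mul hg (Ideal.mul_mono_left hb hg')
    rwa [← pow_succ', mul_assoc, ← pow_add, ← add_assoc] at this

lemma k3_good_pow {R : Type u} [CommRing R] {Ib J M : Ideal R} {s y : R} (hM : M.IsPrime)
    (hs : s ∈ J) (hb : Ib ≤ J) (h : k3_Good Ib J M s y) (n : ℕ) :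
    k3_Good Ib J M s (y ^ (n + 1)) := by
  induction n with
  | zero => simpa using h
  | succ n ih => rw [pow_succ]; exact k3_good_mul hM hs hb ih h

lemma k3_good_all {R : Type u} [CommRing R] {Ib J M : Ideal R} {s : R} (hM : M.IsPrime)
    (hs : s ∈ J) (hb : Ib ≤ J) (T : Set (Ideal R)) (hT : T.Finite)
    (h : ∀ P ∈ T, ∃ y ∈ P, k3_Good Ib J M s y) : ∃ y, k3_Good Ib J M s y ∧ ∀ P ∈ T, y ∈ P := by
  induction T, hT using Set.Finite.induction_on with
  | empty =>
    exact ⟨_, ⟨0, 1, 0, fun h1 => hM.ne_top ((Ideal.eq_top_iff_one _).2 h1), Ideal.zero_mem _, rfl⟩,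
      fun P hP => absurd hP (Set.notMem_empty P)⟩
  | @insert P T _ _ ih =>
    obtain ⟨y, hy, hy'⟩ := ih fun Q hQ => h Q (Set.mem_insert_of_mem _ hQ)
    obtain ⟨z, hz, hz'⟩ := h P (Set.mem_insert _ _)
    refine ⟨y * z, k3_good_mul hM hs hb hy hz', fun Q hQ => ?_⟩
    rcases hQ with rfl | hQ
    · exact Ideal.mul_mem_left _ _ hz
    · exact Ideal.mul_mem_right _ _ (hy' Q hQ)

/-- Passing from the quotients by minimal primes to the ring.
Hint: let `s` be a local generator of `Ia` at `M` (`exists_local_gen`), `J = Ia ⊔ Ib`. Elements of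
the form `U * s ^ (r+1) - h` with `U ∉ M`, `h ∈ Ib * J ^ r` are closed under products. Every
minimal prime contains one (for `P ≰ M` take `U ∈ P \ M`, `r = 0`, `h = 0`); the product over the
finitely many minimal primes is nilpotent. -/
theorem integral_of_minimalPrimes {R : Type u} [CommRing R] [IsNoetherianRing R] {Ia Ib C : Ideal R}
    {s₀ : R} (hs₀ : s₀ ∈ nonZeroDivisors R) (hC : Ia * C = Ideal.span {s₀}) (M : Ideal R)
    [M.IsMaximal]
    (h : ∀ P ∈ minimalPrimes R, P ≤ M → ∃ (r : ℕ) (U : R), U ∉ M ∧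
      Ideal.span {U} * Ia ^ (r + 1) ≤ Ib * (Ia ⊔ Ib) ^ r ⊔ P) :
    ∃ (r : ℕ) (U : R), U ∉ M ∧ Ideal.span {U} * Ia ^ (r + 1) ≤ Ib * (Ia ⊔ Ib) ^ r := by
  have hM : M.IsPrime := inferInstance
  obtain ⟨s, hs, u, hu, hsu⟩ := exists_local_gen hs₀ hC {M} (Set.finite_singleton M)
    (fun M' hM' => by rw [hM']; infer_instance)
  have huM : u ∉ M := hu M rfl
  obtain ⟨y, hy, hyP⟩ := k3_good_all (Ib := Ib) (J := Ia ⊔ Ib) hM (Ideal.mem_sup_left hs)
    le_sup_right (minimalPrimes R) (minimalPrimes.finite_of_isNoetherianRing R) (fun P hP => by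
      by_cases hPM : P ≤ M
      · obtain ⟨r, U, hU, hle⟩ := h P hP hPM
        obtain ⟨g, hg, p, hp, e⟩ := Submodule.mem_sup.1 (hle (Ideal.mul_mem_mul
          (Ideal.mem_span_singleton_self U) (Ideal.pow_mem_pow hs (r + 1))))
        exact ⟨p, hp, r, U, g, hU, hg, by rw [← e]; ring⟩
      · obtain ⟨U, hU, hUM⟩ := Set.not_subset.1 hPM
        exact ⟨U * s, Ideal.mul_mem_right _ _ hU, 0, U, 0, hUM, Ideal.zero_mem _, by ring⟩)
  have hrad : y ∈ (⊥ : Ideal R).radical := by
    rw [← Ideal.sInf_minimalPrimes]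
    exact Submodule.mem_sInf.2 hyP
  obtain ⟨n, hn⟩ := hrad
  obtain ⟨r, U, g, hU, hg, e⟩ := k3_good_pow hM (Ideal.mem_sup_left hs) le_sup_right hy n
  rw [pow_succ, (Submodule.mem_bot R).1 hn, zero_mul, eq_comm, sub_eq_zero] at e
  refine ⟨r, U * u ^ (r + 1), fun hm => (hM.mem_or_mem hm).elim hU
    fun h' => huM (hM.mem_of_pow_mem _ h'), ?_⟩
  have h1 : Ideal.span {u} * Ia ≤ Ideal.span {s} := by
    rw [Ideal.span_singleton_mul_le_iff]
    exact fun x hx => Ideal.mem_span_singleton.2 (hsu x hx)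
  calc Ideal.span {U * u ^ (r + 1)} * Ia ^ (r + 1)
      = Ideal.span {U} * (Ideal.span {u} * Ia) ^ (r + 1) := by
        rw [← Ideal.span_singleton_mul_span_singleton, ← Ideal.span_singleton_pow, mul_pow,
          mul_assoc]
    _ ≤ Ideal.span {U} * Ideal.span {s} ^ (r + 1) :=
        Ideal.mul_mono_right (Ideal.pow_right_mono h1 _)
    _ = Ideal.span {U * s ^ (r + 1)} := by
        rw [Ideal.span_singleton_pow, Ideal.span_singleton_mul_span_singleton]
    _ ≤ _ := (Ideal.span_singleton_le_iff_mem _).2 (e ▸ hg)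

lemma k3_poly {D : Type v} [CommRing D] {Ω : Type u} [Field Ω] (θ : D →+* Ω) {a b : D}
    (hb : θ b ≠ 0) (r : ℕ) : ∀ w ∈ (Ideal.span {a} ⊔ Ideal.span {b} : Ideal D) ^ r,
      ∃ q : D[X], q.natDegree ≤ r ∧ θ w = θ b ^ r * q.eval₂ θ (θ a / θ b) := by
  induction r with
  | zero => exact fun w _ => ⟨C w, by simp, by simp⟩
  | succ r ih =>
    intro w hw
    rw [pow_succ] at hw
    refine Submodule.mul_induction_on hw (fun x hx y hy => ?_) ?_
    · obtain ⟨q, hq, e⟩ := ih x hx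
      obtain ⟨y₁, h₁, y₂, h₂, rfl⟩ := Submodule.mem_sup.1 hy
      obtain ⟨c, rfl⟩ := Ideal.mem_span_singleton'.1 h₁
      obtain ⟨d, rfl⟩ := Ideal.mem_span_singleton'.1 h₂
      refine ⟨q * (C c * X + C d), natDegree_mul_le.trans (add_le_add hq natDegree_linear_le), ?_⟩
      rw [eval₂_mul, eval₂_add, eval₂_mul, eval₂_C, eval₂_C, eval₂_X, map_mul, e, map_add, map_mul,
        map_mul]
      field_simp
      ring
    · rintro x y ⟨q, hq, e⟩ ⟨q', hq', e'⟩
      refine ⟨q + q', (natDegree_add_le _ _).trans (max_le hq hq'), ?_⟩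
      rw [map_add, e, e', eval₂_add, mul_add]

lemma k3_int {D : Type v} [CommRing D] {Ω : Type u} [Field Ω] (θ : D →+* Ω) {a b u : D}
    (hb : θ b ≠ 0) (hu : u ≠ 0) {r : ℕ}
    (h : u * a ^ (r + 1) ∈ Ideal.span {b} * (Ideal.span {a} ⊔ Ideal.span {b} : Ideal D) ^ r) :
    θ.IsIntegralElem (θ u * (θ a / θ b)) := by
  obtain ⟨w, hw, e⟩ := Ideal.mem_span_singleton_mul.1 h
  obtain ⟨q, hq, e'⟩ := k3_poly θ hb r w hw
  have hd : q.degree < (C u * X ^ (r + 1)).degree := by
    rw [degree_C_mul_X_pow _ hu]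
    exact degree_le_natDegree.trans_lt (by exact_mod_cast Nat.lt_succ_of_le hq)
  have hl : (C u * X ^ (r + 1) - q).leadingCoeff = u := by
    rw [leadingCoeff_sub_of_degree_lt hd, leadingCoeff_C_mul_X_pow]
  have := θ.isIntegralElem_leadingCoeff_mul (C u * X ^ (r + 1) - q) (θ a / θ b) (by
    have e2 := congrArg θ e
    rw [map_mul, map_mul, _root_.map_pow, e'] at e2
    rw [eval₂_sub, eval₂_mul, eval₂_C, eval₂_X_pow, div_pow, ← mul_div_assoc, ← e2]
    field_simp
    ring)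
  rwa [hl] at this

lemma k3_inv {R : Type u} [CommRing R] {D : Type v} [CommRing D] (m : Model R D) {P : Ideal R}
    (hP : P ∈ minimalPrimes R) {d : D} (hd : d ≠ 0) :
    Inv ((Iof m d).map (Ideal.Quotient.mk P)) := by
  obtain ⟨C, s, hs, e⟩ := Iof_inv m hd
  refine ⟨C.map (Ideal.Quotient.mk P), Ideal.Quotient.mk P s, fun h0 => ?_, ?_⟩
  · exact notMem_nonZeroDivisors_of_mem_mem_minimalPrimes (Ideal.Quotient.eq_zero_iff_mem.1 h0) hP hs
  · rw [← Ideal.map_mul, e, Ideal.map_span, Set.image_singleton]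

lemma k3_prime {k : Type u} [Field k] {R : Type u} [CommRing R] [Algebra k R]
    [Algebra.FiniteType k R] {D : Type v} [CommRing D] [IsDomain D] (m : Model R D) {a b : D}
    (ha : a ≠ 0) (hb : b ≠ 0)
    (h : ∀ N₀ : ℕ, ∃ N, N₀ < N ∧ N.Prime ∧ ∃ a₁ b₁ : D, a₁ ≠ 0 ∧ b₁ ≠ 0 ∧
      a * b₁ ^ N = b * a₁ ^ N) (M : Ideal R) [hM : M.IsMaximal] (P : Ideal R)
    (hP : P ∈ minimalPrimes R) (hPM : P ≤ M) :
    ∃ (r : ℕ) (U : R), U ∉ M ∧
      Ideal.span {U} * Iof m a ^ (r + 1) ≤ Iof m b * (Iof m a ⊔ Iof m b) ^ r ⊔ P := by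
  have hPp : P.IsPrime := hP.1.1
  obtain ⟨n, g, hg, hfin⟩ := exists_finite_inj_algHom_of_fg k (R ⧸ P)
  let _ : Algebra (PA k n) (R ⧸ P) := g.toRingHom.toAlgebra
  have : Module.Finite (PA k n) (R ⧸ P) := hfin
  have hmax : (M.map (Ideal.Quotient.mk P)).IsMaximal :=
    hM.map_of_surjective_of_ker_le Ideal.Quotient.mk_surjective (by rwa [Ideal.mk_ker])
  obtain ⟨r, u, hu, hle⟩ := k3a (k := k) (n := n) (B := R ⧸ P) hg (k3_inv m hP ha) (k3_inv m hP hb)
    (fun N₀ => by
      obtain ⟨N, hN, hNp, a₁, b₁, ha₁, hb₁, e⟩ := h N₀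
      refine ⟨N, hN, hNp, _, _, k3_inv m hP ha₁, k3_inv m hP hb₁, ?_⟩
      have e2 := congrArg (Iof m) e
      rw [Iof_mul m ha (pow_ne_zero _ hb₁), Iof_mul m hb (pow_ne_zero _ ha₁), Iof_pow m hb₁,
        Iof_pow m ha₁] at e2
      rw [← Ideal.map_pow, ← Ideal.map_pow, ← Ideal.map_mul, ← Ideal.map_mul, e2])
    (M.map (Ideal.Quotient.mk P))
  obtain ⟨U, rfl⟩ := Ideal.Quotient.mk_surjective u
  refine ⟨r, U, fun hU => hu (Ideal.mem_map_of_mem _ hU), ?_⟩
  rw [← Ideal.map_sup, ← Ideal.map_pow, ← Ideal.map_pow, ← Ideal.map_mul, ← Set.image_singleton,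
    ← Ideal.map_span, ← Ideal.map_mul, Ideal.map_le_iff_le_comap,
    Ideal.comap_map_of_surjective _ Ideal.Quotient.mk_surjective, ← RingHom.ker_eq_comap_bot,
    Ideal.mk_ker] at hle
  exact hle

/-- An element of the fraction field of the model having `N`-th roots for arbitrarily large primes
`N` is integral.
Hint: for a nonzero maximal ideal `M'` of `D` write `M' = m.F M`; for a minimal prime `P ≤ M` apply
`k3a` to a Noether normalisation (`exists_finite_inj_algHom_of_fg`) of `R ⧸ P` and the images of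
`Iof m a`, `Iof m b` (regular elements are not in minimal primes); use
`integral_of_minimalPrimes` and `exists_map_of` to get `u ∉ M'` with
`u * a ^ (r+1) ∈ span {b} * span {a, b} ^ r`; so `u * (a / b)` is integral. The `u` with this
property form an ideal contained in no maximal ideal. If `⊥` is maximal, `D` is a field. -/
theorem k3 {k : Type u} [Field k] {R : Type u} [CommRing R] [Algebra k R]
    [Algebra.FiniteType k R] {D : Type v} [CommRing D] [IsDomain D] (m : Model R D) {a b : D}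
    (ha : a ≠ 0) (hb : b ≠ 0)
    (h : ∀ N₀ : ℕ, ∃ N, N₀ < N ∧ N.Prime ∧ ∃ a₁ b₁ : D, a₁ ≠ 0 ∧ b₁ ≠ 0 ∧
      a * b₁ ^ N = b * a₁ ^ N) {Ω : Type u} [Field Ω] (θ : D →+* Ω)
    (hθ : Function.Injective θ) : θ.IsIntegralElem (θ a / θ b) := by
  have hb' : θ b ≠ 0 := fun h0 => hb (hθ (h0.trans (map_zero θ).symm))
  have : IsNoetherianRing R := Algebra.FiniteType.isNoetherianRing k R
  let I : Ideal D :=
    { carrier := {u | θ.IsIntegralElem (θ u * (θ a / θ b))}
      add_mem' := fun {x y} hx hy => by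
        change θ.IsIntegralElem _
        rw [map_add, add_mul]
        exact RingHom.IsIntegralElem.add θ hx hy
      zero_mem' := by
        change θ.IsIntegralElem _
        rw [map_zero, zero_mul]
        exact θ.isIntegralElem_zero
      smul_mem' := fun c x hx => by
        change θ.IsIntegralElem _
        rw [smul_eq_mul, map_mul, mul_assoc]
        exact RingHom.IsIntegralElem.mul θ θ.isIntegralElem_map hx }
  have hI : ∀ u, u ∈ I ↔ θ.IsIntegralElem (θ u * (θ a / θ b)) := fun _ => Iff.rfl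
  by_cases htop : I = ⊤
  · have h1 := (hI 1).1 (htop ▸ trivial)
    rwa [map_one, one_mul] at h1
  exfalso
  obtain ⟨M', hM', hIM⟩ := Ideal.exists_le_maximal I htop
  have hbI : b ∈ I := by
    rw [hI, mul_div_cancel₀ _ hb']
    exact θ.isIntegralElem_map
  obtain ⟨M, hMr, rfl⟩ := m.surj M' (fun h0 => hb (by simpa [h0] using hIM hbI))
  have hM := isMaximal_of_map m hMr hM'
  obtain ⟨C, s₀, hs₀, hC⟩ := Iof_inv m ha
  obtain ⟨r, U, hU, hle⟩ := integral_of_minimalPrimes (Ib := Iof m b) hs₀ hC M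
    (k3_prime (k := k) m ha hb h M)
  obtain ⟨ra, ea⟩ := Iof_spec m ha
  obtain ⟨rb, eb⟩ := Iof_spec m hb
  have rJ : Reg (Iof m a ⊔ Iof m b) := ra.mono le_sup_left
  obtain ⟨u, hu, hle'⟩ := exists_map_of m (ModelAux.map_pow m ra (r + 1)).1
    (rb.mul (ModelAux.map_pow m rJ r).1) hMr hU hle
  rw [(ModelAux.map_pow m ra (r + 1)).2, m.map_mul rb (ModelAux.map_pow m rJ r).1,
    (ModelAux.map_pow m rJ r).2, m.map_sup ra rb, ea, eb] at hle'
  refine hu (hIM ((hI u).2 (k3_int θ hb' (fun h0 => hu (h0 ▸ Ideal.zero_mem _)) (r := r) (hle' ?_))))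
  exact Ideal.mul_mem_mul (Ideal.mem_span_singleton_self u)
    (Ideal.pow_mem_pow (Ideal.mem_span_singleton_self a) _)

end Pool.Agent.MP_f1fec5_al.Aff

end

section

namespace Pool.Agent.MP_f1fec5_al.Aff

open ModelAux

universe u v

lemma red_pow_sub {S : Type*} [CommRing S] (a b : S) (r : ℕ) :
    a ^ (r + 1) - (a - b) ^ (r + 1) ∈
      Ideal.span {b} * (Ideal.span {a} ⊔ Ideal.span {b}) ^ r := by
  have ha : a ∈ Ideal.span {a} ⊔ Ideal.span {b} :=
    Ideal.mem_sup_left (Ideal.mem_span_singleton_self a)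
  have hb : b ∈ Ideal.span {a} ⊔ Ideal.span {b} :=
    Ideal.mem_sup_right (Ideal.mem_span_singleton_self b)
  induction r with
  | zero => simp
  | succ r ih =>
    have e : a ^ (r + 1 + 1) - (a - b) ^ (r + 1 + 1)
        = (a ^ (r + 1) - (a - b) ^ (r + 1)) * a + b * (a - b) ^ (r + 1) := by ring
    rw [e]
    refine Ideal.add_mem _ ?_ (Ideal.mul_mem_mul (Ideal.mem_span_singleton_self b)
      (Ideal.pow_mem_pow (Ideal.sub_mem _ ha hb) _))
    rw [pow_succ (Ideal.span {a} ⊔ Ideal.span {b}), ← mul_assoc]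
    exact Ideal.mul_mem_mul ih ha

lemma red_span_le {S : Type*} [CommRing S] {X : Ideal S} {a u : S} (h : ∀ x ∈ X, a ∣ u * x)
    (w : S) : Ideal.span {w * u} * X ≤ Ideal.span {w * a} := by
  rw [Ideal.span_singleton_mul_le_iff]
  intro x hx
  rw [Ideal.mem_span_singleton, mul_assoc]
  exact mul_dvd_mul_left w (h x hx)

lemma red_transfer {S : Type*} [CommRing S] {X Y : Ideal S} {a b u₁ u₂ : S} (ha : a ∈ X)
    (h₁ : ∀ x ∈ X, a ∣ u₁ * x) (h₂ : ∀ y ∈ Y, b ∣ u₂ * y) (r : ℕ)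
    (h : X ^ (r + 1) ≤ Y * (X ⊔ Y) ^ r) :
    (u₁ * u₂) ^ (r + 1) * a ^ (r + 1) ∈ Ideal.span {b} * Ideal.span {a, b} ^ r := by
  have hX : Ideal.span {u₁ * u₂} * X ≤ Ideal.span {a} := by
    rw [mul_comm u₁ u₂]
    exact (red_span_le h₁ u₂).trans
      (Ideal.span_singleton_le_span_singleton.2 (dvd_mul_left a u₂))
  have hY : Ideal.span {u₁ * u₂} * Y ≤ Ideal.span {b} :=
    (red_span_le h₂ u₁).trans (Ideal.span_singleton_le_span_singleton.2 (dvd_mul_left b u₁))
  have hXY : Ideal.span {u₁ * u₂} * (X ⊔ Y) ≤ Ideal.span {a, b} := by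
    rw [Ideal.mul_sup, Ideal.span_insert]
    exact sup_le_sup hX hY
  have h1 : (u₁ * u₂) ^ (r + 1) * a ^ (r + 1) ∈
      Ideal.span {u₁ * u₂} ^ (r + 1) * (Y * (X ⊔ Y) ^ r) :=
    Ideal.mul_mem_mul (Ideal.pow_mem_pow (Ideal.mem_span_singleton_self _) _)
      (h (Ideal.pow_mem_pow ha _))
  have e : Ideal.span {u₁ * u₂} ^ (r + 1) * (Y * (X ⊔ Y) ^ r)
      = (Ideal.span {u₁ * u₂} * Y) * (Ideal.span {u₁ * u₂} * (X ⊔ Y)) ^ r := by ring
  rw [e] at h1
  exact Ideal.mul_mono hY (Ideal.pow_right_mono hXY r) h1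

lemma red_map_rel {R : Type u} [CommRing R] {D : Type v} [CommRing D] (m : Model R D)
    {X Y : Ideal R} (hX : Reg X) (hY : Reg Y) (r : ℕ) :
    X ^ (r + 1) ≤ Y * (X ⊔ Y) ^ r ↔ m.F X ^ (r + 1) ≤ m.F Y * (m.F X ⊔ m.F Y) ^ r := by
  have hXY : Reg (X ⊔ Y) := hX.mono le_sup_left
  rw [← m.le_iff (ModelAux.map_pow m hX _).1 (hY.mul (ModelAux.map_pow m hXY r).1),
    (ModelAux.map_pow m hX _).2, m.map_mul hY (ModelAux.map_pow m hXY r).1,
    (ModelAux.map_pow m hXY r).2, m.map_sup hX hY]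

lemma red_local_gen {S : Type*} [CommRing S] {I C : Ideal S} {s : S}
    (hs : s ∈ nonZeroDivisors S) (h : I * C = Ideal.span {s}) (M : Ideal S) (hM : M.IsMaximal) :
    ∃ a ∈ I, ∃ u : S, u ∉ M ∧ ∀ x ∈ I, a ∣ u * x := by
  obtain ⟨a, ha, u, hu, h'⟩ := exists_local_gen hs h {M} (Set.finite_singleton M)
    (fun M' hM' => by rwa [Set.mem_singleton_iff.1 hM'])
  exact ⟨a, ha, u, hu M rfl, h'⟩

lemma red_step {R : Type u} [CommRing R] {D : Type v} [CommRing D]
    [IsDomain D] (m : Model R D) (M : Ideal R) [hMm : M.IsMaximal] (hM : Reg M)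
    (hnorm : ∀ (a b u : D) (r : ℕ), b ≠ 0 → u ∉ m.F M →
      u * a ^ (r + 1) ∈ Ideal.span {b} * Ideal.span {a, b} ^ r → ∃ u', u' ∉ m.F M ∧ b ∣ u' * a)
    {y y' : R} (hy : y ∈ nonZeroDivisors R) (hy' : y' ∈ nonZeroDivisors R) {r : ℕ}
    (hr : (y - y') ^ (r + 1) = 0) : ∃ U, U ∉ M ∧ y' ∣ U * y := by
  have hFM := isMaximal_map m hMm hM
  have h1 : Ideal.span {y} ^ (r + 1) ≤
      Ideal.span {y'} * (Ideal.span {y} ⊔ Ideal.span {y'}) ^ r := by
    rw [Ideal.span_singleton_pow, Ideal.span_singleton_le_iff_mem]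
    simpa [hr] using red_pow_sub y y' r
  rw [red_map_rel m (reg_span hy) (reg_span hy')] at h1
  obtain ⟨C, d, hd, hC⟩ := map_span_inv m hy
  obtain ⟨C', d', hd', hC'⟩ := map_span_inv m hy'
  obtain ⟨a, ha, u₁, hu₁, h₁⟩ := red_local_gen (mem_nonZeroDivisors_of_ne_zero hd) hC _ hFM
  obtain ⟨b, hb, u₂, hu₂, h₂⟩ := red_local_gen (mem_nonZeroDivisors_of_ne_zero hd') hC' _ hFM
  have hb0 : b ≠ 0 := by
    rintro rfl
    obtain ⟨z, hz, hz0⟩ := Submodule.exists_mem_ne_zero_of_ne_bot (m.ne_bot (reg_span hy'))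
    rcases mul_eq_zero.1 (zero_dvd_iff.1 (h₂ z hz)) with h | h
    · exact hu₂ (h ▸ Ideal.zero_mem _)
    · exact hz0 h
  obtain ⟨u', hu', hdvd⟩ := hnorm a b _ r hb0
    (fun h => (hFM.isPrime.mem_or_mem (hFM.isPrime.mem_of_pow_mem _ h)).elim hu₁ hu₂)
    (red_transfer ha h₁ h₂ r h1)
  obtain ⟨U, hU, hle⟩ := exists_of_map m (reg_span hy) (reg_span hy') hM (u := u' * u₁)
    (fun h => (hFM.isPrime.mem_or_mem h).elim hu' hu₁)
    ((red_span_le h₁ u').trans ((Ideal.span_singleton_le_span_singleton.2 hdvd).trans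
      ((Ideal.span_singleton_le_iff_mem _).2 hb)))
  rw [Ideal.span_singleton_mul_span_singleton, Ideal.span_singleton_le_span_singleton] at hle
  exact ⟨U, hU, hle⟩

/-- If the model is normal at a maximal ideal, nilpotent elements vanish there.
Hint: let `t ∈ M` be regular, `y' = t ^ N`, `y = y' + e` (regular by `regular_iff`: `e` lies in all
associated primes). `e` is nilpotent (minimal primes are associated), so
`y ^ (r+1) = y ^ (r+1) - (y - y') ^ (r+1) ∈ span {y'} * span {y, y'} ^ r`. Apply `m.F`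
(`map_pow`, `map_sup`, `map_mul`); the ideals `X = m.F (span {y})`, `Y = m.F (span {y'})` are
invertible (`map_span_inv`), with local generators `a, b` at `m.F M` (`exists_local_gen`);
`hnorm` gives `u' * a ∈ span {b}`, `exists_of_map` gives `U ∉ M` with `U * e ∈ span {t ^ N}`.
Krull's intersection theorem in the localisation at `M`
(`Ideal.iInf_pow_eq_bot_of_isLocalRing`). -/
theorem red_of_normal {R : Type u} [CommRing R] [IsNoetherianRing R] {D : Type v} [CommRing D]
    [IsDomain D] (m : Model R D) (M : Ideal R) [M.IsMaximal] (hM : Reg M)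
    (hnorm : ∀ (a b u : D) (r : ℕ), b ≠ 0 → u ∉ m.F M →
      u * a ^ (r + 1) ∈ Ideal.span {b} * Ideal.span {a, b} ^ r → ∃ u', u' ∉ m.F M ∧ b ∣ u' * a)
    (e : R) (he : ∀ Q ∈ associatedPrimes R R, e ∈ Q) : ∃ s, s ∉ M ∧ s * e = 0 := by
  obtain ⟨t, htM, ht⟩ := id hM
  have hnil : IsNilpotent e := by
    rw [← mem_nilradical, nilradical, ← Ideal.sInf_minimalPrimes, Ideal.mem_sInf]
    intro Q hQ
    refine he Q (Module.associatedPrimes.minimalPrimes_annihilator_subset_associatedPrimes R R ?_)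
    rwa [Module.annihilator_eq_bot.2 inferInstance]
  obtain ⟨r, hr⟩ := hnil
  have hstep : ∀ N : ℕ, ∃ U, U ∉ M ∧ t ^ N ∣ U * e := by
    intro N
    have hy' : t ^ N ∈ nonZeroDivisors R := pow_mem ht N
    have hy : t ^ N + e ∈ nonZeroDivisors R := by
      rw [regular_iff] at hy' ⊢
      intro Q hQ h
      exact hy' Q hQ (by simpa using Q.sub_mem h (he Q hQ))
    obtain ⟨U, hU, h⟩ := red_step m M hM hnorm hy hy' (r := r) (by simp [pow_succ, hr])
    rw [mul_add] at h
    exact ⟨U, hU, (dvd_add_right (dvd_mul_left _ _)).1 h⟩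
  have h0 : algebraMap R (Localization.AtPrime M) e = 0 := by
    have hK := Ideal.iInf_pow_eq_bot_of_isLocalRing
      (IsLocalRing.maximalIdeal (Localization.AtPrime M))
      (IsLocalRing.maximalIdeal.isMaximal _).ne_top
    rw [← Ideal.mem_bot, ← hK, Ideal.mem_iInf]
    intro N
    obtain ⟨U, hU, c, hc⟩ := hstep N
    have hu : IsUnit (algebraMap R (Localization.AtPrime M) U) :=
      (IsLocalization.AtPrime.isUnit_to_map_iff _ M U).2 hU
    rw [← Ideal.unit_mul_mem_iff_mem _ hu, ← map_mul, hc, map_mul, _root_.map_pow]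
    exact Ideal.mul_mem_right _ _ (Ideal.pow_mem_pow
      ((IsLocalization.AtPrime.to_map_mem_maximal_iff _ M t).2 htM) N)
  obtain ⟨s, hs⟩ := (IsLocalization.map_eq_zero_iff M.primeCompl _ e).1 h0
  exact ⟨s, s.2, hs⟩

/-- In characteristic `p`, a fixed power of an integral fraction lies in the localisation.
Hint: choose `j` with `x ^ p ^ j = 0` for all nilpotent `x` (`IsNoetherianRing.isNilpotent_nilradical`).
Let `Ia = Iof m a`, `Ib = Iof m b` with local generators `s, t` at `M` (`Iof_inv`,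
`exists_local_gen`); `t ∉ P` because `Ib` is regular, `P` consists of zero divisors and the
cofactor is outside `M`. From the hypothesis `Ia ^ (r+1) ≤ Ib * (Ia ⊔ Ib) ^ r` (`m.le_iff`), so
`U * s ^ (r+1) ∈ span {t} * span {s, t} ^ r` with `U ∉ M`; `hnorm` gives `U' * s - C * t ∈ P`, so
`(U₀ * U' * s) ^ q = (U₀ * C * t) ^ q` (`sub_pow_char_pow`); then
`span {W} * Ia ^ q ≤ Ib ^ q` with `W ∉ M`, and `exists_map_of`. -/
theorem frob_loc {R : Type u} [CommRing R] [IsNoetherianRing R] {D : Type v} [CommRing D]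
    [IsDomain D] (m : Model R D) (p : ℕ) [Fact p.Prime] [CharP R p] (M : Ideal R) [M.IsMaximal]
    (hM : Reg M) (P : Ideal R) [P.IsPrime] (hPM : P ≤ M) (hP : ¬ Reg P) (U₀ : R) (hU₀ : U₀ ∉ M)
    (hnil : ∀ e ∈ P, IsNilpotent (U₀ * e))
    (hnorm : ∀ (s t U : R) (r : ℕ), t ∉ P → U ∉ M →
      U * s ^ (r + 1) ∈ Ideal.span {t} * Ideal.span {s, t} ^ r →
      ∃ U' C : R, U' ∉ M ∧ U' * s - C * t ∈ P) :
    ∃ j : ℕ, ∀ (a b : D) (r : ℕ), a ≠ 0 → b ≠ 0 →
      a ^ (r + 1) ∈ Ideal.span {b} * Ideal.span {a, b} ^ r →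
      ∃ u, u ∉ m.F M ∧ b ^ p ^ j ∣ u * a ^ p ^ j := by
  have hMm : M.IsMaximal := inferInstance
  have hPp : P.IsPrime := inferInstance
  obtain ⟨j, hj⟩ := IsNoetherianRing.isNilpotent_nilradical R
  have hq : ∀ x : R, IsNilpotent x → x ^ p ^ j = 0 := by
    intro x hx
    have h1 : x ^ j ∈ nilradical R ^ j := Ideal.pow_mem_pow (mem_nilradical.2 hx) j
    rw [hj] at h1
    exact pow_eq_zero_of_le (Nat.lt_pow_self (Fact.out : p.Prime).one_lt).le
      (Ideal.mem_bot.1 h1)
  refine ⟨j, fun a b r ha hb hab => ?_⟩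
  obtain ⟨ra, fa⟩ := Iof_spec m ha
  obtain ⟨rb, fb⟩ := Iof_spec m hb
  obtain ⟨C₁, d₁, hd₁, hC₁⟩ := Iof_inv m ha
  obtain ⟨C₂, d₂, hd₂, hC₂⟩ := Iof_inv m hb
  obtain ⟨s, hs, u₁, hu₁, h₁⟩ := red_local_gen hd₁ hC₁ M hMm
  obtain ⟨t, ht, u₂, hu₂, h₂⟩ := red_local_gen hd₂ hC₂ M hMm
  have htP : t ∉ P := by
    intro h
    obtain ⟨z, hz, hz'⟩ := rb
    obtain ⟨c, hc⟩ := h₂ z hz
    rcases hPp.mem_or_mem (show u₂ * z ∈ P from hc ▸ P.mul_mem_right c h) with h' | h'
    · exact hu₂ (hPM h')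
    · exact hP ⟨z, h', hz'⟩
  have h1 : Iof m a ^ (r + 1) ≤ Iof m b * (Iof m a ⊔ Iof m b) ^ r := by
    rw [red_map_rel m ra rb, fa, fb, Ideal.span_singleton_pow, Ideal.span_singleton_le_iff_mem,
      ← Ideal.span_insert]
    exact hab
  obtain ⟨U', C, hU', hC⟩ := hnorm s t _ r htP
    (fun h => (hMm.isPrime.mem_or_mem (hMm.isPrime.mem_of_pow_mem _ h)).elim hu₁ hu₂)
    (red_transfer hs h₁ h₂ r h1)
  have h2 := hq _ (hnil _ hC)
  rw [mul_sub, sub_pow_char_pow, sub_eq_zero, ← mul_assoc] at h2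
  have h3 : Ideal.span {(U₀ * U' * u₁) ^ p ^ j} * Iof m a ^ p ^ j ≤ Iof m b ^ p ^ j := by
    rw [← Ideal.span_singleton_pow, ← mul_pow]
    refine (Ideal.pow_right_mono (red_span_le h₁ (U₀ * U')) _).trans ?_
    rw [Ideal.span_singleton_pow, h2, Ideal.span_singleton_le_iff_mem]
    exact Ideal.pow_mem_pow (Ideal.mul_mem_left _ _ (Ideal.mul_mem_left _ _ ht)) _
  obtain ⟨u, hu, h4⟩ := exists_map_of m (ModelAux.map_pow m ra _).1 (ModelAux.map_pow m rb _).1 hM
    (fun h => (hMm.isPrime.mem_or_mem (hMm.isPrime.mem_of_pow_mem _ h)).elim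
      (fun h' => (hMm.isPrime.mem_or_mem h').elim hU₀ hU') hu₁) h3
  rw [(ModelAux.map_pow m ra _).2, (ModelAux.map_pow m rb _).2, fa, fb, Ideal.span_singleton_pow,
    Ideal.span_singleton_pow, Ideal.span_singleton_mul_span_singleton,
    Ideal.span_singleton_le_span_singleton] at h4
  exact ⟨u, hu, h4⟩

end Pool.Agent.MP_f1fec5_al.Aff

end

section

namespace Pool.Agent.MP_f1fec5_al.Aff

open Cardinal

universe u v

theorem hasDomainModel_of_prod {R B C : Type u} [CommRing R] [CommRing B] [IsDomain B]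
    [CommRing C] [IsArtinianRing C] (e : R ≃+* B × C) : HasDomainModel.{u, u} R := by
  let π : R →+* B := (RingHom.fst B C).comp e.toRingHom
  have hπ : ∀ x, π x = (e x).1 := fun x => rfl
  have hsurj : Function.Surjective π := fun b => ⟨e.symm (b, 0), by simp [hπ]⟩
  have : Nontrivial R := π.domain_nontrivial
  have hreg : ∀ x ∈ nonZeroDivisors R, ∀ w : B × C, e x * w = 0 → w = 0 := by
    intro x hx w hw
    have h1 : x * e.symm w = 0 := e.injective (by simpa using hw)
    have h2 := (mem_nonZeroDivisors_iff_left.1 hx) _ h1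
    simpa using congrArg e h2
  have hker : ∀ X : Ideal R, Reg X → RingHom.ker π ≤ X := by
    rintro X ⟨x, hx, hx'⟩ z hz
    have hz' : (e z).1 = 0 := hz
    have hc : (e x).2 ∈ nonZeroDivisors C := mem_nonZeroDivisors_iff_left.2 fun w hw => by
      have := hreg x hx' (0, w) (Prod.ext (by simp) (by simpa using hw))
      exact congrArg Prod.snd this
    obtain ⟨c, hc'⟩ := (IsArtinianRing.isUnit_of_mem_nonZeroDivisors hc).exists_right_inv
    have : z = x * e.symm (0, c * (e z).2) := e.injective (by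
      rw [map_mul, e.apply_symm_apply]
      refine Prod.ext (by simp [hz']) ?_
      rw [Prod.snd_mul, ← mul_assoc, hc', one_mul])
    rw [this]
    exact X.mul_mem_right _ hx
  refine Model.hasDomainModel (D := B) ⟨fun X => X.map π, ?_, ?_, ?_, ?_⟩
  · intro X Y _ hY
    rw [Ideal.map_le_iff_le_comap, Ideal.comap_map_of_surjective _ hsurj,
      ← RingHom.ker_eq_comap_bot, sup_eq_left.2 (hker Y hY)]
  · intro X Y _ _
    exact Ideal.map_mul π X Y
  · rintro X ⟨x, hx, hx'⟩ h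
    have h1 : π x = 0 := Ideal.mem_bot.1 (h ▸ Ideal.mem_map_of_mem π hx)
    have := hreg x hx' (1, 0) (Prod.ext (by simpa [hπ] using h1) (by simp))
    exact one_ne_zero (congrArg Prod.fst this)
  · intro Z hZ
    obtain ⟨b, hb, hb0⟩ := Submodule.exists_mem_ne_zero_of_ne_bot hZ
    refine ⟨Z.comap π, ⟨e.symm (b, 1), by rwa [Ideal.mem_comap, hπ, e.apply_symm_apply],
      mem_nonZeroDivisors_iff_left.2 fun y hy => ?_⟩, Ideal.map_comap_of_surjective _ hsurj Z⟩
    have h1 := congrArg e hy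
    rw [map_mul, e.apply_symm_apply, map_zero] at h1
    have h2 : b * (e y).1 = 0 := congrArg Prod.fst h1
    have h3 : 1 * (e y).2 = 0 := congrArg Prod.snd h1
    refine e.injective (Prod.ext ?_ ?_)
    · simpa [hb0] using h2
    · simpa using h3

lemma pos_card_field (k : Type u) [Field k] :
    #k ≤ max (Algebra.trdeg (⊥ : Subfield k) k) ℵ₀ := by
  obtain ⟨s, hs⟩ := exists_isTranscendenceBasis (⊥ : Subfield k) k
  have := hs.isAlgebraic
  have h1 := Algebra.IsAlgebraic.cardinalMk_le_max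
    (Algebra.adjoin (⊥ : Subfield k) (Set.range ((↑) : s → k))) k
  have h2 := Algebra.cardinalMk_adjoin_le (⊥ : Subfield k) (Set.range ((↑) : s → k))
  have h3 : #(⊥ : Subfield k) ≤ ℵ₀ := by
    have := Subfield.cardinalMk_closure_le_max (∅ : Set k)
    rw [Subfield.closure_empty] at this
    simpa using this
  have h4 : #(Set.range ((↑) : s → k)) ≤ Algebra.trdeg (⊥ : Subfield k) k :=
    mk_range_le.trans hs.cardinalMk_eq_trdeg.le
  refine h1.trans (max_le (h2.trans (max_le (max_le ?_ ?_) ?_)) ?_)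
  · exact h3.trans (le_max_right _ _)
  · exact h4.trans (le_max_left _ _)
  · exact le_max_right _ _
  · exact le_max_right _ _

lemma pos_card_alg (k R : Type u) [Field k] [CommRing R] [Algebra k R] [Algebra.FiniteType k R] :
    #R ≤ max (Algebra.trdeg (⊥ : Subfield k) k) ℵ₀ := by
  obtain ⟨s, hs⟩ := Algebra.FiniteType.out (R := k) (A := R)
  have h1 := Algebra.cardinalMk_adjoin_le k (s : Set R)
  rw [hs] at h1
  have h2 : #R ≤ #(⊤ : Subalgebra k R) :=
    mk_le_of_injective (f := fun x => ⟨x, trivial⟩) fun x y h => congrArg Subtype.val h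
  refine h2.trans (h1.trans (max_le (max_le (pos_card_field k) ?_) (le_max_right _ _)))
  exact (lt_aleph0_of_finite _).le.trans (le_max_right _ _)

lemma pos_hint (k R : Type u) [Field k] [CommRing R] [Algebra k R] (n : ℤ) :
    (n : R) = 0 ∨ (n : R) ∈ nonZeroDivisors R := by
  rw [← map_intCast (algebraMap k R)]
  by_cases h : (n : k) = 0
  · left; rw [h, map_zero]
  · exact Or.inr ((IsUnit.mk0 _ h).map (algebraMap k R)).mem_nonZeroDivisors

theorem hasDomainModel_of_trdeg {k R : Type u} [Field k] [CommRing R] [Nontrivial R] [Algebra k R]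
    [Algebra.FiniteType k R] (h : Cardinal.aleph0 ≤ Algebra.trdeg (⊥ : Subfield k) k) :
    HasDomainModel.{u, u} R := by
  have := Algebra.FiniteType.isNoetherianRing k R
  have hk : Infinite k := by
    obtain ⟨s, hs⟩ := exists_isTranscendenceBasis (⊥ : Subfield k) k
    rw [← hs.cardinalMk_eq_trdeg] at h
    exact aleph0_le_mk_iff.1 (h.trans (mk_subtype_le _))
  have : Infinite R := Infinite.of_injective _ (algebraMap k R).injective
  have hfin := associatedPrimes.finite R R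
  refine hasDomainModel_of_bigTr hfin.toFinset (fun P hP => (hfin.mem_toFinset.1 hP).isPrime)
    (fun x => by simp only [regular_iff, hfin.mem_toFinset]) (pos_hint k R) fun P hP => ?_
  have := (hfin.mem_toFinset.1 hP).isPrime
  intro X hX
  by_contra hcon
  push Not at hcon
  have hle : Subring.closure X ≤ (Algebra.adjoin (⊥ : Subfield k) X).toSubring :=
    Subring.closure_le.2 Algebra.subset_adjoin
  have : Algebra.IsAlgebraic (Algebra.adjoin (⊥ : Subfield k) X) (R ⧸ P) := ⟨fun y => by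
    by_contra hy
    exact hcon y (transc_mono hle hy)⟩
  have h1 := Algebra.IsAlgebraic.trdeg_le_cardinalMk (⊥ : Subfield k) X
  have h2 := trdeg_le_of_injective (IsScalarTower.toAlgHom (⊥ : Subfield k) k (R ⧸ P))
    (algebraMap k (R ⧸ P)).injective
  have h3 := pos_card_alg k R
  rw [max_eq_left h] at h3
  exact absurd (h3.trans (h2.trans h1)) (not_le.2 hX)

theorem hasDomainModel_of_dim {k R : Type u} [Field k] [Infinite k] [CommRing R] [Nontrivial R]
    [Algebra k R] [Algebra.FiniteType k R]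
    (h : Algebra.trdeg (⊥ : Subfield k) k < Cardinal.aleph0) (hdim : ringKrullDim R ≤ 1) :
    HasDomainModel.{u, u} R := by
  have := Algebra.FiniteType.isNoetherianRing k R
  have : Countable R := by
    have h3 := pos_card_alg k R
    rw [max_eq_right h.le] at h3
    exact mk_le_aleph0_iff.1 h3
  have hfin := associatedPrimes.finite R R
  have hinf : ∀ P : Ideal R, P ≠ ⊤ → Infinite (R ⧸ P) := fun P hP => by
    have := Ideal.Quotient.nontrivial_iff.2 hP
    exact Infinite.of_injective _ (algebraMap k (R ⧸ P)).injective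
  have hmax : ∀ P : Ideal R, P.IsPrime → Reg P → P.IsMaximal := by
    rintro P hP ⟨x, hx, hx'⟩
    have h1 : Ring.KrullDimLE 1 R := Ring.krullDimLE_iff.2 (by simpa using hdim)
    exact (Ring.krullDimLE_one_iff.1 h1 P hP).resolve_left fun hm =>
      notMem_nonZeroDivisors_of_mem_mem_minimalPrimes hx hm hx'
  refine hasDomainModel_of_countable hfin.toFinset
    (fun P hP => (hfin.mem_toFinset.1 hP).isPrime)
    (fun x => by simp only [regular_iff, hfin.mem_toFinset])
    (fun P hP => hinf P (hfin.mem_toFinset.1 hP).isPrime.ne_top) (pos_hint k R) ?_ 1 (one_mem _)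
    ?_ ?_
  · intro s hs
    refine (Ideal.finite_minimalPrimes_of_isNoetherianRing R (Ideal.span {s})).subset ?_
    rintro M ⟨hM, hsM⟩
    obtain ⟨Q, hQ, hQM⟩ := Ideal.exists_minimalPrimes_le (J := M)
      ((Ideal.span_singleton_le_iff_mem M).2 hsM)
    have := (hmax Q hQ.1.1 ⟨s, hQ.1.2 (Ideal.mem_span_singleton_self s), hs⟩).eq_of_le hM.ne_top hQM
    exact this ▸ hQ
  · intro P M M' hP hP' hM hM' hne h1 h2
    have hm := hmax P hP hP'
    exact absurd ((hm.eq_of_le hM.ne_top h1).symm.trans (hm.eq_of_le hM'.ne_top h2)) hne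
  · intro q
    refine Set.finite_empty.subset ?_
    rintro M ⟨hM, -, hf, -⟩
    have := hinf M hM.ne_top
    exact not_finite (R ⧸ M)

lemma pos_ass {R : Type u} [CommRing R] [IsNoetherianRing R] (M : Ideal R) [hM : M.IsPrime] (x : R)
    (hx : ∀ u, u * x = 0 → u ∈ M) :
    ∃ Q ∈ associatedPrimes R R, Q ≤ M ∧ ∀ u, u * x = 0 → u ∈ Q := by
  let A : R → Ideal R := fun y => Submodule.colon (⊥ : Submodule R R) {y}
  have hA : ∀ y u, u ∈ A y ↔ u * y = 0 := fun y u => by
    simp [A, Submodule.mem_colon_singleton]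
  obtain ⟨_, ⟨r, hr, rfl⟩, hmax⟩ := set_has_maximal_iff_noetherian.2
    (inferInstance : IsNoetherian R R) {I | ∃ r, A (r * x) ≤ M ∧ I = A (r * x)}
    ⟨A (1 * x), 1, fun u hu => hx u (by simpa using (hA _ _).1 hu), rfl⟩
  have key : ∀ c, A (c * r * x) ≤ M → A (c * r * x) ≤ A (r * x) := by
    intro c hc
    by_contra hn
    refine hmax _ ⟨c * r, hc, rfl⟩ (lt_of_le_not_ge (fun u hu => ?_) hn)
    rw [hA] at hu ⊢
    linear_combination c * hu
  refine ⟨A (r * x), isAssociatedPrime_iff.2 ⟨⟨fun h => hM.ne_top (top_le_iff.1 (h ▸ hr)), ?_⟩,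
    r * x, rfl⟩, hr, fun u hu => (hA _ _).2 (by linear_combination r * hu)⟩
  intro a b hab
  rw [hA] at hab
  by_cases hb : A (b * r * x) ≤ M
  · exact Or.inl (key b hb ((hA _ _).2 (by linear_combination hab)))
  · obtain ⟨u, hu, huM⟩ := SetLike.not_le_iff_exists.1 hb
    rw [hA] at hu
    refine Or.inr (key u (fun w hw => ?_) ((hA _ _).2 (by linear_combination hu)))
    rw [hA] at hw
    exact (hM.mem_or_mem (hr ((hA _ _).2 (by linear_combination hw : w * u * (r * x) = 0)))).resolve_right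
      huM

theorem exists_prod_of_ass {R : Type u} [CommRing R] [IsNoetherianRing R] (P : Ideal R)
    [P.IsPrime] (h1 : ∀ Q ∈ associatedPrimes R R, Q ≠ P → Q.IsMaximal ∧ ¬ P ≤ Q)
    (h2 : ∀ e ∈ P, ∃ s, s ∉ P ∧ s * e = 0) :
    ∃ (B C : Type u) (_ : CommRing B) (_ : IsDomain B) (_ : CommRing C) (_ : IsArtinianRing C),
      Nonempty (R ≃+* B × C) := by
  have htop : P ⊔ P.annihilator = ⊤ := by
    by_contra hne
    obtain ⟨M, hM, hle⟩ := Ideal.exists_le_maximal _ hne
    have hex : ∃ x ∈ P, ∀ u, u * x = 0 → u ∈ M := by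
      by_contra hcon
      push Not at hcon
      obtain ⟨n, g, hg⟩ := Submodule.fg_iff_exists_fin_generating_family.1
        (IsNoetherian.noetherian P)
      choose w hw hwM using fun i => hcon (g i) (hg ▸ Submodule.subset_span ⟨i, rfl⟩)
      have hu : ∏ i, w i ∈ P.annihilator := by
        rw [← hg, Submodule.mem_annihilator_span]
        rintro ⟨_, i, rfl⟩
        obtain ⟨c, hc⟩ := Finset.dvd_prod_of_mem w (Finset.mem_univ i)
        rw [hc, smul_eq_mul]
        linear_combination c * hw i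
      obtain ⟨i, -, hi⟩ := Ideal.IsPrime.prod_mem_iff.1 (hle (Ideal.mem_sup_right hu))
      exact hwM i hi
    obtain ⟨x, hxP, hx⟩ := hex
    obtain ⟨Q, hQ, hQM, hQx⟩ := pos_ass M x hx
    obtain ⟨s, hs, hsx⟩ := h2 x hxP
    obtain ⟨hQ1, hQ2⟩ := h1 Q hQ fun h => hs (h ▸ hQx s hsx)
    exact hQ2 ((hQ1.eq_of_le hM.ne_top hQM).symm ▸ le_sup_left.trans hle)
  have hco : IsCoprime P P.annihilator := Ideal.isCoprime_iff_sup_eq.2 htop
  have hbot : P ⊓ P.annihilator = ⊥ := by
    rw [← Ideal.mul_eq_inf_of_isCoprime hco, mul_comm]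
    exact Submodule.annihilator_mul P
  have hdim : Ring.KrullDimLE 0 (R ⧸ P.annihilator) := by
    refine Ring.krullDimLE_zero_iff.2 fun I hI => ?_
    have hs := Ideal.Quotient.mk_surjective (I := P.annihilator)
    have hA : P.annihilator ≤ I.comap (Ideal.Quotient.mk P.annihilator) := fun a ha => by
      rw [Ideal.mem_comap, Ideal.Quotient.eq_zero_iff_mem.2 ha]; exact I.zero_mem
    have hp : (I.comap (Ideal.Quotient.mk P.annihilator)).IsPrime := inferInstance
    obtain ⟨Q, hQ, hQI⟩ := Ideal.exists_minimalPrimes_le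
      (J := I.comap (Ideal.Quotient.mk P.annihilator)) (bot_le : (⊥ : Ideal R) ≤ _)
    have hQa : Q ∈ associatedPrimes R R :=
      Module.associatedPrimes.minimalPrimes_annihilator_subset_associatedPrimes R R
        (by rwa [Module.annihilator_eq_bot.2 inferInstance])
    have hQP : Q ≠ P := fun h => hp.ne_top (top_le_iff.1 (htop ▸ sup_le (h ▸ hQI) hA))
    have hm := (h1 Q hQa hQP).1
    rw [hm.eq_of_le hp.ne_top hQI] at hm
    have := Ideal.map_eq_top_or_isMaximal_of_surjective _ hs hm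
    rw [Ideal.map_comap_of_surjective _ hs] at this
    exact this.resolve_left hI.ne_top
  exact ⟨R ⧸ P, R ⧸ P.annihilator, inferInstance, inferInstance, inferInstance,
    IsNoetherianRing.isArtinianRing_of_krullDimLE_zero,
    ⟨((RingEquiv.quotientBot R).symm.trans (Ideal.quotEquivOfEq hbot.symm)).trans
      (Ideal.quotientInfEquivQuotientProd P P.annihilator hco)⟩⟩

theorem two_le_of_dim {k : Type u} [Field k] {n : ℕ} {B : Type u} [CommRing B]
    [Algebra (PA k n) B] [Algebra.IsIntegral (PA k n) B] (h : ¬ ringKrullDim B ≤ 1) : 2 ≤ n := by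
  by_contra hn
  refine h ?_
  have h1 : ringKrullDim B ≤ ringKrullDim (PA k n) :=
    Order.krullDim_le_of_strictMono (PrimeSpectrum.comap (algebraMap (PA k n) B))
      fun p q hpq => Ideal.IsIntegral.comap_lt_comap (R := PA k n) (I := p.asIdeal) hpq
  rw [MvPolynomial.ringKrullDim_of_isNoetherianRing, ringKrullDim_eq_zero_of_field, zero_add,
    Nat.card_eq_fintype_card, Fintype.card_fin] at h1
  refine h1.trans ?_
  have : n ≤ 1 := by omega
  exact_mod_cast this

theorem exists_minimalPrime_of_dim {R : Type u} [CommRing R] (h : ¬ ringKrullDim R ≤ 1) :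
    ∃ P ∈ minimalPrimes R, ¬ ringKrullDim (R ⧸ P) ≤ 1 := by
  have h1 : ¬ Ring.KrullDimLE 1 R := fun h1 => h (by simpa using Ring.krullDimLE_iff.1 h1)
  rw [Ring.krullDimLE_one_iff] at h1
  push Not at h1
  obtain ⟨I, hI, hI1, hI2⟩ := h1
  obtain ⟨P, hP, hPI⟩ := Ideal.exists_minimalPrimes_le (J := I) (bot_le : (⊥ : Ideal R) ≤ _)
  refine ⟨P, hP, fun hd => ?_⟩
  have := hP.1.1
  have h2 : Ring.KrullDimLE 1 (R ⧸ P) := Ring.krullDimLE_iff.2 (by simpa using hd)
  have hs := Ideal.Quotient.mk_surjective (I := P)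
  have hk : RingHom.ker (Ideal.Quotient.mk P) ≤ I := by rwa [Ideal.mk_ker]
  have hm := Ring.krullDimLE_one_iff_of_noZeroDivisors.1 h2 (I.map (Ideal.Quotient.mk P))
    (fun hb => by
      rw [Ideal.map_eq_bot_iff_le_ker, Ideal.mk_ker] at hb
      exact hI1 (le_antisymm hPI hb ▸ hP))
    (Ideal.map_isPrime_of_surjective hs hk)
  have h3 := Ideal.comap_isMaximal_of_surjective (Ideal.Quotient.mk P) hs (K := I.map _) (H := hm)
  rw [Ideal.comap_map_of_surjective _ hs, ← RingHom.ker_eq_comap_bot, sup_eq_left.2 hk] at h3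
  exact hI2 h3

end Pool.Agent.MP_f1fec5_al.Aff

end
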