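import Pool.Agent.MP_f1fec5_al.Aff.Base

namespace Pool.Agent.MP_f1fec5_al.Aff

universe u v

/-- An invertible ideal is generated by one element near finitely many maximal ideals. -/
theorem exists_local_gen {S : Type*} [CommRing S] {I C : Ideal S} {s : S}
    (hs : s ∈ nonZeroDivisors S) (h : I * C = Ideal.span {s}) (T : Set (Ideal S)) (hT : T.Finite)
    (hmax : ∀ M ∈ T, M.IsMaximal) :
    ∃ a ∈ I, ∃ u : S, (∀ M ∈ T, u ∉ M) ∧ ∀ x ∈ I, a ∣ u * x := by
  classical
  have key : ∀ M ∈ T, ∀ a ∈ I, a ∉ M * I → ∃ w, w ∉ M ∧ s * w ∈ Ideal.span {a} * C := by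
    intro M hM a ha haM
    by_contra hcon
    push Not at hcon
    apply haM
    have h1 : Ideal.span {a} * C ≤ Ideal.span {s} * M := by
      intro y hy
      have hy' : y ∈ Ideal.span {s} := by
        rw [← h]
        exact Ideal.mul_mono_left ((Ideal.span_singleton_le_iff_mem _).2 ha) hy
      obtain ⟨w, rfl⟩ := Ideal.mem_span_singleton'.1 hy'
      have hw : w ∈ M := by
        by_contra hw
        exact hcon w hw (by rwa [mul_comm s w])
      rw [mul_comm w s]
      exact Ideal.mul_mem_mul (Ideal.mem_span_singleton_self s) hw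
    have h2 : s * a ∈ Ideal.span {s} * (M * I) := by
      have h3 : s * a ∈ Ideal.span {a} * C * I := by
        rw [mul_assoc, mul_comm C I, h, mul_comm s a]
        exact Ideal.mul_mem_mul (Ideal.mem_span_singleton_self a) (Ideal.mem_span_singleton_self s)
      rw [← mul_assoc]
      exact Ideal.mul_mono_left h1 h3
    obtain ⟨z, hz, e⟩ := Ideal.mem_span_singleton_mul.1 h2
    have : z = a := by
      have h4 : s * (z - a) = 0 := by rw [mul_sub, e, sub_self]
      exact sub_eq_zero.1 ((mem_nonZeroDivisors_iff_left.1 hs) _ h4)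
    exact this ▸ hz
  have hne : ∀ M ∈ T, ∀ J : Ideal S, J ⊔ M = ⊤ → ∃ a ∈ J * I, a ∉ M * I := by
    intro M hM J hJ
    by_contra hcon
    push Not at hcon
    have h1 : I ≤ M * I := by
      calc I = (J ⊔ M) * I := by rw [hJ, Ideal.top_mul]
        _ = J * I ⊔ M * I := Ideal.sup_mul _ _ _
        _ ≤ M * I := sup_le hcon le_rfl
    have h2 : s ∈ Ideal.span {s} * M := by
      have h3 : s ∈ I * C := h ▸ Ideal.mem_span_singleton_self s
      have h4 := Ideal.mul_mono_left (K := C) h1 h3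
      rwa [mul_assoc, h, mul_comm] at h4
    obtain ⟨z, hz, e⟩ := Ideal.mem_span_singleton_mul.1 h2
    have h5 : z = 1 := by
      have h4 : s * (z - 1) = 0 := by rw [mul_sub, e, mul_one, sub_self]
      exact sub_eq_zero.1 ((mem_nonZeroDivisors_iff_left.1 hs) _ h4)
    exact (hmax M hM).ne_top ((Ideal.eq_top_iff_one _).2 (h5 ▸ hz))
  lift T to Finset (Ideal S) using hT
  have hco : ∀ M ∈ T, (∏ M' ∈ T.erase M, M') ⊔ M = ⊤ := by
    intro M hM
    rw [sup_comm]
    refine Ideal.sup_prod_eq_top fun M' hM' => ?_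
    have h1 := Finset.mem_erase.1 hM'
    exact Ideal.IsMaximal.coprime_of_ne (hmax M hM) (hmax M' h1.2) h1.1.symm
  have hex : ∀ M : Ideal S, ∃ a : S, M ∈ T → a ∈ (∏ M' ∈ T.erase M, M') * I ∧ a ∉ M * I := by
    intro M
    by_cases hM : M ∈ T
    · obtain ⟨a, ha⟩ := hne M hM _ (hco M hM)
      exact ⟨a, fun _ => ha⟩
    · exact ⟨0, fun h => absurd h hM⟩
  choose f hff using hex
  have hf := fun M hM => (hff M hM).1
  have hf' := fun M hM => (hff M hM).2
  have haI : (∑ M ∈ T, f M) ∈ I := Ideal.sum_mem _ fun M hM => Ideal.mul_le_right (hf M hM)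
  have haM : ∀ M ∈ T, (∑ M' ∈ T, f M') ∉ M * I := by
    intro M hM hmem
    apply hf' M hM
    rw [← Finset.add_sum_erase T f hM] at hmem
    have h1 : (∑ M' ∈ T.erase M, f M') ∈ M * I := by
      refine Ideal.sum_mem _ fun M' hM' => ?_
      have h2 := Finset.mem_erase.1 hM'
      refine Ideal.mul_mono_left ?_ (hf M' h2.2)
      exact Ideal.prod_le_inf.trans (Finset.inf_le (f := id) (Finset.mem_erase.2 ⟨h2.1.symm, hM⟩))
    simpa using Ideal.sub_mem _ hmem h1
  set a := ∑ M ∈ T, f M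
  let J : Ideal S := (Ideal.span {a} * C).colon {s}
  have hJ : ¬ ((J : Set S) ⊆ ⋃ M ∈ (T : Set (Ideal S)), (M : Set S)) := by
    rcases T.eq_empty_or_nonempty with rfl | ⟨M0, hM0⟩
    · intro hsub
      simpa using hsub J.zero_mem
    rw [Ideal.subset_union_prime M0 M0 (fun M hM _ _ => (hmax M hM).isPrime)]
    rintro ⟨M, hM, hJM⟩
    obtain ⟨w, hw, hw'⟩ := key M hM a haI (haM M hM)
    exact hw (hJM (by
      rw [Submodule.mem_colon_singleton, smul_eq_mul, mul_comm w s]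
      exact hw'))
  obtain ⟨u, huJ, hu⟩ := Set.not_subset.1 hJ
  refine ⟨a, haI, u, fun M hM hMu => hu (Set.mem_biUnion hM hMu), fun x hx => ?_⟩
  have h1 : u * s ∈ Ideal.span {a} * C := by
    simpa [J, Submodule.mem_colon_singleton] using huJ
  have h2 : u * s * x ∈ Ideal.span {a} * Ideal.span {s} := by
    rw [← h, mul_comm I C, ← mul_assoc]
    exact Ideal.mul_mem_mul h1 hx
  rw [Ideal.span_singleton_mul_span_singleton, Ideal.mem_span_singleton] at h2
  obtain ⟨c, hc⟩ := h2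
  refine ⟨c, ?_⟩
  have h4 : s * (u * x - a * c) = 0 := by linear_combination hc
  exact sub_eq_zero.1 ((mem_nonZeroDivisors_iff_left.1 hs) _ h4)

lemma exists_eq_span_mul {S : Type*} [CommRing S] {I : Ideal S} {s : S}
    (h : I ≤ Ideal.span {s}) : ∃ C : Ideal S, I = Ideal.span {s} * C := by
  refine ⟨I.comap (RingHom.id S) |>.colon {s}, le_antisymm (fun x hx => ?_) ?_⟩
  · obtain ⟨c, rfl⟩ := Ideal.mem_span_singleton'.1 (h hx)
    rw [mul_comm c s]
    refine Ideal.mul_mem_mul (Ideal.mem_span_singleton_self s) ?_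
    rw [Submodule.mem_colon_singleton]
    exact hx
  · rw [Ideal.span_singleton_mul_le_iff]
    intro z hz
    rw [Submodule.mem_colon_singleton] at hz
    rw [mul_comm]
    exact hz

namespace ModelAux

variable {R : Type u} {D : Type v} [CommRing R] [CommRing D] (m : Model R D)

lemma reg_top : Reg (⊤ : Ideal R) := ⟨1, trivial, one_mem _⟩

lemma map_top : m.F ⊤ = ⊤ := by
  obtain ⟨X, hX, e⟩ := m.surj ⊤ (fun h => m.ne_bot reg_top (eq_bot_iff.2 (h ▸ le_top)))
  exact top_le_iff.1 (e ▸ m.mono hX le_top)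

/-- The regular ideal corresponding to a nonzero element (junk for zero). -/
noncomputable def Iof (d : D) : Ideal R := by
  classical
  exact if h : d ≠ 0 then (m.surj (Ideal.span {d}) (by simpa using h)).choose else ⊤

lemma Iof_spec {d : D} (h : d ≠ 0) : Reg (Iof m d) ∧ m.F (Iof m d) = Ideal.span {d} := by
  rw [Iof, dif_pos h]
  exact (m.surj (Ideal.span {d}) (by simpa using h)).choose_spec

lemma mem_iff {d : D} (h : d ≠ 0) {X : Ideal R} (hX : Reg X) : d ∈ m.F X ↔ Iof m d ≤ X := by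
  rw [← m.le_iff (Iof_spec m h).1 hX, (Iof_spec m h).2, Ideal.span_singleton_le_iff_mem]

lemma Iof_mul [IsDomain D] {d e : D} (hd : d ≠ 0) (he : e ≠ 0) :
    Iof m (d * e) = Iof m d * Iof m e := by
  refine m.inj (Iof_spec m (mul_ne_zero hd he)).1 ((Iof_spec m hd).1.mul (Iof_spec m he).1) ?_
  rw [m.map_mul (Iof_spec m hd).1 (Iof_spec m he).1, (Iof_spec m hd).2, (Iof_spec m he).2,
    (Iof_spec m (mul_ne_zero hd he)).2, Ideal.span_singleton_mul_span_singleton]

lemma Iof_one [Nontrivial D] : Iof m 1 = ⊤ := by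
  refine m.inj (Iof_spec m one_ne_zero).1 reg_top ?_
  rw [(Iof_spec m one_ne_zero).2, map_top, Ideal.span_singleton_one]

lemma Iof_pow [IsDomain D] {d : D} (hd : d ≠ 0) (N : ℕ) : Iof m (d ^ N) = Iof m d ^ N := by
  induction N with
  | zero => simp [Iof_one]
  | succ N ih => rw [pow_succ, Iof_mul m (pow_ne_zero _ hd) hd, ih, pow_succ]

lemma reg_span {s : R} (hs : s ∈ nonZeroDivisors R) : Reg (Ideal.span {s}) :=
  ⟨s, Ideal.mem_span_singleton_self s, hs⟩

/-- The ideal of a nonzero element is invertible. -/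
lemma Iof_inv {d : D} (h : d ≠ 0) :
    ∃ (C : Ideal R) (s : R), s ∈ nonZeroDivisors R ∧ Iof m d * C = Ideal.span {s} := by
  obtain ⟨s, hs, hs'⟩ := (Iof_spec m h).1
  have h1 : m.F (Ideal.span {s}) ≤ Ideal.span {d} := by
    rw [← (Iof_spec m h).2]
    exact m.mono (reg_span hs') ((Ideal.span_singleton_le_iff_mem _).2 hs)
  obtain ⟨Z, hZ⟩ := exists_eq_span_mul h1
  have hZ0 : Z ≠ ⊥ := by
    rintro rfl
    exact m.ne_bot (reg_span hs') (by simpa using hZ)
  obtain ⟨C, hC, rfl⟩ := m.surj Z hZ0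
  refine ⟨C, s, hs', m.inj ((Iof_spec m h).1.mul hC) (reg_span hs') ?_⟩
  rw [m.map_mul (Iof_spec m h).1 hC, (Iof_spec m h).2, hZ]

/-- The image of a principal regular ideal is invertible. -/
lemma map_span_inv {s : R} (hs : s ∈ nonZeroDivisors R) :
    ∃ (C : Ideal D) (d : D), d ≠ 0 ∧ m.F (Ideal.span {s}) * C = Ideal.span {d} := by
  obtain ⟨d, hd, hd0⟩ := Submodule.exists_mem_ne_zero_of_ne_bot (m.ne_bot (reg_span hs))
  have h1 := (mem_iff m hd0 (reg_span hs)).1 hd
  obtain ⟨C, hC⟩ := exists_eq_span_mul h1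
  have hCr : Reg C := (Iof_spec m hd0).1.mono (hC ▸ Ideal.mul_le_right)
  refine ⟨m.F C, d, hd0, ?_⟩
  rw [← m.map_mul (reg_span hs) hCr, ← hC, (Iof_spec m hd0).2]

lemma map_pow {X : Ideal R} (hX : Reg X) (N : ℕ) : Reg (X ^ N) ∧ m.F (X ^ N) = m.F X ^ N := by
  induction N with
  | zero => simpa using ⟨reg_top, map_top m⟩
  | succ N ih => exact ⟨by rw [pow_succ]; exact ih.1.mul hX, by
      rw [pow_succ, m.map_mul ih.1 hX, ih.2, pow_succ]⟩

lemma isMaximal_map {M : Ideal R} (hM : M.IsMaximal) (hr : Reg M) : (m.F M).IsMaximal := by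
  refine ⟨⟨fun h => hM.ne_top (m.inj hr reg_top (h.trans (map_top m).symm)), fun Z hZ => ?_⟩⟩
  obtain ⟨X, hX, rfl⟩ := m.surj Z (fun h => m.ne_bot hr (eq_bot_iff.2 (h ▸ hZ.le)))
  have h1 : M ≤ X := (m.le_iff hr hX).1 hZ.le
  have h2 : X = ⊤ := hM.1.2 X (lt_of_le_of_ne h1 (fun h => hZ.ne (h ▸ rfl)))
  rw [h2, map_top]

lemma isMaximal_of_map {M : Ideal R} (hr : Reg M) (hM : (m.F M).IsMaximal) : M.IsMaximal := by
  refine ⟨⟨fun h => hM.ne_top (by rw [h, map_top]), fun X hX => ?_⟩⟩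
  have hXr := hr.mono hX.le
  have h1 : m.F X = ⊤ := hM.1.2 _ (lt_of_le_of_ne (m.mono hr hX.le)
    (fun h => hX.ne (m.inj hr hXr h)))
  exact m.inj hXr reg_top (h1.trans (map_top m).symm)

lemma isPrime_map [IsDomain D] {P : Ideal R} (hP : P.IsPrime) (hr : Reg P) : (m.F P).IsPrime := by
  refine ⟨fun h => hP.ne_top (m.inj hr reg_top (h.trans (map_top m).symm)), fun {a b} hab => ?_⟩
  by_cases ha : a = 0
  · exact Or.inl (ha ▸ Ideal.zero_mem _)
  by_cases hb : b = 0
  · exact Or.inr (hb ▸ Ideal.zero_mem _)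
  rw [mem_iff m (mul_ne_zero ha hb) hr, Iof_mul m ha hb] at hab
  rw [mem_iff m ha hr, mem_iff m hb hr]
  exact hP.mul_le.1 hab

/-- Local containments pass from `D` to `R`. -/
lemma exists_of_map {X Y M : Ideal R} (hX : Reg X) (hY : Reg Y) (hM : Reg M) {u : D}
    (hu : u ∉ m.F M) (h : Ideal.span {u} * m.F X ≤ m.F Y) :
    ∃ U, U ∉ M ∧ Ideal.span {U} * X ≤ Y := by
  have hu0 : u ≠ 0 := fun h0 => hu (h0 ▸ Ideal.zero_mem _)
  have h1 : ¬ Iof m u ≤ M := fun h' => hu ((mem_iff m hu0 hM).2 h')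
  obtain ⟨U, hU, hUM⟩ := Set.not_subset.1 h1
  refine ⟨U, hUM, (Ideal.mul_mono_left ((Ideal.span_singleton_le_iff_mem _).2 hU)).trans ?_⟩
  rw [← m.le_iff ((Iof_spec m hu0).1.mul hX) hY, m.map_mul (Iof_spec m hu0).1 hX,
    (Iof_spec m hu0).2]
  exact h

/-- Local containments pass from `R` to `D`. -/
lemma exists_map_of {X Y M : Ideal R} (hX : Reg X) (hY : Reg Y) (hM : Reg M) {U : R}
    (hU : U ∉ M) (h : Ideal.span {U} * X ≤ Y) :
    ∃ u, u ∉ m.F M ∧ Ideal.span {u} * m.F X ≤ m.F Y := by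
  have hC : Reg (Ideal.span {U} ⊔ Y) := hY.mono le_sup_right
  have h1 : ¬ m.F (Ideal.span {U} ⊔ Y) ≤ m.F M := by
    rw [m.le_iff hC hM]
    exact fun h' => hU (h' (Ideal.mem_sup_left (Ideal.mem_span_singleton_self U)))
  obtain ⟨u, hu, huM⟩ := Set.not_subset.1 h1
  refine ⟨u, huM, (Ideal.mul_mono_left ((Ideal.span_singleton_le_iff_mem _).2 hu)).trans ?_⟩
  rw [← m.map_mul hC hX]
  refine m.mono (hC.mul hX) ?_
  rw [Ideal.sup_mul]
  exact sup_le h Ideal.mul_le_left

end ModelAux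

end Pool.Agent.MP_f1fec5_al.Aff
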