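import Pool.Agent.MP_f1fec5_al.Aff.Geo

section

namespace Pool.Agent.MP_f1fec5_al.Aff

universe u v

section nrm

variable {k : Type u} [Field k] {D : Type v} [CommRing D] {G : Type u}

/-- being a unit modulo an ideal -/
theorem nrm_unit_iff (I : Ideal D) (d : D) :
    Ideal.span {d} ⊔ I = ⊤ ↔ ∃ e, d * e - 1 ∈ I := by
  rw [Ideal.eq_top_iff_one, Submodule.mem_sup]
  constructor
  · rintro ⟨y, hy, z, hz, h⟩
    obtain ⟨e, rfl⟩ := Ideal.mem_span_singleton'.1 hy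
    refine ⟨e, ?_⟩
    have : d * e - 1 = -z := by rw [← h]; ring
    rw [this]
    exact I.neg_mem hz
  · rintro ⟨e, he⟩
    exact ⟨e * d, Ideal.mem_span_singleton'.2 ⟨e, rfl⟩, -(d * e - 1), I.neg_mem he, by ring⟩

theorem nrm_unit_congr {I : Ideal D} {d d' : D} (h : d' - d ∈ I) (hd : ∃ e, d * e - 1 ∈ I) :
    ∃ e, d' * e - 1 ∈ I := by
  obtain ⟨e, he⟩ := hd
  refine ⟨e, ?_⟩
  have : d' * e - 1 = (d' - d) * e + (d * e - 1) := by ring
  rw [this]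
  exact I.add_mem (I.mul_mem_right _ h) he

theorem nrm_unit_ne {I : Ideal D} (hI : I ≠ ⊤) {d : D} (hd : ∃ e, d * e - 1 ∈ I) : d ≠ 0 := by
  rintro rfl
  obtain ⟨e, he⟩ := hd
  refine hI ((Ideal.eq_top_iff_one _).2 ?_)
  simpa using I.neg_mem he

theorem nrm_unit_one {I : Ideal D} {d : D} (h : d - 1 ∈ I) : ∃ e, d * e - 1 ∈ I :=
  ⟨1, by simpa using h⟩

theorem nrm_inv2 {I J : Ideal D} {d : D} (hI : ∃ e, d * e - 1 ∈ I) (hJ : ∃ e, d * e - 1 ∈ J) :
    ∃ e, d * e - 1 ∈ I ∧ d * e - 1 ∈ J := by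
  obtain ⟨a, ha⟩ := hI
  obtain ⟨b, hb⟩ := hJ
  have h : d * (a + b - d * a * b) - 1 = -((d * a - 1) * (d * b - 1)) := by ring
  refine ⟨a + b - d * a * b, ?_, ?_⟩
  · rw [h]; exact I.neg_mem (I.mul_mem_right _ ha)
  · rw [h]; exact J.neg_mem (J.mul_mem_left _ hb)

theorem nrm_crt {I J₁ J₂ J₃ : Ideal D} (h₁ : I ⊔ J₁ = ⊤) (h₂ : I ⊔ J₂ = ⊤) (h₃ : I ⊔ J₃ = ⊤)
    (d : D) : ∃ d', d' - d ∈ I ∧ d' - 1 ∈ J₁ ∧ d' - 1 ∈ J₂ ∧ d' - 1 ∈ J₃ := by
  rw [Ideal.eq_top_iff_one, Submodule.mem_sup] at h₁ h₂ h₃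
  obtain ⟨x₁, hx₁, y₁, hy₁, e₁⟩ := h₁
  obtain ⟨x₂, hx₂, y₂, hy₂, e₂⟩ := h₂
  obtain ⟨x₃, hx₃, y₃, hy₃, e₃⟩ := h₃
  have h : 1 + (d - 1) * (y₁ * y₂ * y₃) - 1 = (d - 1) * (y₁ * y₂ * y₃) := by ring
  refine ⟨1 + (d - 1) * (y₁ * y₂ * y₃), ?_, ?_, ?_, ?_⟩
  · have : 1 + (d - 1) * (y₁ * y₂ * y₃) - d
        = -((d - 1) * (x₁ * (y₂ * y₃) + x₂ * y₃ + x₃)) := by
      rw [show x₁ = 1 - y₁ by rw [← e₁]; ring, show x₂ = 1 - y₂ by rw [← e₂]; ring,
        show x₃ = 1 - y₃ by rw [← e₃]; ring]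
      ring
    rw [this]
    exact I.neg_mem (I.mul_mem_left _ (I.add_mem (I.add_mem (I.mul_mem_right _ hx₁)
      (I.mul_mem_right _ hx₂)) hx₃))
  · rw [h]; exact J₁.mul_mem_left _ (J₁.mul_mem_right _ (J₁.mul_mem_right _ hy₁))
  · rw [h]; exact J₂.mul_mem_left _ (J₂.mul_mem_right _ (J₂.mul_mem_left _ hy₂))
  · rw [h]; exact J₃.mul_mem_left _ (J₃.mul_mem_left _ hy₃)

theorem nrm_trans {I : Ideal D} {a b c : D} (h : a - c ∈ I) (h' : b - c ∈ I) : a - b ∈ I := by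
  have : a - b = (a - c) - (b - c) := by ring
  rw [this]
  exact I.sub_mem h h'

theorem nrm_mul {I : Ideal D} {a b c d : D} (h : a - c ∈ I) (h' : b - d ∈ I) :
    a * b - c * d ∈ I := by
  have : a * b - c * d = (a - c) * b + c * (b - d) := by ring
  rw [this]
  exact I.add_mem (I.mul_mem_right _ h) (I.mul_mem_left _ h')

/-- step (A) -/
theorem nrm_A (𝔐 : G → Ideal D) (hne : ∀ v, 𝔐 v ≠ ⊤) (f : D → G → k)
    (hmul : ∀ d e, d ≠ 0 → e ≠ 0 → ∃ c : k, c ≠ 0 ∧ ∀ v, f (d * e) v = c * (f d v * f e v))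
    (hu : ∀ d v, (∃ e, d * e - 1 ∈ 𝔐 v) → f d v ≠ 0) {v w : G}
    (hP : ∀ a, a - 1 ∈ 𝔐 v → a - 1 ∈ 𝔐 w → f a v = f a w) {d e : D}
    (hv : d - e ∈ 𝔐 v) (hw : d - e ∈ 𝔐 w) (ev : ∃ x, e * x - 1 ∈ 𝔐 v)
    (ew : ∃ x, e * x - 1 ∈ 𝔐 w) : f d v * f e w = f d w * f e v := by
  have he : e ≠ 0 := nrm_unit_ne (hne v) ev
  have hd : d ≠ 0 := nrm_unit_ne (hne v) (nrm_unit_congr hv ev)
  obtain ⟨x, xv, xw⟩ := nrm_inv2 ev ew
  have hxw : ∃ y, x * y - 1 ∈ 𝔐 w := ⟨e, by rwa [mul_comm]⟩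
  have hx : x ≠ 0 := nrm_unit_ne (hne w) hxw
  have key : ∀ I : Ideal D, d - e ∈ I → e * x - 1 ∈ I → d * x - 1 ∈ I := by
    intro I h1 h2
    have : d * x - 1 = (d - e) * x + (e * x - 1) := by ring
    rw [this]
    exact I.add_mem (I.mul_mem_right _ h1) h2
  obtain ⟨c₁, hc₁, h₁⟩ := hmul d x hd hx
  obtain ⟨c₂, hc₂, h₂⟩ := hmul e x he hx
  have a₁ := hP (d * x) (key _ hv xv) (key _ hw xw)
  have a₂ := hP (e * x) xv xw
  rw [h₁, h₁] at a₁
  rw [h₂, h₂] at a₂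
  have b₁ := mul_left_cancel₀ hc₁ a₁
  have b₂ := mul_left_cancel₀ hc₂ a₂
  refine mul_right_cancel₀ (hu x w hxw) ?_
  linear_combination f e v * b₁ - f d v * b₂

/-- step (B) -/
theorem nrm_B (𝔐 : G → Ideal D) (hco : ∀ v w, v ≠ w → 𝔐 v ⊔ 𝔐 w = ⊤) (hne : ∀ v, 𝔐 v ≠ ⊤)
    (f : D → G → k)
    (hmul : ∀ d e, d ≠ 0 → e ≠ 0 → ∃ c : k, c ≠ 0 ∧ ∀ v, f (d * e) v = c * (f d v * f e v))
    (hu : ∀ d v, (∃ e, d * e - 1 ∈ 𝔐 v) → f d v ≠ 0)
    (hu' : ∀ d v, d ≠ 0 → f d v ≠ 0 → ∃ e, d * e - 1 ∈ 𝔐 v) (Adj : G → G → Prop)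
    (hadj : ∀ a v w, Adj v w → a - 1 ∈ 𝔐 v → a - 1 ∈ 𝔐 w → f a v = f a w)
    (hgen : ∀ d, d ≠ 0 → ∀ T : Finset G, ∃ p, p ∉ T ∧ f d p ≠ 0 ∧ ∀ v ∈ T, Adj v p)
    (v w : G) (a : D) (hv : a - 1 ∈ 𝔐 v) (hw : a - 1 ∈ 𝔐 w) : f a v = f a w := by
  classical
  have ha : a ≠ 0 := nrm_unit_ne (hne v) (nrm_unit_one hv)
  obtain ⟨q, -, -, hq⟩ := hgen a ha {v, w}
  obtain ⟨p, hpT, hap, hp⟩ := hgen a ha {v, w, q}
  simp only [Finset.mem_insert, Finset.mem_singleton, not_or] at hpT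
  obtain ⟨a', h0, h1, h2, h3⟩ :=
    nrm_crt (hco p v hpT.1) (hco p w hpT.2.1) (hco p q hpT.2.2) a
  have up := hu' a p ha hap
  have e1 := nrm_A 𝔐 hne f hmul hu (fun x => hadj x v p (hp v (by simp))) (nrm_trans h1 hv) h0
    (nrm_unit_one hv) up
  have e2 := nrm_A 𝔐 hne f hmul hu (fun x => hadj x w p (hp w (by simp))) (nrm_trans h2 hw) h0
    (nrm_unit_one hw) up
  have e3 := hadj a' v q (hq v (by simp)) h1 h3
  have e4 := hadj a' w q (hq w (by simp)) h2 h3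
  refine mul_left_cancel₀ (hu a' p (nrm_unit_congr h0 up)) ?_
  rw [← e1, ← e2, e3, e4]

/-- step (C): the normalising constant -/
theorem nrm_C (𝔐 : G → Ideal D) (hco : ∀ v w, v ≠ w → 𝔐 v ⊔ 𝔐 w = ⊤) (hne : ∀ v, 𝔐 v ≠ ⊤)
    (f : D → G → k)
    (hmul : ∀ d e, d ≠ 0 → e ≠ 0 → ∃ c : k, c ≠ 0 ∧ ∀ v, f (d * e) v = c * (f d v * f e v))
    (hu : ∀ d v, (∃ e, d * e - 1 ∈ 𝔐 v) → f d v ≠ 0)
    (hu' : ∀ d v, d ≠ 0 → f d v ≠ 0 → ∃ e, d * e - 1 ∈ 𝔐 v)
    (hB : ∀ v w a, a - 1 ∈ 𝔐 v → a - 1 ∈ 𝔐 w → f a v = f a w)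
    (hinf : ∀ d, d ≠ 0 → ∀ v w : G, ∃ p, p ≠ v ∧ p ≠ w ∧ f d p ≠ 0) (v₀ : G) (d : D)
    (hd : d ≠ 0) :
    ∃ x : k, x ≠ 0 ∧ ∀ v w d', v ≠ w → f d v ≠ 0 → d' - d ∈ 𝔐 v → d' - 1 ∈ 𝔐 w →
      x * f d v * f d' w = f d' v := by
  have hA := fun v w => @nrm_A k _ D _ G 𝔐 hne f hmul hu v w (hB v w)
  have ind : ∀ v w w' d' d'', v ≠ w → v ≠ w' → f d v ≠ 0 → d' - d ∈ 𝔐 v → d'' - d ∈ 𝔐 v →
      d' - 1 ∈ 𝔐 w → d'' - 1 ∈ 𝔐 w' → f d' v * f d'' w' = f d'' v * f d' w := by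
    intro v w w' d' d'' hw hw' hv h1 h2 h3 h4
    obtain ⟨t, t0, t1, t2, -⟩ := nrm_crt (hco v w hw) (hco v w' hw') (hco v w' hw') d
    have ut := nrm_unit_congr t0 (hu' d v hd hv)
    have e1 := hA v w (nrm_trans h1 t0) (nrm_trans h3 t1) ut (nrm_unit_one t1)
    have e2 := hA v w' (nrm_trans h2 t0) (nrm_trans h4 t2) ut (nrm_unit_one t2)
    have e3 := hB w w' t t1 t2
    rw [← e3] at e2
    refine mul_right_cancel₀ (hu t w (nrm_unit_one t1)) ?_
    linear_combination f d'' w' * e1 - f d' w * e2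
  obtain ⟨p, -, -, hp⟩ := hinf d hd v₀ v₀
  obtain ⟨q, hq, -, -⟩ := hinf d hd p p
  obtain ⟨s, s0, s1, -, -⟩ := nrm_crt (hco p q hq.symm) (hco p q hq.symm) (hco p q hq.symm) d
  have hsq := hu s q (nrm_unit_one s1)
  have hsp := hu s p (nrm_unit_congr s0 (hu' d p hd hp))
  refine ⟨f s p / (f d p * f s q), div_ne_zero hsp (mul_ne_zero hp hsq), ?_⟩
  intro v w d' hvw hv h1 h2
  rw [mul_assoc, div_mul_eq_mul_div, div_eq_iff (mul_ne_zero hp hsq)]
  by_cases hvp : v = p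
  · subst hvp
    linear_combination f d v * ind v q w s d' hq.symm hvw hv s0 h1 s1 h2
  · obtain ⟨r, hrv, hrp, -⟩ := hinf d hd v p
    obtain ⟨d₁, a0, a1, a2, -⟩ :=
      nrm_crt (hco v p hvp) (hco v r hrv.symm) (hco v r hrv.symm) d
    obtain ⟨d₂, b0, b1, b2, -⟩ :=
      nrm_crt (hco p v (Ne.symm hvp)) (hco p r hrp.symm) (hco p r hrp.symm) d
    have e1 := ind v w r d' d₁ hvw hrv.symm hv h1 a0 h2 a2
    have e2 := ind p q r s d₂ hq.symm hrp.symm hp s0 b0 s1 b2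
    have e3 := hA v p (d := d₁ * d₂) (e := d) (by simpa using nrm_mul a0 b1)
      (by simpa using nrm_mul a1 b0) (hu' d v hd hv) (hu' d p hd hp)
    obtain ⟨c, hc, h⟩ := hmul d₁ d₂ (nrm_unit_ne (hne r) (nrm_unit_one a2))
      (nrm_unit_ne (hne r) (nrm_unit_one b2))
    rw [h, h, hB v r d₂ b1 b2, hB p r d₁ a1 a2] at e3
    refine mul_left_cancel₀ (mul_ne_zero hc (mul_ne_zero (hu d₁ r (nrm_unit_one a2))
      (hu d₂ r (nrm_unit_one b2)))) ?_
    linear_combination (c * f d₁ r * f d v * f d' w) * e2 - (c * f d₂ r * f d p * f s q) * e1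
      - (f s q * f d' w) * e3

end nrm

/-- Normalising a projective norm.
Hint: write `r d v w = f d v / f d w` for `d` a unit modulo `𝔐 v` and `𝔐 w`.
(A) If `f a v = f a w` for all `a ≡ 1` modulo `𝔐 v`, `𝔐 w`, then `r d v w` depends only on `d`
modulo `𝔐 v`, `𝔐 w` (multiply by an inverse `e'` modulo both, use `hmul`).
(B) `hadj` holds for all pairs `v ≠ w`: take `q` adjacent to `v, w`, then `p` adjacent to
`v, w, q` with `f a p ≠ 0`, and `a' ≡ a` mod `𝔐 p`, `a' ≡ 1` mod `𝔐 v, 𝔐 w, 𝔐 q`; then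
`r a v w = r a v p * r a p w = r a' v p * r a' p w = r a' v q * r a' q w = 1`.
(C) For `d` a unit modulo `𝔐 v` put `α v d = r d' v w` where `w ≠ v`, `d' ≡ d` mod `𝔐 v`, `d' ≡ 1`
mod `𝔐 w`; this does not depend on `w, d'`, is multiplicative, and `r d v w = α v d / α w d`
(write `d ≡ d₁ * d₂`). Put `c d = α v d / f d v` for any `v` with `f d v ≠ 0`. -/
theorem exists_normalisation {k : Type u} [Field k] {D : Type v} [CommRing D] [IsDomain D]
    {G : Type u} (𝔐 : G → Ideal D) (hco : ∀ v w, v ≠ w → 𝔐 v ⊔ 𝔐 w = ⊤) (hne : ∀ v, 𝔐 v ≠ ⊤)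
    (f : D → G → k)
    (hmul : ∀ d e, d ≠ 0 → e ≠ 0 → ∃ c : k, c ≠ 0 ∧ ∀ v, f (d * e) v = c * (f d v * f e v))
    (hunit : ∀ d v, d ≠ 0 → (f d v ≠ 0 ↔ Ideal.span {d} ⊔ 𝔐 v = ⊤))
    (Adj : G → G → Prop)
    (hadj : ∀ a v w, Adj v w → a - 1 ∈ 𝔐 v → a - 1 ∈ 𝔐 w → f a v = f a w)
    (hgen : ∀ d, d ≠ 0 → ∀ T : Finset G, ∃ p, p ∉ T ∧ f d p ≠ 0 ∧ ∀ v ∈ T, Adj v p) :
    ∃ c : D → k, (∀ d, d ≠ 0 → c d ≠ 0) ∧ c 0 = 0 ∧
      (∀ d e v, c (d * e) * f (d * e) v = (c d * f d v) * (c e * f e v)) ∧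
      (∀ d e v, d - e ∈ 𝔐 v → c d * f d v = c e * f e v) ∧
      ∀ v, c 1 * f 1 v = 1 := by
  classical
  have hu : ∀ d v, (∃ e, d * e - 1 ∈ 𝔐 v) → f d v ≠ 0 := fun d v h =>
    (hunit d v (nrm_unit_ne (hne v) h)).2 ((nrm_unit_iff _ _).2 h)
  have hu' : ∀ d v, d ≠ 0 → f d v ≠ 0 → ∃ e, d * e - 1 ∈ 𝔐 v := fun d v hd h =>
    (nrm_unit_iff _ _).1 ((hunit d v hd).1 h)
  have hB := nrm_B 𝔐 hco hne f hmul hu hu' Adj hadj hgen
  have hinf : ∀ d, d ≠ 0 → ∀ v w : G, ∃ p, p ≠ v ∧ p ≠ w ∧ f d p ≠ 0 := by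
    intro d hd v w
    obtain ⟨p, hp, h, -⟩ := hgen d hd {v, w}
    simp only [Finset.mem_insert, Finset.mem_singleton, not_or] at hp
    exact ⟨p, hp.1, hp.2, h⟩
  obtain ⟨v₀, -⟩ := hgen 1 one_ne_zero ∅
  choose! x hx0 hx using nrm_C 𝔐 hco hne f hmul hu hu' hB hinf v₀
  refine ⟨fun d => if d = 0 then 0 else x d, fun d hd => ?_, by simp, fun d e v => ?_,
    fun d e v h => ?_, fun v => ?_⟩
  · simpa [hd] using hx0 d hd
  · by_cases hd : d = 0
    · simp [hd]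
    by_cases he : e = 0
    · simp [he]
    have hde := mul_ne_zero hd he
    simp only [hd, he, hde, if_false]
    obtain ⟨c, hc, h⟩ := hmul d e hd he
    by_cases hdv : f d v = 0
    · rw [h, hdv]; ring
    by_cases hev : f e v = 0
    · rw [h, hev]; ring
    obtain ⟨w, hw, -, -⟩ := hinf d hd v v
    obtain ⟨d', a0, a1, -, -⟩ := nrm_crt (hco v w hw.symm) (hco v w hw.symm) (hco v w hw.symm) d
    obtain ⟨e', b0, b1, -, -⟩ := nrm_crt (hco v w hw.symm) (hco v w hw.symm) (hco v w hw.symm) e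
    have e1 := hx d hd v w d' hw.symm hdv a0 a1
    have e2 := hx e he v w e' hw.symm hev b0 b1
    have e3 := hx (d * e) hde v w (d' * e') hw.symm
      (by rw [h]; exact mul_ne_zero hc (mul_ne_zero hdv hev)) (nrm_mul a0 b0)
      (by simpa using nrm_mul a1 b1)
    obtain ⟨c', hc', h'⟩ := hmul d' e' (nrm_unit_ne (hne w) (nrm_unit_one a1))
      (nrm_unit_ne (hne w) (nrm_unit_one b1))
    rw [h', h', ← e1, ← e2] at e3
    refine mul_left_cancel₀ (mul_ne_zero hc' (mul_ne_zero (hu d' w (nrm_unit_one a1))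
      (hu e' w (nrm_unit_one b1)))) ?_
    linear_combination e3
  · have key : ∀ d e : D, d - e ∈ 𝔐 v → (∃ y, e * y - 1 ∈ 𝔐 v) →
        (if d = 0 then 0 else x d) * f d v = (if e = 0 then 0 else x e) * f e v := by
      intro d e h ue
      have ud := nrm_unit_congr h ue
      have hd := nrm_unit_ne (hne v) ud
      have he := nrm_unit_ne (hne v) ue
      simp only [hd, he, if_false]
      obtain ⟨w, hw, -, -⟩ := hinf d hd v v
      obtain ⟨d', a0, a1, -, -⟩ :=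
        nrm_crt (hco v w hw.symm) (hco v w hw.symm) (hco v w hw.symm) d
      have e1 := hx d hd v w d' hw.symm (hu d v ud) a0 a1
      have e2 := hx e he v w d' hw.symm (hu e v ue)
        (by simpa using (𝔐 v).add_mem a0 h) a1
      exact mul_right_cancel₀ (hu d' w (nrm_unit_one a1)) (e1.trans e2.symm)
    have zero : ∀ d : D, ¬ (∃ y, d * y - 1 ∈ 𝔐 v) →
        (if d = 0 then 0 else x d) * f d v = 0 := by
      intro d hd
      by_cases h0 : d = 0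
      · simp [h0]
      · have : f d v = 0 := by
          by_contra h1
          exact hd (hu' d v h0 h1)
        rw [this, mul_zero]
    by_cases ue : ∃ y, e * y - 1 ∈ 𝔐 v
    · exact key d e h ue
    · have ud : ¬ ∃ y, d * y - 1 ∈ 𝔐 v := fun ud =>
        ue (nrm_unit_congr (by simpa using (𝔐 v).neg_mem h) ud)
      exact (zero d ud).trans (zero e ue).symm
  · simp only [one_ne_zero, if_false]
    obtain ⟨w, hw, -, -⟩ := hinf 1 one_ne_zero v v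
    have h1 : f 1 v ≠ 0 := hu 1 v (nrm_unit_one (by simp))
    have e1 := hx 1 one_ne_zero v w 1 hw.symm h1 (by simp) (by simp)
    rw [← hB v w 1 (by simp) (by simp)] at e1
    exact mul_right_cancel₀ h1 (by rw [e1, one_mul])

end Pool.Agent.MP_f1fec5_al.Aff

end

section

namespace Pool.Agent.MP_f1fec5_al.Aff

universe u v

lemma tan_fin {k : Type u} [Field k] [Infinite k] {D : Type v} [CommRing D] (χ : D → k)
    (hχmul : ∀ c d, χ (c * d) = χ c * χ d) (B : Set k) (hB : B.Finite)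
    (hval : ∀ t ∉ B, ∃ s, χ s = t)
    (hadd : ∀ r, χ r ∉ B → ∀ c, χ (r + c) = χ r + χ c)
    (hzero : ∀ r, χ r = 0 → ∀ c, χ (r + c) = χ c) :
    (∀ c d, χ (c + d) = χ c + χ d) ∧ Function.Surjective χ := by
  constructor
  · intro r c
    by_cases hr : χ r = 0
    · rw [hzero r hr c, hr, zero_add]
    · have hfin : (insert 0 (B ∪ (fun x => x / χ r) '' B)).Finite :=
        (hB.union (hB.image _)).insert 0
      obtain ⟨t, ht⟩ := hfin.exists_notMem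
      simp only [Set.mem_insert_iff, Set.mem_union, Set.mem_image, not_or, not_exists,
        not_and] at ht
      obtain ⟨ht0, htB, htB'⟩ := ht
      obtain ⟨s, rfl⟩ := hval t htB
      have h1 : χ (s * r) ∉ B := by
        intro h
        apply htB' _ h
        rw [hχmul]
        field_simp
      have h2 := hadd _ h1 (s * c)
      rw [← mul_add, hχmul, hχmul, hχmul, ← mul_add] at h2
      exact mul_left_cancel₀ ht0 h2
  · intro x
    have hfin : (B ∪ (fun y => x - y) '' B).Finite := hB.union (hB.image _)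
    obtain ⟨t, ht⟩ := hfin.exists_notMem
    simp only [Set.mem_union, Set.mem_image, not_or, not_exists, not_and] at ht
    obtain ⟨htB, htB'⟩ := ht
    have h1 : x - t ∉ B := fun h => htB' _ h (by ring)
    obtain ⟨s, rfl⟩ := hval t htB
    obtain ⟨s', hs'⟩ := hval _ h1
    exact ⟨s + s', by rw [hadd s htB s', hs']; ring⟩

lemma tan_adj {D : Type v} [CommRing D] {M O : Ideal D} (hMO : M ⊔ O = ⊤) (x : D) :
    ∃ y, y - x ∈ M ∧ y - 1 ∈ O := by
  have h : (1 - x) ∈ M ⊔ O := by rw [hMO]; trivial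
  obtain ⟨m, hm, o, ho, hmo⟩ := Submodule.mem_sup.1 h
  refine ⟨x + m, by simpa using hm, ?_⟩
  have : x + m - 1 = -o := by linear_combination hmo
  rw [this]
  exact O.neg_mem ho

lemma tan_good {k : Type u} [Field k] (F : Set k) {l₁ l₂ a b : k} (hl : l₁ ≠ l₂) (ha : a ≠ 0)
    (hb : b ≠ 0) (t : k)
    (ht : t ∉ insert (b / a) ((fun l => (l₂ - l) * b / ((l₁ - l) * a)) '' F)) :
    ∃ l ∉ F, l₁ - l ≠ 0 ∧ (l - l₂) * b + (l₁ - l) * a * t = 0 := by
  simp only [Set.mem_insert_iff, Set.mem_image, not_or, not_exists, not_and] at ht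
  obtain ⟨ht1, ht2⟩ := ht
  have h1 : b - a * t ≠ 0 := by
    intro h
    apply ht1
    field_simp
    linear_combination -h
  obtain ⟨l, hl'⟩ : ∃ l, l * (b - a * t) = l₂ * b - l₁ * a * t :=
    ⟨(l₂ * b - l₁ * a * t) / (b - a * t), div_mul_cancel₀ _ h1⟩
  have h2 : l₁ - l ≠ 0 := by
    intro h
    have h3 : (l₁ - l₂) * b = 0 := by linear_combination hl' + (b - a * t) * h
    rcases mul_eq_zero.1 h3 with h4 | h4
    · exact hl (sub_eq_zero.1 h4)
    · exact hb h4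
  refine ⟨l, fun hF => ht2 l hF ?_, h2, by linear_combination hl'⟩
  rw [div_eq_iff (mul_ne_zero h2 ha)]
  linear_combination -hl'

/-- A multiplicative map on a residue field that is visible on tangent directions is additive.
Hint: put `ω l d = w₁ d + l * w₂ d`. Pick `l₁ ≠ l₂` outside `F`, `d₁ ∈ H l₁ \ H l₂`,
`d₂ ∈ H l₂ \ H l₁`, both `≡ 1` mod `O` (change them modulo `M * M`, which is comaximal with `O`),
`a = ω l₂ d₁ ≠ 0`, `b = ω l₁ d₂ ≠ 0`. For `c : D` let `y c ≡ d₂ + c * d₁` mod `M * M`, `≡ 1` mod `O`.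
Then `ω l₁ (y c) = b`, `ω l₂ (y c) = χ c * a`, so
`(l₁ - l₂) * ω l (y c) = (l - l₂) * b + (l₁ - l) * a * χ c`. For `t ≠ b / a` let
`l t = (l₂ * b - l₁ * a * t) / (b - a * t)` (injective in `t`, never `l₁`); call `t` good if
`l t ∉ F`; all but finitely many `t` are good. A good `t` is a value of `χ` (`d₁ ∉ H (l t)`, so
`d₂ + c * d₁ ∈ H (l t)` for some `c`). If `χ r` is good then `y r ∈ H (l (χ r))`, hence
`χ (r + c) = χ r + χ c` for all `c`. For general `r` multiply by `t` with `χ t * χ r` good. -/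
theorem tangent_add {k : Type u} [Field k] [Infinite k] {D : Type v} [CommRing D] (M O : Ideal D)
    (hMO : M ⊔ O = ⊤) (χ w₁ w₂ : D → k) (hχmul : ∀ c d, χ (c * d) = χ c * χ d)
    (hχcong : ∀ c d, c - d ∈ M → χ c = χ d) (hχ0 : ∀ c, χ c = 0 ↔ c ∈ M)
    (hw : ∀ c d, c - 1 ∈ O → d - 1 ∈ O → d ∈ M →
      w₁ (c * d) = χ c * w₁ d ∧ w₂ (c * d) = χ c * w₂ d)
    (F : Set k) (hF : F.Finite) (H : k → Ideal D)
    (hH1 : ∀ l ∉ F, M * M ≤ H l) (hH2 : ∀ l ∉ F, H l ≤ M)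
    (hH3 : ∀ l ∉ F, ∀ d ∈ M, d ∉ H l → M ≤ H l ⊔ Ideal.span {d})
    (hH4 : ∀ l ∉ F, ∀ l' ∉ F, l ≠ l' → ¬ H l ≤ H l')
    (ha : ∀ l ∉ F, ∀ d ∈ M, d - 1 ∈ O → (d ∈ H l ↔ w₁ d + l * w₂ d = 0))
    (hb : ∀ l ∉ F, ∀ d ∈ M, ∀ e ∈ M, d - 1 ∈ O → e - 1 ∈ O → d - e ∈ H l →
      w₁ d + l * w₂ d = w₁ e + l * w₂ e) :
    (∀ c d, χ (c + d) = χ c + χ d) ∧ Function.Surjective χ := by
  have hMMO : M * M ⊔ O = ⊤ := by
    rw [← Ideal.isCoprime_iff_sup_eq] at hMO ⊢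
    exact hMO.mul_left hMO
  obtain ⟨l₁, hl₁⟩ := hF.exists_notMem
  obtain ⟨l₂, hl₂'⟩ := (hF.insert l₁).exists_notMem
  have hl₂ : l₂ ∉ F := fun h => hl₂' (Set.mem_insert_of_mem _ h)
  have hl : l₁ ≠ l₂ := fun h => hl₂' (h ▸ Set.mem_insert _ _)
  have hpick : ∀ l ∉ F, ∀ l' ∉ F, l ≠ l' → ∃ d ∈ H l, d ∉ H l' ∧ d - 1 ∈ O := by
    intro l hl l' hl' hne
    obtain ⟨x, hx, hx'⟩ := SetLike.not_le_iff_exists.1 (hH4 l hl l' hl' hne)
    obtain ⟨y, hy, hyO⟩ := tan_adj hMMO x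
    refine ⟨y, ?_, fun h => hx' ?_, hyO⟩
    · simpa using (H l).add_mem (hH1 l hl hy) hx
    · simpa using (H l').sub_mem h (hH1 l' hl' hy)
  obtain ⟨d₁, h11, h12, hd₁O⟩ := hpick l₁ hl₁ l₂ hl₂ hl
  obtain ⟨d₂, h22, h21, hd₂O⟩ := hpick l₂ hl₂ l₁ hl₁ hl.symm
  have hd₁M : d₁ ∈ M := hH2 _ hl₁ h11
  have hd₂M : d₂ ∈ M := hH2 _ hl₂ h22
  have ha0 : w₁ d₁ + l₂ * w₂ d₁ ≠ 0 := fun h => h12 ((ha _ hl₂ _ hd₁M hd₁O).2 h)
  have hb0 : w₁ d₂ + l₁ * w₂ d₂ ≠ 0 := fun h => h21 ((ha _ hl₁ _ hd₂M hd₂O).2 h)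
  have hz : w₁ d₁ + l₁ * w₂ d₁ = 0 := (ha _ hl₁ _ hd₁M hd₁O).1 h11
  obtain ⟨a, haa⟩ : ∃ a, a = w₁ d₁ + l₂ * w₂ d₁ := ⟨_, rfl⟩
  obtain ⟨b, hbb⟩ : ∃ b, b = w₁ d₂ + l₁ * w₂ d₂ := ⟨_, rfl⟩
  rw [← haa] at ha0
  rw [← hbb] at hb0
  choose y hy hyO using fun c : D => tan_adj hMMO (d₂ + c * d₁)
  have hyM : ∀ c, y c ∈ M := by
    intro c
    simpa using M.add_mem (Ideal.mul_le_left (hy c)) (M.add_mem hd₂M (M.mul_mem_left c hd₁M))
  have hkey : ∀ l ∉ F, ∀ c, ∀ x ∈ M, x - 1 ∈ O → x - c * d₁ ∈ H l →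
      w₁ x + l * w₂ x = χ c * (w₁ d₁ + l * w₂ d₁) := by
    intro l hl c x hx hxO hxc
    obtain ⟨c', hc', hc'O⟩ := tan_adj hMO c
    have h1 : c' * d₁ - 1 ∈ O := by
      have : c' * d₁ - 1 = c' * (d₁ - 1) + (c' - 1) := by ring
      rw [this]
      exact O.add_mem (O.mul_mem_left _ hd₁O) hc'O
    have h2 : x - c' * d₁ ∈ H l := by
      have : x - c' * d₁ = (x - c * d₁) - (c' - c) * d₁ := by ring
      rw [this]
      exact (H l).sub_mem hxc (hH1 l hl (Ideal.mul_mem_mul hc' hd₁M))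
    obtain ⟨e1, e2⟩ := hw c' d₁ hc'O hd₁O hd₁M
    rw [hb l hl x hx _ (M.mul_mem_left c' hd₁M) hxO h1 h2, e1, e2, hχcong c' c hc']
    ring
  have hy1 : ∀ c, w₁ (y c) + l₁ * w₂ (y c) = b := by
    intro c
    rw [hbb]
    refine hb l₁ hl₁ _ (hyM c) _ hd₂M (hyO c) hd₂O ?_
    have : y c - d₂ = (y c - (d₂ + c * d₁)) + c * d₁ := by ring
    rw [this]
    exact (H l₁).add_mem (hH1 _ hl₁ (hy c)) ((H l₁).mul_mem_left c h11)
  have hy2 : ∀ c, w₁ (y c) + l₂ * w₂ (y c) = χ c * a := by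
    intro c
    rw [haa]
    refine hkey l₂ hl₂ c _ (hyM c) (hyO c) ?_
    have : y c - c * d₁ = (y c - (d₂ + c * d₁)) + d₂ := by ring
    rw [this]
    exact (H l₂).add_mem (hH1 _ hl₂ (hy c)) h22
  have hyl : ∀ l c, (l₁ - l₂) * (w₁ (y c) + l * w₂ (y c)) =
      (l - l₂) * b + (l₁ - l) * a * χ c := by
    intro l c
    linear_combination (l - l₂) * hy1 c + (l₁ - l) * hy2 c
  have hdl : ∀ l, (l₁ - l₂) * (w₁ d₁ + l * w₂ d₁) = (l₁ - l) * a := by
    intro l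
    linear_combination (l - l₂) * hz - (l₁ - l) * haa
  have hl' : l₁ - l₂ ≠ 0 := sub_ne_zero.2 hl
  refine tan_fin χ hχmul _ ((hF.image (fun l => (l₂ - l) * b / ((l₁ - l) * a))).insert (b / a))
    ?_ ?_ ?_
  · intro t ht
    obtain ⟨l, hlF, hl1, hlt⟩ := tan_good F hl ha0 hb0 t ht
    have h1 : d₁ ∉ H l := by
      intro h
      have h2 := hdl l
      rw [(ha l hlF _ hd₁M hd₁O).1 h, mul_zero] at h2
      exact mul_ne_zero hl1 ha0 h2.symm
    obtain ⟨h, hh, e, he, hhe⟩ := Submodule.mem_sup.1 (hH3 l hlF d₁ hd₁M h1 hd₂M)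
    obtain ⟨c, rfl⟩ := Ideal.mem_span_singleton'.1 he
    refine ⟨-c, ?_⟩
    have h3 : y (-c) ∈ H l := by
      have : y (-c) = (y (-c) - (d₂ + -c * d₁)) + h := by linear_combination -hhe
      rw [this]
      exact (H l).add_mem (hH1 l hlF (hy _)) hh
    have h4 := hyl l (-c)
    rw [(ha l hlF _ (hyM _) (hyO _)).1 h3] at h4
    apply mul_left_cancel₀ (mul_ne_zero hl1 ha0)
    linear_combination -h4 - hlt
  · intro r ht c
    obtain ⟨l, hlF, hl1, hlt⟩ := tan_good F hl ha0 hb0 _ ht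
    have h1 : y r ∈ H l := by
      rw [ha l hlF _ (hyM _) (hyO _)]
      apply mul_left_cancel₀ hl'
      rw [hyl, hlt, mul_zero]
    have h2 : y (r + c) - c * d₁ ∈ H l := by
      have : y (r + c) - c * d₁ =
          (y (r + c) - (d₂ + (r + c) * d₁)) - (y r - (d₂ + r * d₁)) + y r := by ring
      rw [this]
      exact (H l).add_mem ((H l).sub_mem (hH1 l hlF (hy _)) (hH1 l hlF (hy _))) h1
    have h3 := hkey l hlF c _ (hyM _) (hyO _) h2
    apply mul_left_cancel₀ (mul_ne_zero hl1 ha0)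
    linear_combination (l₁ - l₂) * h3 - hyl l (r + c) + χ c * hdl l - hlt
  · intro r hr c
    exact hχcong _ _ (by simpa using (hχ0 r).1 hr)

end Pool.Agent.MP_f1fec5_al.Aff

end

section

namespace Pool.Agent.MP_f1fec5_al.Aff

open Polynomial

universe u v

/-- The data from which rigid data are extracted. -/
structure Setup (k : Type u) [Field k] (n : ℕ) (B : Type u) [CommRing B] [Algebra (PA k n) B]
    (D : Type v) [CommRing D] where
  sh : Shadow B D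
  emb : Emb k n B
  hn : 2 ≤ n
  γ : PA k n
  γ_ne : γ ≠ 0
  Δ_dvd : emb.Δ ∣ γ
  Z : Finset (Fin n → k)
  hZ : ∀ z ∈ Z, MvPolynomial.eval z γ = 0
  hok : ∀ a : Ideal (PA k n), a ≠ ⊥ → (∀ z ∈ Z, ∃ f ∈ a, MvPolynomial.eval z f ≠ 0) →
    sh.ok (a.map (algebraMap (PA k n) B))

lemma eq_of_good {k : Type u} [Field k] [Infinite k] {n : ℕ} {γ f g : PA k n} (hγ : γ ≠ 0)
    (h : ∀ v : Fin n → k, MvPolynomial.eval v γ ≠ 0 →
      MvPolynomial.eval v f = MvPolynomial.eval v g) : f = g := by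
  apply mul_left_cancel₀ hγ
  refine MvPolynomial.funext fun v => ?_
  by_cases h0 : MvPolynomial.eval v γ = 0
  · simp [h0]
  · simp [h v h0]

namespace Setup

variable {k : Type u} [Field k] {n : ℕ} {B : Type u} [CommRing B] [Algebra (PA k n) B]
  {D : Type v} [CommRing D] (st : Setup k n B D)

/-- the line misses the exceptional set -/
def Al (v u : Fin n → k) : Prop := ∀ z ∈ st.Z, ∀ t : k, z ≠ v + t • u

/-- ideal of the model attached to a line -/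
noncomputable def L (v u : Fin n → k) : Ideal D := st.sh.Φ ((lid v u).map (algebraMap (PA k n) B))

/-- ideal of the model attached to a fibre -/
noncomputable def M (v : Fin n → k) : Ideal D := st.sh.Φ ((mx v).map (algebraMap (PA k n) B))

variable {st}

lemma ok_lid {v u : Fin n → k} (h : st.Al v u) :
    st.sh.ok ((lid v u).map (algebraMap (PA k n) B)) :=
  st.hok _ (lid_ne_bot st.hn v u) fun z hz => exists_mem_lid (h z hz)

lemma ok_mx {v : Fin n → k} (hv : MvPolynomial.eval v st.γ ≠ 0) :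
    st.sh.ok ((mx v).map (algebraMap (PA k n) B)) :=
  st.sh.ok_mono (ok_lid (v := v) (u := 0) fun z hz t e => hv (by
    have := st.hZ z hz
    simpa [e] using this)) (Ideal.map_mono (lid_le_mx' v 0))

lemma Δ_ne {v : Fin n → k} (hv : MvPolynomial.eval v st.γ ≠ 0) :
    MvPolynomial.eval v st.emb.Δ ≠ 0 := fun h => hv (by
  obtain ⟨c, hc⟩ := st.Δ_dvd
  rw [hc, map_mul, h, zero_mul])

lemma L_le_M {v u : Fin n → k} (h : st.Al v u) (t : k) : st.L v u ≤ st.M (v + t • u) :=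
  st.sh.mono (ok_lid h) (Ideal.map_mono (lid_le_mx v u t))

lemma al_of_off {v p : Fin n → k} (hv : MvPolynomial.eval v st.γ ≠ 0)
    (h : ∀ z ∈ st.Z, ∀ t : k, p ≠ v + t • (z - v)) : st.Al v (p - v) := by
  intro z hz t e
  have ht : t ≠ 0 := fun h0 => hv (by
    have := st.hZ z hz
    simpa [e, h0] using this)
  apply h z hz t⁻¹
  rw [e, add_sub_cancel_left, smul_smul, inv_mul_cancel₀ ht, one_smul, add_sub_cancel]

lemma M_sup [Nontrivial D] {v w : Fin n → k} (hv : MvPolynomial.eval v st.γ ≠ 0)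
    (hw : MvPolynomial.eval w st.γ ≠ 0) (h : v ≠ w) : st.M v ⊔ st.M w = ⊤ := by
  rw [M, M, ← st.sh.map_sup (ok_mx hv) (ok_mx hw), ← Ideal.map_sup, mx_sup h, Ideal.map_top,
    st.sh.map_top (ok_mx hv)]

variable [Algebra k B] [IsScalarTower k (PA k n) B]

lemma ok_ker (x : B →ₐ[k] k) (hx : MvPolynomial.eval (pt n x) st.γ ≠ 0) :
    st.sh.ok (RingHom.ker x) :=
  st.sh.ok_mono (ok_mx hx) (map_mx_le x)

variable [Algebra.IsIntegral (PA k n) B] [IsAlgClosed k] [IsDomain B] [IsDomain D]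

omit [IsDomain B] in
lemma M_ne_top {v : Fin n → k} (hv : MvPolynomial.eval v st.γ ≠ 0) : st.M v ≠ ⊤ := by
  obtain ⟨ev, rfl⟩ := exists_ev v
  refine st.sh.ne_top (ok_mx hv) fun h => (ker_isMaximal (st.emb.fib ev ⟨0, st.emb.m_pos⟩)).ne_top ?_
  rw [← top_le_iff, ← h, ← st.emb.pt_fib ev ⟨0, st.emb.m_pos⟩]
  exact map_mx_le _

omit [IsAlgClosed k] [IsDomain D] in
lemma mem_M_iff (ev : EE k n →ₐ[k] k) (hv : MvPolynomial.eval (pt n ev) st.γ ≠ 0) (d : D) :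
    d ∈ st.M (pt n ev) ↔ ∀ i, d ∈ st.sh.Φ (RingHom.ker (st.emb.fib ev i)) := by
  by_cases hd : d = 0
  · simp [hd]
  have h1 : ∀ i, st.sh.ok (RingHom.ker (st.emb.fib ev i)) := fun i =>
    ok_ker _ (by rwa [st.emb.pt_fib])
  rw [M, st.sh.mem_iff (ok_mx hv) hd]
  refine ⟨fun h i => (st.sh.mem_iff (h1 i) hd).2 (h.trans ?_), fun h b hb => ?_⟩
  · rw [← st.emb.pt_fib ev i]
    exact map_mx_le _
  · exact st.emb.mem_map_mx ev (Δ_ne hv) fun i => (st.sh.mem_iff (h1 i) hd).1 (h i) hb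

lemma unit_iff {v : Fin n → k} (hv : MvPolynomial.eval v st.γ ≠ 0) {d : D} (hd : d ≠ 0)
    {f : PA k n} (hf : st.emb.IsNG (st.sh.I d) f) :
    MvPolynomial.eval v f ≠ 0 ↔ Ideal.span {d} ⊔ st.M v = ⊤ := by
  rw [hf.eval_ne_iff (st.sh.I_inv hd), M, ← st.sh.map_span_sup (ok_mx hv) hd]
  constructor
  · intro h
    suffices h1 : st.sh.I d ⊔ (mx v).map (algebraMap (PA k n) B) = ⊤ by
      rw [h1, st.sh.map_top (ok_mx hv)]
    by_contra hne
    obtain ⟨Q, hQ, hle⟩ := Ideal.exists_le_maximal _ hne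
    have h2 : mx v = Q.comap (algebraMap (PA k n) B) :=
      (mx_isMaximal v).eq_of_le (Ideal.comap_ne_top _ hQ.ne_top)
        (Ideal.map_le_iff_le_comap.1 (le_sup_right.trans hle))
    obtain ⟨x, hx, hx'⟩ := exists_point_over Q v (fun f hf => by
      rw [← mem_mx, h2]
      exact hf)
    exact h x hx' (le_sup_left.trans (hle.trans hx))
  · intro h x hx hle
    have hx' : MvPolynomial.eval (pt n x) st.γ ≠ 0 := by rwa [hx]
    refine st.sh.ne_top (ok_ker x hx') (ker_isMaximal x).ne_top ?_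
    rw [← top_le_iff, ← h]
    exact st.sh.mono (st.sh.ok_mono (ok_mx hv) le_sup_right) (sup_le hle (hx ▸ map_mx_le x))

omit [IsDomain D] in
lemma ratio {v u : Fin n → k} (h : st.Al v u) {d e : D} (hd : d ≠ 0) (he : e ≠ 0)
    (hde : d - e ∈ st.L v u) {f f' : PA k n} (hf : st.emb.IsNG (st.sh.I d) f)
    (hf' : st.emb.IsNG (st.sh.I e) f') :
    ∃ c : k, ∀ t : k, MvPolynomial.eval (v + t • u) f = c * MvPolynomial.eval (v + t • u) f' := by
  obtain ⟨c, -, hc⟩ := hf.line_eq (st.sh.I_inv hd) (st.sh.I_inv he) hf' v u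
    (st.sh.I_sup_eq (ok_lid h) hd he hde)
  exact ⟨c, fun t => by rw [← eval_line, ← eval_line, hc, eval_mul, eval_C]⟩

omit [IsDomain B] [IsDomain D] in
lemma ng_one : st.emb.IsNG (st.sh.I 1) 1 := by
  refine ⟨one_ne_zero, fun v s hs => ⟨st.emb.ν s, ?_, (one_mul _).symm⟩⟩
  rw [st.emb.eval_ν_ne_iff]
  intro x hx
  rw [hs.apply_ne_iff x hx, st.sh.I_one, top_le_iff]
  exact (ker_isMaximal x).ne_top

lemma const_of_one {v p : Fin n → k} (hv : MvPolynomial.eval v st.γ ≠ 0) (h : st.Al v (p - v))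
    {a : D} (ha : a - 1 ∈ st.L v (p - v)) {f : PA k n} (hf : st.emb.IsNG (st.sh.I a) f) :
    MvPolynomial.eval v f = MvPolynomial.eval p f := by
  have ha0 : a ≠ 0 := by
    rintro rfl
    have h1 := L_le_M h 0 ha
    rw [zero_smul, add_zero, zero_sub, neg_mem_iff, ← Ideal.eq_top_iff_one] at h1
    exact M_ne_top hv h1
  obtain ⟨c, hc⟩ := ratio h ha0 one_ne_zero ha hf ng_one
  have h0 := hc 0
  have h1 := hc 1
  simp only [zero_smul, add_zero, one_smul, add_sub_cancel, map_one] at h0 h1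
  rw [h0, h1]

lemma triangle {v w : Fin n → k} (hv : MvPolynomial.eval v st.γ ≠ 0)
    (hw : MvPolynomial.eval w st.γ ≠ 0) (h : st.Al v (w - v)) {a : D} (h1 : a - 1 ∈ st.M v)
    (h2 : a - 1 ∈ st.M w) {f : PA k n} (hf : st.emb.IsNG (st.sh.I a) f) :
    MvPolynomial.eval v f = MvPolynomial.eval w f := by
  classical
  by_cases hvw : v = w
  · rw [hvw]
  obtain ⟨p, -, hp⟩ := exists_off_lines st.hn (one_ne_zero (α := PA k n))
    (insert (v, w - v) (st.Z.image (fun z => (v, z - v)) ∪ st.Z.image (fun z => (w, z - w))))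
  have a2 : st.Al v (p - v) := al_of_off hv fun z hz => hp (v, z - v) (by
    simp only [Finset.mem_insert, Finset.mem_union, Finset.mem_image]
    exact Or.inr (Or.inl ⟨z, hz, rfl⟩))
  have a3 : st.Al w (p - w) := al_of_off hw fun z hz => hp (w, z - w) (by
    simp only [Finset.mem_insert, Finset.mem_union, Finset.mem_image]
    exact Or.inr (Or.inr ⟨z, hz, rfl⟩))
  have hp0 := hp (v, w - v) (Finset.mem_insert_self _ _)
  have e1 : st.L v (w - v) ⊔ st.L v (p - v) = st.M v := by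
    rw [L, L, ← st.sh.map_sup (ok_lid h) (ok_lid a2), ← Ideal.map_sup,
      lid_sup (sub_ne_zero.2 (Ne.symm hvw)) (fun t e => hp0 t (by rw [← e, add_sub_cancel])), M]
  have e2 : st.L v (w - v) ⊔ st.L w (p - w) = st.M w := by
    rw [L, L, ← st.sh.map_sup (ok_lid h) (ok_lid a3), ← Ideal.map_sup, lid_rev,
      lid_sup (sub_ne_zero.2 hvw) (fun t e => hp0 (1 - t) (by
        rw [sub_eq_iff_eq_add.1 e]
        ext i
        simp
        ring)), M]
  have h3 : a - 1 ∈ st.L v (w - v) ⊔ st.L v (p - v) * st.L w (p - w) := by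
    have h4 : a - 1 ∈ st.M v * st.M w := by
      rw [Ideal.mul_eq_inf_of_isCoprime (Ideal.isCoprime_iff_sup_eq.2 (M_sup hv hw hvw))]
      exact ⟨h1, h2⟩
    rw [← e1, ← e2, Ideal.sup_mul, Ideal.mul_sup (st.L v (p - v))] at h4
    exact (sup_le (Ideal.mul_le_left.trans le_sup_left)
      (sup_le (Ideal.mul_le_right.trans le_sup_left) le_sup_right) :
        _ ≤ st.L v (w - v) ⊔ st.L v (p - v) * st.L w (p - w)) h4
  obtain ⟨j, hj, j', hj', e⟩ : ∃ j ∈ st.L v (w - v), ∃ j' ∈ st.L v (p - v) * st.L w (p - w),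
      j + j' = a - 1 := Submodule.mem_sup.1 h3
  have ne0 : ∀ b : D, b - 1 ∈ st.M v → b ≠ 0 := by
    rintro _ hb rfl
    rw [zero_sub, neg_mem_iff, ← Ideal.eq_top_iff_one] at hb
    exact M_ne_top hv hb
  have b2 : 1 + j' - 1 ∈ st.L v (p - v) := by simpa using Ideal.mul_le_left hj'
  have b3 : 1 + j' - 1 ∈ st.L w (p - w) := by simpa using Ideal.mul_le_right hj'
  have ha' : 1 + j' ≠ 0 := ne0 _ (by simpa using L_le_M a2 0 b2)
  obtain ⟨f', hf'⟩ := st.emb.exists_NG (st.sh.I_ne_bot ha')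
  have hj1 : a - (1 + j') ∈ st.L v (w - v) := by
    rw [← sub_sub, ← e, add_sub_cancel_right]
    exact hj
  obtain ⟨c, hc⟩ := ratio h (ne0 a h1) ha' hj1 hf hf'
  have c0 := hc 0
  have c1 := hc 1
  simp only [zero_smul, add_zero, one_smul, add_sub_cancel] at c0 c1
  rw [c0, c1, const_of_one hv a2 b2 hf', const_of_one hw a3 b3 hf']

variable (st)

theorem exists_N : ∃ N : D → PA k n, N 0 = 0 ∧ (∀ d, d ≠ 0 → st.emb.IsNG (st.sh.I d) (N d)) ∧
    (∀ d e, N (d * e) = N d * N e) ∧ N 1 = 1 ∧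
    ∀ v : Fin n → k, MvPolynomial.eval v st.γ ≠ 0 → ∀ d e, d - e ∈ st.M v →
      MvPolynomial.eval v (N d) = MvPolynomial.eval v (N e) := by
  classical
  have hex : ∀ d : D, ∃ f, d ≠ 0 → st.emb.IsNG (st.sh.I d) f := fun d => by
    by_cases hd : d = 0
    · exact ⟨0, fun h => absurd hd h⟩
    · obtain ⟨f, hf⟩ := st.emb.exists_NG (st.sh.I_ne_bot hd)
      exact ⟨f, fun _ => hf⟩
  choose f hf using hex
  obtain ⟨c, hc, hc0, hmul, hcong, hone⟩ := exists_normalisation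
    (G := {v : Fin n → k // MvPolynomial.eval v st.γ ≠ 0}) (fun v => st.M v.1)
    (fun v w h => M_sup v.2 w.2 (fun e => h (Subtype.ext e))) (fun v => M_ne_top v.2)
    (fun d v => MvPolynomial.eval v.1 (f d))
    (fun d e hd he => by
      obtain ⟨c, hc, h⟩ := (hf d hd).mul (st.sh.I_inv hd) (st.sh.I_inv he) (hf e he)
        (st.sh.I_mul hd he ▸ hf _ (mul_ne_zero hd he))
      exact ⟨c, hc, fun v => by simp [h]⟩)
    (fun d v hd => unit_iff v.2 hd (hf d hd)) (fun v w => st.Al v.1 (w.1 - v.1))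
    (fun a v w h h1 h2 => triangle v.2 w.2 h h1 h2 (hf a (by
      rintro rfl
      rw [zero_sub, neg_mem_iff, ← Ideal.eq_top_iff_one] at h1
      exact M_ne_top v.2 h1)))
    (fun d hd T => by
      obtain ⟨p, hp, hp'⟩ := exists_off_lines st.hn (mul_ne_zero st.γ_ne (hf d hd).1)
        (T.image (fun v => (v.1, 0)) ∪ (T ×ˢ st.Z).image (fun q => (q.1.1, q.2 - q.1.1)))
      rw [map_mul, mul_ne_zero_iff] at hp
      refine ⟨⟨p, hp.1⟩, fun hT => ?_, hp.2, fun v hv => al_of_off v.2 fun z hz => ?_⟩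
      · exact hp' (p, 0) (Finset.mem_union_left _ (Finset.mem_image.2 ⟨_, hT, rfl⟩)) 0 (by simp)
      · exact hp' (v.1, z - v.1) (Finset.mem_union_right _
          (Finset.mem_image.2 ⟨(v, z), Finset.mem_product.2 ⟨hv, hz⟩, rfl⟩)))
  refine ⟨fun d => MvPolynomial.C (c d) * f d, by simp [hc0], fun d hd => ⟨?_, fun v s hs => ?_⟩,
    fun d e => eq_of_good st.γ_ne fun v hv => ?_, eq_of_good st.γ_ne fun v hv => ?_,
    fun v hv d e h => ?_⟩
  · exact mul_ne_zero (by simpa using hc d hd) (hf d hd).1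
  · obtain ⟨g, hg, e⟩ := (hf d hd).2 v s hs
    refine ⟨MvPolynomial.C (c d)⁻¹ * g, by simpa using ⟨hc d hd, hg⟩, ?_⟩
    rw [e, mul_mul_mul_comm, ← map_mul, mul_inv_cancel₀ (hc d hd), map_one, one_mul]
  · simpa using hmul d e ⟨v, hv⟩
  · simpa using hone ⟨v, hv⟩
  · simpa using hcong d e ⟨v, hv⟩ h

end Setup

end Pool.Agent.MP_f1fec5_al.Aff

end

section

namespace Pool.Agent.MP_f1fec5_al.Aff

open Polynomial

universe u v

namespace Setup

variable {k : Type u} [Field k] {n : ℕ} {B : Type u} [CommRing B] [Algebra (PA k n) B]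
  {D : Type v} [CommRing D] (st : Setup k n B D) [Algebra k B] [IsScalarTower k (PA k n) B]
  [Algebra.IsIntegral (PA k n) B]

/-- maximal ideal of the model attached to a point of a fibre -/
noncomputable def Mi (ev : EE k n →ₐ[k] k) (i : Fin st.emb.m) : Ideal D :=
  st.sh.Φ (RingHom.ker (st.emb.fib ev i))

/-- the other maximal ideals of the fibre -/
noncomputable def Oi (ev : EE k n →ₐ[k] k) (i : Fin st.emb.m) : Ideal D :=
  ⨅ j ∈ Finset.univ.erase i, st.Mi ev j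

/-- A normalised norm. -/
structure IsN (N : D → PA k n) : Prop where
  zero : N 0 = 0
  ng : ∀ d, d ≠ 0 → st.emb.IsNG (st.sh.I d) (N d)
  mul : ∀ d e, N (d * e) = N d * N e
  one : N 1 = 1
  cong : ∀ v : Fin n → k, MvPolynomial.eval v st.γ ≠ 0 → ∀ d e, d - e ∈ st.M v →
    MvPolynomial.eval v (N d) = MvPolynomial.eval v (N e)

variable {st} {ev : EE k n →ₐ[k] k} (hv : MvPolynomial.eval (pt n ev) st.γ ≠ 0)

lemma mem_Oi {i : Fin st.emb.m} {d : D} : d ∈ st.Oi ev i ↔ ∀ j, j ≠ i → d ∈ st.Mi ev j := by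
  simp [Oi]

include hv

lemma ok_fib (i : Fin st.emb.m) : st.sh.ok (RingHom.ker (st.emb.fib ev i)) :=
  ok_ker _ (by rwa [st.emb.pt_fib])

variable [IsDomain B] [IsDomain D]

omit [IsDomain B] in
lemma Mi_max (i : Fin st.emb.m) : (st.Mi ev i).IsMaximal :=
  st.sh.isMaximal (ok_fib hv i) (ker_isMaximal _)

omit [IsDomain B] in
lemma Mi_sup_Oi (i : Fin st.emb.m) : st.Mi ev i ⊔ st.Oi ev i = ⊤ := by
  refine Ideal.sup_iInf_eq_top fun j hj => (Mi_max hv i).coprime_of_ne (Mi_max hv j) fun e => ?_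
  have h1 := st.sh.inj (ok_fib hv i) (ok_fib hv j) e
  exact (Finset.mem_erase.1 hj).1 (st.emb.fib_inj ev (Δ_ne hv) (point_eq_of_ker_le h1.le)).symm

omit [IsDomain D] in
lemma mem_M_of {i : Fin st.emb.m} {d : D} (h1 : d ∈ st.Mi ev i) (h2 : d ∈ st.Oi ev i) :
    d ∈ st.M (pt n ev) := by
  rw [mem_M_iff ev hv]
  intro j
  by_cases hj : j = i
  · exact hj ▸ h1
  · exact mem_Oi.1 h2 j hj

omit [IsDomain B] in
lemma not_mem_of_Oi {i j : Fin st.emb.m} (hj : j ≠ i) {d : D} (h : d - 1 ∈ st.Oi ev i) :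
    d ∉ st.Mi ev j := fun h' => (Mi_max hv j).ne_top ((Ideal.eq_top_iff_one _).2 (by
  simpa using Ideal.sub_mem _ h' (mem_Oi.1 h j hj)))

variable [IsAlgClosed k] {N : D → PA k n} (hN : st.IsN N)

include hN

omit [IsDomain D] in
lemma eval_eq_zero_iff (d : D) :
    MvPolynomial.eval (pt n ev) (N d) = 0 ↔ ∃ j, d ∈ st.Mi ev j := by
  by_cases hd : d = 0
  · simp [hd, hN.zero, Fin.pos_iff_nonempty.1 st.emb.m_pos]
  rw [← not_iff_not, ← Ne, (hN.ng d hd).eval_ne_iff (st.sh.I_inv hd), not_exists]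
  refine ⟨fun h j hj => h _ (st.emb.pt_fib ev j) ((st.sh.mem_iff (ok_fib hv j) hd).1 hj),
    fun h x hx hle => ?_⟩
  obtain ⟨j, rfl⟩ := st.emb.exists_eq_fib ev x hx
  exact h j ((st.sh.mem_iff (ok_fib hv j) hd).2 hle)

omit [IsDomain B] [IsDomain D] [IsAlgClosed k] hN in
lemma map_hyp (i : Fin st.emb.m) {u : Fin n → k} (hu : st.Al (pt n ev) u) :
    st.sh.ok (Emb.hyp (st.emb.fib ev i) u) ∧
      st.sh.Φ (Emb.hyp (st.emb.fib ev i) u) = st.Mi ev i * st.Mi ev i ⊔ st.L (pt n ev) u := by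
  rw [Emb.hyp, st.emb.pt_fib]
  exact ⟨st.sh.ok_mono (ok_lid hu) le_sup_right,
    st.sh.map_mul_sup (ok_fib hv i) (ok_fib hv i) (ok_lid hu)⟩

lemma mem_hyp_iff (i : Fin st.emb.m) {u : Fin n → k} (hu : st.Al (pt n ev) u) (hu0 : u ≠ 0)
    {d : D} (h1 : d ∈ st.Mi ev i) (h2 : d - 1 ∈ st.Oi ev i) :
    d ∈ st.sh.Φ (Emb.hyp (st.emb.fib ev i) u) ↔ (line (pt n ev) u (N d)).coeff 1 = 0 := by
  by_cases hd : d = 0
  · simp [hd, hN.zero]
  rw [st.sh.mem_iff (map_hyp hv i hu).1 hd]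
  exact (hN.ng d hd).le_hyp_iff (st.sh.I_inv hd) ev (Δ_ne hv) i hu0
    ((st.sh.mem_iff (ok_fib hv i) hd).1 h1)
    (fun j hj h => not_mem_of_Oi hv hj h2 ((st.sh.mem_iff (ok_fib hv j) hd).2 h))

omit [IsAlgClosed k] hN in
lemma le_hyp_sup (i : Fin st.emb.m) {u : Fin n → k} (hu : st.Al (pt n ev) u) (hu0 : u ≠ 0)
    {d : D} (h1 : d ∈ st.Mi ev i) (h2 : d ∉ st.sh.Φ (Emb.hyp (st.emb.fib ev i) u)) :
    st.Mi ev i ≤ st.sh.Φ (Emb.hyp (st.emb.fib ev i) u) ⊔ Ideal.span {d} := by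
  have hd : d ≠ 0 := fun h => h2 (h ▸ Ideal.zero_mem _)
  rw [sup_comm, ← st.sh.map_span_sup (map_hyp hv i hu).1 hd, sup_comm]
  exact st.sh.mono (ok_fib hv i) (st.emb.ker_le_of_not_le ev (Δ_ne hv) i hu0
    ((st.sh.mem_iff (ok_fib hv i) hd).1 h1)
    (fun h => h2 ((st.sh.mem_iff (map_hyp hv i hu).1 hd).2 h)))

lemma coeff_congr [IsNoetherianRing D] (i : Fin st.emb.m) {u : Fin n → k}
    (hu : st.Al (pt n ev) u) (hu0 : u ≠ 0) {d e : D} (h1 : d ∈ st.Mi ev i) (h2 : e ∈ st.Mi ev i)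
    (h3 : d - 1 ∈ st.Oi ev i) (h4 : e - 1 ∈ st.Oi ev i)
    (h : d - e ∈ st.sh.Φ (Emb.hyp (st.emb.fib ev i) u)) :
    (line (pt n ev) u (N d)).coeff 1 = (line (pt n ev) u (N e)).coeff 1 := by
  by_cases hd : d ∈ st.sh.Φ (Emb.hyp (st.emb.fib ev i) u)
  · have he : e ∈ st.sh.Φ (Emb.hyp (st.emb.fib ev i) u) := by simpa using Ideal.sub_mem _ hd h
    rw [(mem_hyp_iff hv hN i hu hu0 h1 h3).1 hd, (mem_hyp_iff hv hN i hu hu0 h2 h4).1 he]
  have h5 := le_hyp_sup hv i hu hu0 h1 hd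
  rw [(map_hyp hv i hu).2] at h5 h
  obtain ⟨r, hr, hr'⟩ := Submodule.exists_sub_one_mem_and_smul_le_of_fg_of_le_sup
    (I := st.Mi ev i) (N := st.L (pt n ev) u ⊔ Ideal.span {d}) (N' := st.Mi ev i)
    (P := st.Mi ev i) (IsNoetherian.noetherian _) le_rfl
    (h5.trans (sup_le (sup_le le_sup_right (le_sup_left.trans le_sup_left))
      (le_sup_right.trans le_sup_left)))
  have h6 : ∀ y ∈ st.Mi ev i * st.Mi ev i ⊔ st.L (pt n ev) u,
      ∃ μ ∈ st.Mi ev i, r * y - μ * d ∈ st.L (pt n ev) u := by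
    intro y hy
    obtain ⟨a, ha, l, hl, rfl⟩ := Submodule.mem_sup.1 hy
    have h7 : ∃ μ ∈ st.Mi ev i, r * a - μ * d ∈ st.L (pt n ev) u := by
      refine Submodule.mul_induction_on ha (fun p hp q hq => ?_) (fun p q hp hq => ?_)
      · obtain ⟨l', hl', z, hz, e'⟩ := Submodule.mem_sup.1 (hr' (Submodule.smul_mem_pointwise_smul
          p r _ hp))
        obtain ⟨c, rfl⟩ := Ideal.mem_span_singleton'.1 hz
        refine ⟨c * q, Ideal.mul_mem_left _ _ hq, ?_⟩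
        have : r * (p * q) - c * q * d = l' * q := by
          rw [smul_eq_mul] at e'
          linear_combination -q * e'
        rw [this]
        exact Ideal.mul_mem_right _ _ hl'
      · obtain ⟨μ, hμ, hp⟩ := hp
        obtain ⟨μ', hμ', hq⟩ := hq
        refine ⟨μ + μ', Ideal.add_mem _ hμ hμ', ?_⟩
        convert Ideal.add_mem _ hp hq using 1
        ring
    obtain ⟨μ, hμ, h8⟩ := h7
    refine ⟨μ, hμ, ?_⟩
    convert Ideal.add_mem _ h8 (Ideal.mul_mem_left _ r hl) using 1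
    ring
  obtain ⟨μ, hμ, h7⟩ := h6 _ h
  obtain ⟨μ₀, hμ₀, o, ho, e1⟩ := Submodule.mem_sup.1
    ((Mi_sup_Oi hv i).ge (Submodule.mem_top (x := (1 : D))))
  have hL : (r * o + μ₀ * d) * e - (r * o + μ₀ * e - o * μ) * d ∈ st.L (pt n ev) u := by
    convert Ideal.mul_mem_left _ (-o) h7 using 1
    ring
  have a1 : MvPolynomial.eval (pt n ev) (N (r * o + μ₀ * d)) = 1 := by
    rw [hN.cong _ hv _ 1, hN.one, map_one]
    refine mem_M_of hv (i := i) ?_ ?_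
    · have : r * o + μ₀ * d - 1 = (r - 1) * o + μ₀ * (d - 1) := by linear_combination e1
      rw [this]
      exact Ideal.add_mem _ (Ideal.mul_mem_right _ _ hr) (Ideal.mul_mem_right _ _ hμ₀)
    · have : r * o + μ₀ * d - 1 = (r - 1) * o + μ₀ * (d - 1) := by linear_combination e1
      rw [this]
      exact Ideal.add_mem _ (Ideal.mul_mem_left _ _ ho) (Ideal.mul_mem_left _ _ h3)
  have a2 : MvPolynomial.eval (pt n ev) (N (r * o + μ₀ * e - o * μ)) = 1 := by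
    rw [hN.cong _ hv _ 1, hN.one, map_one]
    have : r * o + μ₀ * e - o * μ - 1 = (r - 1) * o + μ₀ * (e - 1) - o * μ := by
      linear_combination e1
    refine mem_M_of hv (i := i) ?_ ?_
    · rw [this]
      exact Ideal.sub_mem _ (Ideal.add_mem _ (Ideal.mul_mem_right _ _ hr)
        (Ideal.mul_mem_right _ _ hμ₀)) (Ideal.mul_mem_left _ _ hμ)
    · rw [this]
      exact Ideal.sub_mem _ (Ideal.add_mem _ (Ideal.mul_mem_left _ _ ho)
        (Ideal.mul_mem_left _ _ h4)) (Ideal.mul_mem_right _ _ ho)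
  have h8 := line_eq_of_good (u := u) hv (fun t ht => hN.cong _ ht _ _ (L_le_M hu t hL))
  have h9 := congrArg (fun p => p.coeff 1) h8
  simp only [hN.mul, coeff_one_line_mul, a1, a2, (eval_eq_zero_iff hv hN d).2 ⟨i, h1⟩,
    (eval_eq_zero_iff hv hN e).2 ⟨i, h2⟩, one_mul, mul_zero, add_zero] at h9
  exact h9.symm

theorem exists_chi [IsNoetherianRing D] (i : Fin st.emb.m) :
    ∃ χ : D →+* k, Function.Surjective χ ∧ RingHom.ker χ = st.Mi ev i ∧
      ∀ c, c - 1 ∈ st.Oi ev i → χ c = MvPolynomial.eval (pt n ev) (N c) := by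
  obtain ⟨μ₀, hμ₀, o, ho, e1⟩ := Submodule.mem_sup.1
    ((Mi_sup_Oi hv i).ge (Submodule.mem_top (x := (1 : D))))
  let χ : D → k := fun c => MvPolynomial.eval (pt n ev) (N (c * o + μ₀))
  have k1 : ∀ c, c * o + μ₀ - c ∈ st.Mi ev i := fun c => by
    have : c * o + μ₀ - c = (1 - c) * μ₀ := by linear_combination c * e1
    rw [this]
    exact Ideal.mul_mem_left _ _ hμ₀
  have k2 : ∀ c, c * o + μ₀ - 1 ∈ st.Oi ev i := fun c => by
    have : c * o + μ₀ - 1 = (c - 1) * o := by linear_combination e1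
    rw [this]
    exact Ideal.mul_mem_left _ _ ho
  have key : ∀ c c', c' - c ∈ st.Mi ev i → c' - 1 ∈ st.Oi ev i →
      χ c = MvPolynomial.eval (pt n ev) (N c') := fun c c' h1 h2 =>
    hN.cong _ hv _ _ (mem_M_of hv (i := i) (by simpa using Ideal.sub_mem _ (k1 c) h1)
      (by simpa using Ideal.sub_mem _ (k2 c) h2))
  have hmul : ∀ c d, χ (c * d) = χ c * χ d := fun c d => by
    rw [key (c * d) ((c * o + μ₀) * (d * o + μ₀)), hN.mul, map_mul]
    · convert Ideal.add_mem _ (Ideal.mul_mem_right (d * o + μ₀) _ (k1 c))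
        (Ideal.mul_mem_left _ c (k1 d)) using 1
      ring
    · convert Ideal.add_mem _ (Ideal.mul_mem_right (d * o + μ₀) _ (k2 c)) (k2 d) using 1
      ring
  have hker : ∀ c, χ c = 0 ↔ c ∈ st.Mi ev i := fun c => by
    refine (eval_eq_zero_iff hv hN _).trans ⟨fun ⟨j, hj⟩ => ?_, fun h => ⟨i, ?_⟩⟩
    · by_cases hji : j = i
      · subst hji
        convert Ideal.sub_mem _ hj (k1 c) using 1
        ring
      · exact absurd hj (not_mem_of_Oi hv hji (k2 c))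
    · simpa using Ideal.add_mem _ (k1 c) h
  have hn := st.hn
  let i0 : Fin n := ⟨0, by omega⟩
  let i1 : Fin n := ⟨1, by omega⟩
  have h01 : i0 ≠ i1 := by simp [i0, i1]
  let u : k → Fin n → k := fun l => Pi.single i0 1 + l • Pi.single i1 1
  have hu0 : ∀ l, u l ≠ 0 := fun l h => by simpa [u, h01] using congrFun h i0
  have hF : {l : k | ¬ st.Al (pt n ev) (u l)}.Finite := by
    refine ((st.Z.finite_toSet).image
      (fun z => (z i1 - pt n ev i1) / (z i0 - pt n ev i0))).subset fun l hl => ?_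
    simp only [Al, Set.mem_ofPred_eq] at hl
    push Not at hl
    obtain ⟨z, hz, t, e⟩ := hl
    have ht : t ≠ 0 := fun h0 => hv (by
      have := st.hZ z hz
      simpa [e, h0] using this)
    refine ⟨z, hz, ?_⟩
    simp [e, u, h01, h01.symm, ht]
  obtain ⟨hadd, hsurj⟩ := tangent_add (st.Mi ev i) (st.Oi ev i) (Mi_sup_Oi hv i) χ
    (fun d => (line (pt n ev) (Pi.single i0 1) (N d)).coeff 1)
    (fun d => (line (pt n ev) (Pi.single i1 1) (N d)).coeff 1) hmul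
    (fun c d h => key c (d * o + μ₀) (by
      convert Ideal.sub_mem _ (k1 d) h using 1
      ring) (k2 d)) hker
    (fun c d h1 _ h3 => by
      simp only [hN.mul, coeff_one_line_mul, (eval_eq_zero_iff hv hN d).2 ⟨i, h3⟩, mul_zero,
        add_zero, key c c (by simp) h1, and_self])
    _ hF (fun l => st.sh.Φ (Emb.hyp (st.emb.fib ev i) (u l)))
    (fun l hl => by rw [(map_hyp hv i (not_not.1 hl)).2]; exact le_sup_left)
    (fun l hl => st.sh.mono (map_hyp hv i (not_not.1 hl)).1 (Emb.hyp_le _ _))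
    (fun l hl d h1 h2 => le_hyp_sup hv i (not_not.1 hl) (hu0 l) h1 h2)
    (fun l hl l' hl' hne h => st.emb.not_hyp_le ev (Δ_ne hv) i (hu0 l) (fun t e => hne (by
        have a0 := congrFun e i0
        have a1 := congrFun e i1
        simp [u, h01, h01.symm] at a0 a1
        rw [a1, ← a0, one_mul]))
      ((st.sh.le_iff (map_hyp hv i (not_not.1 hl)).1 (map_hyp hv i (not_not.1 hl')).1).1 h))
    (fun l hl d h1 h2 => by
      rw [← coeff_one_line_add]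
      exact mem_hyp_iff hv hN i (not_not.1 hl) (hu0 l) h1 h2)
    (fun l hl d h1 e h2 h3 h4 h => by
      rw [← coeff_one_line_add, ← coeff_one_line_add]
      exact coeff_congr hv hN i (not_not.1 hl) (hu0 l) h1 h2 h3 h4 h)
  refine ⟨⟨⟨⟨χ, ?_⟩, hmul⟩, (hker 0).2 (Ideal.zero_mem _), hadd⟩, hsurj, Ideal.ext hker,
    fun c hc => key c c (by simp) hc⟩
  rw [key 1 1 (by simp) (by simp), hN.one, map_one]

end Setup

/-- Rigid data from a shadow. -/
theorem Setup.exists_RD {k : Type u} [Field k] [IsAlgClosed k] {n : ℕ} {B : Type u} [CommRing B]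
    [IsDomain B] [Algebra (PA k n) B] [Algebra k B] [IsScalarTower k (PA k n) B]
    [Algebra.IsIntegral (PA k n) B] {D : Type v} [CommRing D] [IsDomain D] [IsNoetherianRing D]
    (st : Setup k n B D) : ∃ rd : RD k n D, rd.γ = st.γ ∧
      (∀ x : B →ₐ[k] k, MvPolynomial.eval (pt n x) st.γ ≠ 0 →
        ∃ i, RingHom.ker (rd.χ (pt n x) i) = st.sh.Φ (RingHom.ker x)) ∧
      ∀ v i, MvPolynomial.eval v st.γ ≠ 0 →
        ∃ x : B →ₐ[k] k, pt n x = v ∧ RingHom.ker (rd.χ v i) = st.sh.Φ (RingHom.ker x) := by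
  classical
  obtain ⟨N, h0, h1, h2, h3, h4⟩ := st.exists_N
  have hN : st.IsN N := ⟨h0, h1, h2, h3, h4⟩
  choose ev hev using fun v : Fin n → k => exists_ev v
  obtain ⟨v₀, hv₀⟩ := exists_eval_ne_zero st.γ_ne
  have hex : ∀ (v : Fin n → k) (i : Fin st.emb.m), ∃ χ : D →+* k,
      MvPolynomial.eval v st.γ ≠ 0 → Function.Surjective χ ∧ RingHom.ker χ = st.Mi (ev v) i ∧
        ∀ c, c - 1 ∈ st.Oi (ev v) i → χ c = MvPolynomial.eval v (N c) := by
    intro v i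
    by_cases hv : MvPolynomial.eval v st.γ ≠ 0
    · obtain ⟨χ, hχ⟩ := Setup.exists_chi (ev := ev v) (by rwa [hev]) hN i
      exact ⟨χ, fun _ => by rwa [hev] at hχ⟩
    · obtain ⟨χ, -⟩ := Setup.exists_chi (ev := ev v₀) (by rwa [hev]) hN i
      exact ⟨χ, fun h => absurd h hv⟩
  choose χ hχ using hex
  have good : ∀ v, MvPolynomial.eval v st.γ ≠ 0 → MvPolynomial.eval (pt n (ev v)) st.γ ≠ 0 :=
    fun v hv => by rwa [hev]
  refine ⟨⟨st.emb.m, st.emb.m_pos, st.γ, st.γ_ne, χ, N, fun v i hv => (hχ v i hv).1,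
    fun v i w j hv hw e => ?_, fun v d hv => ?_, fun d hd => (h1 d hd).1⟩, rfl,
    fun x hx => ?_, fun v i hv => ⟨_, (st.emb.pt_fib (ev v) i).trans (hev v), (hχ v i hv).2.1⟩⟩
  · rw [(hχ v i hv).2.1, (hχ w j hw).2.1] at e
    have e1 := point_eq_of_ker_le
      (st.sh.inj (Setup.ok_fib (good v hv) i) (Setup.ok_fib (good w hw) j) e).le
    have e2 : v = w := by rw [← hev v, ← hev w, ← st.emb.pt_fib _ i, e1, st.emb.pt_fib]
    subst e2
    exact ⟨rfl, st.emb.fib_inj _ (Setup.Δ_ne (good v hv)) e1⟩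
  · have hex : ∀ i, ∃ c, c - d ∈ st.Mi (ev v) i ∧ c - 1 ∈ st.Oi (ev v) i := fun i => by
      obtain ⟨a, ha, b, hb, e⟩ := Submodule.mem_sup.1
        ((Setup.Mi_sup_Oi (good v hv) i).ge (Submodule.mem_top (x := d - 1)))
      exact ⟨1 + b, by rw [show 1 + b - d = -a by linear_combination e]; exact neg_mem ha,
        by simpa using hb⟩
    choose c hc hc' using hex
    have a1 : ∀ i, χ v i (c i) = χ v i d := fun i => by
      have := hc i
      rwa [← (hχ v i hv).2.1, RingHom.mem_ker, map_sub, sub_eq_zero] at this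
    have a2 : ∏ i, c i - d ∈ st.M v := by
      rw [← hev v, Setup.mem_M_iff _ (good v hv)]
      intro j
      change _ ∈ st.Mi (ev v) j
      rw [← (hχ v j hv).2.1, RingHom.mem_ker, map_sub, map_prod, Finset.prod_eq_single j, a1,
        sub_self]
      · intro i _ hij
        have := Setup.mem_Oi.1 (hc' i) j hij.symm
        rwa [← (hχ v j hv).2.1, RingHom.mem_ker, map_sub, map_one, sub_eq_zero] at this
      · simp
    let N' : D →* PA k n := ⟨⟨N, h3⟩, h2⟩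
    have a3 : N (∏ i, c i) = ∏ i, N (c i) := map_prod N' _ _
    rw [← h4 v hv _ _ a2, a3, map_prod]
    exact Finset.prod_congr rfl fun i _ => by rw [← (hχ v i hv).2.2 _ (hc' i), a1]
  · obtain ⟨i, hi⟩ := st.emb.exists_eq_fib (ev (pt n x)) x (hev _).symm
    exact ⟨i, by rw [(hχ _ i hx).2.1, Setup.Mi, ← hi]⟩

end Pool.Agent.MP_f1fec5_al.Aff

end
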