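import Pool.Agent.MP_f1fec5_al.Aff.Core
import Pool.Agent.MP_f1fec5_al.Aff.Rig
import Pool.Agent.MP_f1fec5_al.Aff.Kk

section

namespace Pool.Agent.MP_f1fec5_al.Aff

open Polynomial

universe u v

variable {k : Type u} [Field k] {n : ℕ} {D : Type v} [CommRing D] [IsDomain D] {rd : RD k n D}

lemma lift_trans {A R Ω : Type*} [CommRing A] [CommRing R] [CommRing Ω] [Algebra A Ω]
    [Algebra R Ω] (h : ∀ a : A, IsIntegral R (algebraMap A Ω a)) {w : Ω} (hw : IsIntegral A w) :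
    IsIntegral R w := by
  have h1 : IsIntegral (integralClosure R Ω) w :=
    IsIntegral.map_of_comp_eq ((algebraMap A Ω).codRestrict (integralClosure R Ω) h)
      (RingHom.id Ω) (RingHom.ext fun _ => rfl) hw
  exact isIntegral_trans w h1

lemma lift_coe_const (α : k) :
    ((algebraMap k (EE k n) α : EE k n) : Om k n) = algebraMap k (Om k n) α := rfl

lemma lift_int_iff (th : TH rd) (e : EE k n) :
    (th.θ ⟨0, rd.m_pos⟩).IsIntegralElem e ↔ th.θ0.IsIntegralElem (e : Om k n) := by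
  refine exists_congr fun f => and_congr_right fun _ => ?_
  have := Polynomial.hom_eval₂ f (th.θ ⟨0, rd.m_pos⟩)
    (integralClosure (PA k n) (Om k n)).val.toRingHom e
  constructor
  · intro h
    rw [h, map_zero] at this
    exact this.symm
  · intro h
    exact Subtype.ext (this.trans h)

/-- One element makes the absolute integral closure integral over the image. -/
lemma lift_den (th : TH rd) (halg : Algebra.IsAlgebraic (fracField th.θ0) (Om k n))
    (hint : ∀ α : k, th.θ0.IsIntegralElem (algebraMap k (Om k n) α)) :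
    ∃ δ : D, δ ≠ 0 ∧ ∀ e : EE k n, ∃ j : ℕ,
      (th.θ ⟨0, rd.m_pos⟩).IsIntegralElem (th.θ ⟨0, rd.m_pos⟩ δ ^ j * e) := by
  let : Algebra D (Om k n) := th.θ0.toAlgebra
  have h1 : ∀ i : Fin n, ∃ d : D, d ≠ 0 ∧
      IsIntegral D (d • algebraMap (PA k n) (Om k n) (MvPolynomial.X i)) := fun i =>
    IsAlgebraic.exists_integral_multiple
      (exists_poly_of_isAlgebraic th.θ0 th.θ0_inj (halg.isAlgebraic _))
  choose d hd0 hd using h1
  have hδ : ∏ i, d i ≠ 0 := Finset.prod_ne_zero_iff.2 fun i _ => hd0 i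
  refine ⟨∏ i, d i, hδ, fun e => ?_⟩
  have hu : IsUnit (algebraMap D (Om k n) (∏ i, d i)) :=
    isUnit_iff_ne_zero.2 ((map_ne_zero_iff _ th.θ0_inj).2 hδ)
  let R := Localization.Away (∏ i, d i)
  let : Algebra R (Om k n) := (IsLocalization.Away.lift (∏ i, d i) hu).toAlgebra
  have : IsScalarTower D R (Om k n) :=
    IsScalarTower.of_algebraMap_eq fun x => (IsLocalization.Away.lift_eq _ hu x).symm
  have h2 : ∀ a : PA k n, IsIntegral R (algebraMap (PA k n) (Om k n) a) := by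
    intro a
    induction a using MvPolynomial.induction_on with
    | C a => exact IsIntegral.tower_top (R := D) (hint a)
    | add p q hp hq => rw [map_add]; exact hp.add hq
    | mul_X p i hp =>
      rw [map_mul]
      refine hp.mul ?_
      have h3 : IsUnit (algebraMap D R (d i)) :=
        isUnit_of_dvd_unit (map_dvd _ (Finset.dvd_prod_of_mem d (Finset.mem_univ i)))
          (IsLocalization.Away.algebraMap_isUnit (∏ i, d i))
      obtain ⟨c, hc⟩ := h3.exists_left_inv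
      have h4 := (IsIntegral.tower_top (A := R) (hd i)).smul c
      rwa [← algebraMap_smul R (d i), smul_smul, hc, one_smul] at h4
  obtain ⟨⟨_, j, rfl⟩, hj⟩ := IsIntegral.exists_multiple_integral_of_isLocalization
    (Submonoid.powers (∏ i, d i)) (e : Om k n) (lift_trans h2 e.2)
  refine ⟨j, (lift_int_iff th _).2 ?_⟩
  have e1 : ((th.θ ⟨0, rd.m_pos⟩ (∏ i, d i) ^ j * e : EE k n) : Om k n) =
      (∏ i, d i) ^ j • (e : Om k n) := by
    rw [Algebra.smul_def, map_pow]; rfl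
  rw [e1]
  exact hj

/-- the residue map of a point -/
noncomputable def TH.res (th : TH rd) (ev : EE k n →ₐ[k] k) : D →+* k :=
  (ev : EE k n →+* k).comp (th.θ ⟨0, rd.m_pos⟩)

lemma lift_res_eq (th : TH rd) (ev : EE k n →ₐ[k] k)
    (h : MvPolynomial.eval (pt n ev) rd.γ ≠ 0) : ∃ i, th.res ev = rd.χ (pt n ev) i := by
  obtain ⟨e, he⟩ := th.ev_eq ev h
  exact ⟨e _, RingHom.ext fun d => he _ d⟩

lemma lift_ker_eq {χ : D →+* k} {M : Ideal D} (hM : M.IsMaximal) (h : ∀ d ∈ M, χ d = 0) :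
    M = RingHom.ker χ :=
  hM.eq_of_le (RingHom.ker_ne_top χ) h

/-- Lying over away from one element. -/
lemma lift_prime {E : Type u} [CommRing E] [IsDomain E] (S : Subring E) (t : S)
    (hC : ∀ e : E, ∃ j : ℕ, IsIntegral S ((t : E) ^ j * e)) (q : Ideal S) (hq : q.IsPrime)
    (ht : t ∉ q) : ∃ Q : Ideal E, Q.IsPrime ∧ (t : E) ∉ Q ∧ ∀ y ∈ q, (y : E) ∈ Q := by
  let C := integralClosure S E
  obtain ⟨Q, hQ, hQq⟩ := Ideal.exists_ideal_over_prime_of_isIntegral_of_isDomain (S := C) q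
    (fun x hx => by
      have h3 : algebraMap S C x = 0 := RingHom.mem_ker.1 hx
      have : x = 0 := Subtype.ext (congrArg (fun z : C => (z : E)) h3)
      rw [this]; exact q.zero_mem)
  let t' : C := algebraMap S C t
  have ht' : (t' : E) = t := rfl
  have key : ∀ y ∈ Q.map C.val.toRingHom, ∃ j : ℕ, ∃ z ∈ Q, (z : E) = (t : E) ^ j * y := by
    intro y hy
    induction hy using Submodule.span_induction with
    | mem x hx =>
      obtain ⟨z, hz, rfl⟩ := hx
      exact ⟨0, z, hz, by simp⟩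
    | zero => exact ⟨0, 0, Q.zero_mem, by simp⟩
    | add x y _ _ hx hy =>
      obtain ⟨i, z, hz, e1⟩ := hx
      obtain ⟨j, w, hw, e2⟩ := hy
      refine ⟨i + j, t' ^ j * z + t' ^ i * w,
        Q.add_mem (Q.mul_mem_left _ hz) (Q.mul_mem_left _ hw), ?_⟩
      push_cast
      rw [e1, e2, ht']
      ring
    | smul a x _ hx =>
      obtain ⟨i, z, hz, e1⟩ := hx
      obtain ⟨j, hj⟩ := hC a
      refine ⟨i + j, ⟨_, hj⟩ * z, Q.mul_mem_left _ hz, ?_⟩
      push_cast
      rw [e1, smul_eq_mul]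
      ring
  obtain ⟨Q', hQ', hle, hdis⟩ := Ideal.exists_le_prime_disjoint (Q.map C.val.toRingHom)
    (Submonoid.powers (t : E)) (Set.disjoint_left.2 (by
      rintro _ hy ⟨m, rfl⟩
      obtain ⟨j, z, hz, e1⟩ := key _ hy
      have e2 : z = t' ^ (j + m) := Subtype.ext (by push_cast; rw [e1, ht', pow_add])
      rw [e2] at hz
      exact ht (by rw [← hQq]; exact hQ.mem_of_pow_mem _ hz)))
  refine ⟨Q', hQ', fun h => Set.disjoint_left.1 hdis h (Submonoid.mem_powers _),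
    fun y hy => hle ?_⟩
  rw [← hQq] at hy
  exact Ideal.mem_map_of_mem C.val.toRingHom hy

/-- Primes avoiding one element come from good points.
Hint: `exists_poly_of_isAlgebraic` gives `δ₁ ≠ 0` with `θ δ₁ * X i` integral over `θ D` for all `i`,
and `δ₂ ≠ 0` with `γ ∣ θ δ₂` in `EE k n` (constant term of a relation of minimal degree);
`δ = δ₁ * δ₂`. For every `e ∈ EE k n` some `θ δ₁ ^ j * e` is integral over `θ D`. Let `C` be the
integral closure of `S` in `EE k n`, `Q` a prime of `C` over `q`. The ideal generated by `Q` in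
`EE k n` contains no power of `θ δ`, so a prime `Q'` contains it and not `θ δ`
(`Ideal.exists_le_prime_disjoint`); `γ ∉ Q'`; use `exists_point_ne`. -/
theorem TH.exists_delta [IsAlgClosed k] (th : TH rd)
    (halg : Algebra.IsAlgebraic (fracField th.θ0) (Om k n))
    (hint : ∀ α : k, th.θ0.IsIntegralElem (algebraMap k (Om k n) α)) :
    ∃ δ : D, δ ≠ 0 ∧ ∀ (S : Subring (EE k n)) (hS : ∀ d, th.θ ⟨0, rd.m_pos⟩ d ∈ S) (q : Ideal S),
      q.IsPrime → (⟨th.θ ⟨0, rd.m_pos⟩ δ, hS δ⟩ : S) ∉ q →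
      ∃ ev : EE k n →ₐ[k] k, MvPolynomial.eval (pt n ev) rd.γ ≠ 0 ∧ ∀ y ∈ q, ev (y : S) = 0 := by
  obtain ⟨δ₁, h1, hd⟩ := lift_den th halg hint
  set θ := th.θ ⟨0, rd.m_pos⟩ with hθ
  have hγ : algebraMap (PA k n) (EE k n) rd.γ ≠ 0 := fun h => by
    have h2 : algebraMap (PA k n) (Om k n) rd.γ = 0 := congrArg Subtype.val h
    rw [IsScalarTower.algebraMap_apply (PA k n) (FractionRing (PA k n)) (Om k n),
      map_eq_zero, IsFractionRing.to_map_eq_zero_iff] at h2
    exact rd.γ_ne h2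
  obtain ⟨δ₂, h2, hd2⟩ : ∃ δ₂ : D, δ₂ ≠ 0 ∧ algebraMap (PA k n) (EE k n) rd.γ ∣ θ δ₂ := by
    let : Algebra D (EE k n) := θ.toAlgebra
    obtain ⟨f, hf, hf'⟩ := exists_poly_of_isAlgebraic th.θ0 th.θ0_inj
      (halg.isAlgebraic (algebraMap (PA k n) (EE k n) rd.γ : EE k n))
    refine IsAlgebraic.exists_nonzero_dvd (R := D) ⟨f, hf, Subtype.ext ?_⟩
      (mem_nonZeroDivisors_of_ne_zero hγ)
    exact (Polynomial.hom_eval₂ f θ (integralClosure (PA k n) (Om k n)).val.toRingHom _).trans hf'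
  refine ⟨δ₁ * δ₂, mul_ne_zero h1 h2, fun S hS q hq hδ => ?_⟩
  obtain ⟨Q, hQ, h3, h4⟩ := lift_prime S ⟨_, hS (δ₁ * δ₂)⟩ (fun e => by
    obtain ⟨j, f, hf, hf'⟩ := hd e
    have h3 : IsIntegral S (θ δ₁ ^ j * e) := ⟨f.map (θ.codRestrict S hS), hf.map _, by
      rw [Polynomial.eval₂_map]; exact hf'⟩
    refine ⟨j, ?_⟩
    rw [Subtype.coe_mk, map_mul, mul_pow, mul_comm (θ δ₁ ^ j), mul_assoc]
    exact ((isIntegral_algebraMap (x := (⟨_, hS δ₂⟩ : S))).pow j).mul h3) q hq hδ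
  obtain ⟨ev, h5, h6⟩ := exists_point_ne (k := k) Q (f := rd.γ) fun h =>
    h3 (Q.mem_of_dvd (by rw [Subtype.coe_mk, map_mul]; exact hd2.mul_left _) h)
  exact ⟨ev, h6, fun y hy => h5 (h4 y hy)⟩

lemma lift_point [IsAlgClosed k] (th : TH rd) {δ : D}
    (hδ : ∀ (S : Subring (EE k n)) (hS : ∀ d, th.θ ⟨0, rd.m_pos⟩ d ∈ S) (q : Ideal S),
      q.IsPrime → (⟨th.θ ⟨0, rd.m_pos⟩ δ, hS δ⟩ : S) ∉ q →
      ∃ ev : EE k n →ₐ[k] k, MvPolynomial.eval (pt n ev) rd.γ ≠ 0 ∧ ∀ y ∈ q, ev (y : S) = 0)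
    {M : Ideal D} (hM : M.IsMaximal) (h : δ ∉ M) : ∃ ev : EE k n →ₐ[k] k,
      MvPolynomial.eval (pt n ev) rd.γ ≠ 0 ∧ M = RingHom.ker (th.res ev) := by
  let e : D ≃+* (th.θ ⟨0, rd.m_pos⟩).range := RingEquiv.ofBijective
    (th.θ ⟨0, rd.m_pos⟩).rangeRestrict ⟨fun a b h => th.θ_inj _ (congrArg Subtype.val h),
      RingHom.rangeRestrict_surjective _⟩
  obtain ⟨ev, h1, h2⟩ := hδ (th.θ ⟨0, rd.m_pos⟩).range (fun d => ⟨d, rfl⟩) (M.comap e.symm)
    inferInstance (by
    rw [Ideal.mem_comap]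
    rwa [show e.symm ⟨_, δ, rfl⟩ = δ from e.symm_apply_apply δ])
  exact ⟨ev, h1, lift_ker_eq hM fun d hd => h2 (e d) (by
    rwa [Ideal.mem_comap, e.symm_apply_apply])⟩

/-- Almost all maximal ideals are kernels of the residue maps. Hint: `S = range θ`, `ev_eq`. -/
theorem TH.exists_delta_max [IsAlgClosed k] (th : TH rd)
    (halg : Algebra.IsAlgebraic (fracField th.θ0) (Om k n))
    (hint : ∀ α : k, th.θ0.IsIntegralElem (algebraMap k (Om k n) α)) :
    ∃ δ : D, δ ≠ 0 ∧ ∀ M : Ideal D, M.IsMaximal → δ ∉ M →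
      ∃ v i, MvPolynomial.eval v rd.γ ≠ 0 ∧ M = RingHom.ker (rd.χ v i) := by
  obtain ⟨δ, h0, hδ⟩ := th.exists_delta halg hint
  refine ⟨δ, h0, fun M hM h => ?_⟩
  obtain ⟨ev, h1, h2⟩ := lift_point th hδ hM h
  obtain ⟨i, hi⟩ := lift_res_eq th ev h1
  exact ⟨_, i, h1, hi ▸ h2⟩

/-- the localisation at a prime, inside a field -/
def lift_loc {Ω : Type u} [Field Ω] (θ : D →+* Ω) (M : Ideal D) (hM : M.IsPrime) : Subring Ω where
  carrier := {w | ∃ a b : D, b ∉ M ∧ w * θ b = θ a}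
  zero_mem' := ⟨0, 1, (Ideal.ne_top_iff_one M).1 hM.ne_top, by simp⟩
  one_mem' := ⟨1, 1, (Ideal.ne_top_iff_one M).1 hM.ne_top, by simp⟩
  neg_mem' := by
    rintro w ⟨a, b, hb, h⟩
    exact ⟨-a, b, hb, by rw [map_neg, ← h, neg_mul]⟩
  add_mem' := by
    rintro w w' ⟨a, b, hb, h⟩ ⟨a', b', hb', h'⟩
    refine ⟨a * b' + a' * b, b * b', fun h => (hM.mem_or_mem h).elim hb hb', ?_⟩
    rw [map_add, map_mul, map_mul, map_mul, ← h, ← h']
    ring
  mul_mem' := by
    rintro w w' ⟨a, b, hb, h⟩ ⟨a', b', hb', h'⟩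
    refine ⟨a * a', b * b', fun h => (hM.mem_or_mem h).elim hb hb', ?_⟩
    rw [map_mul, map_mul, ← h, ← h']
    ring

lemma lift_clear {E F : Type u} [CommRing E] [CommRing F] (θ : D →+* E) (ι : F →+* E)
    {M : Ideal D} (hM : M.IsPrime) (h : ∀ c : F, ∃ a b : D, b ∉ M ∧ ι c * θ b = θ a) (f : F[X]) :
    ∃ (g : D[X]) (b : D), b ∉ M ∧ g.map θ = C (θ b) * f.map ι := by
  induction f using Polynomial.induction_on' with
  | add p q hp hq =>
    obtain ⟨g, b, hb, e⟩ := hp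
    obtain ⟨g', b', hb', e'⟩ := hq
    refine ⟨C b' * g + C b * g', b * b', fun h => (hM.mem_or_mem h).elim hb hb', ?_⟩
    simp only [Polynomial.map_add, Polynomial.map_mul, map_C, e, e', map_mul]
    ring
  | monomial m c =>
    obtain ⟨a, b, hb, e⟩ := h c
    exact ⟨monomial m a, b, hb, by rw [map_monomial, map_monomial, C_mul_monomial, ← e, mul_comm]⟩

/-- A separable constant lies in the localisation. -/
lemma lift_sep [IsAlgClosed k] (th : TH rd) {δ : D}
    (hδ : ∀ (S : Subring (EE k n)) (hS : ∀ d, th.θ ⟨0, rd.m_pos⟩ d ∈ S) (q : Ideal S),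
      q.IsPrime → (⟨th.θ ⟨0, rd.m_pos⟩ δ, hS δ⟩ : S) ∉ q →
      ∃ ev : EE k n →ₐ[k] k, MvPolynomial.eval (pt n ev) rd.γ ≠ 0 ∧ ∀ y ∈ q, ev (y : S) = 0)
    {M : Ideal D} (hM : M.IsMaximal) (h : δ ∉ M) (ev : EE k n →ₐ[k] k)
    (h1 : MvPolynomial.eval (pt n ev) rd.γ ≠ 0) (h2 : M = RingHom.ker (th.res ev)) (α : k)
    (hα : th.θ0.IsIntegralElem (algebraMap k (Om k n) α)) (g : D[X])
    (hg : eval₂ (th.θ ⟨0, rd.m_pos⟩) (algebraMap k (EE k n) α) g = 0)
    (hg' : ev (eval₂ (th.θ ⟨0, rd.m_pos⟩) (algebraMap k (EE k n) α) (derivative g)) ≠ 0) :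
    ∃ a b : D, b ∉ M ∧ algebraMap k (Om k n) α * th.θ0 b = th.θ0 a := by
  let : Algebra D (EE k n) := (th.θ ⟨0, rd.m_pos⟩).toAlgebra
  have hα' : IsIntegral D (algebraMap k (EE k n) α) := (lift_int_iff th _).2 hα
  let S := Algebra.adjoin D {algebraMap k (EE k n) α}
  let x : S := ⟨_, Algebra.self_mem_adjoin_singleton D _⟩
  have : Algebra.IsIntegral D S := Algebra.IsIntegral.adjoin (by simpa using hα')
  have htop : Algebra.adjoin D {x} = ⊤ := by
    rw [← Algebra.adjoin_adjoin_coe_preimage]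
    congr 1
    ext y
    simp [x, Subtype.ext_iff]
  let ψ : S →+* k := (ev : EE k n →+* k).comp S.val.toRingHom
  have hψ : ∀ b : D, ψ (algebraMap D S b) ≠ 0 ↔ b ∉ M := fun b => by rw [h2]; rfl
  obtain ⟨i, hi⟩ := lift_res_eq th ev h1
  suffices hloc : ∀ y : S, ψ y ≠ 0 → ∃ b : D, ψ (algebraMap D S b) ≠ 0 ∧ y ∣ algebraMap D S b by
    obtain ⟨a, b, hb, e⟩ := sep_nakayama x (Algebra.IsIntegral.isIntegral x) htop ψ
      (by rw [show ψ.comp (algebraMap D S) = th.res ev from rfl, hi]; exact rd.χ_surj _ _ h1)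
      hloc g (Subtype.ext ((aeval_algHom_apply S.val x g).symm.trans hg))
      (fun h0 => hg' (by
        rw [← h0]; exact congrArg ev (aeval_algHom_apply S.val x (derivative g))))
    exact ⟨a, b, (hψ b).1 hb, congrArg (fun z : S => ((z : EE k n) : Om k n)) e⟩
  intro y hy
  by_contra hcon
  obtain ⟨q, hq, hle, hdis⟩ := Ideal.exists_le_prime_disjoint (Ideal.span {y})
    (M.primeCompl.map (algebraMap D S)) (Set.disjoint_left.2 (by
      rintro _ hz ⟨b, hb, rfl⟩
      exact hcon ⟨b, (hψ b).2 hb, Ideal.mem_span_singleton.1 hz⟩))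
  obtain ⟨Q, hqQ, hQ, hQM⟩ := Ideal.exists_ideal_over_prime_of_isIntegral_of_isPrime M q
    (fun b hb => by_contra fun hb' => Set.disjoint_left.1 hdis hb ⟨b, hb', rfl⟩)
  obtain ⟨ev', h3, h4⟩ := hδ S.toSubring S.algebraMap_mem Q hQ (fun hd => h (by
    rw [← hQM]; exact hd))
  have h5 : M = RingHom.ker (th.res ev') :=
    lift_ker_eq hM fun d hd => h4 (algebraMap D S d) (by rw [← hQM] at hd; exact hd)
  obtain ⟨i', hi'⟩ := lift_res_eq th ev' h3
  obtain ⟨e1, e2⟩ := rd.χ_sep _ i _ i' h1 h3 (by rw [← hi, ← hi', ← h2, ← h5])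
  have h6 : th.res ev = th.res ev' := by rw [hi, hi', e1, e2]
  have h7 : ∀ z ∈ S, ev z = ev' z := by
    intro z hz
    induction hz using Algebra.adjoin_induction with
    | mem z hz => rw [Set.mem_singleton_iff.1 hz, ev.commutes, ev'.commutes]
    | algebraMap d => exact congrArg (fun f : D →+* k => f d) h6
    | add z w _ _ hz hw => rw [map_add, map_add, hz, hw]
    | mul z w _ _ hz hw => rw [map_mul, map_mul, hz, hw]
  exact hy ((h7 y y.2).trans (h4 y (hqQ (hle (Ideal.mem_span_singleton_self y)))))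

/-- In characteristic zero the constants lie in almost all localisations.
Hint: `d₀ = δ * ∏ b i` where `θ (a i) / θ (b i)` is a transcendence basis of `k` over the prime
field. Let `ev` be a good point with `M = ker (ev ∘ θ)` (`exists_delta` with `S = range θ`);
`ev ∘ θ` is one of the `χ v i`, so it is surjective. The `α` satisfying the conclusion form a
subfield `k₁` of `k` (apply `ev` to `α * θ b = θ a`) containing the basis, so `k` is separable
algebraic over `k₁`; clear the denominators of the minimal polynomial and use `sep_nakayama` with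
`S = θ D [α] ⊆ EE k n`, `ψ = ev`. For `hloc`: otherwise a prime `q ∋ y` of `S` misses `θ (D \ M)`;
enlarge it to a prime over `M` (`Ideal.exists_ideal_over_prime_of_isIntegral_of_isPrime`), which
lies in the kernel of a good `ev'`; by `ev_eq` and `χ_sep`, `ev' ∘ θ = ev ∘ θ`, so `ev' = ev` on
`S`. -/
theorem TH.const_loc [IsAlgClosed k] [CharZero k]
    (hfin : Algebra.trdeg (⊥ : Subfield k) k < Cardinal.aleph0) (th : TH rd)
    (halg : Algebra.IsAlgebraic (fracField th.θ0) (Om k n))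
    (hconst : ∀ α : k, algebraMap k (Om k n) α ∈ fracField th.θ0)
    (hint : ∀ α : k, th.θ0.IsIntegralElem (algebraMap k (Om k n) α)) :
    ∃ d₀ : D, d₀ ≠ 0 ∧ ∀ M : Ideal D, M.IsMaximal → d₀ ∉ M → ∀ α : k,
      ∃ a b : D, b ∉ M ∧ algebraMap k (Om k n) α * th.θ0 b = th.θ0 a := by
  classical
  obtain ⟨δ, h0, hδ⟩ := th.exists_delta halg hint
  obtain ⟨s, hs⟩ := exists_isTranscendenceBasis (⊥ : Subfield k) k
  have hsf : s.Finite := by
    rw [← hs.cardinalMk_eq_trdeg] at hfin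
    exact Cardinal.lt_aleph0_iff_set_finite.1 hfin
  choose a b hb hab using fun α => (mem_fracField th.θ0 _).1 (hconst α)
  refine ⟨δ * ∏ t ∈ hsf.toFinset, b t, mul_ne_zero h0 (Finset.prod_ne_zero_iff.2 fun t _ h =>
    hb t (by rw [h, map_zero])), fun M hM hd α => ?_⟩
  have hδM : δ ∉ M := fun h => hd (M.mul_mem_right _ h)
  obtain ⟨ev, h1, h2⟩ := lift_point th hδ hM hδM
  let k₁ : Subfield k :=
    { (lift_loc th.θ0 M hM.isPrime).comap (algebraMap k (Om k n)) with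
      inv_mem' := by
        rintro β ⟨a, b, hb, e⟩
        by_cases hβ : β = 0
        · rw [hβ, inv_zero]
          exact ((lift_loc th.θ0 M hM.isPrime).comap (algebraMap k (Om k n))).zero_mem
        refine ⟨b, a, fun ha => hb ?_, by
          rw [← e, ← mul_assoc, ← map_mul, inv_mul_cancel₀ hβ, map_one, one_mul]⟩
        have e' : algebraMap k (EE k n) β * th.θ ⟨0, rd.m_pos⟩ b = th.θ ⟨0, rd.m_pos⟩ a :=
          Subtype.ext e
        have e2 := congrArg ev e'
        rw [map_mul, ev.commutes] at e2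
        rw [h2] at ha ⊢
        exact (mul_eq_zero.1 (e2.trans ha)).resolve_left hβ }
  have hk : ∀ x ∈ Algebra.adjoin (⊥ : Subfield k) (Set.range (Subtype.val : s → k)), x ∈ k₁ := by
    intro x hx
    induction hx using Algebra.adjoin_induction with
    | mem x hx =>
      obtain ⟨t, rfl⟩ := hx
      refine ⟨a t, b t, fun h => hd (M.mul_mem_left _ (M.mem_of_dvd
        (Finset.dvd_prod_of_mem b (hsf.mem_toFinset.2 t.2)) h)), ?_⟩
      rw [hab, div_mul_cancel₀ _ (hb _)]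
    | algebraMap r => exact (bot_le : (⊥ : Subfield k) ≤ k₁) r.2
    | add z w _ _ hz hw => exact k₁.add_mem hz hw
    | mul z w _ _ hz hw => exact k₁.mul_mem hz hw
  have hα : IsAlgebraic k₁ α :=
    (hs.isAlgebraic.isAlgebraic α).ringHom_of_comp_eq
      ((Algebra.adjoin (⊥ : Subfield k) (Set.range (Subtype.val : s → k))).val.toRingHom.codRestrict
        k₁ fun x => hk x x.2) (RingHom.id k)
      (fun x y h => Subtype.ext (congrArg (fun z : k₁ => (z : k)) h)) (RingHom.ext fun _ => rfl)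
  have hsep : (minpoly k₁ α).Separable := (minpoly.irreducible hα.isIntegral).separable
  obtain ⟨g, c, hc, e⟩ := lift_clear (th.θ ⟨0, rd.m_pos⟩)
    ((algebraMap k (EE k n)).comp k₁.subtype) hM.isPrime (fun c => by
      obtain ⟨a, b, hb, e⟩ := c.2
      exact ⟨a, b, hb, Subtype.ext e⟩) (minpoly k₁ α)
  have hev : ∀ f : k₁[X], eval (algebraMap k (EE k n) α)
      (f.map ((algebraMap k (EE k n)).comp k₁.subtype)) = algebraMap k (EE k n) (aeval α f) := by
    intro f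
    rw [eval_map, aeval_def, hom_eval₂]
    rfl
  refine lift_sep th hδ hM hδM ev h1 h2 α (hint α) g ?_ ?_
  · rw [← eval_map, e, eval_mul, hev, minpoly.aeval, map_zero, mul_zero]
  · rw [← eval_map, ← derivative_map, e, derivative_C_mul, derivative_map, eval_mul, hev, eval_C,
      map_mul, ev.commutes]
    refine mul_ne_zero ?_ (hsep.aeval_derivative_ne_zero (minpoly.aeval _ _))
    rw [h2] at hc
    exact hc

/-- Almost all localisations containing the constants are normal.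
Hint: `K = fracField θ0` is an intermediate field over `k`, finitely generated by `TH.fg`; apply
`exists_normal_model` with `y i = X i` (`Algebra.adjoin k (range y)` is the image of `PA k n`);
`d₁` is the product of denominators of the members of `s` and of a numerator of `η`. The set of
`θ a / θ b` with `b ∉ M` is a `k`-subalgebra containing `s` and `η⁻¹`. `isIntegralElem_of_mem` shows
that `θ u * θ a / θ b` is integral over `θ D ⊆ EE k n`, hence over `PA k n`. -/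
theorem TH.normal [IsAlgClosed k] (th : TH rd)
    (halg : Algebra.IsAlgebraic (fracField th.θ0) (Om k n))
    (hconst : ∀ α : k, algebraMap k (Om k n) α ∈ fracField th.θ0) :
    ∃ d₁ : D, d₁ ≠ 0 ∧ ∀ M : Ideal D, M.IsPrime → d₁ ∉ M →
      (∀ α : k, ∃ a b : D, b ∉ M ∧ algebraMap k (Om k n) α * th.θ0 b = th.θ0 a) →
      ∀ (a b u : D) (r : ℕ), b ≠ 0 → u ∉ M →
        u * a ^ (r + 1) ∈ Ideal.span {b} * Ideal.span {a, b} ^ r → ∃ u', u' ∉ M ∧ b ∣ u' * a := by
  classical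
  let K : IntermediateField k (Om k n) := (fracField th.θ0).toIntermediateField hconst
  have hK : K.FG := by
    have := th.fg halg
    rwa [show (fracField th.θ0 : Set (Om k n)) = K from rfl, IntermediateField.adjoin_self] at this
  let y : Fin n → Om k n := fun i => algebraMap (PA k n) (Om k n) (MvPolynomial.X i)
  obtain ⟨s, η, hs, hη, hη', H⟩ := exists_normal_model K hK y (fun i => halg.isAlgebraic _)
  have h1 : ∀ w : Om k n, ∃ a b : D, th.θ0 b ≠ 0 ∧ (w ∈ K → w = th.θ0 a / th.θ0 b) := fun w => by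
    by_cases hw : w ∈ K
    · obtain ⟨a, b, hb, e⟩ := (mem_fracField th.θ0 w).1 hw
      exact ⟨a, b, hb, fun _ => e⟩
    · exact ⟨0, 1, by simp, fun h => absurd h hw⟩
  choose A B hB hAB using h1
  have hηK : η ∈ K := (Algebra.adjoin_le (S := K.toSubalgebra) hs) hη'
  have hA : A η ≠ 0 := fun h => hη (by rw [hAB η hηK, h, map_zero, zero_div])
  refine ⟨A η * ∏ w ∈ s, B w, mul_ne_zero hA (Finset.prod_ne_zero_iff.2 fun w _ h =>
    hB w (by rw [h, map_zero])), fun M hM hd hc a b u r hb hu h => ?_⟩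
  let L : Subalgebra k (Om k n) := { lift_loc th.θ0 M hM with algebraMap_mem' := hc }
  have hL : Algebra.adjoin k (s : Set (Om k n)) ≤ L := Algebra.adjoin_le fun w hw =>
    ⟨A w, B w, fun h => hd (M.mul_mem_left _ (M.mem_of_dvd (Finset.dvd_prod_of_mem B hw) h)), by
      nth_rw 1 [hAB w (hs hw)]
      rw [div_mul_cancel₀ _ (hB _)]⟩
  have hb' : th.θ0 b ≠ 0 := (map_ne_zero_iff _ th.θ0_inj).2 hb
  have h2 : IsIntegral (PA k n) (th.θ0 u * th.θ0 a / th.θ0 b) := by
    let : Algebra D (Om k n) := th.θ0.toAlgebra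
    exact lift_trans (A := D) (fun d => (th.θ ⟨0, rd.m_pos⟩ d).2) (isIntegralElem_of_mem _ hb' h)
  have h3 : ∀ p : PA k n, algebraMap (PA k n) (Om k n) p ∈ Algebra.adjoin k (Set.range y) := by
    intro p
    induction p using MvPolynomial.induction_on with
    | C c => exact Subalgebra.algebraMap_mem _ c
    | add p q hp hq => rw [map_add]; exact add_mem hp hq
    | mul_X p i hp => rw [map_mul]; exact mul_mem hp (Algebra.subset_adjoin ⟨i, rfl⟩)
  obtain ⟨j, hj⟩ := H (th.θ0 u * th.θ0 a / th.θ0 b)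
    ((mem_fracField th.θ0 _).2 ⟨u * a, b, hb', by rw [map_mul]⟩)
    (lift_trans (fun p => isIntegral_algebraMap (x := (⟨_, h3 p⟩ : Algebra.adjoin k _))) h2)
  obtain ⟨a', b', hb2, e⟩ := hL hj
  refine ⟨A η ^ j * u * b', fun h => ?_, B η ^ j * a', th.θ0_inj ?_⟩
  · rcases hM.mem_or_mem h with h | h
    · rcases hM.mem_or_mem h with h | h
      · exact hd (M.mul_mem_right _ (hM.mem_of_pow_mem _ h))
      · exact hu h
    · exact hb2 h
  · have e2 : th.θ0 (A η) = η * th.θ0 (B η) := by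
      nth_rw 2 [hAB η hηK]
      rw [div_mul_cancel₀ _ (hB _)]
    simp only [map_mul, map_pow, ← e, e2]
    field_simp
    ring

end Pool.Agent.MP_f1fec5_al.Aff

end

section

namespace Pool.Agent.MP_f1fec5_al.Aff

open Polynomial

universe u v

lemma reg_iff {R : Type u} [CommRing R] [IsNoetherianRing R] (X : Ideal R) :
    Reg X ↔ ∀ Q ∈ associatedPrimes R R, ¬ X ≤ Q := by
  refine ⟨fun ⟨x, hx, hx'⟩ Q hQ h => (regular_iff x).1 hx' Q hQ (h hx), fun h => ?_⟩
  by_contra hcon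
  have h1 : (X : Set R) ⊆ ⋃ Q ∈ ((associatedPrimes.finite R R).toFinset : Set (Ideal R)),
      ((id Q : Ideal R) : Set R) := by
    intro x hx
    have h2 : ¬ ∀ P ∈ associatedPrimes R R, x ∉ P := fun h3 =>
      hcon ⟨x, hx, (regular_iff x).2 h3⟩
    push Not at h2
    obtain ⟨P, hP, hxP⟩ := h2
    exact Set.mem_biUnion (by simpa using hP) hxP
  rcases (associatedPrimes.finite R R).toFinset.eq_empty_or_nonempty with h0 | ⟨Q₀, -⟩
  · simpa [h0] using h1 X.zero_mem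
  rw [Ideal.subset_union_prime Q₀ Q₀ (fun Q hQ _ _ => by
    simpa using IsAssociatedPrime.isPrime (by simpa using hQ : Q ∈ associatedPrimes R R))] at h1
  obtain ⟨Q, hQ, hle⟩ := h1
  exact h Q (by simpa using hQ) hle

lemma isNilpotent_of_ass {R : Type u} [CommRing R] [IsNoetherianRing R] {e : R}
    (he : ∀ Q ∈ associatedPrimes R R, e ∈ Q) : IsNilpotent e := by
  rw [nilpotent_iff_mem_prime]
  intro J hJ
  obtain ⟨Q, hQ, hQJ⟩ := Ideal.exists_minimalPrimes_le (J := J) (bot_le : (⊥ : Ideal R) ≤ J)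
  refine hQJ (he Q (Module.associatedPrimes.minimalPrimes_annihilator_subset_associatedPrimes R R ?_))
  rwa [Module.annihilator_eq_bot.2 inferInstance]

lemma exists_point_ne' {k : Type u} [Field k] [IsAlgClosed k] {B : Type u} [CommRing B]
    [Algebra k B] [Algebra.FiniteType k B] (Q : Ideal B) [Q.IsPrime] {b : B} (hb : b ∉ Q) :
    ∃ x : B →ₐ[k] k, Q ≤ RingHom.ker x ∧ x b ≠ 0 := by
  have : IsJacobsonRing B := isJacobsonRing_of_finiteType (A := k)
  have hj : Q.jacobson = Q := (isJacobsonRing_iff_prime_eq.1 this) Q inferInstance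
  rw [← hj, Ideal.jacobson, Ideal.mem_sInf] at hb
  push Not at hb
  obtain ⟨M, ⟨hQM, hM⟩, hbM⟩ := hb
  obtain ⟨x, rfl⟩ := exists_point (k := k) M
  exact ⟨x, hQM, hbM⟩

lemma exists_dvd_of_root {D : Type v} [CommRing D] [IsDomain D] {E : Type u} [CommRing E]
    [IsDomain E] (θ : D →+* E) {w : E} (hw : w ≠ 0) {f : D[X]} (hf : f ≠ 0)
    (h : eval₂ θ w f = 0) : ∃ δ : D, δ ≠ 0 ∧ w ∣ θ δ := by
  obtain ⟨g, hg, hg'⟩ := exists_eq_pow_rootMultiplicity_mul_and_not_dvd f hf 0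
  rw [C_0, sub_zero] at hg hg'
  rw [hg, eval₂_mul, eval₂_pow, eval₂_X, mul_eq_zero, or_iff_right (pow_ne_zero _ hw)] at h
  refine ⟨g.coeff 0, fun h0 => hg' (X_dvd_iff.2 h0), -eval₂ θ w g.divX, ?_⟩
  rw [← X_mul_divX_add g, eval₂_add, eval₂_mul, eval₂_X, eval₂_C] at h
  linear_combination h

section Alg

variable {k : Type u} [Field k] [IsAlgClosed k] {n : ℕ} {B : Type u} [CommRing B]
  [IsDomain B] [Algebra (PA k n) B] [Algebra k B] [IsScalarTower k (PA k n) B]
  [Algebra.IsIntegral (PA k n) B] {D : Type v} [CommRing D] [IsDomain D]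

/-- The algebraic closure is algebraic over the image of the model. -/
theorem Setup.halg (hfin : Algebra.trdeg (⊥ : Subfield k) k < Cardinal.aleph0)
    (st : Setup k n B D) (hne : ∀ J, st.sh.ok J → st.sh.Φ J ≠ ⊥) (rd : RD k n D)
    (hγ : rd.γ = st.γ)
    (hχ : ∀ x : B →ₐ[k] k, MvPolynomial.eval (pt n x) st.γ ≠ 0 →
      ∃ i, RingHom.ker (rd.χ (pt n x) i) = st.sh.Φ (RingHom.ker x))
    (θ : D →+* Om k n) (hθ : Function.Injective θ) :
    Algebra.IsAlgebraic (fracField θ) (Om k n) := by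
  classical
  obtain ⟨v, hv⟩ := exists_eval_ne_zero st.γ_ne
  obtain ⟨ev, rfl⟩ := exists_ev v
  rw [← st.emb.pt_fib ev ⟨0, st.emb.m_pos⟩] at hv
  set x := st.emb.fib ev ⟨0, st.emb.m_pos⟩
  obtain ⟨l, hl, hlp, hl0, hlast, hlZ⟩ := exists_flag (pt n x) st.Z (fun h => hv (st.hZ _ h))
  have := (ker_isMaximal x).isPrime
  obtain ⟨L, hL, hLp, hLl, hLlast⟩ := exists_chain_over st.emb.inj n l hl hlp (RingHom.ker x) (by
    ext f
    rw [hlast, Ideal.mem_comap, RingHom.mem_ker, map_algebraMap_eq_eval])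
  have hok : ∀ i, i ≠ 0 → st.sh.ok (L i) := fun i hi =>
    st.sh.ok_mono (st.hok (l i) (hl0 ▸ (hl (Fin.pos_iff_ne_zero.2 hi)).ne') (hlZ i hi))
      (Ideal.map_le_iff_le_comap.2 (hLl i).ge)
  obtain ⟨i₀, hi₀⟩ := hχ x hv
  have hn : Fin.last n ≠ 0 := by
    have := st.hn
    simp only [Ne, Fin.ext_iff, Fin.val_last, Fin.val_zero]
    omega
  refine isAlgebraic_of_chain hfin θ hθ (rd.χ (pt n x) i₀) (rd.χ_surj _ _ (hγ ▸ hv))
    (fun i => if i = 0 then ⊥ else st.sh.Φ (L i)) (fun a b hab => ?_) (fun i => ?_) ?_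
  · have hb : b ≠ 0 := Fin.pos_iff_ne_zero.1 ((Fin.zero_le a).trans_lt hab)
    by_cases ha : a = 0
    · simp only [ha, hb, if_true, if_false]
      exact bot_lt_iff_ne_bot.2 (hne _ (hok b hb))
    · simp only [ha, hb, if_false]
      exact lt_of_le_of_ne (st.sh.mono (hok a ha) (hL hab).le)
        (fun e => (hL hab).ne (st.sh.inj (hok a ha) (hok b hb) e))
  · by_cases hi : i = 0
    · simp only [hi, if_true]
      exact Ideal.isPrime_bot
    · simp only [hi, if_false]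
      exact st.sh.isPrime (hok i hi) (hLp i)
  · simp only [hn, if_false]
    rw [hLlast, hi₀]

omit [IsDomain B] [Algebra.IsIntegral (PA k n) B] in
/-- Every nonzero prime avoiding `γ` contains the ideal of a nonzero element of the model. -/
theorem Setup.exists_I_le [Algebra.FiniteType k B]
    (st : Setup k n B D) (rd : RD k n D) (hγ : rd.γ = st.γ)
    (hχ : ∀ x : B →ₐ[k] k, MvPolynomial.eval (pt n x) st.γ ≠ 0 →
      ∃ i, RingHom.ker (rd.χ (pt n x) i) = st.sh.Φ (RingHom.ker x)) (th : TH rd)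
    (halg : ∀ θ : D →+* Om k n, Function.Injective θ → Algebra.IsAlgebraic (fracField θ) (Om k n))
    (L : Ideal B) [L.IsPrime] {f : PA k n} (hf : f ≠ 0) (hfL : algebraMap (PA k n) B f ∈ L)
    (hγL : algebraMap (PA k n) B st.γ ∉ L) : ∃ δ : D, δ ≠ 0 ∧ st.sh.I δ ≤ L := by
  have hex : ∀ i, ∃ δ : D, δ ≠ 0 ∧ algebraMap (PA k n) (EE k n) f ∣ th.θ i δ := fun i => by
    let θ : D →+* Om k n := (integralClosure (PA k n) (Om k n)).val.toRingHom.comp (th.θ i)
    have hθ : Function.Injective θ := Subtype.val_injective.comp (th.θ_inj i)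
    obtain ⟨g, hg, hg'⟩ := exists_poly_of_isAlgebraic θ hθ
      ((halg θ hθ).isAlgebraic (algebraMap (PA k n) (Om k n) f))
    refine exists_dvd_of_root (th.θ i) ((map_ne_zero_iff _ EE_inj).2 hf) hg ?_
    apply Subtype.val_injective
    have := Polynomial.hom_eval₂ g (th.θ i) (integralClosure (PA k n) (Om k n)).val.toRingHom
      (algebraMap (PA k n) (EE k n) f)
    exact this.trans hg'
  choose δ hδ hδ' using hex
  have h0 : ∏ i, δ i ≠ 0 := Finset.prod_ne_zero_iff.2 fun i _ => hδ i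
  refine ⟨_, h0, fun b hb => ?_⟩
  by_contra hbL
  obtain ⟨x, hx, hx'⟩ := exists_point_ne' (k := k) L (b := b * algebraMap (PA k n) B st.γ)
    (fun h => ((inferInstance : L.IsPrime).mem_or_mem h).elim hbL hγL)
  rw [map_mul, mul_ne_zero_iff, map_algebraMap_eq_eval] at hx'
  obtain ⟨j, hj⟩ := hχ x hx'.2
  obtain ⟨ev, hev⟩ := exists_ev (pt n x)
  obtain ⟨e, he⟩ := th.ev_eq ev (by rw [hev, hγ]; exact hx'.2)
  have h1 : ∏ i, δ i ∈ RingHom.ker (rd.χ (pt n x) j) := by
    rw [RingHom.mem_ker, map_prod]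
    refine Finset.prod_eq_zero (Finset.mem_univ (e.symm j)) ?_
    have h2 := he (e.symm j) (δ (e.symm j))
    obtain ⟨c, hc⟩ := hδ' (e.symm j)
    have h3 := hx hfL
    rw [RingHom.mem_ker, map_algebraMap_eq_eval] at h3
    rw [hc, map_mul, map_algebraMap_eq_eval, hev, h3, zero_mul, Equiv.apply_symm_apply] at h2
    exact h2.symm
  rw [hj, st.sh.mem_iff (Setup.ok_ker x hx'.2) h0] at h1
  exact hx'.1 (h1 hb)

end Alg

/-- The constants are integral over the model. -/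
lemma const_integral {k : Type u} [Field k] [IsAlgClosed k] {R : Type u} [CommRing R]
    [Algebra k R] [Algebra.FiniteType k R] {D : Type v} [CommRing D] [IsDomain D] (m : Model R D)
    {Ω : Type u} [Field Ω] [Algebra k Ω] (θ : D →+* Ω) (hθ : Function.Injective θ)
    (hconst : ∀ α : k, algebraMap k Ω α ∈ fracField θ) (α : k) :
    θ.IsIntegralElem (algebraMap k Ω α) := by
  by_cases hα : α = 0
  · rw [hα, map_zero]
    exact θ.isIntegralElem_zero
  have key : ∀ β : k, β ≠ 0 → ∃ a b : D, a ≠ 0 ∧ b ≠ 0 ∧ algebraMap k Ω β = θ a / θ b := by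
    intro β hβ
    obtain ⟨a, b, hb, e⟩ := (mem_fracField θ _).1 (hconst β)
    refine ⟨a, b, ?_, fun h => hb (by simp [h]), e⟩
    rintro rfl
    simp [hβ] at e
  obtain ⟨a, b, ha, hb, e⟩ := key α hα
  rw [e]
  refine k3 (k := k) m ha hb (fun N₀ => ?_) θ hθ
  obtain ⟨N, hN, hNp⟩ := Nat.exists_infinite_primes (N₀ + 1)
  obtain ⟨β, hβ⟩ := IsAlgClosed.exists_pow_nat_eq α hNp.pos
  obtain ⟨a₁, b₁, ha₁, hb₁, e₁⟩ := key β (by
    rintro rfl
    exact hα (by rw [← hβ, zero_pow hNp.ne_zero]))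
  refine ⟨N, hN, hNp, a₁, b₁, ha₁, hb₁, hθ ?_⟩
  have h1 : θ a / θ b = (θ a₁ / θ b₁) ^ N := by rw [← e, ← e₁, ← map_pow, hβ]
  have hb' : θ b ≠ 0 := (map_ne_zero_iff _ hθ).2 hb
  have hb₁' : θ b₁ ≠ 0 := (map_ne_zero_iff _ hθ).2 hb₁
  rw [div_pow, div_eq_div_iff hb' (pow_ne_zero _ hb₁')] at h1
  simp only [map_mul, map_pow]
  linear_combination h1

end Pool.Agent.MP_f1fec5_al.Aff

end

section

namespace Pool.Agent.MP_f1fec5_al.Aff

open Polynomial

universe u v

/-- A setup that comes from a model of `R` and a quotient map. -/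
structure Comes {k : Type u} [Field k] {n : ℕ} {R B : Type u} [CommRing R] [CommRing B]
    [Algebra (PA k n) B] {D : Type v} [CommRing D] (m : Model R D) (ρ : R →+* B)
    (st : Setup k n B D) : Prop where
  surj : Function.Surjective ρ
  ok : ∀ J, st.sh.ok J ↔ Reg (J.comap ρ)
  Φ : ∀ J, st.sh.Φ J = m.F (J.comap ρ)
  I : ∀ d, st.sh.I d = (ModelAux.Iof m d).map ρ
  γ : ∀ Q ∈ associatedPrimes R R, Q ≠ RingHom.ker ρ → algebraMap (PA k n) B st.γ ∈ Q.map ρ

variable {k : Type u} [Field k] [IsAlgClosed k] {n : ℕ} {R B : Type u} [CommRing R]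
  [IsNoetherianRing R] [CommRing B] [IsDomain B] [Algebra (PA k n) B] [Algebra k B]
  [IsScalarTower k (PA k n) B] [Algebra.IsIntegral (PA k n) B] [Algebra.FiniteType k B]
  {D : Type v} [CommRing D] [IsDomain D]

omit [Algebra.IsIntegral (PA k n) B] [IsDomain B] in
theorem exists_setup (m : Model R D) (ρ : R →+* B) (hρ : Function.Surjective ρ)
    (hP : RingHom.ker ρ ∈ minimalPrimes R) (emb : Emb k n B) (hn : 2 ≤ n) :
    ∃ st : Setup k n B D, Comes m ρ st := by
  classical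
  have hreg : ∀ s ∈ nonZeroDivisors R, ρ s ≠ 0 := fun s hs h =>
    Set.disjoint_left.1 (Ideal.disjoint_nonZeroDivisors_of_mem_minimalPrimes hP) h hs
  let T : Finset (Ideal R) := (associatedPrimes.finite R R).toFinset.erase (RingHom.ker ρ)
  have hT : ∀ Q, Q ∈ T ↔ Q ∈ associatedPrimes R R ∧ Q ≠ RingHom.ker ρ := fun Q => by
    simp [T, and_comm]
  have hex : ∀ Q : Ideal R, ∃ b : R, Q ∈ T → b ∈ Q ∧ ρ b ≠ 0 := fun Q => by
    by_cases hQ : Q ∈ T
    · have h1 : ¬ Q ≤ RingHom.ker ρ := fun h => ((hT Q).1 hQ).2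
        (le_antisymm h (hP.2 ⟨((hT Q).1 hQ).1.isPrime, bot_le⟩ h))
      obtain ⟨b, hb, hb'⟩ := Set.not_subset.1 h1
      exact ⟨b, fun _ => ⟨hb, hb'⟩⟩
    · exact ⟨0, fun h => absurd h hQ⟩
  choose b hb using hex
  have hγ : ∀ Q ∈ T, algebraMap (PA k n) B (emb.Δ * ∏ Q ∈ T, emb.ν (ρ (b Q))) ∈ Q.map ρ := by
    intro Q hQ
    rw [map_mul, ← Finset.mul_prod_erase _ _ hQ, map_mul]
    exact Ideal.mul_mem_left _ _ (Ideal.mul_mem_right _ _ (Ideal.mem_of_dvd _ (emb.dvd_ν _)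
      (Ideal.mem_map_of_mem _ (hb Q hQ).1)))
  have hex : ∀ Q : Ideal R, ∃ z : Fin n → k, Q ∈ T → RingHom.ker ρ ≤ Q →
      ∀ f : PA k n, algebraMap (PA k n) B f ∈ Q.map ρ → MvPolynomial.eval z f = 0 := fun Q => by
    by_cases hQ : Q ∈ T ∧ RingHom.ker ρ ≤ Q
    · have := ((hT Q).1 hQ.1).1.isPrime
      have h1 := (Ideal.map_isPrime_of_surjective hρ hQ.2).ne_top
      obtain ⟨M, hM, hle⟩ := Ideal.exists_le_maximal _ h1
      obtain ⟨x, rfl⟩ := exists_point (k := k) M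
      exact ⟨pt n x, fun _ _ f hf => by rw [← map_algebraMap_eq_eval]; exact hle hf⟩
    · exact ⟨0, fun h h' => absurd ⟨h, h'⟩ hQ⟩
  choose z hz using hex
  refine ⟨⟨shadowOf m ρ hρ hreg, emb, hn, emb.Δ * ∏ Q ∈ T, emb.ν (ρ (b Q)),
    mul_ne_zero emb.Δ_ne (Finset.prod_ne_zero_iff.2 fun Q hQ => emb.ν_ne (hb Q hQ).2),
    dvd_mul_right _ _, (T.filter fun Q => RingHom.ker ρ ≤ Q).image z, fun w hw => ?_,
    fun a ha h => ?_⟩, hρ, fun _ => Iff.rfl, fun _ => rfl, fun _ => rfl,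
    fun Q hQ hQ' => hγ Q ((hT Q).2 ⟨hQ, hQ'⟩)⟩
  · obtain ⟨Q, hQ, rfl⟩ := Finset.mem_image.1 hw
    rw [Finset.mem_filter] at hQ
    exact hz Q hQ.1 hQ.2 _ (hγ Q hQ.1)
  · change Reg _
    rw [reg_iff]
    intro Q hQ hle
    have h1 : a.map (algebraMap (PA k n) B) ≤ Q.map ρ := by
      rw [← Ideal.map_comap_of_surjective ρ hρ (a.map _)]
      exact Ideal.map_mono hle
    by_cases hQP : Q = RingHom.ker ρ
    · rw [hQP, (Ideal.map_eq_bot_iff_le_ker ρ).2 le_rfl, le_bot_iff,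
        Ideal.map_eq_bot_iff_of_injective emb.inj] at h1
      exact ha h1
    · have h2 : RingHom.ker ρ ≤ Q := (Ideal.comap_mono bot_le).trans hle
      obtain ⟨f, hf, hf'⟩ := h (z Q) (Finset.mem_image_of_mem _
        (Finset.mem_filter.2 ⟨(hT Q).2 ⟨hQ, hQP⟩, h2⟩))
      exact hf' (hz Q ((hT Q).2 ⟨hQ, hQP⟩) h2 f (h1 (Ideal.mem_map_of_mem _ hf)))

variable {m : Model R D} {ρ : R →+* B} {st : Setup k n B D}

omit [IsAlgClosed k] [IsNoetherianRing R] [IsDomain B] [Algebra.IsIntegral (PA k n) B]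
  [Algebra.FiniteType k B] [IsDomain D] in
lemma Comes.not_le (hc : Comes m ρ st) (x : B →ₐ[k] k)
    (hx : MvPolynomial.eval (pt n x) st.γ ≠ 0) {Q : Ideal R} (hQ : Q ∈ associatedPrimes R R)
    (hQ' : Q ≠ RingHom.ker ρ) : ¬ Q ≤ (RingHom.ker x).comap ρ := fun h => hx (by
  rw [← map_algebraMap_eq_eval]
  exact Ideal.map_le_iff_le_comap.2 h (hc.γ Q hQ hQ'))

omit [IsAlgClosed k] [IsDomain B] [Algebra.IsIntegral (PA k n) B] [Algebra.FiniteType k B]
  [IsDomain D] in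
/-- The other associated primes are maximal. -/
theorem Comes.isMaximal [IsJacobsonRing R] (hc : Comes m ρ st) {δ : D} (hδ : δ ≠ 0)
    (h : ∀ M : Ideal D, M.IsMaximal → δ ∉ M → ∃ x : B →ₐ[k] k,
      MvPolynomial.eval (pt n x) st.γ ≠ 0 ∧ M = st.sh.Φ (RingHom.ker x))
    {Q : Ideal R} (hQ : Q ∈ associatedPrimes R R) (hQ' : Q ≠ RingHom.ker ρ) : Q.IsMaximal := by
  classical
  by_contra hmax
  have hp := hQ.isPrime
  let T : Finset (Ideal R) := (associatedPrimes.finite R R).toFinset.filter Ideal.IsMaximal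
  have hI := (ModelAux.Iof_spec m hδ).1
  have h1 : ¬ ModelAux.Iof m δ * ∏ M ∈ T, M ≤ Q := by
    rw [hp.mul_le, hp.prod_le]
    rintro (h1 | ⟨M, hM, h1⟩)
    · exact (reg_iff _).1 hI Q hQ h1
    · have h2 := (Finset.mem_filter.1 hM).2
      exact hmax (h2.eq_of_le hp.ne_top h1 ▸ h2)
  have hj : Q.jacobson = Q := (isJacobsonRing_iff_prime_eq.1 inferInstance) Q hp
  rw [← hj, Ideal.jacobson, le_sInf_iff] at h1
  push Not at h1
  obtain ⟨M, ⟨hQM, hM⟩, hM'⟩ := h1
  have h2 : Reg M := (reg_iff _).2 fun Q' hQ1 hle => hM' (Ideal.mul_le_right.trans (by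
    have h3 : M ∈ T := by
      simp only [T, Finset.mem_filter, Set.Finite.mem_toFinset]
      exact ⟨hM.eq_of_le hQ1.isPrime.ne_top hle ▸ hQ1, hM⟩
    exact Ideal.prod_le_inf.trans (Finset.inf_le (f := id) h3)))
  obtain ⟨x, hx, e⟩ := h (m.F M) (ModelAux.isMaximal_map m hM h2)
    (fun h3 => hM' (Ideal.mul_le_left.trans ((ModelAux.mem_iff m hδ h2).1 h3)))
  rw [hc.Φ] at e
  exact hc.not_le x hx hQ hQ' (m.inj h2 ((hc.ok _).1 (Setup.ok_ker x hx)) e ▸ hQM)

omit [IsDomain D] in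
/-- There are no embedded points. -/
theorem Comes.not_embedded (hc : Comes m ρ st)
    (h : ∀ (L : Ideal B) (_ : L.IsPrime) (f : PA k n), f ≠ 0 → algebraMap (PA k n) B f ∈ L →
      algebraMap (PA k n) B st.γ ∉ L → ∃ δ : D, δ ≠ 0 ∧ st.sh.I δ ≤ L)
    {Q : Ideal R} (hQ : Q ∈ associatedPrimes R R) (hmax : Q.IsMaximal) :
    ¬ RingHom.ker ρ ≤ Q := by
  intro hle
  have hp := hQ.isPrime
  have h1 := (Ideal.map_isPrime_of_surjective hc.surj hle).ne_top
  obtain ⟨M, hM, hQM⟩ := Ideal.exists_le_maximal _ h1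
  obtain ⟨x, rfl⟩ := exists_point (k := k) M
  have h2 : Q = (RingHom.ker x).comap ρ :=
    hmax.eq_of_le (Ideal.comap_ne_top _ hM.ne_top) (Ideal.map_le_iff_le_comap.1 hQM)
  obtain ⟨p, hp'⟩ := exists_eval_ne_zero st.γ_ne
  have := lid_isPrime (pt n x) (p - pt n x)
  obtain ⟨L, hL, hLx, hLp⟩ := exists_prime_over_le st.emb.inj x (lid (pt n x) (p - pt n x))
    (lid_le_mx' _ _)
  obtain ⟨f, hf, hf0⟩ := Submodule.exists_mem_ne_zero_of_ne_bot
    (lid_ne_bot st.hn (pt n x) (p - pt n x))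
  obtain ⟨δ, hδ, hδ'⟩ := h L hL f hf0 (by rwa [← hLp] at hf) (fun h3 => hp' (by
    have h4 := lid_le_mx _ _ 1 (hLp ▸ h3 : st.γ ∈ lid (pt n x) (p - pt n x))
    rwa [one_smul, add_sub_cancel] at h4))
  rw [hc.I] at hδ'
  exact (reg_iff _).1 (ModelAux.Iof_spec m hδ).1 Q hQ
    (h2 ▸ Ideal.map_le_iff_le_comap.1 (hδ'.trans hLx))

omit [IsAlgClosed k] [IsDomain B] [Algebra.IsIntegral (PA k n) B] [Algebra.FiniteType k B]
  [IsDomain D] in
lemma Comes.exists_U (hc : Comes m ρ st) (x : B →ₐ[k] k)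
    (hx : MvPolynomial.eval (pt n x) st.γ ≠ 0) : ∃ U, U ∉ (RingHom.ker x).comap ρ ∧
      ∀ e ∈ RingHom.ker ρ, ∀ Q ∈ associatedPrimes R R, U * e ∈ Q := by
  classical
  have := (ker_isMaximal x).isPrime
  let T : Finset (Ideal R) := (associatedPrimes.finite R R).toFinset.erase (RingHom.ker ρ)
  have h1 : ¬ ∏ Q ∈ T, Q ≤ (RingHom.ker x).comap ρ := by
    rw [(Ideal.comap_isPrime ρ _).prod_le]
    rintro ⟨Q, hQ, h⟩
    simp only [T, Finset.mem_erase, Set.Finite.mem_toFinset] at hQ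
    exact hc.not_le x hx hQ.2 hQ.1 h
  obtain ⟨U, hU, hU'⟩ := Set.not_subset.1 h1
  refine ⟨U, hU', fun e he Q hQ => ?_⟩
  by_cases h : Q = RingHom.ker ρ
  · exact h ▸ Ideal.mul_mem_left _ _ he
  · refine Ideal.mul_mem_right _ _ ((Ideal.prod_le_inf.trans (Finset.inf_le (f := id) ?_)) hU)
    simp [T, h, hQ]

omit [Algebra.FiniteType k B] in
/-- In positive characteristic the constants lie in the localisations at good points. -/
theorem Comes.const_loc_p (hc : Comes m ρ st) (hP : RingHom.ker ρ ∈ minimalPrimes R) (p : ℕ)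
    [Fact p.Prime] [CharP R p] {Ω : Type u} [Field Ω] [Algebra k Ω] (θ : D →+* Ω)
    (hθ : Function.Injective θ) (hconst : ∀ α : k, algebraMap k Ω α ∈ fracField θ)
    (hint : ∀ α : k, θ.IsIntegralElem (algebraMap k Ω α)) (x : B →ₐ[k] k)
    (hx : MvPolynomial.eval (pt n x) st.γ ≠ 0) (α : k) :
    ∃ a b : D, b ∉ st.sh.Φ (RingHom.ker x) ∧ algebraMap k Ω α * θ b = θ a := by
  have hM : ((RingHom.ker x).comap ρ).IsMaximal := by
    have := ker_isMaximal x
    exact Ideal.comap_isMaximal_of_surjective ρ hc.surj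
  have hp : (RingHom.ker ρ).IsPrime := hP.1.1
  have hreg := (hc.ok _).1 (Setup.ok_ker x hx)
  obtain ⟨U₀, hU₀, hU⟩ := hc.exists_U x hx
  obtain ⟨j, hj⟩ := frob_loc m p ((RingHom.ker x).comap ρ) hreg (RingHom.ker ρ)
    (Ideal.comap_mono bot_le) (fun ⟨s, hs, hs'⟩ =>
      Set.disjoint_left.1 (Ideal.disjoint_nonZeroDivisors_of_mem_minimalPrimes hP) hs hs') U₀ hU₀
    (fun e he => isNilpotent_of_ass (hU e he)) (fun s t U r ht hUM h => by
      have h1 := Ideal.mem_map_of_mem ρ h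
      rw [Ideal.map_mul, Ideal.map_pow, Ideal.map_span, Ideal.map_span, Set.image_singleton,
        Set.image_pair, map_mul, map_pow] at h1
      obtain ⟨U', C, hU', e⟩ := st.emb.normal_at x (Setup.Δ_ne hx) ht hUM h1
      obtain ⟨U', rfl⟩ := hc.surj U'
      obtain ⟨C, rfl⟩ := hc.surj C
      exact ⟨U', C, hU', by rw [RingHom.mem_ker, map_sub, map_mul, map_mul, e, sub_self]⟩)
  rw [hc.Φ]
  by_cases hα : α = 0
  · exact ⟨0, 1, (Ideal.ne_top_iff_one _).1 (ModelAux.isMaximal_map m hM hreg).ne_top,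
      by simp [hα]⟩
  obtain ⟨β, rfl⟩ := IsAlgClosed.exists_pow_nat_eq α (pow_pos (Fact.out : p.Prime).pos j)
  obtain ⟨a, b, hb, e⟩ := (mem_fracField θ _).1 (hconst β)
  have hb0 : b ≠ 0 := fun h => hb (by simp [h])
  have ha0 : a ≠ 0 := by
    rintro rfl
    have h0 : β = 0 := by simpa using e
    exact hα (by rw [h0, zero_pow (pow_pos (Fact.out : p.Prime).pos j).ne'])
  obtain ⟨r, hr⟩ := mem_of_isIntegralElem θ hθ hb0 (e ▸ hint β)
  obtain ⟨w, hw, c, hc'⟩ := hj a b r ha0 hb0 hr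
  refine ⟨c, w, hw, ?_⟩
  have h2 := congrArg θ hc'
  rw [map_mul, map_mul, map_pow, map_pow] at h2
  rw [map_pow, e, div_pow, div_mul_eq_mul_div, div_eq_iff (pow_ne_zero _ hb)]
  linear_combination h2

end Pool.Agent.MP_f1fec5_al.Aff

end

section

namespace Pool.Agent.MP_f1fec5_al.Aff

open Polynomial

universe u v

theorem prod_of_model {k R : Type u} [Field k] [IsAlgClosed k] [CommRing R] [Nontrivial R]
    [Algebra k R] [Algebra.FiniteType k R]
    (hfin : Algebra.trdeg (⊥ : Subfield k) k < Cardinal.aleph0) (hdim : ¬ ringKrullDim R ≤ 1)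
    {D : Type v} [CommRing D] [IsDomain D] (m : Model R D) :
    ∃ (B C : Type u) (_ : CommRing B) (_ : IsDomain B) (_ : CommRing C) (_ : IsArtinianRing C),
      Nonempty (R ≃+* B × C) := by
  have : IsNoetherianRing R := Algebra.FiniteType.isNoetherianRing k R
  have : IsJacobsonRing R := isJacobsonRing_of_finiteType (A := k)
  have : IsNoetherianRing D := m.isNoetherianRing
  obtain ⟨P, hP, hPdim⟩ := exists_minimalPrime_of_dim hdim
  have hPp : P.IsPrime := hP.1.1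
  obtain ⟨n, _, _, _, -, ⟨emb⟩⟩ := exists_emb k (R ⧸ P)
  have hn : 2 ≤ n := two_le_of_dim (k := k) hPdim
  have hker : RingHom.ker (Ideal.Quotient.mk P) = P := Ideal.mk_ker
  obtain ⟨st, hc⟩ := exists_setup m (Ideal.Quotient.mk P) Ideal.Quotient.mk_surjective
    (by rwa [hker]) emb hn
  obtain ⟨rd, hγ, hχ, hχ'⟩ := st.exists_RD
  obtain ⟨th⟩ := nonempty_TH hfin rd
  have halg := st.halg hfin (fun J hJ => by
    rw [hc.Φ]
    exact m.ne_bot ((hc.ok J).1 hJ)) rd hγ hχ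
  have halg0 := halg th.θ0 th.θ0_inj
  have hconst := th.const_mem hfin halg0
  have hint := const_integral m th.θ0 th.θ0_inj hconst
  refine exists_prod_of_ass P (fun Q hQ hQP => ?_) (fun e he => ?_)
  · obtain ⟨δ, hδ, hδ'⟩ := th.exists_delta_max halg0 hint
    have h1 : Q.IsMaximal := hc.isMaximal hδ (fun M hM h => by
      obtain ⟨v, i, hv, rfl⟩ := hδ' M hM h
      obtain ⟨x, rfl, hx⟩ := hχ' v i (hγ ▸ hv)
      exact ⟨x, hγ ▸ hv, hx⟩) hQ (by rwa [hker])
    refine ⟨h1, ?_⟩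
    rw [← hker]
    exact hc.not_embedded (fun L _ f h1 h2 h3 => st.exists_I_le rd hγ hχ th halg L h1 h2 h3) hQ h1
  · have key : ∃ d₀ : D, d₀ ≠ 0 ∧ ∀ x : (R ⧸ P) →ₐ[k] k, MvPolynomial.eval (pt n x) st.γ ≠ 0 →
        d₀ ∉ st.sh.Φ (RingHom.ker x) → ∀ α : k, ∃ a b : D, b ∉ st.sh.Φ (RingHom.ker x) ∧
          algebraMap k (Om k n) α * th.θ0 b = th.θ0 a := by
      obtain ⟨p, hp⟩ := CharP.exists k
      rcases CharP.char_is_prime_or_zero k p with h | rfl
      · have := Fact.mk h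
        have : CharP R p := charP_of_injective_algebraMap (algebraMap k R).injective p
        exact ⟨1, one_ne_zero, fun x hx _ α => hc.const_loc_p (by rwa [hker]) p th.θ0 th.θ0_inj
          hconst hint x hx α⟩
      · have := CharP.charP_to_charZero k
        obtain ⟨d₀, h0, h1⟩ := th.const_loc hfin halg0 hconst hint
        exact ⟨d₀, h0, fun x hx h => h1 _
          (st.sh.isMaximal (Setup.ok_ker x hx) (ker_isMaximal x)) h⟩
    obtain ⟨d₀, hd₀, h0⟩ := key
    obtain ⟨d₁, hd₁, h1⟩ := th.normal halg0 hconst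
    obtain ⟨v, hv⟩ := exists_eval_ne_zero
      (mul_ne_zero rd.γ_ne (rd.N_ne _ (mul_ne_zero hd₀ hd₁)))
    rw [map_mul, mul_ne_zero_iff] at hv
    obtain ⟨x, rfl, hx⟩ := hχ' v ⟨0, rd.m_pos⟩ (hγ ▸ hv.1)
    have hg : MvPolynomial.eval (pt n x) st.γ ≠ 0 := hγ ▸ hv.1
    have h2 := hv.2
    rw [rd.N_eval _ _ hv.1, Finset.prod_ne_zero_iff] at h2
    have h3 := h2 ⟨0, rd.m_pos⟩ (Finset.mem_univ _)
    rw [map_mul, mul_ne_zero_iff, Ne, Ne, ← RingHom.mem_ker, ← RingHom.mem_ker, hx] at h3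
    have hM : ((RingHom.ker x).comap (Ideal.Quotient.mk P)).IsMaximal := by
      have := ker_isMaximal x
      exact Ideal.comap_isMaximal_of_surjective _ hc.surj
    have h4 := h1 _ (st.sh.isMaximal (Setup.ok_ker x hg) (ker_isMaximal x)).isPrime h3.2
      (h0 x hg h3.1)
    rw [hc.Φ] at h4
    obtain ⟨U, hU, hU'⟩ := hc.exists_U x hg
    obtain ⟨s, hs, hs'⟩ := red_of_normal m _ ((hc.ok _).1 (Setup.ok_ker x hg)) h4 (U * e)
      (hU' e (by rwa [hker]))
    refine ⟨s * U, fun h => ?_, by rw [mul_assoc, hs']⟩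
    have h5 : P ≤ (RingHom.ker x).comap (Ideal.Quotient.mk P) :=
      hker.ge.trans (Ideal.comap_mono bot_le)
    exact (hM.isPrime.mem_or_mem (h5 h)).elim hs hU

theorem affine_iff (k R : Type u) [Field k] [IsAlgClosed k] [CommRing R] [Nontrivial R]
    [Algebra k R] [Algebra.FiniteType k R] :
    HasDomainModel.{u, max u v} R ↔
      Cardinal.aleph0 ≤ Algebra.trdeg (⊥ : Subfield k) k ∨ ringKrullDim R ≤ 1 ∨
        ∃ (B C : Type u) (_ : CommRing B) (_ : IsDomain B) (_ : CommRing C)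
          (_ : IsArtinianRing C), Nonempty (R ≃+* B × C) := by
  constructor
  · intro h
    by_cases h1 : Cardinal.aleph0 ≤ Algebra.trdeg (⊥ : Subfield k) k
    · exact Or.inl h1
    by_cases h2 : ringKrullDim R ≤ 1
    · exact Or.inr (Or.inl h2)
    obtain ⟨D, _, _, ⟨m⟩⟩ := h.exists_model
    exact Or.inr (Or.inr (prod_of_model (not_le.1 h1) h2 m))
  · intro h
    refine HasDomainModel.ulift ?_
    by_cases h1 : Cardinal.aleph0 ≤ Algebra.trdeg (⊥ : Subfield k) k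
    · exact hasDomainModel_of_trdeg h1
    rcases h with h | h | ⟨B, C, _, _, _, _, ⟨e⟩⟩
    · exact absurd h h1
    · exact hasDomainModel_of_dim (not_le.1 h1) h
    · exact hasDomainModel_of_prod e

end Pool.Agent.MP_f1fec5_al.Aff

end
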